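import Pool.Agent.Work.MP_82f4f8_an.Bd.B01

/-! Bundle of small proof modules (one section per former module). -/

section

/-! Conditional positivity of the regularised logarithmic kernel. -/

set_option autoImplicit false

noncomputable section

namespace Pool.Agent.Work.MP_82f4f8_an

open Real MeasureTheory Set

/-- regularised logarithmic kernel -/
def kap (δ : ℝ) (x : ℂ) : ℝ := -(1 / 2) * Real.log (‖x‖ ^ 2 + δ ^ 2)

namespace KapAux

variable {Ω : Type*} [MeasurableSpace Ω] (μ : Measure Ω)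
    {n : ℕ} (a : Fin n → ℂ) (A : Ω → ℂ)

/-- the quadratic form -/
def QQ (k : ℂ → ℝ) : ℝ :=
  (∑ j, ∑ l, k (a j - a l)) - 2 * n * (∑ j, ∫ s, k (a j - A s) ∂μ)
    + (n : ℝ) ^ 2 * ∫ s, ∫ s', k (A s - A s') ∂μ ∂μ

variable {μ a A}

lemma QQ_nonneg [IsProbabilityMeasure μ] {P : Type*} [MeasurableSpace P] (ν : Measure P)
    [SFinite ν]
    (κ : P → ℂ → ℝ) (hm : Measurable (Function.uncurry κ)) {C : P → ℝ} {r : ℝ}
    (hC : Integrable C ν)
    (hbd : ∀ p w, ‖w‖ ≤ r → |κ p w| ≤ C p) (ha : ∀ j l, ‖a j - a l‖ ≤ r)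
    (haA : ∀ j s, ‖a j - A s‖ ≤ r) (hAA : ∀ s s', ‖A s - A s'‖ ≤ r) (hA : Measurable A)
    (hpos : ∀ p, 0 ≤ QQ μ a A (κ p)) {k : ℂ → ℝ} (hk : ∀ w, ‖w‖ ≤ r → k w = ∫ p, κ p w ∂ν) :
    0 ≤ QQ μ a A k := by
  have m1 : ∀ w, Measurable fun p => κ p w := fun w =>
    hm.comp (measurable_id.prodMk measurable_const)
  have m2 : ∀ j, Measurable fun q : Ω × P => κ q.2 (a j - A q.1) := fun j =>
    hm.comp (measurable_snd.prodMk (measurable_const.sub (hA.comp measurable_fst)))
  have m3 : Measurable fun q : (P × Ω) × Ω => κ q.1.1 (A q.1.2 - A q.2) :=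
    hm.comp ((measurable_fst.comp measurable_fst).prodMk
      ((hA.comp (measurable_snd.comp measurable_fst)).sub (hA.comp measurable_snd)))
  have m3' : ∀ s, Measurable fun q : Ω × P => κ q.2 (A s - A q.1) := fun s =>
    hm.comp (measurable_snd.prodMk (measurable_const.sub (hA.comp measurable_fst)))
  have m4 : StronglyMeasurable fun q : P × Ω => ∫ s', κ q.1 (A q.2 - A s') ∂μ :=
    m3.stronglyMeasurable.integral_prod_right'
  have m5 : ∀ j, StronglyMeasurable fun p : P => ∫ s, κ p (a j - A s) ∂μ := fun j =>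
    ((m2 j).comp measurable_swap).stronglyMeasurable.integral_prod_right'
  have m6 : StronglyMeasurable fun p : P => ∫ s, ∫ s', κ p (A s - A s') ∂μ ∂μ :=
    m4.integral_prod_right'
  have b2 : ∀ j p, |∫ s, κ p (a j - A s) ∂μ| ≤ C p := by
    intro j p
    have := norm_integral_le_of_norm_le_const (μ := μ) (f := fun s => κ p (a j - A s)) (C := C p)
      (Filter.Eventually.of_forall fun s => hbd p _ (haA j s))
    simpa using this
  have b3 : ∀ p s, |∫ s', κ p (A s - A s') ∂μ| ≤ C p := by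
    intro p s
    have := norm_integral_le_of_norm_le_const (μ := μ) (f := fun s' => κ p (A s - A s')) (C := C p)
      (Filter.Eventually.of_forall fun s' => hbd p _ (hAA s s'))
    simpa using this
  have b4 : ∀ p, |∫ s, ∫ s', κ p (A s - A s') ∂μ ∂μ| ≤ C p := by
    intro p
    have := norm_integral_le_of_norm_le_const (μ := μ) (f := fun s => ∫ s', κ p (A s - A s') ∂μ)
      (C := C p) (Filter.Eventually.of_forall fun s => b3 p s)
    simpa using this
  have i1 : ∀ j l, Integrable (fun p => κ p (a j - a l)) ν := fun j l =>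
    hC.mono' (m1 _).aestronglyMeasurable
      (Filter.Eventually.of_forall fun p => hbd p _ (ha j l))
  have i2 : ∀ j, Integrable (fun p => ∫ s, κ p (a j - A s) ∂μ) ν := fun j =>
    hC.mono' (m5 j).aestronglyMeasurable (Filter.Eventually.of_forall fun p => b2 j p)
  have i3 : Integrable (fun p => ∫ s, ∫ s', κ p (A s - A s') ∂μ ∂μ) ν :=
    hC.mono' m6.aestronglyMeasurable (Filter.Eventually.of_forall fun p => b4 p)
  have t2 : ∀ j, ∫ s, k (a j - A s) ∂μ = ∫ p, ∫ s, κ p (a j - A s) ∂μ ∂ν := by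
    intro j
    rw [← integral_integral_swap]
    · exact integral_congr_ae (Filter.Eventually.of_forall fun s => hk _ (haA j s))
    · exact (hC.comp_snd μ).mono' (m2 j).aestronglyMeasurable
        (Filter.Eventually.of_forall fun q => hbd q.2 _ (haA j q.1))
  have t3 : ∫ s, ∫ s', k (A s - A s') ∂μ ∂μ = ∫ p, ∫ s, ∫ s', κ p (A s - A s') ∂μ ∂μ ∂ν := by
    rw [integral_integral_swap (f := fun (p : P) (s : Ω) => ∫ s', κ p (A s - A s') ∂μ)]
    · refine integral_congr_ae (Filter.Eventually.of_forall fun s => ?_)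
      simp only
      rw [← integral_integral_swap]
      · exact integral_congr_ae (Filter.Eventually.of_forall fun s' => hk _ (hAA s s'))
      · exact (hC.comp_snd μ).mono' (m3' s).aestronglyMeasurable
          (Filter.Eventually.of_forall fun q => hbd q.2 _ (hAA s q.1))
    · exact (hC.comp_fst μ).mono' m4.aestronglyMeasurable
        (Filter.Eventually.of_forall fun q => b3 q.1 q.2)
  have key : QQ μ a A k = ∫ p, QQ μ a A (κ p) ∂ν := by
    unfold QQ
    rw [integral_add, integral_sub, integral_const_mul, integral_const_mul, integral_finsetSum,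
      integral_finsetSum, t3]
    · congr 2
      · refine Finset.sum_congr rfl fun j _ => ?_
        rw [integral_finsetSum _ (fun l _ => i1 j l)]
        exact Finset.sum_congr rfl fun l _ => hk _ (ha j l)
      · congr 1
        exact Finset.sum_congr rfl fun j _ => t2 j
    · exact fun j _ => i2 j
    · exact fun j _ => integrable_finsetSum _ fun l _ => i1 j l
    · exact integrable_finsetSum _ fun j _ => integrable_finsetSum _ fun l _ => i1 j l
    · exact (integrable_finsetSum _ fun j _ => i2 j).const_mul _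
    · exact (integrable_finsetSum _ fun j _ => integrable_finsetSum _ fun l _ => i1 j l).sub
        ((integrable_finsetSum _ fun j _ => i2 j).const_mul _)
    · exact i3.const_mul _
  rw [key]
  exact integral_nonneg hpos

/-- the phase -/
def ph (z : ℝ × ℝ) (w : ℂ) : ℝ := z.1 * w.re + z.2 * w.im

lemma ph_sub (z : ℝ × ℝ) (w w' : ℂ) : ph z (w - w') = ph z w - ph z w' := by
  unfold ph
  simp only [Complex.sub_re, Complex.sub_im]
  ring

lemma QQ_cos [IsProbabilityMeasure μ] (hA : Measurable A) (z : ℝ × ℝ) :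
    0 ≤ QQ μ a A (fun w => Real.cos (ph z w)) := by
  have hmA : Measurable fun s => ph z (A s) := by
    unfold ph
    exact ((Complex.measurable_re.comp hA).const_mul _).add
      ((Complex.measurable_im.comp hA).const_mul _)
  have ic : Integrable (fun s => Real.cos (ph z (A s))) μ :=
    Integrable.of_bound (Real.measurable_cos.comp hmA).aestronglyMeasurable 1
      (Filter.Eventually.of_forall fun s => Real.abs_cos_le_one _)
  have is : Integrable (fun s => Real.sin (ph z (A s))) μ :=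
    Integrable.of_bound (Real.measurable_sin.comp hmA).aestronglyMeasurable 1
      (Filter.Eventually.of_forall fun s => Real.abs_sin_le_one _)
  set c := ∫ s, Real.cos (ph z (A s)) ∂μ with hc
  set d := ∫ s, Real.sin (ph z (A s)) ∂μ with hd
  have t2 : ∀ x : ℂ, ∫ s, Real.cos (ph z (x - A s)) ∂μ =
      Real.cos (ph z x) * c + Real.sin (ph z x) * d := by
    intro x
    rw [hc, hd, ← integral_const_mul, ← integral_const_mul, ← integral_add (ic.const_mul _)
      (is.const_mul _)]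
    refine integral_congr_ae (Filter.Eventually.of_forall fun s => ?_)
    simp only
    rw [ph_sub, Real.cos_sub]
  have t3 : ∫ s, ∫ s', Real.cos (ph z (A s - A s')) ∂μ ∂μ = c ^ 2 + d ^ 2 := by
    simp_rw [t2]
    rw [integral_add (ic.mul_const _) (is.mul_const _), integral_mul_const, integral_mul_const]
    ring
  unfold QQ
  rw [t3]
  simp_rw [t2]
  have t1 : ∑ j, ∑ l, Real.cos (ph z (a j - a l)) =
      (∑ j, Real.cos (ph z (a j))) ^ 2 + (∑ j, Real.sin (ph z (a j))) ^ 2 := by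
    simp_rw [ph_sub, Real.cos_sub, Finset.sum_add_distrib, ← Finset.mul_sum, ← Finset.sum_mul]
    ring
  rw [t1, Finset.sum_add_distrib, ← Finset.sum_mul, ← Finset.sum_mul]
  have : (∑ j, Real.cos (ph z (a j))) ^ 2 + (∑ j, Real.sin (ph z (a j))) ^ 2 -
      2 * n * ((∑ j, Real.cos (ph z (a j))) * c + (∑ j, Real.sin (ph z (a j))) * d) +
      (n : ℝ) ^ 2 * (c ^ 2 + d ^ 2) = ((∑ j, Real.cos (ph z (a j))) - n * c) ^ 2 +
      ((∑ j, Real.sin (ph z (a j))) - n * d) ^ 2 := by ring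
  rw [this]
  positivity

/-- The Gaussian as a mixture of cosines. -/
lemma gauss_eq (v : NNReal) (w : ℂ) :
    Real.exp (-((v : ℝ) / 2 * ‖w‖ ^ 2)) =
      ∫ z : ℝ × ℝ, Real.cos (ph z w) ∂((ProbabilityTheory.gaussianReal 0 v).prod
        (ProbabilityTheory.gaussianReal 0 v)) := by
  have h1 : ∀ t : ℝ, ∫ x, Complex.exp (t * x * Complex.I) ∂(ProbabilityTheory.gaussianReal 0 v) =
      Complex.exp (-((v : ℝ) / 2 * t ^ 2)) := by
    intro t
    have := ProbabilityTheory.charFun_gaussianReal (μ := 0) (v := v) t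
    rw [charFun_apply_real] at this
    rw [this]
    congr 1
    push_cast
    ring
  have h2 : ∫ z : ℝ × ℝ, Complex.exp (ph z w * Complex.I)
        ∂((ProbabilityTheory.gaussianReal 0 v).prod (ProbabilityTheory.gaussianReal 0 v)) =
      Complex.exp (-((v : ℝ) / 2 * ‖w‖ ^ 2)) := by
    have : ∀ z : ℝ × ℝ, Complex.exp (ph z w * Complex.I) =
        Complex.exp (w.re * z.1 * Complex.I) * Complex.exp (w.im * z.2 * Complex.I) := by
      intro z
      rw [← Complex.exp_add]
      congr 1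
      unfold ph
      push_cast
      ring
    simp_rw [this]
    rw [integral_prod_mul (f := fun x : ℝ => Complex.exp (w.re * x * Complex.I))
      (g := fun x : ℝ => Complex.exp (w.im * x * Complex.I)), h1, h1, ← Complex.exp_add]
    congr 1
    have h3 : ((‖w‖ ^ 2 : ℝ) : ℂ) = (w.re : ℂ) ^ 2 + (w.im : ℂ) ^ 2 := by
      rw [Complex.sq_norm, Complex.normSq_apply]
      push_cast
      ring
    have h4 : (‖w‖ : ℂ) ^ 2 = (w.re : ℂ) ^ 2 + (w.im : ℂ) ^ 2 := by
      rw [← h3]; push_cast; rfl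
    rw [h4]
    ring
  have h5 : ∀ z : ℝ × ℝ, Real.cos (ph z w) = (Complex.exp (ph z w * Complex.I)).re := by
    intro z
    rw [Complex.exp_ofReal_mul_I_re]
  simp_rw [h5]
  have h6 : Integrable (fun z : ℝ × ℝ => Complex.exp (ph z w * Complex.I))
      ((ProbabilityTheory.gaussianReal 0 v).prod (ProbabilityTheory.gaussianReal 0 v)) := by
    refine Integrable.of_bound (Measurable.aestronglyMeasurable ?_) 1
      (Filter.Eventually.of_forall fun z => by rw [Complex.norm_exp_ofReal_mul_I])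
    unfold ph
    fun_prop
  have h7 := integral_re h6
  simp only [RCLike.re_to_complex] at h7
  rw [h7, h2]
  have : Complex.exp (-((v : ℝ) / 2 * ‖w‖ ^ 2)) =
      ((Real.exp (-((v : ℝ) / 2 * ‖w‖ ^ 2)) : ℝ) : ℂ) := by
    push_cast
    rfl
  rw [this, Complex.ofReal_re]

lemma QQ_gauss [IsProbabilityMeasure μ] (hA : Measurable A) {r : ℝ}
    (ha : ∀ j l, ‖a j - a l‖ ≤ r)
    (haA : ∀ j s, ‖a j - A s‖ ≤ r) (hAA : ∀ s s', ‖A s - A s'‖ ≤ r) (u : ℝ)
    (hu : 0 ≤ u) : 0 ≤ QQ μ a A (fun w => Real.exp (-(u * ‖w‖ ^ 2))) := by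
  refine QQ_nonneg (r := r) (C := fun _ => 1) ((ProbabilityTheory.gaussianReal 0 (Real.toNNReal (2 * u))).prod
    (ProbabilityTheory.gaussianReal 0 (Real.toNNReal (2 * u)))) (fun z w => Real.cos (ph z w)) ?_
    (integrable_const _) (fun z w _ => Real.abs_cos_le_one _) ha haA hAA hA (fun z => QQ_cos hA z)
    ?_
  · unfold ph Function.uncurry
    fun_prop
  · intro w _
    rw [← gauss_eq]
    congr 3
    rw [Real.coe_toNNReal _ (by positivity)]
    ring

lemma QQ_const [IsProbabilityMeasure μ] (c : ℝ) : QQ μ a A (fun _ => c) = 0 := by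
  unfold QQ
  simp
  ring

lemma abs_exp_sub (x y m : ℝ) (hx : m ≤ x) (hy : m ≤ y) :
    |Real.exp (-x) - Real.exp (-y)| ≤ |x - y| * Real.exp (-m) := by
  wlog h : x ≤ y generalizing x y with H
  · rw [abs_sub_comm, abs_sub_comm x y]
    exact H y x hy hx (le_of_not_ge h)
  have h1 : Real.exp (-y) ≤ Real.exp (-x) := Real.exp_le_exp.2 (by linarith)
  rw [abs_of_nonneg (by linarith), abs_sub_comm, abs_of_nonneg (by linarith : (0:ℝ) ≤ y - x)]
  have h2 : Real.exp (-y) = Real.exp (-x) * Real.exp (-(y - x)) := by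
    rw [← Real.exp_add]; congr 1; ring
  have h3 : 1 - (y - x) ≤ Real.exp (-(y - x)) := by
    have := Real.add_one_le_exp (-(y - x)); linarith
  have h4 : 0 < Real.exp (-x) := Real.exp_pos _
  have h5 : Real.exp (-x) - Real.exp (-y) ≤ (y - x) * Real.exp (-x) := by
    rw [h2]; nlinarith
  refine h5.trans (mul_le_mul_of_nonneg_left (Real.exp_le_exp.2 (by linarith)) (by linarith))

/-- Frullani kernel -/
def kf (δ : ℝ) (u : ℝ) (w : ℂ) : ℝ :=
  (1 / 2) * (u⁻¹ * (Real.exp (-((‖w‖ ^ 2 + δ ^ 2) * u)) - Real.exp (-(1 * u))))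

lemma kf_bound {δ r : ℝ} (u : ℝ) (hu : 0 < u) (w : ℂ) (hw : ‖w‖ ≤ r) :
    |kf δ u w| ≤ (r ^ 2 + δ ^ 2 + 1) * Real.exp (-(min (δ ^ 2) 1 * u)) := by
  have hr : 0 ≤ r := (norm_nonneg _).trans hw
  unfold kf
  have h1 := abs_exp_sub ((‖w‖ ^ 2 + δ ^ 2) * u) (1 * u) (min (δ ^ 2) 1 * u)
    (mul_le_mul_of_nonneg_right (le_trans (min_le_left _ _) (by nlinarith [norm_nonneg w])) hu.le)
    (mul_le_mul_of_nonneg_right (min_le_right _ _) hu.le)
  rw [abs_mul, abs_mul, abs_of_pos (by norm_num : (0:ℝ) < 1 / 2), abs_of_pos (inv_pos.2 hu)]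
  have h2 : |(‖w‖ ^ 2 + δ ^ 2) * u - 1 * u| ≤ (r ^ 2 + δ ^ 2 + 1) * u := by
    rw [← sub_mul, abs_mul, abs_of_pos hu]
    refine mul_le_mul_of_nonneg_right ?_ hu.le
    have : ‖w‖ ^ 2 ≤ r ^ 2 := by gcongr
    rw [abs_le]
    constructor <;> nlinarith [norm_nonneg w, sq_nonneg ‖w‖, sq_nonneg δ]
  have h3 : u⁻¹ * |Real.exp (-((‖w‖ ^ 2 + δ ^ 2) * u)) - Real.exp (-(1 * u))| ≤
      (r ^ 2 + δ ^ 2 + 1) * Real.exp (-(min (δ ^ 2) 1 * u)) := by
    calc u⁻¹ * |Real.exp (-((‖w‖ ^ 2 + δ ^ 2) * u)) - Real.exp (-(1 * u))|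
        ≤ u⁻¹ * (((r ^ 2 + δ ^ 2 + 1) * u) * Real.exp (-(min (δ ^ 2) 1 * u))) := by
          refine mul_le_mul_of_nonneg_left (h1.trans ?_) (inv_nonneg.2 hu.le)
          exact mul_le_mul_of_nonneg_right h2 (Real.exp_pos _).le
      _ = (r ^ 2 + δ ^ 2 + 1) * Real.exp (-(min (δ ^ 2) 1 * u)) := by
          field_simp
  have h4 : 0 ≤ (r ^ 2 + δ ^ 2 + 1) * Real.exp (-(min (δ ^ 2) 1 * u)) := by positivity
  linarith

lemma kf_meas (δ : ℝ) : Measurable (Function.uncurry (kf δ)) := by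
  unfold kf Function.uncurry
  fun_prop

lemma dom_int {δ : ℝ} (hδ : 0 < δ) (K : ℝ) :
    IntegrableOn (fun u => K * Real.exp (-(min (δ ^ 2) 1 * u))) (Ioi 0) := by
  have hc : 0 < min (δ ^ 2) 1 := lt_min (by positivity) one_pos
  have := (exp_neg_integrableOn_Ioi 0 hc).const_mul K
  simp only [neg_mul] at this
  exact this

lemma kap_eq {δ : ℝ} (hδ : 0 < δ) (w : ℂ) :
    kap δ w = ∫ u in Ioi (0:ℝ), kf δ u w := by
  have hB : 0 < ‖w‖ ^ 2 + δ ^ 2 := by positivity
  have hF := Frullani.integral_Ioi_eq (f := fun x : ℝ => Real.exp (-x)) (a := ‖w‖ ^ 2 + δ ^ 2)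
    (b := 1) (L := 1) (R := 0) ?_ hB one_pos ?_ ?_ ?_
  · unfold kap kf
    rw [integral_const_mul]
    simp only [smul_eq_mul] at hF
    rw [hF, one_div, one_div, Real.log_inv]
    ring
  · exact (by fun_prop : Continuous fun x : ℝ => Real.exp (-x)).locallyIntegrable.locallyIntegrableOn _
  · have : ContinuousAt (fun x : ℝ => Real.exp (-x)) 0 := by fun_prop
    have h := this.tendsto
    simp only [neg_zero, Real.exp_zero] at h
    exact h.mono_left nhdsWithin_le_nhds
  · exact Real.tendsto_exp_neg_atTop_nhds_zero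
  · have h1 := dom_int hδ (2 * (‖w‖ ^ 2 + δ ^ 2 + 1))
    refine Integrable.mono' h1 ?_ ?_
    · refine Measurable.aestronglyMeasurable ?_
      fun_prop
    · filter_upwards [ae_restrict_mem measurableSet_Ioi] with u hu
      have h2 := kf_bound (δ := δ) u hu w le_rfl
      unfold kf at h2
      rw [abs_mul, abs_of_pos (by norm_num : (0:ℝ) < 1 / 2)] at h2
      rw [Real.norm_eq_abs, smul_eq_mul]
      linarith

lemma QQ_kf [IsProbabilityMeasure μ] (hA : Measurable A) {r δ : ℝ}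
    (ha : ∀ j l, ‖a j - a l‖ ≤ r)
    (haA : ∀ j s, ‖a j - A s‖ ≤ r) (hAA : ∀ s s', ‖A s - A s'‖ ≤ r) (u : ℝ)
    (hu : 0 < u) : 0 ≤ QQ μ a A (kf δ u) := by
  have h1 := QQ_gauss (μ := μ) hA ha haA hAA u hu.le
  have h2 : QQ μ a A (kf δ u) = (1 / 2) * (u⁻¹ * (Real.exp (-(δ ^ 2 * u)) *
      QQ μ a A (fun w => Real.exp (-(u * ‖w‖ ^ 2))) - Real.exp (-(1 * u)) * QQ μ a A (fun _ => 1))) := by
    have hi2 : ∀ x : ℂ, Integrable (fun s => Real.exp (-(u * ‖x - A s‖ ^ 2))) μ := by
      intro x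
      refine Integrable.of_bound (Measurable.aestronglyMeasurable (by fun_prop)) 1
        (Filter.Eventually.of_forall fun s => ?_)
      rw [Real.norm_eq_abs, Real.abs_exp]
      exact Real.exp_le_one_iff.2 (by have : 0 ≤ u * ‖x - A s‖ ^ 2 := by positivity
                                      linarith)
    have hi3 : Integrable (fun s => ∫ s', Real.exp (-(u * ‖A s - A s'‖ ^ 2)) ∂μ) μ := by
      refine Integrable.of_bound (StronglyMeasurable.aestronglyMeasurable ?_) 1
        (Filter.Eventually.of_forall fun s => ?_)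
      · have : Measurable fun q : Ω × Ω => Real.exp (-(u * ‖A q.1 - A q.2‖ ^ 2)) := by fun_prop
        exact this.stronglyMeasurable.integral_prod_right'
      · have := norm_integral_le_of_norm_le_const (μ := μ)
          (f := fun s' => Real.exp (-(u * ‖A s - A s'‖ ^ 2)))
          (C := 1) (Filter.Eventually.of_forall fun s' => by
            rw [Real.norm_eq_abs, Real.abs_exp]
            exact Real.exp_le_one_iff.2 (by have : 0 ≤ u * ‖A s - A s'‖ ^ 2 := by positivity
                                            linarith))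
        simpa using this
    have hk : ∀ w, kf δ u w = (1 / 2) * u⁻¹ * Real.exp (-(δ ^ 2 * u)) *
        Real.exp (-(u * ‖w‖ ^ 2)) - (1 / 2) * u⁻¹ * Real.exp (-(1 * u)) := by
      intro w
      unfold kf
      have : Real.exp (-((‖w‖ ^ 2 + δ ^ 2) * u)) = Real.exp (-(δ ^ 2 * u)) *
        Real.exp (-(u * ‖w‖ ^ 2)) := by
        rw [← Real.exp_add]; congr 1; ring
      rw [this]
      ring
    unfold QQ
    simp_rw [hk]
    have e2 : ∀ x : ℂ, ∫ s, ((1 / 2) * u⁻¹ * Real.exp (-(δ ^ 2 * u)) *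
        Real.exp (-(u * ‖x - A s‖ ^ 2)) - (1 / 2) * u⁻¹ * Real.exp (-(1 * u))) ∂μ =
        (1 / 2) * u⁻¹ * Real.exp (-(δ ^ 2 * u)) * (∫ s, Real.exp (-(u * ‖x - A s‖ ^ 2)) ∂μ) -
        (1 / 2) * u⁻¹ * Real.exp (-(1 * u)) := by
      intro x
      rw [integral_sub ((hi2 x).const_mul _) (integrable_const _), integral_const_mul]
      simp
    have e3 : ∫ s, ((1 / 2) * u⁻¹ * Real.exp (-(δ ^ 2 * u)) * (∫ s', Real.exp (-(u * ‖A s - A s'‖ ^ 2)) ∂μ) -
        (1 / 2) * u⁻¹ * Real.exp (-(1 * u))) ∂μ =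
        (1 / 2) * u⁻¹ * Real.exp (-(δ ^ 2 * u)) * (∫ s, ∫ s', Real.exp (-(u * ‖A s - A s'‖ ^ 2)) ∂μ ∂μ) -
        (1 / 2) * u⁻¹ * Real.exp (-(1 * u)) := by
      rw [integral_sub (hi3.const_mul _) (integrable_const _), integral_const_mul]
      simp
    simp_rw [e2]
    rw [e3]
    simp only [Finset.sum_sub_distrib, ← Finset.mul_sum, Finset.sum_const, Finset.card_univ,
      Fintype.card_fin, nsmul_eq_mul, integral_const, probReal_univ, smul_eq_mul, mul_one]
    ring
  rw [h2, QQ_const]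
  have : 0 ≤ Real.exp (-(δ ^ 2 * u)) * QQ μ a A (fun w => Real.exp (-(u * ‖w‖ ^ 2))) :=
    mul_nonneg (Real.exp_pos _).le h1
  simp only [mul_zero, sub_zero]
  positivity

end KapAux

open KapAux in
/-- The regularised logarithmic energy of a neutral signed measure is nonnegative. -/
theorem kap_pos {Ω : Type*} [MeasurableSpace Ω] (μ : Measure Ω) [IsProbabilityMeasure μ] {n : ℕ}
    (a : Fin n → ℂ) (A : Ω → ℂ) (hA : Measurable A) (hb : ∃ R, ∀ s, ‖A s‖ ≤ R) {δ : ℝ}
    (hδ : 0 < δ) :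
    0 ≤ (∑ j, ∑ k, kap δ (a j - a k)) - 2 * n * (∑ j, ∫ s, kap δ (a j - A s) ∂μ)
      + (n : ℝ) ^ 2 * ∫ s, ∫ s', kap δ (A s - A s') ∂μ ∂μ := by
  obtain ⟨R, hR⟩ := hb
  obtain ⟨M, hM⟩ : ∃ M, ∀ j, ‖a j‖ ≤ M := by
    refine ⟨∑ j, ‖a j‖, fun j => ?_⟩
    exact Finset.single_le_sum (f := fun j => ‖a j‖) (fun i _ => norm_nonneg _) (Finset.mem_univ j)
  have hr : ∀ x y : ℂ, (‖x‖ ≤ |M| + |R|) → (‖y‖ ≤ |M| + |R|) → ‖x - y‖ ≤ 2 * (|M| + |R|) := by
    intro x y hx hy
    have := norm_sub_le x y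
    linarith
  have h1 : ∀ j, ‖a j‖ ≤ |M| + |R| := fun j => by
    have := hM j; have := le_abs_self M; have := abs_nonneg R; linarith
  have h2 : ∀ s, ‖A s‖ ≤ |M| + |R| := fun j => by
    have := hR j; have := le_abs_self R; have := abs_nonneg M; linarith
  have ha : ∀ j l, ‖a j - a l‖ ≤ 2 * (|M| + |R|) := fun j l => hr _ _ (h1 _) (h1 _)
  have haA : ∀ j s, ‖a j - A s‖ ≤ 2 * (|M| + |R|) := fun j l => hr _ _ (h1 _) (h2 _)
  have hAA : ∀ s s', ‖A s - A s'‖ ≤ 2 * (|M| + |R|) := fun j l => hr _ _ (h2 _) (h2 _)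
  set r := 2 * (|M| + |R|)
  have := QQ_nonneg (μ := μ) (a := a) (A := A) (r := r)
    (C := (Ioi (0:ℝ)).indicator fun u => (r ^ 2 + δ ^ 2 + 1) * Real.exp (-(min (δ ^ 2) 1 * u)))
    (volume.restrict (Ioi (0:ℝ))) (fun u w => (Ioi (0:ℝ)).indicator (fun u => kf δ u w) u)
    ?_ ?_ ?_ ha haA hAA hA ?_ (k := kap δ) ?_
  · exact this
  · have h3 : (Function.uncurry fun (u : ℝ) (w : ℂ) => (Ioi (0:ℝ)).indicator (fun u => kf δ u w) u) =
        ((Prod.fst : ℝ × ℂ → ℝ) ⁻¹' (Ioi 0)).indicator (Function.uncurry (kf δ)) := by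
      ext ⟨u, w⟩
      by_cases hu : u ∈ Ioi (0:ℝ)
      · have hu' : (u, w) ∈ ((Prod.fst : ℝ × ℂ → ℝ) ⁻¹' (Ioi 0)) := hu
        rw [Set.indicator_of_mem hu']
        simp only [Function.uncurry, Set.indicator_of_mem hu]
      · have hu' : (u, w) ∉ ((Prod.fst : ℝ × ℂ → ℝ) ⁻¹' (Ioi 0)) := hu
        rw [Set.indicator_of_notMem hu']
        simp only [Function.uncurry, Set.indicator_of_notMem hu]
    rw [h3]
    exact (kf_meas δ).indicator (measurable_fst measurableSet_Ioi)
  · exact (dom_int hδ _).indicator measurableSet_Ioi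
  · intro u w hw
    by_cases hu : u ∈ Ioi (0:ℝ)
    · simp only [Set.indicator_of_mem hu]
      exact kf_bound u hu w hw
    · simp [Set.indicator_of_notMem hu]
  · intro u
    by_cases hu : u ∈ Ioi (0:ℝ)
    · simp only [Set.indicator_of_mem hu]
      exact QQ_kf hA ha haA hAA u hu
    · simp only [Set.indicator_of_notMem hu]
      exact (QQ_const 0).ge
  · intro w _
    rw [kap_eq hδ]
    refine setIntegral_congr_fun measurableSet_Ioi fun u hu => ?_
    simp only [Set.indicator_of_mem hu]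

end Pool.Agent.Work.MP_82f4f8_an

end
end

section

/-!
Fekete tuples on the square (as in the frozen statement) and outer normals.
-/

set_option autoImplicit false

noncomputable section

namespace Pool.Agent.Work.MP_82f4f8_an

open Real MeasureTheory Set Filter Topology

/-- Fekete tuples of the square -/
structure IsFekP (n : ℕ) (p : Fin n → ℂ) : Prop where
  mem : ∀ k, p k ∈ Gam
  maxi : ∀ q : Fin n → ℂ, (∀ k, q k ∈ Gam) →
    (∏ j, ∏ k ∈ Finset.Ioi j, ‖q j - q k‖) ≤ ∏ j, ∏ k ∈ Finset.Ioi j, ‖p j - p k‖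

/-- outer normal -/
def nu (t : ℝ) : ℂ := Complex.I ^ (sideIdx t)

/-- distance from `zeta t` to the nearest corner, measured along the side -/
def rho (t : ℝ) : ℝ := aa - |YY (t - sideIdx t * (π / 2))|

end Pool.Agent.Work.MP_82f4f8_an

end
end

section

/-!
The exterior conformal map `psi` of the square, normalised by `psi w = w + O(w^{-3})`,
`psi' w = (1 + w^{-4})^{1/2}`, and the divided difference
`Rf x y = (psi (1/x) - psi (1/y)) / (1/x - 1/y)`.
The structure `PsiFacts` lists the facts about it which the other modules use.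
-/

set_option autoImplicit false

noncomputable section

namespace Pool.Agent.Work.MP_82f4f8_an

open Real MeasureTheory Set Filter Topology

/-- binomial coefficient `(1/2 choose j)` -/
def bc (j : ℕ) : ℝ := Ring.choose (1 / 2 : ℝ) j

/-- exterior map -/
def psi (w : ℂ) : ℂ := w - ∑' j : ℕ, ((bc (j + 1) / (4 * j + 3) : ℝ) : ℂ) * (w⁻¹) ^ (4 * j + 3)

/-- divided difference of the exterior map in the variables `x = 1/w`, `y = 1/w'` -/
def Rf (x y : ℂ) : ℂ :=
  1 + ∑' j : ℕ, ((bc (j + 1) / (4 * j + 3) : ℝ) : ℂ) *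
    ∑ i ∈ Finset.range (4 * j + 3), x ^ (i + 1) * y ^ (4 * j + 3 - i)

/-- the facts about `psi` used elsewhere -/
structure PsiFacts : Prop where
  cont : ContinuousOn psi {w | 1 ≤ ‖w‖}
  deriv : ∀ w : ℂ, 1 < ‖w‖ → HasDerivAt psi ((1 + (w⁻¹) ^ 4) ^ (1 / 2 : ℂ)) w
  rfac : ∀ w w' : ℂ, 1 ≤ ‖w‖ → 1 ≤ ‖w'‖ → psi w - psi w' = (w - w') * Rf w⁻¹ w'⁻¹
  rbound : ∀ x y : ℂ, ‖x‖ ≤ 1 → ‖y‖ ≤ 1 → ‖Rf x y - 1‖ ≤ ‖x‖ * ‖y‖
  rdiff : ∀ x : ℂ, ‖x‖ ≤ 1 → DiffContOnCl ℂ (Rf x) (Metric.ball 0 1)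
  rcont : ContinuousOn (fun p : ℂ × ℂ => Rf p.1 p.2) {p | ‖p.1‖ ≤ 1 ∧ ‖p.2‖ ≤ 1}
  rot : ∀ w : ℂ, psi (Complex.I * w) = Complex.I * psi w
  bdry : ∀ t : ℝ, psi (Complex.exp (t * Complex.I)) = zeta t
  maps : ∀ w : ℂ, 1 < ‖w‖ → aa < max |(psi w).re| |(psi w).im|
  surj : ∀ z : ℂ, aa < max |z.re| |z.im| → ∃ w : ℂ, 1 < ‖w‖ ∧ psi w = z
  inj : InjOn psi {w | 1 ≤ ‖w‖}

end Pool.Agent.Work.MP_82f4f8_an

end
end

section

/-!
The tangential vector field `gg` attached to a continuous density `m` of period `π/2`, and its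
Lipschitz property in the chord metric.
-/

set_option autoImplicit false

noncomputable section

namespace Pool.Agent.Work.MP_82f4f8_an

open Real MeasureTheory Set Filter Topology

/-- mean value of `m` -/
def mbar (m : ℝ → ℝ) : ℝ := (2 / π) * ∫ τ in (π / 4)..(π / 4 + π / 2), m τ

/-- primitive of `mbar - m` vanishing at the corner `π/4` -/
def gam (m : ℝ → ℝ) (t : ℝ) : ℝ := ∫ τ in (π / 4)..t, (mbar m - m τ)

/-- the tangential field -/
def gg (m : ℝ → ℝ) (t : ℝ) : ℂ := (gam m t : ℂ) * zeta' t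

/-- admissible densities -/
structure Adm (m : ℝ → ℝ) (B : ℝ) : Prop where
  cont : Continuous m
  per : ∀ t, m (t + π / 2) = m t
  bound : ∀ t, |m t| ≤ B

variable {m : ℝ → ℝ} {B : ℝ}

lemma Adm.nonneg (h : Adm m B) : 0 ≤ B := le_trans (abs_nonneg _) (h.bound 0)

lemma Adm.abs_mbar_le (h : Adm m B) : |mbar m| ≤ B := by
  have hp := pi_pos
  unfold mbar
  rw [abs_mul, abs_of_pos (by positivity)]
  have h1 := intervalIntegral.norm_integral_le_of_norm_le_const (a := π / 4) (b := π / 4 + π / 2)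
    (f := m) (C := B) (fun x _ => h.bound x)
  rw [Real.norm_eq_abs, show π / 4 + π / 2 - π / 4 = π / 2 by ring,
    abs_of_pos (show 0 < π / 2 by positivity)] at h1
  calc 2 / π * |∫ τ in (π / 4)..(π / 4 + π / 2), m τ| ≤ 2 / π * (B * (π / 2)) := by
        apply mul_le_mul_of_nonneg_left h1 (by positivity)
    _ = B := by field_simp

lemma Adm.cont' (h : Adm m B) : Continuous fun τ => mbar m - m τ := by
  have := h.cont
  fun_prop

lemma Adm.hasDerivAt_gam (h : Adm m B) (t : ℝ) : HasDerivAt (gam m) (mbar m - m t) t := by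
  unfold gam
  exact intervalIntegral.integral_hasDerivAt_right (h.cont'.intervalIntegrable _ _)
    (h.cont'.stronglyMeasurableAtFilter _ _) h.cont'.continuousAt

lemma Adm.cont_gam (h : Adm m B) : Continuous (gam m) := by
  rw [continuous_iff_continuousAt]
  exact fun t => (h.hasDerivAt_gam t).continuousAt

lemma gam_corner : gam m (π / 4) = 0 := by simp [gam]

lemma Adm.abs_deriv_le (h : Adm m B) (t : ℝ) : |mbar m - m t| ≤ 2 * B := by
  have h1 := abs_sub (mbar m) (m t)
  have h2 := h.abs_mbar_le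
  have h3 := h.bound t
  calc |mbar m - m t| ≤ |mbar m| + |m t| := by
        rw [abs_le]
        constructor <;> cases abs_cases (mbar m) <;> cases abs_cases (m t) <;> linarith
    _ ≤ 2 * B := by linarith

lemma Adm.gam_add (h : Adm m B) (t : ℝ) : gam m (t + π / 2) = gam m t := by
  have hp := pi_pos
  have hper : Function.Periodic (fun τ => mbar m - m τ) (π / 2) := fun τ => by
    simp only [h.per]
  have h1 := hper.intervalIntegral_add_eq t (π / 4)
  have h2 : ∫ τ in (π / 4)..(π / 4 + π / 2), (mbar m - m τ) = 0 := by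
    rw [intervalIntegral.integral_sub intervalIntegrable_const (h.cont.intervalIntegrable _ _),
      intervalIntegral.integral_const]
    unfold mbar
    simp only [smul_eq_mul]
    field_simp
    ring
  rw [h2] at h1
  unfold gam
  rw [← intervalIntegral.integral_add_adjacent_intervals (b := t)
    (h.cont'.intervalIntegrable _ _) (h.cont'.intervalIntegrable _ _), h1, add_zero]

lemma Adm.gam_incr (h : Adm m B) (s t : ℝ) : |gam m t - gam m s| ≤ 2 * B * |t - s| := by
  have := Convex.norm_image_sub_le_of_norm_hasDerivWithin_le (f := gam m)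
    (f' := fun t => mbar m - m t)
    (s := univ) (C := 2 * B) (x := s) (y := t)
    (fun x _ => (h.hasDerivAt_gam x).hasDerivWithinAt)
    (fun x _ => h.abs_deriv_le x) convex_univ (mem_univ _) (mem_univ _)
  simpa using this

lemma Adm.gam_corner' (h : Adm m B) : gam m (-(π / 4)) = 0 := by
  rw [← h.gam_add, show -(π / 4) + π / 2 = π / 4 by ring, gam_corner]

lemma Adm.abs_gam_le (h : Adm m B) {t : ℝ} (ht : |t| ≤ π / 4) :
    |gam m t| ≤ 2 * B * (π / 4 - |t|) := by
  rw [abs_le] at ht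
  rcases le_total 0 t with h0 | h0
  · have := h.gam_incr (π / 4) t
    rw [gam_corner, sub_zero, abs_sub_comm t, abs_of_nonneg (show 0 ≤ π / 4 - t by linarith)] at this
    rw [abs_of_nonneg h0]; exact this
  · have := h.gam_incr (-(π / 4)) t
    rw [h.gam_corner', sub_zero, abs_of_nonneg (show 0 ≤ t - -(π / 4) by linarith)] at this
    rw [abs_of_nonpos h0, show π / 4 - -t = t - -(π / 4) by ring]; exact this

lemma Adm.gg_add (h : Adm m B) (t : ℝ) : gg m (t + π / 2) = Complex.I * gg m t := by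
  unfold gg
  rw [h.gam_add, zeta'_add]; ring

lemma Adm.cont_gg (h : Adm m B) : Continuous (gg m) := by
  unfold gg
  have h1 := h.cont_gam
  have h2 := cont_zeta'
  fun_prop

lemma gg_side {t : ℝ} (ht : |t| ≤ π / 4) :
    gg m t = Complex.I * ((gam m t * Real.sqrt (2 * Real.cos (2 * t)) : ℝ) : ℂ) := by
  unfold gg
  rw [zeta'_side ht]
  push_cast
  ring

/-- real version on a side -/
lemma Adm.real_lip (h : Adm m B) {s t : ℝ} (hs : -(π / 4) ≤ s) (hst : s ≤ t) (ht : t ≤ π / 4) :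
    |gam m t * Real.sqrt (2 * Real.cos (2 * t)) - gam m s * Real.sqrt (2 * Real.cos (2 * s))|
      ≤ 4 * B * (YY t - YY s) := by
  have hp := pi_pos
  have hB := h.nonneg
  set G : ℝ → ℝ := fun t => gam m t * Real.sqrt (2 * Real.cos (2 * t)) with hG
  have hGc : Continuous G := h.cont_gam.mul cont_sq
  have hder : ∀ τ ∈ Ioo (-(π / 4)) (π / 4), ∃ d : ℝ, HasDerivAt G d τ ∧
      |d| ≤ 4 * B * Real.sqrt (2 * Real.cos (2 * τ)) := by
    intro τ hτ
    have hc := cos_pos_of hτ.1 hτ.2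
    have hv0 : 0 < 2 * Real.cos (2 * τ) := by linarith
    have hv : HasDerivAt (fun t : ℝ => Real.sqrt (2 * Real.cos (2 * t)))
        (2 * (-Real.sin (2 * τ) * 2) / (2 * Real.sqrt (2 * Real.cos (2 * τ)))) τ := by
      have h1 : HasDerivAt (fun t : ℝ => 2 * Real.cos (2 * t)) (2 * (-Real.sin (2 * τ) * 2)) τ := by
        have h2 : HasDerivAt (fun t : ℝ => 2 * t) 2 τ := by
          simpa using (hasDerivAt_id τ).const_mul 2
        exact ((Real.hasDerivAt_cos (2 * τ)).comp τ h2).const_mul 2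
      exact h1.sqrt hv0.ne'
    refine ⟨_, (h.hasDerivAt_gam τ).mul hv, ?_⟩
    set v := Real.sqrt (2 * Real.cos (2 * τ)) with hvdef
    have hvpos : 0 < v := Real.sqrt_pos.2 hv0
    have hv2 : v * v = 2 * Real.cos (2 * τ) := Real.mul_self_sqrt hv0.le
    have h3 := cos_two_mul_ge (t := τ) (abs_le.2 ⟨hτ.1.le, hτ.2.le⟩)
    have h4 := h.abs_gam_le (t := τ) (abs_le.2 ⟨hτ.1.le, hτ.2.le⟩)
    have h5 := Real.abs_sin_le_one (2 * τ)
    have h6 : |2 * (-Real.sin (2 * τ) * 2) / (2 * v)| ≤ 2 / v := by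
      rw [abs_div, abs_of_pos (show 0 < 2 * v by positivity), div_le_div_iff₀ (by positivity) hvpos]
      rw [abs_mul, abs_mul, abs_neg, abs_two]
      nlinarith
    have h7 : |gam m τ| * (2 / v) ≤ (π / 2) * B * v := by
      rw [mul_div_assoc', div_le_iff₀ hvpos]
      have h8 : 2 * (π / 4 - |τ|) ≤ (π / 4) * (v * v) := by
        rw [hv2]
        have : (π / 4) * (8 / π * (π / 4 - |τ|)) = 2 * (π / 4 - |τ|) := by field_simp; ring
        rw [← this]
        apply mul_le_mul_of_nonneg_left h3 (by positivity)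
      calc |gam m τ| * 2 ≤ 2 * B * (π / 4 - |τ|) * 2 := by linarith
        _ = 2 * B * (2 * (π / 4 - |τ|)) := by ring
        _ ≤ 2 * B * ((π / 4) * (v * v)) := by
          apply mul_le_mul_of_nonneg_left h8 (by positivity)
        _ = π / 2 * B * v * v := by ring
    have h9 : |(mbar m - m τ) * v| ≤ 2 * B * v := by
      rw [abs_mul, abs_of_pos hvpos]
      exact mul_le_mul_of_nonneg_right (h.abs_deriv_le τ) hvpos.le
    have h10 : |gam m τ * (2 * (-Real.sin (2 * τ) * 2) / (2 * v))| ≤ π / 2 * B * v := by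
      rw [abs_mul]
      exact le_trans (mul_le_mul_of_nonneg_left h6 (abs_nonneg _)) h7
    have h11 : π / 2 * B * v ≤ 2 * B * v := by
      have := pi_le_four
      have : π / 2 ≤ 2 := by linarith
      apply mul_le_mul_of_nonneg_right _ hvpos.le
      apply mul_le_mul_of_nonneg_right this hB
    refine le_trans (abs_add_le _ _) ?_
    linarith
  have hmono1 : MonotoneOn (fun τ => 4 * B * YY τ - G τ) (Icc (-(π / 4)) (π / 4)) := by
    apply monotoneOn_of_deriv_nonneg (convex_Icc _ _)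
    · exact ((continuous_const.mul cont_YY).sub hGc).continuousOn
    · intro τ hτ
      rw [interior_Icc] at hτ
      obtain ⟨d, hd, _⟩ := hder τ hτ
      exact (((hasDerivAt_YY τ).const_mul (4 * B)).sub hd).differentiableAt.differentiableWithinAt
    · intro τ hτ
      rw [interior_Icc] at hτ
      obtain ⟨d, hd, hd2⟩ := hder τ hτ
      have h1 := (((hasDerivAt_YY τ).const_mul (4 * B)).sub hd).deriv
      have h2 : deriv (fun τ => 4 * B * YY τ - G τ) τ
          = 4 * B * Real.sqrt (2 * Real.cos (2 * τ)) - d := h1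
      rw [h2]
      linarith [le_abs_self d]
  have hmono2 : MonotoneOn (fun τ => 4 * B * YY τ + G τ) (Icc (-(π / 4)) (π / 4)) := by
    apply monotoneOn_of_deriv_nonneg (convex_Icc _ _)
    · exact ((continuous_const.mul cont_YY).add hGc).continuousOn
    · intro τ hτ
      rw [interior_Icc] at hτ
      obtain ⟨d, hd, _⟩ := hder τ hτ
      exact (((hasDerivAt_YY τ).const_mul (4 * B)).add hd).differentiableAt.differentiableWithinAt
    · intro τ hτ
      rw [interior_Icc] at hτ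
      obtain ⟨d, hd, hd2⟩ := hder τ hτ
      have h1 := (((hasDerivAt_YY τ).const_mul (4 * B)).add hd).deriv
      have h2 : deriv (fun τ => 4 * B * YY τ + G τ) τ
          = 4 * B * Real.sqrt (2 * Real.cos (2 * τ)) + d := h1
      rw [h2]
      linarith [neg_abs_le d]
  have h1 := hmono1 (a := s) (b := t) ⟨hs, by linarith⟩ ⟨by linarith, ht⟩ hst
  have h2 := hmono2 (a := s) (b := t) ⟨hs, by linarith⟩ ⟨by linarith, ht⟩ hst
  simp only at h1 h2
  rw [abs_le]
  constructor
  · have : -(4 * B * (YY t - YY s)) = 4 * B * YY s - 4 * B * YY t := by ring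
    rw [this]; linarith
  · have : 4 * B * (YY t - YY s) = 4 * B * YY t - 4 * B * YY s := by ring
    rw [this]; linarith

lemma norm_I_mul (z : ℂ) : ‖Complex.I * z‖ = ‖z‖ := by
  rw [norm_mul, Complex.norm_I, one_mul]

lemma Adm.norm_gg_le_top (h : Adm m B) {t : ℝ} (ht : |t| ≤ π / 4) :
    ‖gg m t‖ ≤ 4 * B * (aa - YY t) := by
  have ht' := abs_le.1 ht
  have h1 := h.real_lip (s := t) (t := π / 4) ht'.1 ht'.2 le_rfl
  rw [gam_corner, zero_mul, zero_sub, abs_neg] at h1
  rw [gg_side ht, norm_I_mul, Complex.norm_real, Real.norm_eq_abs]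
  exact h1

lemma Adm.norm_gg_le_bot (h : Adm m B) {t : ℝ} (ht : |t| ≤ π / 4) :
    ‖gg m t‖ ≤ 4 * B * (aa + YY t) := by
  have ht' := abs_le.1 ht
  have h1 := h.real_lip (s := -(π / 4)) (t := t) le_rfl ht'.1 ht'.2
  rw [h.gam_corner', zero_mul, sub_zero, YY_neg] at h1
  rw [gg_side ht, norm_I_mul, Complex.norm_real, Real.norm_eq_abs]
  have : YY (π / 4) = aa := rfl
  rw [this] at h1
  linarith

lemma Adm.norm_gg_le (h : Adm m B) {t : ℝ} (ht : |t| ≤ π / 4) : ‖gg m t‖ ≤ 4 * B * aa := by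
  have hB := h.nonneg
  rcases le_total 0 (YY t) with h0 | h0
  · refine le_trans (h.norm_gg_le_top ht) ?_
    apply mul_le_mul_of_nonneg_left (by linarith) (by positivity)
  · refine le_trans (h.norm_gg_le_bot ht) ?_
    apply mul_le_mul_of_nonneg_left (by linarith) (by positivity)

lemma Adm.lip_same (h : Adm m B) {s t : ℝ} (hs : |s| ≤ π / 4) (ht : |t| ≤ π / 4) :
    ‖gg m t - gg m s‖ ≤ 4 * B * ‖zeta t - zeta s‖ := by
  wlog hst : s ≤ t generalizing s t
  · rw [norm_sub_rev, norm_sub_rev (zeta t)]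
    exact this ht hs (by linarith)
  have hs' := abs_le.1 hs
  have ht' := abs_le.1 ht
  rw [gg_side ht, gg_side hs, ← mul_sub, norm_I_mul, ← Complex.ofReal_sub, Complex.norm_real,
    zeta_side ht, zeta_side hs]
  have e : (aa : ℂ) + Complex.I * ((YY t : ℝ) : ℂ) - ((aa : ℂ) + Complex.I * ((YY s : ℝ) : ℂ))
      = Complex.I * ((YY t - YY s : ℝ) : ℂ) := by push_cast; ring
  rw [e, norm_I_mul, Complex.norm_real, Real.norm_eq_abs, Real.norm_eq_abs,
    abs_of_nonneg (sub_nonneg.2 (YY_mono hst))]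
  exact h.real_lip hs'.1 hst ht'.2

lemma Adm.lip_adj (h : Adm m B) {s t : ℝ} (hs : |s| ≤ π / 4) (ht1 : π / 4 ≤ t)
    (ht2 : t ≤ 3 * π / 4) : ‖gg m t - gg m s‖ ≤ 6 * B * ‖zeta t - zeta s‖ := by
  have hB := h.nonneg
  have hτ : |t - π / 2| ≤ π / 4 := abs_le.2 ⟨by linarith, by linarith⟩
  have e : gg m t = Complex.I * gg m (t - π / 2) := by
    rw [← h.gg_add]; congr 1; ring
  have h1 := h.norm_gg_le_bot hτ
  have h2 := h.norm_gg_le_top hs
  have h3 : ‖gg m t - gg m s‖ ≤ 4 * B * ((aa + YY (t - π / 2)) + (aa - YY s)) := by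
    refine le_trans (norm_sub_le _ _) ?_
    rw [e, norm_I_mul]
    linarith
  rw [zeta_side1 ht1 ht2, zeta_side hs]
  set w := -((YY (t - π / 2) : ℝ) : ℂ) + Complex.I * (aa : ℂ) - ((aa : ℂ) + Complex.I * ((YY s : ℝ) : ℂ))
    with hw
  have hre : w.re = -(aa + YY (t - π / 2)) := by simp [hw]; ring
  have him : w.im = aa - YY s := by simp [hw]
  have hu : 0 ≤ aa + YY (t - π / 2) := by
    have := abs_YY_le hτ
    rw [abs_le] at this; linarith
  have hv : 0 ≤ aa - YY s := by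
    have := abs_YY_le hs
    rw [abs_le] at this; linarith
  have hn : ‖w‖ ^ 2 = (aa + YY (t - π / 2)) ^ 2 + (aa - YY s) ^ 2 := by
    rw [← Complex.normSq_eq_norm_sq, Complex.normSq_apply, hre, him]; ring
  have h4 : (aa + YY (t - π / 2)) + (aa - YY s) ≤ (3 / 2) * ‖w‖ := by
    have h5 : ((aa + YY (t - π / 2)) + (aa - YY s)) ^ 2 ≤ ((3 / 2) * ‖w‖) ^ 2 := by
      rw [mul_pow, hn]
      nlinarith [sq_nonneg ((aa + YY (t - π / 2)) - (aa - YY s))]
    exact le_of_sq_le_sq h5 (by positivity)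
  calc ‖gg m t - gg m s‖ ≤ 4 * B * ((aa + YY (t - π / 2)) + (aa - YY s)) := h3
    _ ≤ 4 * B * ((3 / 2) * ‖w‖) := by apply mul_le_mul_of_nonneg_left h4 (by positivity)
    _ = 6 * B * ‖w‖ := by ring

lemma Adm.lip_opp (h : Adm m B) {s t : ℝ} (hs : |s| ≤ π / 4) (ht1 : 3 * π / 4 ≤ t)
    (ht2 : t ≤ 5 * π / 4) : ‖gg m t - gg m s‖ ≤ 6 * B * ‖zeta t - zeta s‖ := by
  have hB := h.nonneg
  have hτ : |t - π| ≤ π / 4 := abs_le.2 ⟨by linarith, by linarith⟩
  have e : gg m t = Complex.I * (Complex.I * gg m (t - π)) := by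
    rw [← h.gg_add, ← h.gg_add]; congr 1; ring
  have h1 := h.norm_gg_le hτ
  have h2 := h.norm_gg_le hs
  have h3 : ‖gg m t - gg m s‖ ≤ 4 * B * (2 * aa) := by
    refine le_trans (norm_sub_le _ _) ?_
    rw [e, norm_I_mul, norm_I_mul]
    linarith
  have h4 : 2 * aa ≤ ‖zeta t - zeta s‖ := by
    rw [zeta_side2 ht1 ht2, zeta_side hs]
    set w := -(aa : ℂ) - Complex.I * ((YY (t - π) : ℝ) : ℂ) - ((aa : ℂ) + Complex.I * ((YY s : ℝ) : ℂ))
      with hw
    have hre : w.re = -(2 * aa) := by simp [hw]; ring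
    have h6 := Complex.abs_re_le_norm w
    rwa [hre, abs_neg, abs_of_pos (by linarith [aa_pos])] at h6
  calc ‖gg m t - gg m s‖ ≤ 4 * B * (2 * aa) := h3
    _ ≤ 4 * B * ‖zeta t - zeta s‖ := by apply mul_le_mul_of_nonneg_left h4 (by positivity)
    _ ≤ 6 * B * ‖zeta t - zeta s‖ := by
      apply mul_le_mul_of_nonneg_right _ (norm_nonneg _)
      linarith

lemma Adm.gg_two_pi (h : Adm m B) (t : ℝ) : gg m (t + 2 * π) = gg m t := by
  have := rot_int h.gg_add t 4
  rw [show t + ((4 : ℤ) : ℝ) * (π / 2) = t + 2 * π by push_cast; ring] at this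
  rw [this, show (4 : ℤ) = ((4 : ℕ) : ℤ) by norm_num, zpow_natCast, Complex.I_pow_four, one_mul]

/-- the field is Lipschitz in the chord metric -/
theorem Adm.gg_lip (h : Adm m B) (s t : ℝ) : ‖gg m t - gg m s‖ ≤ 6 * B * ‖zeta t - zeta s‖ := by
  have hp := pi_pos
  have hB := h.nonneg
  -- reduce `s` to the right side
  obtain ⟨k, σ, hσ1, hσ2, rfl⟩ := exists_side s
  set τ := t - k * (π / 2) with hτ
  have ht : t = τ + k * (π / 2) := by rw [hτ]; ring
  rw [ht, rot_int h.gg_add, rot_int h.gg_add, zeta_add_int, zeta_add_int, ← mul_sub, ← mul_sub,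
    norm_I_zpow_mul, norm_I_zpow_mul]
  clear_value τ
  clear ht hτ
  have hσ : |σ| ≤ π / 4 := abs_le.2 ⟨hσ1, hσ2.le⟩
  -- reduce `τ` modulo `2π`
  have hper1 : ∀ n : ℤ, gg m (τ + n * (2 * π)) = gg m τ := by
    intro n
    have : Function.Periodic (gg m) (2 * π) := h.gg_two_pi
    exact this.int_mul n τ
  have hper2 : ∀ n : ℤ, zeta (τ + n * (2 * π)) = zeta τ := by
    intro n
    have : Function.Periodic zeta (2 * π) := zeta_two_pi
    exact this.int_mul n τ
  obtain ⟨n, hn, -⟩ := existsUnique_add_zsmul_mem_Ico (show 0 < 2 * π by positivity) τ (-(π / 4))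
  rw [zsmul_eq_mul] at hn
  rw [← hper1 n, ← hper2 n]
  set u := τ + n * (2 * π) with hu
  clear_value u
  rcases le_total u (π / 4) with h1 | h1
  · refine le_trans (h.lip_same hσ (abs_le.2 ⟨hn.1, h1⟩)) ?_
    apply mul_le_mul_of_nonneg_right _ (norm_nonneg _)
    linarith
  rcases le_total u (3 * π / 4) with h2 | h2
  · exact h.lip_adj hσ h1 h2
  rcases le_total u (5 * π / 4) with h3 | h3
  · exact h.lip_opp hσ h2 h3
  · have h4 : u ≤ 7 * π / 4 := by linarith [hn.2]
    have h5 := h.lip_adj (s := u - 2 * π + π / 2) (t := σ + π / 2)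
      (abs_le.2 ⟨by linarith, by linarith⟩) (by linarith) (by linarith)
    rw [h.gg_add, h.gg_add, zeta_add, zeta_add, ← mul_sub, ← mul_sub, norm_I_mul, norm_I_mul,
      ← h.gg_two_pi (u - 2 * π), ← zeta_two_pi (u - 2 * π), sub_add_cancel] at h5
    rw [norm_sub_rev, norm_sub_rev (zeta u)]
    exact h5

end Pool.Agent.Work.MP_82f4f8_an

end
end

section

/-!
Mean value identities for the boundary interaction of the square, and the Poisson kernel version.
-/

set_option autoImplicit false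

noncomputable section

namespace Pool.Agent.Work.MP_82f4f8_an

open Real MeasureTheory Set Filter Topology

namespace MeanAux

/-- the inverse of the boundary point -/
def ei (s : ℝ) : ℂ := (Complex.exp (s * Complex.I))⁻¹

lemma norm_ex (s : ℝ) : ‖Complex.exp (s * Complex.I)‖ = 1 := Complex.norm_exp_ofReal_mul_I s

lemma norm_ei (s : ℝ) : ‖ei s‖ = 1 := by
  rw [ei, norm_inv, norm_ex, inv_one]

lemma ei_eq (s : ℝ) : ei s = Complex.exp (((-s : ℝ) : ℂ) * Complex.I) := by
  rw [ei, ← Complex.exp_neg]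
  congr 1
  push_cast
  ring

lemma conj_ex (s : ℝ) : (starRingEnd ℂ) (Complex.exp (s * Complex.I)) = ei s := by
  rw [ei_eq, ← Complex.exp_conj]
  congr 1
  simp

lemma conj_ei (s : ℝ) : (starRingEnd ℂ) (ei s) = Complex.exp (s * Complex.I) := by
  rw [← conj_ex, Complex.conj_conj]

lemma cont_ei : Continuous ei := by
  have : ei = fun s : ℝ => Complex.exp (((-s : ℝ) : ℂ) * Complex.I) := funext ei_eq
  rw [this]
  fun_prop

lemma circ_inv (Φ : ℂ → ℝ) : ∫ s in (0:ℝ)..(2 * π), Φ (ei s) =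
    ∫ s in (0:ℝ)..(2 * π), Φ (Complex.exp (s * Complex.I)) := by
  have hper : Function.Periodic (fun s : ℝ => Φ (Complex.exp (s * Complex.I))) (2 * π) := by
    intro s
    simp only
    congr 1
    push_cast
    rw [add_mul, Complex.exp_add, Complex.exp_two_pi_mul_I, mul_one]
  have h1 := intervalIntegral.integral_comp_neg (a := (0:ℝ)) (b := 2 * π)
    (f := fun s : ℝ => Φ (Complex.exp (s * Complex.I)))
  have h2 := hper.intervalIntegral_add_eq (-(2 * π)) 0
  rw [neg_add_cancel, zero_add] at h2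
  rw [← h2]
  rw [neg_zero] at h1
  rw [← h1]
  refine intervalIntegral.integral_congr (fun s _ => ?_)
  simp only [ei_eq]

/-- Poisson formula for real parts -/
lemma poisson_re {h : ℂ → ℂ} (hh : DiffContOnCl ℂ h (Metric.ball 0 1)) {x : ℂ} (hx : ‖x‖ < 1) :
    ∫ s in (0:ℝ)..(2 * π), poissonKernel 0 x (ei s) * (h (ei s)).re = 2 * π * (h x).re := by
  have hx' : x ∈ Metric.ball (0 : ℂ) 1 := by simpa using hx
  have h1 := hh.circleAverage_poissonKernel_smul hx'
  have hc : ContinuousOn h (Metric.sphere 0 |1|) := by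
    have := hh.continuousOn
    rw [closure_ball (0 : ℂ) one_ne_zero] at this
    refine this.mono ?_
    rw [abs_one]
    exact Metric.sphere_subset_closedBall
  have hk : ContinuousOn (poissonKernel 0 x) (Metric.sphere 0 |1|) := by
    rw [poissonKernel_eq_re_herglotzRieszKernel]
    exact Complex.continuous_re.comp_continuousOn (continuousOn_herglotzRieszKernel_sphere hx')
  have hci : CircleIntegrable (poissonKernel 0 x • h) 0 1 :=
    (hk.smul hc).circleIntegrable'
  have h2 := Complex.reCLM.circleAverage_comp_comm hci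
  rw [h1] at h2
  rw [circ_inv (fun y => poissonKernel 0 x y * (h y).re)]
  have h3 : Real.circleAverage (Complex.reCLM ∘ (poissonKernel 0 x • h)) 0 1 =
      (2 * π)⁻¹ • ∫ s in (0:ℝ)..(2 * π), poissonKernel 0 x (Complex.exp (s * Complex.I)) *
        (h (Complex.exp (s * Complex.I))).re := by
    rw [Real.circleAverage_def]
    congr 1
    refine intervalIntegral.integral_congr (fun s _ => ?_)
    simp [circleMap]
  rw [h3] at h2
  have hp := pi_pos
  simp only [smul_eq_mul, Complex.reCLM_apply] at h2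
  rw [← h2, ← mul_assoc, mul_inv_cancel₀ (by positivity), one_mul]

lemma re_pos_of_lt {z : ℂ} (h : ‖z - 1‖ < 1) : 0 < z.re := by
  have h1 := Complex.abs_re_le_norm (z - 1)
  rw [Complex.sub_re, Complex.one_re] at h1
  have h2 := neg_abs_le (z.re - 1)
  linarith

lemma re_pos_of_le {z : ℂ} (h : ‖z - 1‖ ≤ 1) (h0 : z ≠ 0) : 0 < z.re := by
  have h1 : Complex.normSq (z - 1) ≤ 1 := by
    rw [Complex.normSq_eq_norm_sq]
    nlinarith [norm_nonneg (z - 1)]
  have h2 : 0 < Complex.normSq z := Complex.normSq_pos.2 h0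
  rw [Complex.normSq_apply] at h1 h2
  simp only [Complex.sub_re, Complex.one_re, Complex.sub_im, Complex.one_im, sub_zero] at h1
  nlinarith

lemma dlog {g : ℂ → ℂ} (hg : DiffContOnCl ℂ g (Metric.ball 0 1))
    (h1 : ∀ y, ‖y‖ ≤ 1 → 0 < (g y).re) :
    DiffContOnCl ℂ (fun y => Complex.log (g y)) (Metric.ball 0 1) := by
  refine ⟨?_, ?_⟩
  · refine hg.differentiableOn.clog (fun y hy => ?_)
    exact Or.inl (h1 y (by simpa using (Metric.mem_ball.1 hy).le))
  · refine hg.continuousOn.clog (fun y hy => ?_)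
    rw [closure_ball (0 : ℂ) one_ne_zero] at hy
    exact Or.inl (h1 y (by simpa using hy))

/-- Poisson formula for the logarithm -/
lemma poisson_log {g : ℂ → ℂ} (hg : DiffContOnCl ℂ g (Metric.ball 0 1))
    (h1 : ∀ y, ‖y‖ ≤ 1 → 0 < (g y).re) {x : ℂ} (hx : ‖x‖ < 1) :
    ∫ s in (0:ℝ)..(2 * π), poissonKernel 0 x (ei s) * Real.log ‖g (ei s)‖ =
      2 * π * Real.log ‖g x‖ := by
  have := poisson_re (dlog hg h1) hx
  simpa only [Complex.log_re] using this

lemma rf_norm (H : PsiFacts) {x y : ℂ} (hx : ‖x‖ ≤ 1) (hy : ‖y‖ ≤ 1) (hxy : ‖x‖ * ‖y‖ < 1) :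
    0 < (Rf x y).re :=
  re_pos_of_lt (lt_of_le_of_lt (H.rbound x y hx hy) hxy)

lemma ne_of_re_pos {z : ℂ} (h : 0 < z.re) : z ≠ 0 := by
  rintro rfl
  simp at h

/-- the chord in terms of `Rf` -/
lemma log_chord (H : PsiFacts) {w : ℂ} (hw : 1 < ‖w‖) (s : ℝ) :
    Real.log ‖psi w - zeta s‖ = Real.log ‖w‖
      + Real.log ‖1 - ei s * ((starRingEnd ℂ) w)⁻¹‖ + Real.log ‖Rf w⁻¹ (ei s)‖ := by
  have h0 : w ≠ 0 := by
    rintro rfl
    simp at hw
    linarith
  have h1 := H.rfac w (Complex.exp (s * Complex.I)) hw.le (norm_ex s).ge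
  rw [H.bdry] at h1
  have hwi : ‖w⁻¹‖ < 1 := by
    rw [norm_inv]
    exact inv_lt_one_of_one_lt₀ hw
  have h2 : ‖w - Complex.exp (s * Complex.I)‖ = ‖w‖ * ‖1 - ei s * ((starRingEnd ℂ) w)⁻¹‖ := by
    have e1 : w - Complex.exp (s * Complex.I) = w * (1 - Complex.exp (s * Complex.I) * w⁻¹) := by
      field_simp
    have e2 : (starRingEnd ℂ) (1 - Complex.exp (s * Complex.I) * w⁻¹) =
        1 - ei s * ((starRingEnd ℂ) w)⁻¹ := by
      rw [map_sub, map_one, map_mul, conj_ex, map_inv₀]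
    rw [e1, norm_mul, ← e2, Complex.norm_conj]
  have h3 : 0 < ‖1 - ei s * ((starRingEnd ℂ) w)⁻¹‖ := by
    refine norm_pos_iff.2 (ne_of_re_pos (re_pos_of_lt ?_))
    rw [show 1 - ei s * ((starRingEnd ℂ) w)⁻¹ - 1 = -(ei s * ((starRingEnd ℂ) w)⁻¹) by ring,
      norm_neg, norm_mul, norm_ei, one_mul, norm_inv, Complex.norm_conj, ← norm_inv]
    exact hwi
  have h4 : 0 < ‖Rf w⁻¹ (ei s)‖ := by
    refine norm_pos_iff.2 (ne_of_re_pos (rf_norm H hwi.le (norm_ei s).le ?_))
    rw [norm_ei, mul_one]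
    exact hwi
  have h5 : 0 < ‖w‖ := norm_pos_iff.2 h0
  rw [show psi w - zeta s = (w - Complex.exp (s * Complex.I)) * Rf w⁻¹ (ei s) from h1, norm_mul, h2,
    Real.log_mul (by positivity) h4.ne', Real.log_mul h5.ne' h3.ne']

/-- the exterior formula -/
lemma kernel_ext (H : PsiFacts) {x w : ℂ} (hx : ‖x‖ < 1) (hw : 1 < ‖w‖) :
    ∫ s in (0:ℝ)..(2 * π), poissonKernel 0 x (ei s) * Real.log ‖psi w - zeta s‖ =
      2 * π * (Real.log ‖w‖ + Real.log ‖1 - x * ((starRingEnd ℂ) w)⁻¹‖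
        + Real.log ‖Rf w⁻¹ x‖) := by
  have hwi : ‖w⁻¹‖ < 1 := by
    rw [norm_inv]
    exact inv_lt_one_of_one_lt₀ hw
  have hwc : ‖((starRingEnd ℂ) w)⁻¹‖ < 1 := by
    rw [norm_inv, Complex.norm_conj, ← norm_inv]
    exact hwi
  have d1 : DiffContOnCl ℂ (fun y => Complex.log (1 - y * ((starRingEnd ℂ) w)⁻¹))
      (Metric.ball 0 1) := by
    refine dlog ?_ (fun y hy => re_pos_of_lt ?_)
    · apply Differentiable.diffContOnCl
      fun_prop
    · rw [show 1 - y * ((starRingEnd ℂ) w)⁻¹ - 1 = -(y * ((starRingEnd ℂ) w)⁻¹) by ring,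
        norm_neg, norm_mul]
      exact lt_of_le_of_lt (mul_le_of_le_one_left (norm_nonneg _) hy) hwc
  have d2 : DiffContOnCl ℂ (fun y => Complex.log (Rf w⁻¹ y)) (Metric.ball 0 1) := by
    refine dlog (H.rdiff _ hwi.le) (fun y hy => rf_norm H hwi.le hy ?_)
    exact lt_of_le_of_lt (mul_le_of_le_one_right (norm_nonneg _) hy) hwi
  have d0 : DiffContOnCl ℂ (fun _ : ℂ => ((Real.log ‖w‖ : ℝ) : ℂ)) (Metric.ball 0 1) :=
    diffContOnCl_const
  have h := poisson_re ((d0.add d1).add d2) hx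
  simp only [Pi.add_apply, Complex.add_re, Complex.log_re, Complex.ofReal_re] at h
  rw [← h]
  refine intervalIntegral.integral_congr (fun s _ => ?_)
  simp only [log_chord H hw s]

/-! ### approach to the boundary -/

lemma re_zeta_le (s : ℝ) : (zeta s).re ≤ aa := by
  have h : max |(zeta s).re| |(zeta s).im| = aa := zeta_mem s
  rw [← h]
  exact (le_abs_self _).trans (le_max_left _ _)

lemma norm_zeta_le (s : ℝ) : ‖zeta s‖ ≤ 2 * aa := by
  have h : max |(zeta s).re| |(zeta s).im| = aa := zeta_mem s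
  have h1 : |(zeta s).re| ≤ aa := by rw [← h]; exact le_max_left _ _
  have h2 : |(zeta s).im| ≤ aa := by rw [← h]; exact le_max_right _ _
  have h3 := Complex.norm_le_abs_re_add_abs_im (zeta s)
  linarith

/-- the outer approach point -/
def zr (t r : ℝ) : ℂ := zeta t + Complex.I ^ (sideIdx t) * (r : ℂ)

lemma zr_eq (t r : ℝ) : zr t r = Complex.I ^ (sideIdx t) *
    (((aa + r : ℝ) : ℂ) + Complex.I * ((YY (t - (sideIdx t) * (π / 2)) : ℝ) : ℂ)) := by
  unfold zr zeta
  push_cast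
  ring

lemma zr_ext (t : ℝ) {r : ℝ} (hr : 0 < r) : aa < max |(zr t r).re| |(zr t r).im| := by
  rw [zr_eq, I_zpow_mul_gam]
  have hre : (((aa + r : ℝ) : ℂ)
      + Complex.I * ((YY (t - (sideIdx t) * (π / 2)) : ℝ) : ℂ)).re = aa + r := by simp
  rw [hre]
  refine lt_max_of_lt_left ?_
  have := le_abs_self (aa + r)
  linarith

lemma zr_ge (t s : ℝ) {r : ℝ} (hr : 0 ≤ r) : ‖zeta t - zeta s‖ ≤ ‖zr t r - zeta s‖ := by
  set k := sideIdx t with hk
  set τ := t - k * (π / 2) with hτ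
  have ht : t = τ + k * (π / 2) := by rw [hτ]; ring
  have hτ1 := (sideIdx_spec t).1
  have hτ2 := (sideIdx_spec t).2
  rw [← hk, ← hτ] at hτ1 hτ2
  have e1 : zeta t = Complex.I ^ k * zeta τ := by
    conv_lhs => rw [ht]
    exact zeta_add_int τ k
  have e2 : zeta s = Complex.I ^ k * zeta (s - k * (π / 2)) := by
    rw [← zeta_add_int]
    congr 1
    ring
  have e3 : zr t r = Complex.I ^ k * (zeta τ + r) := by
    unfold zr
    rw [← hk, e1]
    ring
  rw [e3, e1, e2, ← mul_sub, ← mul_sub, norm_I_zpow_mul, norm_I_zpow_mul]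
  have hside : (zeta τ).re = aa := by
    rw [zeta_side (abs_le.2 ⟨hτ1, hτ2.le⟩)]
    simp
  have hre := re_zeta_le (s - k * (π / 2))
  rw [Complex.norm_def, Complex.norm_def]
  apply Real.sqrt_le_sqrt
  rw [Complex.normSq_apply, Complex.normSq_apply]
  simp only [Complex.sub_re, Complex.sub_im, Complex.add_re, Complex.add_im, Complex.ofReal_re,
    Complex.ofReal_im, hside, add_zero]
  nlinarith

lemma zr_le (t s : ℝ) {r : ℝ} (hr : 0 ≤ r) (hr1 : r ≤ 1) : ‖zr t r - zeta s‖ ≤ 4 * aa + 1 := by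
  unfold zr
  have h1 := norm_zeta_le t
  have h2 := norm_zeta_le s
  have h3 : ‖Complex.I ^ (sideIdx t) * (r : ℂ)‖ = r := by
    rw [norm_I_zpow_mul, Complex.norm_real, Real.norm_of_nonneg hr]
  have h4 := norm_sub_le (zeta t + Complex.I ^ (sideIdx t) * (r : ℂ)) (zeta s)
  have h5 := norm_add_le (zeta t) (Complex.I ^ (sideIdx t) * (r : ℂ))
  linarith

/-- convergence of the weighted potentials at the approach points -/
lemma limit_kernel {ρ : ℝ → ℝ} (hρ : Measurable ρ) {K : ℝ} (hK : ∀ s, |ρ s| ≤ K) (t : ℝ)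
    {r : ℕ → ℝ} (hr : ∀ n, 0 < r n) (hr1 : ∀ n, r n ≤ 1) (hr0 : Tendsto r atTop (𝓝 0)) :
    Tendsto (fun n => ∫ s, ρ s * Real.log ‖zr t (r n) - zeta s‖ ∂mu) atTop
      (𝓝 (∫ s, ρ s * LL t s ∂mu)) := by
  have hK0 : 0 ≤ K := (abs_nonneg _).trans (hK 0)
  refine tendsto_integral_of_dominated_convergence
    (fun s => K * (|LL t s| + |Real.log (4 * aa + 1)|)) ?_ ?_ ?_ ?_
  · intro n
    exact (hρ.mul (measurable_pot _)).aestronglyMeasurable
  · exact ((integrable_LL t).abs.add (integrable_const _)).const_mul _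
  · intro n
    filter_upwards [ae_ne_mu (zeta t)] with s hs
    rw [Real.norm_eq_abs, abs_mul]
    refine mul_le_mul (hK s) ?_ (abs_nonneg _) hK0
    have h0 : 0 < ‖zeta t - zeta s‖ := norm_pos_iff.2 (sub_ne_zero.2 hs)
    have h1 := zr_ge t s (hr n).le
    have h2 := zr_le t s (hr n).le (hr1 n)
    have h3 := Real.log_le_log h0 h1
    have h4 := Real.log_le_log (lt_of_lt_of_le h0 h1) h2
    have h5 : LL t s = Real.log ‖zeta t - zeta s‖ := rfl
    rw [← h5] at h3
    have h6 := neg_abs_le (LL t s)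
    have h7 := le_abs_self (Real.log (4 * aa + 1))
    have h8 := abs_nonneg (LL t s)
    have h9 := abs_nonneg (Real.log (4 * aa + 1))
    rw [abs_le]
    constructor <;> linarith
  · filter_upwards [ae_ne_mu (zeta t)] with s hs
    refine Tendsto.const_mul _ ?_
    unfold LL
    refine Tendsto.log ?_ (norm_ne_zero_iff.2 (sub_ne_zero.2 hs))
    refine Tendsto.norm ?_
    refine Tendsto.sub_const ?_ _
    have h1 : Tendsto (fun n => zeta t + Complex.I ^ (sideIdx t) * ((r n : ℝ) : ℂ)) atTop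
        (𝓝 (zeta t + Complex.I ^ (sideIdx t) * ((0 : ℝ) : ℂ))) := by
      refine Tendsto.const_add _ (Tendsto.const_mul _ ?_)
      exact (Complex.continuous_ofReal.tendsto 0).comp hr0
    rw [Complex.ofReal_zero, mul_zero, add_zero] at h1
    exact h1

/-- a sequence of exterior points whose images approach `zeta t` along the normal -/
lemma exists_seq (H : PsiFacts) (t : ℝ) : ∃ (r : ℕ → ℝ) (w : ℕ → ℂ), (∀ n, 0 < r n) ∧
    (∀ n, r n ≤ 1) ∧ Tendsto r atTop (𝓝 0) ∧ (∀ n, 1 < ‖w n‖) ∧ (∀ n, psi (w n) = zr t (r n)) ∧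
    Tendsto w atTop (𝓝 (Complex.exp (t * Complex.I))) := by
  set r0 : ℕ → ℝ := fun n => 1 / ((n : ℝ) + 1) with hr0
  have h1 : ∀ n, 0 < r0 n := fun n => by rw [hr0]; positivity
  have h2 : ∀ n, r0 n ≤ 1 := fun n => by
    rw [hr0]
    simp only
    rw [div_le_one (by positivity)]
    linarith [(Nat.cast_nonneg n : (0:ℝ) ≤ n)]
  have h3 : Tendsto r0 atTop (𝓝 0) := tendsto_one_div_add_atTop_nhds_zero_nat
  choose w0 hw0 hw0' using fun n => H.surj _ (zr_ext t (h1 n))
  -- boundedness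
  have hb : ∀ n, w0 n ∈ {w : ℂ | 1 ≤ ‖w‖} ∩ Metric.closedBall 0 (6 * aa + 6) := by
    intro n
    refine ⟨(hw0 n).le, ?_⟩
    rw [mem_closedBall_zero_iff]
    have e1 := H.rfac (w0 n) (Complex.exp ((0:ℝ) * Complex.I)) (hw0 n).le (norm_ex 0).ge
    rw [H.bdry, hw0'] at e1
    simp only [Complex.ofReal_zero, zero_mul, Complex.exp_zero, inv_one] at e1
    have hpos : 0 < ‖w0 n‖ := by linarith [hw0 n]
    have e2 := H.rbound (w0 n)⁻¹ 1 (by
      rw [norm_inv]; exact (inv_lt_one_of_one_lt₀ (hw0 n)).le) (by simp)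
    rw [norm_one, mul_one, norm_inv] at e2
    have e3 : w0 n = (zr t (r0 n) - zeta 0) + 1 - (w0 n - 1) * (Rf (w0 n)⁻¹ 1 - 1) := by
      rw [e1]; ring
    have e4 : ‖(w0 n - 1) * (Rf (w0 n)⁻¹ 1 - 1)‖ ≤ 2 := by
      rw [norm_mul]
      have e5 : ‖w0 n - 1‖ ≤ 2 * ‖w0 n‖ := by
        have := norm_sub_le (w0 n) 1
        rw [norm_one] at this
        linarith [hw0 n]
      calc ‖w0 n - 1‖ * ‖Rf (w0 n)⁻¹ 1 - 1‖ ≤ (2 * ‖w0 n‖) * ‖w0 n‖⁻¹ := by gcongr
        _ = 2 := by field_simp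
    have e6 := zr_le t 0 (h1 n).le (h2 n)
    have e7 : ‖w0 n‖ ≤ ‖zr t (r0 n) - zeta 0‖ + 1 + 2 := by
      conv_lhs => rw [e3]
      refine (norm_sub_le _ _).trans ?_
      refine add_le_add ?_ e4
      refine (norm_add_le _ _).trans ?_
      rw [norm_one]
    have := aa_pos
    linarith
  have hcomp : IsCompact ({w : ℂ | 1 ≤ ‖w‖} ∩ Metric.closedBall 0 (6 * aa + 6)) :=
    (isCompact_closedBall _ _).inter_left (isClosed_le continuous_const continuous_norm)
  obtain ⟨ws, hws, φ, hφ, hlim⟩ := hcomp.tendsto_subseq hb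
  have hlim' : Tendsto (fun n => w0 (φ n)) atTop (𝓝 ws) := hlim
  -- identify the limit
  have hps : Tendsto (fun n => psi (w0 (φ n))) atTop (𝓝 (psi ws)) := by
    have hc := H.cont ws hws.1
    refine hc.tendsto.comp ?_
    rw [tendsto_nhdsWithin_iff]
    exact ⟨hlim', Eventually.of_forall fun n => (hw0 (φ n)).le⟩
  have hps2 : Tendsto (fun n => psi (w0 (φ n))) atTop (𝓝 (zeta t)) := by
    have e1 : (fun n => psi (w0 (φ n))) = fun n => zr t (r0 (φ n)) := funext fun n => hw0' (φ n)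
    rw [e1]
    unfold zr
    have h4 : Tendsto (fun n => zeta t + Complex.I ^ (sideIdx t) * ((r0 (φ n) : ℝ) : ℂ)) atTop
        (𝓝 (zeta t + Complex.I ^ (sideIdx t) * ((0 : ℝ) : ℂ))) := by
      refine Tendsto.const_add _ (Tendsto.const_mul _ ?_)
      exact (Complex.continuous_ofReal.tendsto 0).comp (h3.comp hφ.tendsto_atTop)
    simpa using h4
  have hpe : psi ws = psi (Complex.exp (t * Complex.I)) := by
    rw [H.bdry]
    exact tendsto_nhds_unique hps hps2
  have hwe : ws = Complex.exp (t * Complex.I) := H.inj hws.1 (norm_ex t).ge hpe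
  refine ⟨fun n => r0 (φ n), fun n => w0 (φ n), fun n => h1 _, fun n => h2 _,
    h3.comp hφ.tendsto_atTop, fun n => hw0 _, fun n => hw0' _, ?_⟩
  rw [← hwe]
  exact hlim'

lemma poisson_nonneg {x y : ℂ} (hx : ‖x‖ < 1) (hy : ‖y‖ = 1) : 0 ≤ poissonKernel 0 x y := by
  rw [poissonKernel_def]
  simp only [sub_zero]
  rw [hy]
  refine div_nonneg ?_ (sq_nonneg _)
  nlinarith [norm_nonneg x]

lemma poisson_le {x y : ℂ} (hx : ‖x‖ < 1) (hy : ‖y‖ = 1) :
    poissonKernel 0 x y ≤ (1 + ‖x‖) / (1 - ‖x‖) := by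
  have h := re_herglotzRieszKernel_le (R := 1) (c := 0) (z := y) (w := x)
    (by simpa using hy) (by simpa using hx)
  rw [poissonKernel_eq_re_herglotzRieszKernel]
  simpa [herglotzRieszKernel_def] using h

lemma cont_poisson {x : ℂ} (hx : ‖x‖ < 1) : Continuous fun s : ℝ => poissonKernel 0 x (ei s) := by
  unfold poissonKernel
  have h : ∀ s, ‖ei s - 0 - (x - 0)‖ ^ 2 ≠ 0 := by
    intro s
    have h1 : ei s - 0 - (x - 0) ≠ 0 := by
      simp only [sub_zero]
      intro h2
      have h3 : ei s = x := sub_eq_zero.1 h2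
      have h4 := norm_ei s
      rw [h3] at h4
      linarith
    exact pow_ne_zero _ (norm_ne_zero_iff.2 h1)
  have hc := cont_ei
  refine Continuous.div (by fun_prop) (by fun_prop) h

/-- the boundary formula -/
lemma kernel_LL (H : PsiFacts) {x : ℂ} (hx : ‖x‖ < 1) (t : ℝ) :
    ∫ s in (0:ℝ)..(2 * π), poissonKernel 0 x (ei s) * LL t s =
      2 * π * (Real.log ‖1 - x * Complex.exp (t * Complex.I)‖ + Real.log ‖Rf (ei t) x‖) := by
  have hp := pi_pos
  obtain ⟨r, w, hr, hr1, hr0, hw, hwz, hwl⟩ := exists_seq H t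
  have hmeas : Measurable (fun s : ℝ => poissonKernel 0 x (ei s)) := (cont_poisson hx).measurable
  have hK : ∀ s, |poissonKernel 0 x (ei s)| ≤ (1 + ‖x‖) / (1 - ‖x‖) := fun s => by
    rw [abs_of_nonneg (poisson_nonneg hx (norm_ei s))]
    exact poisson_le hx (norm_ei s)
  have hl1 := limit_kernel hmeas hK t hr hr1 hr0
  have hval : ∀ n, ∫ s, poissonKernel 0 x (ei s) * Real.log ‖zr t (r n) - zeta s‖ ∂mu =
      Real.log ‖w n‖ + Real.log ‖1 - x * ((starRingEnd ℂ) (w n))⁻¹‖
        + Real.log ‖Rf (w n)⁻¹ x‖ := by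
    intro n
    rw [integral_mu, ← hwz n, kernel_ext H hx (hw n), ← mul_assoc, one_div,
      inv_mul_cancel₀ (by positivity), one_mul]
  simp only [hval] at hl1
  have hwi : Tendsto (fun n => (w n)⁻¹) atTop (𝓝 (ei t)) := by
    exact hwl.inv₀ (Complex.exp_ne_zero _)
  have hwc : Tendsto (fun n => ((starRingEnd ℂ) (w n))⁻¹) atTop
      (𝓝 (Complex.exp (t * Complex.I))) := by
    have h1 : Tendsto (fun n => (starRingEnd ℂ) ((w n)⁻¹)) atTop (𝓝 ((starRingEnd ℂ) (ei t))) :=
      (Complex.continuous_conj.tendsto _).comp hwi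
    rw [conj_ei] at h1
    simpa only [map_inv₀] using h1
  have l1 : Tendsto (fun n => Real.log ‖w n‖) atTop (𝓝 0) := by
    have h1 : Tendsto (fun n => ‖w n‖) atTop (𝓝 1) := by
      have := hwl.norm
      rwa [norm_ex] at this
    have h2 := h1.log one_ne_zero
    rwa [Real.log_one] at h2
  have l2 : Tendsto (fun n => Real.log ‖1 - x * ((starRingEnd ℂ) (w n))⁻¹‖) atTop
      (𝓝 (Real.log ‖1 - x * Complex.exp (t * Complex.I)‖)) := by
    refine Tendsto.log ((hwc.const_mul x).const_sub 1).norm ?_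
    refine norm_ne_zero_iff.2 (ne_of_re_pos (re_pos_of_lt ?_))
    rw [show 1 - x * Complex.exp (t * Complex.I) - 1 = -(x * Complex.exp (t * Complex.I)) by ring,
      norm_neg, norm_mul, norm_ex, mul_one]
    exact hx
  have l3 : Tendsto (fun n => Real.log ‖Rf (w n)⁻¹ x‖) atTop (𝓝 (Real.log ‖Rf (ei t) x‖)) := by
    have hne : Rf (ei t) x ≠ 0 := ne_of_re_pos (rf_norm H (norm_ei t).le hx.le (by
      rw [norm_ei, one_mul]; exact hx))
    refine Tendsto.log (Tendsto.norm ?_) (norm_ne_zero_iff.2 hne)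
    have hc := H.rcont (ei t, x) ⟨(norm_ei t).le, hx.le⟩
    have h1 : Tendsto (fun n => ((w n)⁻¹, x)) atTop
        (𝓝[{p : ℂ × ℂ | ‖p.1‖ ≤ 1 ∧ ‖p.2‖ ≤ 1}] (ei t, x)) := by
      rw [tendsto_nhdsWithin_iff]
      refine ⟨hwi.prodMk_nhds tendsto_const_nhds, Eventually.of_forall fun n => ⟨?_, hx.le⟩⟩
      simp only
      rw [norm_inv]
      exact (inv_lt_one_of_one_lt₀ (hw n)).le
    have h2 : Tendsto (fun n => (fun p : ℂ × ℂ => Rf p.1 p.2) ((w n)⁻¹, x)) atTop
        (𝓝 ((fun p : ℂ × ℂ => Rf p.1 p.2) (ei t, x))) := hc.tendsto.comp h1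
    exact h2
  have hl2 := (l1.add l2).add l3
  have huniq := tendsto_nhds_unique hl1 hl2
  rw [integral_mu, zero_add] at huniq
  rw [← huniq, ← mul_assoc, mul_one_div_cancel (by positivity), one_mul]

end MeanAux

open MeanAux

theorem UU_psi (H : PsiFacts) {w : ℂ} (hw : 1 < ‖w‖) : UU (psi w) = Real.log ‖w‖ := by
  have hp := pi_pos
  have h := kernel_ext H (x := 0) (by simp) hw
  have h1 : ∀ s, poissonKernel 0 0 (ei s) = 1 := by
    intro s
    rw [poissonKernel_def]
    simp [norm_ei]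
  have h2 : Rf w⁻¹ 0 = 1 := by
    have := H.rbound w⁻¹ 0 (by rw [norm_inv]; exact (inv_lt_one_of_one_lt₀ hw).le) (by simp)
    rw [norm_zero, mul_zero] at this
    exact sub_eq_zero.1 (norm_le_zero_iff.1 this)
  simp only [h1, one_mul, zero_mul, sub_zero, norm_one, Real.log_one, add_zero, h2] at h
  unfold UU
  rw [h, ← mul_assoc, one_div, inv_mul_cancel₀ (by positivity), one_mul]

theorem LL_mean (H : PsiFacts) (t : ℝ) : ∫ s in (0:ℝ)..(2 * π), LL t s = 0 := by
  have h := kernel_LL H (x := 0) (by simp) t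
  have h1 : ∀ s, poissonKernel 0 0 (ei s) = 1 := by
    intro s
    rw [poissonKernel_def]
    simp [norm_ei]
  have h2 : Rf (ei t) 0 = 1 := by
    have := H.rbound (ei t) 0 (norm_ei t).le (by simp)
    rw [norm_zero, mul_zero] at this
    exact sub_eq_zero.1 (norm_le_zero_iff.1 this)
  simp only [h1, one_mul, zero_mul, sub_zero, norm_one, Real.log_one, add_zero, h2, mul_zero] at h
  exact h

namespace MeanAux

lemma bc_succ (j : ℕ) : bc (j + 1) * ((j : ℝ) + 1) = bc j * (1 / 2 - j) := by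
  have h := Ring.choose_smul_choose (1 / 2 : ℝ) (Nat.le_succ j)
  rw [show j.succ - j = 1 by simp, Ring.choose_one_right, Nat.succ_eq_add_one,
    Nat.choose_succ_self_right, nsmul_eq_mul] at h
  unfold bc
  push_cast at h
  linarith

lemma abs_bc_le (j : ℕ) : |bc j| ≤ 1 := by
  induction j with
  | zero => simp [bc]
  | succ n ih =>
    have h := bc_succ n
    have hn : (0:ℝ) ≤ n := Nat.cast_nonneg n
    have h1 : |bc (n + 1)| * ((n : ℝ) + 1) = |bc n| * |1 / 2 - (n:ℝ)| := by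
      rw [← abs_mul, ← h, abs_mul, abs_of_pos (by positivity : (0:ℝ) < (n:ℝ) + 1)]
    have h2 : |1 / 2 - (n:ℝ)| ≤ (n : ℝ) + 1 := by
      rw [abs_le]
      constructor <;> linarith
    have h3 : |bc (n + 1)| * ((n : ℝ) + 1) ≤ 1 * ((n : ℝ) + 1) := by
      rw [h1]
      exact mul_le_mul ih h2 (abs_nonneg _) zero_le_one
    exact le_of_mul_le_mul_right h3 (by positivity)

lemma diag_diff {c : ℂ} (hc : ‖c‖ ≤ 1) :
    DifferentiableOn ℂ (fun y => Rf y (y * c)) (Metric.ball 0 1) := by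
  have key : ∀ ρ : ℝ, 0 < ρ → ρ < 1 →
      DifferentiableOn ℂ (fun y => Rf y (y * c)) (Metric.ball 0 ρ) := by
    intro ρ h0 h1
    suffices hmain : DifferentiableOn ℂ (fun y => ∑' j : ℕ, ((bc (j + 1) / (4 * j + 3) : ℝ) : ℂ) *
        ∑ i ∈ Finset.range (4 * j + 3), y ^ (i + 1) * (y * c) ^ (4 * j + 3 - i))
        (Metric.ball 0 ρ) by
      unfold Rf
      exact hmain.const_add 1
    refine Complex.differentiableOn_tsum_of_summable_norm (u := fun j : ℕ => ρ ^ j)
      (summable_geometric_of_lt_one h0.le h1) (fun j => ?_) Metric.isOpen_ball (fun j y hy => ?_)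
    · apply Differentiable.differentiableOn
      fun_prop
    · have hy1 : ‖y‖ ≤ ρ := by simpa using (Metric.mem_ball.1 hy).le
      have hy2 : ‖y‖ ≤ 1 := hy1.trans h1.le
      have hyc : ‖y * c‖ ≤ ‖y‖ := by
        rw [norm_mul]
        exact mul_le_of_le_one_right (norm_nonneg _) hc
      have hterm : ∀ i ∈ Finset.range (4 * j + 3),
          ‖y ^ (i + 1) * (y * c) ^ (4 * j + 3 - i)‖ ≤ ρ ^ j := by
        intro i hi
        rw [Finset.mem_range] at hi
        rw [norm_mul, norm_pow, norm_pow]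
        calc ‖y‖ ^ (i + 1) * ‖y * c‖ ^ (4 * j + 3 - i)
            ≤ ‖y‖ ^ (i + 1) * ‖y‖ ^ (4 * j + 3 - i) := by gcongr
          _ = ‖y‖ ^ (4 * j + 4) := by
              rw [← pow_add]
              congr 1
              omega
          _ ≤ ‖y‖ ^ j := pow_le_pow_of_le_one (norm_nonneg _) hy2 (by omega)
          _ ≤ ρ ^ j := by gcongr
      have hsum := norm_sum_le_of_le _ hterm
      rw [Finset.sum_const, Finset.card_range, nsmul_eq_mul] at hsum
      have hpos : (0:ℝ) < 4 * (j:ℝ) + 3 := by positivity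
      rw [norm_mul, Complex.norm_real, Real.norm_eq_abs, abs_div, abs_of_pos hpos]
      calc |bc (j + 1)| / (4 * (j:ℝ) + 3) *
            ‖∑ i ∈ Finset.range (4 * j + 3), y ^ (i + 1) * (y * c) ^ (4 * j + 3 - i)‖
          ≤ 1 / (4 * (j:ℝ) + 3) * (((4 * j + 3 : ℕ) : ℝ) * ρ ^ j) := by
            gcongr
            exact abs_bc_le _
        _ = ρ ^ j := by
            push_cast
            field_simp
  intro y hy
  have hy1 : ‖y‖ < 1 := by simpa using hy
  have h0 := norm_nonneg y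
  have h := key ((‖y‖ + 1) / 2) (by linarith) (by linarith)
  have hmem : Metric.ball (0:ℂ) ((‖y‖ + 1) / 2) ∈ 𝓝 y := by
    refine Metric.isOpen_ball.mem_nhds ?_
    rw [mem_ball_zero_iff]
    linarith
  exact (h.differentiableAt hmem).differentiableWithinAt

lemma diag_dcc (H : PsiFacts) {c : ℂ} (hc : ‖c‖ ≤ 1) :
    DiffContOnCl ℂ (fun y => Rf y (y * c)) (Metric.ball 0 1) := by
  refine ⟨diag_diff hc, ?_⟩
  rw [closure_ball (0 : ℂ) one_ne_zero]
  have h1 : ContinuousOn (fun y : ℂ => (y, y * c)) (Metric.closedBall 0 1) := by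
    apply Continuous.continuousOn
    fun_prop
  have hm : Set.MapsTo (fun y : ℂ => (y, y * c)) (Metric.closedBall 0 1)
      {p : ℂ × ℂ | ‖p.1‖ ≤ 1 ∧ ‖p.2‖ ≤ 1} := by
    intro y hy
    have hy1 : ‖y‖ ≤ 1 := by simpa using hy
    refine ⟨hy1, ?_⟩
    simp only
    rw [norm_mul]
    exact mul_le_one₀ hy1 (norm_nonneg _) hc
  have h2 : ContinuousOn ((fun p : ℂ × ℂ => Rf p.1 p.2) ∘ (fun y : ℂ => (y, y * c)))
      (Metric.closedBall 0 1) := H.rcont.comp h1 hm
  exact h2

end MeanAux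

open MeanAux in
theorem LL_diag_mean (H : PsiFacts) {τ : ℝ} (h0 : 0 < τ) (h1 : τ < 2 * π) :
    2 * π * Real.log ‖1 - Complex.exp (τ * Complex.I)‖ ≤
      ∫ θ in (0:ℝ)..(2 * π), LL θ (θ + τ) := by
  have hp := pi_pos
  have hchord : ∀ θ, zeta θ - zeta (θ + τ) =
      (Complex.exp (θ * Complex.I) * (1 - Complex.exp (τ * Complex.I))) *
        Rf (ei θ) (ei θ * ei τ) := by
    intro θ
    have h := H.rfac (Complex.exp (θ * Complex.I)) (Complex.exp (((θ + τ : ℝ) : ℂ) * Complex.I))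
      (norm_ex _).ge (norm_ex _).ge
    rw [H.bdry, H.bdry] at h
    rw [h]
    have e1 : Complex.exp (((θ + τ : ℝ) : ℂ) * Complex.I) =
        Complex.exp (θ * Complex.I) * Complex.exp (τ * Complex.I) := by
      rw [← Complex.exp_add]
      congr 1
      push_cast
      ring
    rw [e1, mul_inv]
    have e2 : Complex.exp (θ * Complex.I) - Complex.exp (θ * Complex.I) *
        Complex.exp (τ * Complex.I) =
        Complex.exp (θ * Complex.I) * (1 - Complex.exp (τ * Complex.I)) := by ring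
    rw [e2]
    rfl
  have hne : ∀ θ, zeta θ - zeta (θ + τ) ≠ 0 := by
    intro θ
    rw [sub_ne_zero]
    exact (zeta_ne (s := θ) (t := θ + τ) (by linarith) (by linarith)).symm
  have hR : ∀ θ, Rf (ei θ) (ei θ * ei τ) ≠ 0 := by
    intro θ hz
    apply hne θ
    rw [hchord, hz, mul_zero]
  have hre : ∀ y : ℂ, ‖y‖ ≤ 1 → 0 < (Rf y (y * ei τ)).re := by
    intro y hy
    have hyt : ‖y * ei τ‖ ≤ 1 := by rw [norm_mul, norm_ei, mul_one]; exact hy
    have hb := H.rbound y (y * ei τ) hy hyt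
    rw [norm_mul y, norm_ei, mul_one] at hb
    rcases lt_or_eq_of_le hy with h | h
    · refine re_pos_of_lt (lt_of_le_of_lt hb ?_)
      nlinarith [norm_nonneg y]
    · refine re_pos_of_le (hb.trans (by rw [h]; norm_num)) ?_
      -- `y` is on the circle
      have hy0 : y = ei (-(Complex.arg y)) := by
        rw [ei_eq, neg_neg]
        have := Complex.norm_mul_exp_arg_mul_I y
        rw [h, Complex.ofReal_one, one_mul] at this
        exact this.symm
      rw [hy0]
      exact hR _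
  have hpl := poisson_log (diag_dcc H (c := ei τ) (norm_ei τ).le) hre (x := 0) (by simp)
  have hk : ∀ s, poissonKernel 0 0 (ei s) = 1 := by
    intro s
    rw [poissonKernel_def]
    simp [norm_ei]
  have hR0 : Rf 0 (0 * ei τ) = 1 := by
    have := H.rbound 0 (0 * ei τ) (by simp) (by simp)
    rw [norm_zero, zero_mul ‖_‖] at this
    exact sub_eq_zero.1 (norm_le_zero_iff.1 this)
  simp only [hk, one_mul] at hpl
  rw [hR0, norm_one, Real.log_one, mul_zero] at hpl
  have hexp : (1 : ℂ) - Complex.exp (τ * Complex.I) ≠ 0 := by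
    intro hz
    apply hne 0
    rw [hchord, hz, mul_zero, zero_mul]
  have hval : ∀ θ, LL θ (θ + τ) = Real.log ‖1 - Complex.exp (τ * Complex.I)‖
      + Real.log ‖Rf (ei θ) (ei θ * ei τ)‖ := by
    intro θ
    unfold LL
    rw [hchord, norm_mul, norm_mul, norm_ex, one_mul,
      Real.log_mul (norm_ne_zero_iff.2 hexp) (norm_ne_zero_iff.2 (hR θ))]
  have hcont : Continuous fun θ : ℝ => Real.log ‖Rf (ei θ) (ei θ * ei τ)‖ := by
    have e : (fun θ : ℝ => Real.log ‖Rf (ei θ) (ei θ * ei τ)‖) =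
        fun θ => LL θ (θ + τ) - Real.log ‖1 - Complex.exp (τ * Complex.I)‖ := by
      funext θ
      rw [hval]
      ring
    rw [e]
    refine Continuous.sub ?_ continuous_const
    unfold LL
    have hz := cont_zeta
    refine Continuous.log (by fun_prop) (fun θ => norm_ne_zero_iff.2 (hne θ))
  simp only [hval]
  rw [intervalIntegral.integral_add intervalIntegrable_const (hcont.intervalIntegrable _ _),
    hpl, intervalIntegral.integral_const, sub_zero, smul_eq_mul, add_zero]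

end Pool.Agent.Work.MP_82f4f8_an

end
end
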