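import Pool.Agent.Work.MP_82f4f8_an.Bd.B01
import Pool.Agent.Work.MP_82f4f8_an.Bd.B02

/-! Bundle of small proof modules (one section per former module). -/

section

/-! The capacity constant of the square. -/

set_option autoImplicit false

noncomputable section

namespace Pool.Agent.Work.MP_82f4f8_an

open Real MeasureTheory Set

/-- The real beta integral. -/
lemma real_beta {α β : ℝ} (hα : 0 < α) (hβ : 0 < β) :
    ∫ x in (0:ℝ)..1, x ^ (α - 1) * (1 - x) ^ (β - 1) =
      Real.Gamma α * Real.Gamma β / Real.Gamma (α + β) := by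
  have h := ProbabilityTheory.beta_eq_betaIntegralReal α β hα hβ
  rw [ProbabilityTheory.beta] at h
  rw [h, Complex.betaIntegral, intervalIntegral.integral_of_le (by norm_num),
    intervalIntegral.integral_of_le (by norm_num), ← RCLike.re_to_complex, ← integral_re]
  · refine setIntegral_congr_fun measurableSet_Ioc fun x ⟨hx1, hx₂⟩ ↦ ?_
    norm_cast
    rw [← Complex.ofReal_cpow, ← Complex.ofReal_cpow, RCLike.re_to_complex,
      Complex.re_mul_ofReal, Complex.ofReal_re]
    all_goals linarith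
  · have := Complex.betaIntegral_convergent (u := α) (v := β) (by simpa) (by simpa)
    rwa [intervalIntegrable_iff_integrableOn_Ioc_of_le (by simp), IntegrableOn] at this

theorem aa_beta : aa = Real.sqrt 2 / 4 *
    (Real.Gamma (1 / 2) * Real.Gamma (3 / 4) / Real.Gamma (1 / 2 + 3 / 4)) := by
  rw [← real_beta (by norm_num) (by norm_num)]
  have hsub := intervalIntegral.integral_comp_mul_deriv_of_deriv_nonneg
    (a := 0) (b := π / 4) (f := fun τ => Real.sin (2 * τ) ^ 2)
    (f' := fun τ => 4 * (Real.sin (2 * τ) * Real.cos (2 * τ)))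
    (g := fun x : ℝ => x ^ ((1 : ℝ) / 2 - 1) * (1 - x) ^ ((3 : ℝ) / 4 - 1)) ?_ ?_ ?_
  · have e0 : Real.sin (2 * 0) ^ 2 = 0 := by simp
    have e1 : Real.sin (2 * (π / 4)) ^ 2 = 1 := by
      rw [show 2 * (π / 4) = π / 2 by ring, Real.sin_pi_div_two]; norm_num
    rw [e0, e1] at hsub
    rw [← hsub, aa, YY, ← intervalIntegral.integral_const_mul]
    apply intervalIntegral.integral_congr_Ioo_of_le (by positivity)
    intro τ hτ
    have hc : 0 < Real.cos (2 * τ) := Real.cos_pos_of_mem_Ioo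
      ⟨by linarith [hτ.1, Real.pi_pos], by linarith [hτ.2]⟩
    have hs : 0 < Real.sin (2 * τ) := Real.sin_pos_of_pos_of_lt_pi
      (by linarith [hτ.1]) (by linarith [hτ.2, Real.pi_pos])
    simp only [Function.comp_apply]
    have h1 : 1 - Real.sin (2 * τ) ^ 2 = Real.cos (2 * τ) ^ 2 := by
      have := Real.sin_sq_add_cos_sq (2 * τ); linarith
    rw [h1, ← Real.rpow_natCast (Real.sin (2 * τ)) 2, ← Real.rpow_natCast (Real.cos (2 * τ)) 2,
      ← Real.rpow_mul hs.le, ← Real.rpow_mul hc.le, Real.sqrt_mul (by norm_num)]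
    have h2 : Real.sin (2 * τ) ^ (((2 : ℕ) : ℝ) * (1 / 2 - 1)) = (Real.sin (2 * τ))⁻¹ := by
      rw [← Real.rpow_neg_one]; norm_num
    have h3 : Real.cos (2 * τ) ^ (((2 : ℕ) : ℝ) * (3 / 4 - 1)) * Real.cos (2 * τ) =
        Real.sqrt (Real.cos (2 * τ)) := by
      rw [Real.sqrt_eq_rpow, ← Real.rpow_add_one hc.ne']
      norm_num
    rw [h2]
    have h4 : Real.sqrt 2 / 4 * ((Real.sin (2 * τ))⁻¹ *
        Real.cos (2 * τ) ^ (((2 : ℕ) : ℝ) * (3 / 4 - 1)) *
        (4 * (Real.sin (2 * τ) * Real.cos (2 * τ)))) = Real.sqrt 2 *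
        (Real.cos (2 * τ) ^ (((2 : ℕ) : ℝ) * (3 / 4 - 1)) * Real.cos (2 * τ)) := by
      field_simp
    rw [h4, h3]
  · fun_prop
  · intro x _
    have h1 : HasDerivAt (fun τ : ℝ => 2 * τ) 2 x := by
      simpa using (hasDerivAt_id x).const_mul 2
    have h2 := (h1.sin).pow 2
    refine h2.congr_deriv ?_
    push_cast
    ring
  · intro x hx
    rw [min_eq_left (by positivity), max_eq_right (by positivity)] at hx
    have hc : 0 < Real.cos (2 * x) := Real.cos_pos_of_mem_Ioo
      ⟨by linarith [hx.1, Real.pi_pos], by linarith [hx.2]⟩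
    have hs : 0 < Real.sin (2 * x) := Real.sin_pos_of_pos_of_lt_pi
      (by linarith [hx.1]) (by linarith [hx.2, Real.pi_pos])
    positivity

/-- The half side of the square of capacity one. -/
theorem aa_eq : aa = 2 * Real.pi ^ ((3 : ℝ) / 2) / Real.Gamma (1 / 4 : ℝ) ^ 2 := by
  rw [aa_beta]
  have h1 : Real.Gamma (1 / 2 + 3 / 4) = 1 / 4 * Real.Gamma (1 / 4) := by
    rw [show (1 / 2 + 3 / 4 : ℝ) = 1 / 4 + 1 by norm_num, Real.Gamma_add_one (by norm_num)]
  have h2 : Real.Gamma (1 / 4) * Real.Gamma (3 / 4) = π * Real.sqrt 2 := by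
    have h := Real.Gamma_mul_Gamma_one_sub (1 / 4)
    rw [show (1 - 1 / 4 : ℝ) = 3 / 4 by norm_num, show π * (1 / 4) = π / 4 by ring,
      Real.sin_pi_div_four] at h
    rw [h]
    have : Real.sqrt 2 ≠ 0 := by positivity
    field_simp
    rw [Real.sq_sqrt (by norm_num)]
  have h3 : Real.Gamma (1 / 2) = Real.sqrt π := Real.Gamma_one_half_eq
  have hG : 0 < Real.Gamma (1 / 4) := Real.Gamma_pos_of_pos (by norm_num)
  have h4 : Real.Gamma (3 / 4) = π * Real.sqrt 2 / Real.Gamma (1 / 4) := by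
    rw [eq_div_iff hG.ne', mul_comm]; exact h2
  have h5 : π ^ ((3 : ℝ) / 2) = π * Real.sqrt π := by
    rw [Real.sqrt_eq_rpow, ← Real.rpow_one_add' Real.pi_pos.le (by norm_num)]
    norm_num
  rw [h1, h3, h4, h5]
  have h6 : Real.sqrt 2 * Real.sqrt 2 = 2 := Real.mul_self_sqrt (by norm_num)
  field_simp
  nlinarith [h6, Real.pi_pos]

end Pool.Agent.Work.MP_82f4f8_an

end
end

section

/-!
Order lemma of Aubry type for maximisers of a pair energy, and comparison of linear statistics of a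
maximiser and of its rotation.
-/

set_option autoImplicit false

namespace Pool.Agent.Work.MP_82f4f8_an

lemma isConf_min {n : ℕ} {P : ℝ} {x y : ℤ → ℝ} (hx : IsConf n P x) (hy : IsConf n P y) :
    IsConf n P (fun j => min (x j) (y j)) where
  mono := fun a b hab => by
    have h1 := hx.mono hab
    have h2 := hy.mono hab
    exact lt_min (lt_of_le_of_lt (min_le_left _ _) h1) (lt_of_le_of_lt (min_le_right _ _) h2)
  per := fun j => by
    show min (x (j + n)) (y (j + n)) = min (x j) (y j) + P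
    rw [hx.per, hy.per, min_add_add_right]

lemma isConf_max {n : ℕ} {P : ℝ} {x y : ℤ → ℝ} (hx : IsConf n P x) (hy : IsConf n P y) :
    IsConf n P (fun j => max (x j) (y j)) where
  mono := fun a b hab => by
    have h1 := hx.mono hab
    have h2 := hy.mono hab
    exact max_lt (lt_of_lt_of_le h1 (le_max_left _ _)) (lt_of_lt_of_le h2 (le_max_right _ _))
  per := fun j => by
    show max (x (j + n)) (y (j + n)) = max (x j) (y j) + P
    rw [hx.per, hy.per, max_add_add_right]

lemma IsConf.lt_period {n : ℕ} {P : ℝ} {x : ℤ → ℝ} (hx : IsConf n P x) {j k : ℕ} (hk : k < n) :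
    x (k : ℤ) < x (j : ℤ) + P := by
  rw [← hx.per]
  exact hx.mono (by omega)

/-- exchange inequality for one pair -/
lemma pair_exchange {n : ℕ} {P : ℝ} (W : ℝ → ℝ → ℝ)
    (hW : ∀ t t' s s', t < t' → t' < s → s < s' → s' < t + P → W t s' + W t' s < W t s + W t' s')
    {x y : ℤ → ℝ} (hx : IsConf n P x) (hy : IsConf n P y) {j k : ℕ} (hjk : j < k) (hk : k < n) :
    (W (x j) (x k) + W (y j) (y k) ≤
      W (min (x j) (y j)) (min (x k) (y k)) + W (max (x j) (y j)) (max (x k) (y k))) ∧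
    ((x j < y j ∧ y k < x k) ∨ (y j < x j ∧ x k < y k) →
      W (x j) (x k) + W (y j) (y k) <
      W (min (x j) (y j)) (min (x k) (y k)) + W (max (x j) (y j)) (max (x k) (y k))) := by
  have hjk' : (j : ℤ) < (k : ℤ) := by exact_mod_cast hjk
  have mx := hx.mono hjk'
  have my := hy.mono hjk'
  have px := hx.lt_period (j := j) hk
  have py := hy.lt_period (j := j) hk
  rcases le_total (x j) (y j) with h1 | h1 <;> rcases le_total (x k) (y k) with h2 | h2
  · rw [min_eq_left h1, min_eq_left h2, max_eq_right h1, max_eq_right h2]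
    refine ⟨le_rfl, ?_⟩
    rintro (⟨a, b⟩ | ⟨a, b⟩) <;> linarith
  · rw [min_eq_left h1, min_eq_right h2, max_eq_right h1, max_eq_left h2]
    rcases lt_or_eq_of_le h1 with h3 | h3
    · rcases lt_or_eq_of_le h2 with h4 | h4
      · have := hW (x j) (y j) (y k) (x k) h3 my h4 px
        exact ⟨by linarith, fun _ => by linarith⟩
      · rw [h4]
        refine ⟨le_rfl, ?_⟩
        rintro (⟨a, b⟩ | ⟨a, b⟩) <;> linarith
    · rw [h3]
      refine ⟨by linarith, ?_⟩
      rintro (⟨a, b⟩ | ⟨a, b⟩) <;> linarith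
  · rw [min_eq_right h1, min_eq_left h2, max_eq_left h1, max_eq_right h2]
    rcases lt_or_eq_of_le h1 with h3 | h3
    · rcases lt_or_eq_of_le h2 with h4 | h4
      · have := hW (y j) (x j) (x k) (y k) h3 mx h4 py
        exact ⟨by linarith, fun _ => by linarith⟩
      · rw [h4]
        refine ⟨by linarith, ?_⟩
        rintro (⟨a, b⟩ | ⟨a, b⟩) <;> linarith
    · rw [h3]
      refine ⟨by linarith, ?_⟩
      rintro (⟨a, b⟩ | ⟨a, b⟩) <;> linarith
  · rw [min_eq_right h1, min_eq_right h2, max_eq_left h1, max_eq_left h2]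
    refine ⟨by linarith, ?_⟩
    rintro (⟨a, b⟩ | ⟨a, b⟩) <;> linarith

/-- shift by an integer -/
lemma IsConf.shift {n : ℕ} {P : ℝ} {x : ℤ → ℝ} (hx : IsConf n P x) (k : ℤ) :
    IsConf n P (fun j => x (j + k)) where
  mono := fun a b hab => hx.mono (by omega)
  per := fun j => by
    show x (j + n + k) = x (j + k) + P
    rw [← hx.per]; congr 1; ring

lemma IsConf.per_mul {n : ℕ} {P : ℝ} {x : ℤ → ℝ} (hx : IsConf n P x) (j q : ℤ) :
    x (j + q * n) = x j + q * P := by
  induction q using Int.induction_on with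
  | zero => simp
  | succ i ih =>
    have h := hx.per (j + i * n)
    rw [ih] at h
    have e : j + ((i : ℤ) + 1) * n = j + i * n + n := by ring
    rw [e, h]; push_cast; ring
  | pred i ih =>
    have h := hx.per (j + (-(i : ℤ) - 1) * n)
    have e : j + (-(i : ℤ) - 1) * n + n = j + (-(i : ℤ)) * n := by ring
    rw [e, ih] at h
    push_cast at h ⊢
    linarith

/-- reduce an index modulo `n` -/
lemma exists_index {n : ℕ} {P : ℝ} (hn : 0 < n) {x y : ℤ → ℝ} (hx : IsConf n P x)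
    (hy : IsConf n P y) {j : ℤ} (h : x j < y j) : ∃ a : ℕ, a < n ∧ x a < y a := by
  have hn' : (0 : ℤ) < n := by exact_mod_cast hn
  have h1 := Int.emod_nonneg j hn'.ne'
  have h2 := Int.emod_lt_of_pos j hn'
  have e : j = j % n + (j / n) * n := by
    have := Int.emod_add_mul_ediv j n
    linarith [this]
  refine ⟨(j % n).toNat, ?_, ?_⟩
  · omega
  · have e2 : (((j % n).toNat : ℕ) : ℤ) = j % n := Int.toNat_of_nonneg h1
    rw [e2]
    rw [e, hx.per_mul, hy.per_mul] at h
    linarith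

theorem conf_order {n : ℕ} {P : ℝ} (hn : 0 < n) (W : ℝ → ℝ → ℝ)
    (hW : ∀ t t' s s', t < t' → t' < s → s < s' → s' < t + P → W t s' + W t' s < W t s + W t' s')
    {x y : ℤ → ℝ} (hx : IsConf n P x) (hy : IsConf n P y)
    (hxm : ∀ z, IsConf n P z → energy W n z ≤ energy W n x)
    (hym : ∀ z, IsConf n P z → energy W n z ≤ energy W n y) :
    (∀ j, x j ≤ y j) ∨ (∀ j, y j ≤ x j) := by
  by_contra hcon
  push Not at hcon
  obtain ⟨⟨j0, hj0⟩, ⟨j1, hj1⟩⟩ := hcon
  obtain ⟨a, ha, hxa⟩ := exists_index hn hy hx hj0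
  obtain ⟨b, hb, hxb⟩ := exists_index hn hx hy hj1
  have h1 := hxm _ (isConf_min hx hy)
  have h2 := hym _ (isConf_max hx hy)
  have key : energy W n x + energy W n y <
      energy W n (fun j => min (x j) (y j)) + energy W n (fun j => max (x j) (y j)) := by
    unfold energy
    rw [← Finset.sum_add_distrib, ← Finset.sum_add_distrib]
    simp only [← Finset.sum_add_distrib]
    have hab : a ≠ b := by rintro rfl; linarith
    have hle : ∀ k ∈ Finset.range n, ∀ j ∈ Finset.range k,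
        W (x j) (x k) + W (y j) (y k) ≤
        W (min (x j) (y j)) (min (x k) (y k)) + W (max (x j) (y j)) (max (x k) (y k)) :=
      fun k hk j hj => (pair_exchange W hW hx hy (Finset.mem_range.1 hj) (Finset.mem_range.1 hk)).1
    have hstrict : ∃ k ∈ Finset.range n, ∃ j ∈ Finset.range k,
        W (x j) (x k) + W (y j) (y k) <
        W (min (x j) (y j)) (min (x k) (y k)) + W (max (x j) (y j)) (max (x k) (y k)) := by
      rcases lt_or_gt_of_ne hab with h | h
      · exact ⟨b, Finset.mem_range.2 hb, a, Finset.mem_range.2 h,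
          (pair_exchange W hW hx hy h hb).2 (Or.inr ⟨hxa, hxb⟩)⟩
      · exact ⟨a, Finset.mem_range.2 ha, b, Finset.mem_range.2 h,
          (pair_exchange W hW hx hy h ha).2 (Or.inl ⟨hxb, hxa⟩)⟩
    obtain ⟨k, hk, j, hj, hjk⟩ := hstrict
    exact Finset.sum_lt_sum (fun k hk => Finset.sum_le_sum (hle k hk))
      ⟨k, hk, Finset.sum_lt_sum (hle k hk) ⟨j, hj, hjk⟩⟩
  linarith

/-- shift invariance of the energy -/
lemma energy_shift_one {n : ℕ} {P : ℝ} (hn : 0 < n) (W : ℝ → ℝ → ℝ)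
    (hsymm : ∀ t s, W t s = W s t) (hper : ∀ t s, W t (s + P) = W t s)
    {x : ℤ → ℝ} (hx : IsConf n P x) : energy W n (fun j => x (j + 1)) = energy W n x := by
  obtain ⟨m, rfl⟩ : ∃ m, n = m + 1 := ⟨n - 1, by omega⟩
  unfold energy
  rw [Finset.sum_range_succ, Finset.sum_range_succ' (fun k => ∑ j ∈ Finset.range k, W (x j) (x k)),
    Finset.sum_range_zero, add_zero]
  have h1 : ∀ k ∈ Finset.range m, ∑ j ∈ Finset.range (k + 1), W (x (j : ℤ)) (x ((k + 1 : ℕ) : ℤ))
      = ∑ j ∈ Finset.range k, W (x ((j : ℤ) + 1)) (x ((k : ℤ) + 1)) + W (x 0) (x ((k : ℤ) + 1)) := by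
    intro k _
    rw [Finset.sum_range_succ']
    push_cast
    rfl
  rw [Finset.sum_congr rfl h1, Finset.sum_add_distrib]
  congr 1
  refine Finset.sum_congr rfl (fun j _ => ?_)
  have h2 := hx.per 0
  have e : ((m : ℤ) + 1) = 0 + ((m + 1 : ℕ) : ℤ) := by push_cast; ring
  show W (x ((j : ℤ) + 1)) (x ((m : ℤ) + 1)) = W (x 0) (x ((j : ℤ) + 1))
  rw [e, h2, hper, hsymm]

lemma energy_shift {n : ℕ} {P : ℝ} (hn : 0 < n) (W : ℝ → ℝ → ℝ)
    (hsymm : ∀ t s, W t s = W s t) (hper : ∀ t s, W t (s + P) = W t s)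
    {x : ℤ → ℝ} (hx : IsConf n P x) (k : ℤ) : energy W n (fun j => x (j + k)) = energy W n x := by
  induction k using Int.induction_on with
  | zero => simp
  | succ i ih =>
    rw [← ih, ← energy_shift_one hn W hsymm hper (hx.shift i)]
    congr 1
    funext j
    congr 1
    ring
  | pred i ih =>
    rw [← ih, ← energy_shift_one hn W hsymm hper (hx.shift (-(i : ℤ) - 1))]
    congr 1
    funext j
    congr 1
    ring

lemma sum_shift {n : ℕ} (h : ℤ → ℝ) (hh : ∀ j, h (j + n) = h j) (k : ℤ) :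
    ∑ j ∈ Finset.range n, h ((j : ℤ) + k) = ∑ j ∈ Finset.range n, h (j : ℤ) := by
  have key : ∀ k : ℤ, ∑ j ∈ Finset.range n, h ((j : ℤ) + (k + 1))
      = ∑ j ∈ Finset.range n, h ((j : ℤ) + k) := by
    intro k
    have h1 := Finset.sum_range_succ (fun j : ℕ => h ((j : ℤ) + k)) n
    have h2 := Finset.sum_range_succ' (fun j : ℕ => h ((j : ℤ) + k)) n
    rw [h1] at h2
    have e1 : h ((n : ℤ) + k) = h k := by rw [add_comm, hh]
    have e2 : ∑ j ∈ Finset.range n, h (((j + 1 : ℕ) : ℤ) + k)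
        = ∑ j ∈ Finset.range n, h ((j : ℤ) + (k + 1)) := by
      refine Finset.sum_congr rfl (fun j _ => ?_)
      congr 1
      push_cast; ring
    rw [e1, e2] at h2
    simp only [Nat.cast_zero, zero_add] at h2
    linarith
  induction k using Int.induction_on with
  | zero => simp
  | succ i ih => rw [key, ih]
  | pred i ih =>
    rw [← ih, ← key (-(i : ℤ) - 1)]
    simp

theorem rot_stat {n : ℕ} {P c L : ℝ} (hn : 0 < n) (hP : 0 < P) (hc : 0 < c) (W : ℝ → ℝ → ℝ)
    (hsymm : ∀ t s, W t s = W s t) (hper : ∀ t s, W t (s + P) = W t s)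
    (hrot : ∀ t s, W (t + c) (s + c) = W t s)
    (hW : ∀ t t' s s', t < t' → t' < s → s < s' → s' < t + P → W t s' + W t' s < W t s + W t' s')
    {x : ℤ → ℝ} (hx : IsConf n P x)
    (hxm : ∀ z, IsConf n P z → energy W n z ≤ energy W n x)
    {f : ℝ → ℝ} (hf : ∀ s t, |f s - f t| ≤ L * |s - t|) (hfper : ∀ t, f (t + P) = f t) :
    |∑ j ∈ Finset.range n, f (x (j : ℤ)) - ∑ j ∈ Finset.range n, f (x (j : ℤ) + c)| ≤ L * P := by
  have hL : 0 ≤ L := by
    have h1 := hf 1 0
    have h2 := abs_nonneg (f 1 - f 0)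
    simp at h1
    linarith
  -- the rotated configuration
  set y : ℤ → ℝ := fun j => x j + c with hy
  have hyc : IsConf n P y := ⟨fun a b hab => by
    have := hx.mono hab
    show x a + c < x b + c
    linarith, fun j => by
    show x (j + n) + c = x j + c + P
    rw [hx.per]; ring⟩
  have hey : energy W n y = energy W n x := by
    unfold energy
    refine Finset.sum_congr rfl (fun k _ => Finset.sum_congr rfl (fun j _ => ?_))
    exact hrot _ _
  have hym : ∀ z, IsConf n P z → energy W n z ≤ energy W n y := by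
    intro z hz
    have hz' : IsConf n P (fun j => z j - c) := ⟨fun a b hab => by
      have := hz.mono hab
      show z a - c < z b - c
      linarith, fun j => by
      show z (j + n) - c = z j - c + P
      rw [hz.per]; ring⟩
    have h1 := hxm _ hz'
    have h2 : energy W n (fun j => z j - c) = energy W n z := by
      unfold energy
      refine Finset.sum_congr rfl (fun k _ => Finset.sum_congr rfl (fun j _ => ?_))
      rw [← hrot (z j - c) (z k - c), sub_add_cancel, sub_add_cancel]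
    rw [hey, ← h2]; exact h1
  have hdich : ∀ k : ℤ, (∀ j, x j ≤ y (j + k)) ∨ (∀ j, y (j + k) ≤ x j) := by
    intro k
    refine conf_order hn W hW hx (hyc.shift k) hxm (fun z hz => ?_)
    rw [energy_shift hn W hsymm hper hyc k]
    exact hym z hz
  -- the least shift
  obtain ⟨q, hq⟩ := exists_nat_gt (c / P)
  have hq' : c < q * P := by rwa [div_lt_iff₀ hP] at hq
  have hbdd : ∀ k : ℤ, (∀ j, x j ≤ y (j + k)) → -((q : ℤ) * n) ≤ k := by
    intro k hk
    by_contra hlt
    push Not at hlt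
    have h1 := hk 0
    have h2 : y (0 + k) < y (0 + (-(q : ℤ)) * n) := hyc.mono (by
      have e : -(q : ℤ) * n = -((q : ℤ) * n) := by ring
      rw [e]; omega)
    rw [hyc.per_mul] at h2
    have h3 : y 0 = x 0 + c := rfl
    rw [h3] at h2
    push_cast at h2
    linarith
  obtain ⟨k0, hk0, hmin⟩ := Int.exists_least_of_bdd (P := fun k : ℤ => ∀ j, x j ≤ y (j + k))
    ⟨-((q : ℤ) * n), hbdd⟩ ⟨0, fun j => by
      rw [add_zero]
      show x j ≤ x j + c
      linarith⟩
  have hk1 : ∀ j, y (j + (k0 - 1)) ≤ x j := by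
    rcases hdich (k0 - 1) with h | h
    · have := hmin _ h
      omega
    · exact h
  -- compare the sums
  have hsum : ∑ j ∈ Finset.range n, f (x (j : ℤ) + c)
      = ∑ j ∈ Finset.range n, f (y ((j : ℤ) + (k0 - 1))) := by
    have := sum_shift (n := n) (fun j => f (y j)) (fun j => by
      show f (y (j + n)) = f (y j)
      rw [hyc.per, hfper]) (k0 - 1)
    rw [this]
  rw [hsum, ← Finset.sum_sub_distrib]
  refine (Finset.abs_sum_le_sum_abs _ _).trans ?_
  have h1 : ∀ j ∈ Finset.range n, |f (x (j : ℤ)) - f (y ((j : ℤ) + (k0 - 1)))|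
      ≤ L * (y (((j + 1 : ℕ) : ℤ) + (k0 - 1)) - y ((j : ℤ) + (k0 - 1))) := by
    intro j _
    refine (hf _ _).trans (mul_le_mul_of_nonneg_left ?_ hL)
    have a1 := hk1 j
    have a2 := hk0 j
    rw [abs_of_nonneg (by linarith)]
    have e : (((j + 1 : ℕ) : ℤ) + (k0 - 1)) = (j : ℤ) + k0 := by push_cast; ring
    rw [e]
    linarith
  refine (Finset.sum_le_sum h1).trans ?_
  rw [← Finset.mul_sum, Finset.sum_range_sub (fun j : ℕ => y ((j : ℤ) + (k0 - 1)))]
  have e : ((n : ℤ) + (k0 - 1)) = (k0 - 1) + n := by ring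
  rw [e, hyc.per]
  simp

end Pool.Agent.Work.MP_82f4f8_an

end

section

/-!
Harmonic measure of the open square as a bounded density in the parameter of `zeta`
(Hahn-Banach, Riesz-Markov-Kakutani and comparison with a half plane).
-/

set_option autoImplicit false

noncomputable section

namespace Pool.Agent.Work.MP_82f4f8_an

open Real MeasureTheory Set Filter Topology
open scoped ENNReal

namespace IntRep

/-- the open square -/
def Sq : Set ℂ := {w | max |w.re| |w.im| < aa}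

/-- the closed square -/
def CSq : Set ℂ := {w | max |w.re| |w.im| ≤ aa}

lemma cont_max : Continuous fun w : ℂ => max |w.re| |w.im| := by fun_prop

lemma isOpen_Sq : IsOpen Sq := isOpen_lt cont_max continuous_const

lemma isClosed_CSq : IsClosed CSq := isClosed_le cont_max continuous_const

lemma Sq_sub : Sq ⊆ CSq := fun w (hw : max |w.re| |w.im| < aa) => le_of_lt hw

lemma closure_Sq : closure Sq ⊆ CSq := closure_minimal Sq_sub isClosed_CSq

lemma frontier_Sq : frontier Sq ⊆ Gam := by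
  intro w hw
  rw [frontier, isOpen_Sq.interior_eq] at hw
  have h1 : max |w.re| |w.im| ≤ aa := closure_Sq hw.1
  have h2 : ¬ (max |w.re| |w.im| < aa) := hw.2
  exact le_antisymm h1 (not_lt.1 h2)

lemma bdd_Sq : Bornology.IsBounded Sq := by
  rw [isBounded_iff_forall_norm_le]
  refine ⟨aa + aa, fun w (hw : max |w.re| |w.im| < aa) => ?_⟩
  have h1 := Complex.norm_le_abs_re_add_abs_im w
  have h2 := le_max_left |w.re| |w.im|
  have h3 := le_max_right |w.re| |w.im|
  linarith

lemma zeta_CSq (t : ℝ) : zeta t ∈ CSq := by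
  have : max |(zeta t).re| |(zeta t).im| = aa := zeta_mem t
  exact this.le

/-- the parameter space -/
abbrev XX := Set.Icc (0:ℝ) (2 * π)

lemma exists_param {w : ℂ} (hw : w ∈ Gam) : ∃ s : XX, zeta s = w := by
  obtain ⟨t, rfl⟩ := zeta_surj hw
  have hp : (0:ℝ) < 2 * π := by positivity
  have hper : Function.Periodic zeta (2 * π) := zeta_two_pi
  obtain ⟨y, hy, hyt⟩ := hper.exists_mem_Ico₀ hp t
  exact ⟨⟨y, hy.1, hy.2.le⟩, hyt.symm⟩

/-- admissible analytic functions -/
def AA (F : ℂ → ℂ) : Prop := ContinuousOn F CSq ∧ DifferentiableOn ℂ F Sq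

lemma AA.diffContOnCl {F : ℂ → ℂ} (hF : AA F) : DiffContOnCl ℂ F Sq :=
  ⟨hF.2, hF.1.mono closure_Sq⟩

lemma min_principle {F : ℂ → ℂ} (hF : AA F) {m : ℝ} (h : ∀ s : XX, m ≤ (F (zeta s)).re) {z : ℂ}
    (hz : z ∈ Sq) : m ≤ (F z).re := by
  have h1 : DiffContOnCl ℂ (fun w => Complex.exp (-F w)) Sq := by
    refine ⟨hF.2.neg.cexp, ?_⟩
    exact (hF.1.mono closure_Sq).neg.cexp
  have h2 := Complex.norm_le_of_forall_mem_frontier_norm_le bdd_Sq h1 (C := Real.exp (-m)) (by
    intro w hw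
    obtain ⟨s, hs⟩ := exists_param (frontier_Sq hw)
    rw [Complex.norm_exp]
    apply Real.exp_le_exp.2
    rw [Complex.neg_re, ← hs]
    linarith [h s]) (subset_closure hz)
  rw [Complex.norm_exp, Real.exp_le_exp, Complex.neg_re] at h2
  linarith

/-- upper envelope functional -/
def qq (z : ℂ) (f : C(XX, ℝ)) : ℝ := sInf {x | ∃ F, AA F ∧ (∀ s : XX, f s ≤ (F (zeta s)).re) ∧ x = (F z).re}

lemma AA_const (c : ℂ) : AA (fun _ => c) := ⟨continuousOn_const, differentiableOn_const c⟩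

lemma qq_nonempty (z : ℂ) (f : C(XX, ℝ)) :
    {x | ∃ F, AA F ∧ (∀ s : XX, f s ≤ (F (zeta s)).re) ∧ x = (F z).re}.Nonempty := by
  refine ⟨_, fun _ => ((‖f‖ : ℝ) : ℂ), AA_const _, ?_, rfl⟩
  intro s
  rw [Complex.ofReal_re]
  exact le_trans (le_abs_self _) (f.norm_coe_le_norm s)

lemma qq_bdd {z : ℂ} (hz : z ∈ Sq) (f : C(XX, ℝ)) :
    BddBelow {x | ∃ F, AA F ∧ (∀ s : XX, f s ≤ (F (zeta s)).re) ∧ x = (F z).re} := by
  refine ⟨-‖f‖, ?_⟩
  rintro x ⟨F, hF, h1, rfl⟩
  apply min_principle hF _ hz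
  intro s
  refine le_trans ?_ (h1 s)
  have := f.norm_coe_le_norm s
  rw [Real.norm_eq_abs] at this
  linarith [neg_abs_le (f s)]

lemma qq_le {z : ℂ} (hz : z ∈ Sq) {f : C(XX, ℝ)} {F : ℂ → ℂ} (hF : AA F)
    (h : ∀ s : XX, f s ≤ (F (zeta s)).re) : qq z f ≤ (F z).re :=
  csInf_le (qq_bdd hz f) ⟨F, hF, h, rfl⟩

lemma AA_add {F G : ℂ → ℂ} (hF : AA F) (hG : AA G) : AA (fun w => F w + G w) :=
  ⟨hF.1.add hG.1, hF.2.add hG.2⟩

lemma AA_smul {F : ℂ → ℂ} (hF : AA F) (c : ℂ) : AA (fun w => c * F w) :=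
  ⟨continuousOn_const.mul hF.1, hF.2.const_mul c⟩

lemma qq_add {z : ℂ} (hz : z ∈ Sq) (f g : C(XX, ℝ)) : qq z (f + g) ≤ qq z f + qq z g := by
  apply le_of_forall_pos_lt_add
  intro ε hε
  obtain ⟨x, ⟨F, hF, h1, rfl⟩, hx⟩ := exists_lt_of_csInf_lt (qq_nonempty z f)
    (show qq z f < qq z f + ε / 2 by linarith)
  obtain ⟨y, ⟨G, hG, h2, rfl⟩, hy⟩ := exists_lt_of_csInf_lt (qq_nonempty z g)
    (show qq z g < qq z g + ε / 2 by linarith)
  have h3 := qq_le hz (f := f + g) (AA_add hF hG) (fun s => by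
    rw [Complex.add_re, ContinuousMap.add_apply]
    linarith [h1 s, h2 s])
  rw [Complex.add_re] at h3
  linarith

lemma qq_smul_le {z : ℂ} (hz : z ∈ Sq) {c : ℝ} (hc : 0 < c) (f : C(XX, ℝ)) :
    qq z (c • f) ≤ c * qq z f := by
  apply le_of_forall_pos_lt_add
  intro ε hε
  obtain ⟨x, ⟨F, hF, h1, rfl⟩, hx⟩ := exists_lt_of_csInf_lt (qq_nonempty z f)
    (show qq z f < qq z f + ε / c by linarith [div_pos hε hc])
  have h3 := qq_le hz (f := c • f) (AA_smul hF (c : ℂ)) (fun s => by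
    rw [Complex.re_ofReal_mul, ContinuousMap.smul_apply, smul_eq_mul]
    exact mul_le_mul_of_nonneg_left (h1 s) hc.le)
  rw [Complex.re_ofReal_mul] at h3
  have h4 : c * (F z).re < c * (qq z f + ε / c) := mul_lt_mul_of_pos_left hx hc
  rw [mul_add, mul_div_cancel₀ _ hc.ne'] at h4
  linarith

lemma qq_smul {z : ℂ} (hz : z ∈ Sq) {c : ℝ} (hc : 0 < c) (f : C(XX, ℝ)) :
    qq z (c • f) = c * qq z f := by
  apply le_antisymm (qq_smul_le hz hc f)
  have h1 := qq_smul_le hz (inv_pos.2 hc) (c • f)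
  rw [smul_smul, inv_mul_cancel₀ hc.ne', one_smul] at h1
  have h2 := mul_le_mul_of_nonneg_left h1 hc.le
  rwa [← mul_assoc, mul_inv_cancel₀ hc.ne', one_mul] at h2

/-- restriction of the real part -/
def res (F : ℂ → ℂ) (hF : AA F) : C(XX, ℝ) :=
  ⟨fun s => (F (zeta s)).re, by
    apply Complex.continuous_re.comp
    exact hF.1.comp_continuous (cont_zeta.comp continuous_subtype_val) (fun s => zeta_CSq s)⟩

lemma exists_functional {z : ℂ} (hz : z ∈ Sq) : ∃ φ : C(XX, ℝ) →ₗ[ℝ] ℝ,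
    (∀ f : C(XX, ℝ), 0 ≤ f → 0 ≤ φ f) ∧ ∀ F (hF : AA F), φ (res F hF) = (F z).re := by
  have h0 : 0 ≤ qq z 0 := by
    apply le_csInf (qq_nonempty z 0)
    rintro x ⟨F, hF, h1, rfl⟩
    exact min_principle hF (fun s => h1 s) hz
  obtain ⟨φ, -, hφ⟩ := exists_extension_of_le_sublinear (⊥ : C(XX, ℝ) →ₗ.[ℝ] ℝ) (qq z)
    (fun c hc f => qq_smul hz hc f) (qq_add hz) (by
      intro x
      have hx : (x : C(XX, ℝ)) = 0 := (Submodule.mem_bot ℝ).1 x.2
      have hx' : x = 0 := Subtype.ext hx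
      rw [hx', LinearPMap.map_zero]
      exact h0)
  refine ⟨φ, ?_, ?_⟩
  · intro f hf
    have h1 := hφ (-f)
    have h2 := qq_le hz (f := -f) (AA_const 0) (fun s => by
      have : 0 ≤ f s := hf s
      simp only [ContinuousMap.neg_apply, Complex.zero_re]
      linarith)
    rw [map_neg] at h1
    simp only [Complex.zero_re] at h2
    linarith
  · intro F hF
    apply le_antisymm
    · exact le_trans (hφ _) (qq_le hz hF (fun s => le_rfl))
    · have h1 := hφ (-(res F hF))
      have h2 := qq_le hz (f := -(res F hF)) (AA_smul hF (-1)) (fun s => by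
        simp [res])
      rw [map_neg] at h1
      simp only [neg_mul, one_mul, Complex.neg_re] at h2
      linarith

/-- the harmonic measure on the parameter space -/
lemma exists_measure {z : ℂ} (hz : z ∈ Sq) : ∃ μ : Measure XX, IsFiniteMeasure μ ∧
    ∀ F, AA F → ∫ s : XX, (F (zeta s)).re ∂μ = (F z).re := by
  obtain ⟨φ, hpos, hφ⟩ := exists_functional hz
  let L : CompactlySupportedContinuousMap XX ℝ →ₗ[ℝ] ℝ :=
    { toFun := fun f => φ f.toContinuousMap
      map_add' := fun f g => by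
        have : (f + g).toContinuousMap = f.toContinuousMap + g.toContinuousMap := rfl
        rw [this, map_add]
      map_smul' := fun c f => by
        have : (c • f).toContinuousMap = c • f.toContinuousMap := rfl
        rw [this, map_smul]
        rfl }
  have hL : ∀ f, 0 ≤ f → 0 ≤ L f := fun f hf => hpos _ (fun s => hf s)
  let Λ := PositiveLinearMap.mk₀ L hL
  refine ⟨RealRMK.rieszMeasure Λ, inferInstance, ?_⟩
  intro F hF
  have h1 := RealRMK.integral_rieszMeasure Λ
    (CompactlySupportedContinuousMap.continuousMapEquiv (res F hF))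
  have h2 : Λ (CompactlySupportedContinuousMap.continuousMapEquiv (res F hF)) = φ (res F hF) := rfl
  rw [h2, hφ F hF] at h1
  rw [← h1]
  rfl

/-- rotations preserve the closed square -/
lemma rot_CSq {w : ℂ} (k : ℤ) (hw : w ∈ CSq) : Complex.I ^ k * w ∈ CSq := by
  have h : max |w.re| |w.im| ≤ aa := hw
  show max |(Complex.I ^ k * w).re| |(Complex.I ^ k * w).im| ≤ aa
  rwa [I_zpow_mul_gam]

lemma re_le_of_CSq {w : ℂ} (hw : w ∈ CSq) : w.re ≤ aa :=
  le_trans (le_abs_self _) (le_trans (le_max_left _ _) hw)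

lemma re_rot_le {w : ℂ} (k : ℤ) (hw : w ∈ CSq) : (Complex.I ^ k * w).re ≤ aa :=
  re_le_of_CSq (rot_CSq k hw)

/-- test function for the density bound -/
def tf (k : ℤ) (y r : ℝ) (w : ℂ) : ℂ := (((aa + r : ℝ) : ℂ) + Complex.I * (y : ℂ) - Complex.I ^ k * w)⁻¹

lemma tf_re (k : ℤ) (y r : ℝ) (w : ℂ) :
    (((aa + r : ℝ) : ℂ) + Complex.I * (y : ℂ) - Complex.I ^ k * w).re
      = aa + r - (Complex.I ^ k * w).re := by
  simp

lemma tf_im (k : ℤ) (y r : ℝ) (w : ℂ) :
    (((aa + r : ℝ) : ℂ) + Complex.I * (y : ℂ) - Complex.I ^ k * w).im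
      = y - (Complex.I ^ k * w).im := by
  simp

lemma tf_ne {k : ℤ} {y r : ℝ} (hr : 0 < r) {w : ℂ} (hw : w ∈ CSq) :
    (((aa + r : ℝ) : ℂ) + Complex.I * (y : ℂ) - Complex.I ^ k * w) ≠ 0 := by
  intro h
  have h1 := tf_re k y r w
  rw [h, Complex.zero_re] at h1
  linarith [re_rot_le k hw]

lemma tf_AA (k : ℤ) (y : ℝ) {r : ℝ} (hr : 0 < r) : AA (tf k y r) := by
  constructor
  · apply ContinuousOn.inv₀
    · fun_prop
    · exact fun w hw => tf_ne hr hw
  · apply DifferentiableOn.inv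
    · fun_prop
    · exact fun w hw => tf_ne hr (Sq_sub hw)

lemma tf_nonneg (k : ℤ) (y : ℝ) {r : ℝ} (hr : 0 < r) {w : ℂ} (hw : w ∈ CSq) :
    0 ≤ (tf k y r w).re := by
  rw [tf, Complex.inv_re, tf_re]
  apply div_nonneg _ (Complex.normSq_nonneg _)
  linarith [re_rot_le k hw]

lemma tf_large (k : ℤ) (y : ℝ) {r : ℝ} (hr : 0 < r) {w : ℂ} (h1 : (Complex.I ^ k * w).re = aa)
    (h2 : |(Complex.I ^ k * w).im - y| ≤ r) : 1 / (2 * r) ≤ (tf k y r w).re := by
  rw [tf, Complex.inv_re, tf_re, Complex.normSq_apply, tf_re, tf_im, h1]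
  have h3 : aa + r - aa = r := by ring
  rw [h3]
  have h4 : (y - (Complex.I ^ k * w).im) * (y - (Complex.I ^ k * w).im) ≤ r * r := by
    rw [abs_le] at h2
    nlinarith [h2.1, h2.2]
  have h5 : 0 ≤ (y - (Complex.I ^ k * w).im) * (y - (Complex.I ^ k * w).im) := mul_self_nonneg _
  rw [div_le_div_iff₀ (by positivity) (by positivity)]
  nlinarith

lemma tf_small (k : ℤ) (y : ℝ) {r δ : ℝ} (hr : 0 < r) (hδ : 0 < δ) {z : ℂ}
    (hz : max |z.re| |z.im| ≤ aa - δ) : (tf k y r z).re ≤ 1 / δ := by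
  refine le_trans (Complex.re_le_norm _) ?_
  rw [tf, norm_inv, ← one_div]
  apply one_div_le_one_div_of_le hδ
  refine le_trans ?_ (Complex.re_le_norm _)
  rw [tf_re]
  have h1 : max |(Complex.I ^ k * z).re| |(Complex.I ^ k * z).im| ≤ aa - δ := by
    rwa [I_zpow_mul_gam]
  have h2 := le_trans (le_abs_self _) (le_trans (le_max_left _ _) h1)
  linarith

lemma continuous_zX : Continuous fun s : XX => zeta s := cont_zeta.comp continuous_subtype_val

/-- bound for the part of the measure on one side -/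
lemma side_bound {z : ℂ} {δ : ℝ} (hδ : 0 < δ) (hz : max |z.re| |z.im| ≤ aa - δ) {μ : Measure XX}
    [IsFiniteMeasure μ] (hμ : ∀ F, AA F → ∫ s : XX, (F (zeta s)).re ∂μ = (F z).re) (k : ℤ) (y : ℝ)
    {r : ℝ} (hr : 0 < r) :
    μ {s : XX | (Complex.I ^ k * zeta s).re = aa ∧ |(Complex.I ^ k * zeta s).im - y| ≤ r} ≤
      ENNReal.ofReal (2 * r / δ) := by
  set A := {s : XX | (Complex.I ^ k * zeta s).re = aa ∧ |(Complex.I ^ k * zeta s).im - y| ≤ r}
    with hA
  have hcz := continuous_zX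
  have hmA : MeasurableSet A := by
    apply IsClosed.measurableSet
    have hcr : Continuous fun s : XX => Complex.I ^ k * zeta s := continuous_const.mul hcz
    apply IsClosed.inter
    · exact isClosed_eq (Complex.continuous_re.comp hcr) continuous_const
    · exact isClosed_le ((Complex.continuous_im.comp hcr).sub continuous_const).abs continuous_const
  have hint : Integrable (fun s : XX => (tf k y r (zeta s)).re) μ := by
    have hc : Continuous fun s : XX => (tf k y r (zeta s)).re :=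
      Complex.continuous_re.comp
        ((tf_AA k y hr).1.comp_continuous hcz (fun s => zeta_CSq s))
    exact hc.integrable_of_hasCompactSupport (HasCompactSupport.of_compactSpace _)
  have h1 : (μ A).toReal * (1 / (2 * r)) ≤ 1 / δ := by
    calc (μ A).toReal * (1 / (2 * r)) = ∫ s in A, (1 / (2 * r)) ∂μ := by
          rw [setIntegral_const, smul_eq_mul]; rfl
      _ ≤ ∫ s in A, (tf k y r (zeta s)).re ∂μ := by
          apply setIntegral_mono_on (integrable_const _).integrableOn hint.integrableOn hmA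
          intro s hs
          exact tf_large k y hr hs.1 hs.2
      _ ≤ ∫ s : XX, (tf k y r (zeta s)).re ∂μ := by
          apply setIntegral_le_integral hint
          exact Filter.Eventually.of_forall fun s => tf_nonneg k y hr (zeta_CSq s)
      _ = (tf k y r z).re := hμ _ (tf_AA k y hr)
      _ ≤ 1 / δ := tf_small k y hr hδ hz
  rw [← ENNReal.ofReal_toReal (measure_ne_top μ A)]
  apply ENNReal.ofReal_le_ofReal
  rw [mul_one_div, div_le_div_iff₀ (by positivity) hδ] at h1
  rw [le_div_iff₀ hδ]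
  linarith

/-- every boundary point of the parameter space lies on one of five sides -/
lemma exists_side5 (s : XX) : ∃ k ∈ Finset.range 5, (Complex.I ^ (-(k : ℤ)) * zeta s).re = aa := by
  have hp := pi_pos
  obtain ⟨k, τ, h1, h2, h3⟩ := exists_side s
  have hs1 := s.2.1
  have hs2 := s.2.2
  have hk0 : (-1 : ℤ) < k := by
    by_contra hcon
    have : (k : ℝ) ≤ -1 := by exact_mod_cast not_lt.1 hcon
    nlinarith
  have hk5 : k < 5 := by
    by_contra hcon
    have : (5 : ℝ) ≤ k := by exact_mod_cast not_lt.1 hcon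
    nlinarith
  refine ⟨k.toNat, Finset.mem_range.2 (by omega), ?_⟩
  have hk : ((k.toNat : ℕ) : ℤ) = k := Int.toNat_of_nonneg (by omega)
  rw [hk, h3, zeta_add_int, ← mul_assoc, ← zpow_add₀ Complex.I_ne_zero, neg_add_cancel, zpow_zero,
    one_mul, zeta_side (abs_le.2 ⟨h1, h2.le⟩)]
  simp

/-- bound for the measure of a set of given diameter -/
lemma diam_bound {z : ℂ} {δ : ℝ} (hδ : 0 < δ) (hz : max |z.re| |z.im| ≤ aa - δ) {μ : Measure XX}
    [IsFiniteMeasure μ] (hμ : ∀ F, AA F → ∫ s : XX, (F (zeta s)).re ∂μ = (F z).re) (S : Set XX)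
    {d : ℝ} (hd : 0 < d) (hS : ∀ s ∈ S, ∀ t ∈ S, |(s : ℝ) - t| ≤ d) :
    μ S ≤ ENNReal.ofReal (20 / δ * d) := by
  have hcov : S ⊆ ⋃ k ∈ Finset.range 5, {s : XX | s ∈ S ∧ (Complex.I ^ (-(k : ℤ)) * zeta s).re = aa} := by
    intro s hs
    obtain ⟨k, hk, h⟩ := exists_side5 s
    simp only [Set.mem_iUnion]
    exact ⟨k, hk, hs, h⟩
  have hk : ∀ k ∈ Finset.range 5,
      μ {s : XX | s ∈ S ∧ (Complex.I ^ (-(k : ℤ)) * zeta s).re = aa} ≤ ENNReal.ofReal (4 / δ * d) := by
    intro k _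
    rcases Set.eq_empty_or_nonempty {s : XX | s ∈ S ∧ (Complex.I ^ (-(k : ℤ)) * zeta s).re = aa}
      with h | ⟨s₀, hs₀, hs₀'⟩
    · rw [h]; simp
    · have h1 := side_bound hδ hz hμ (-(k : ℤ)) (Complex.I ^ (-(k : ℤ)) * zeta s₀).im
        (r := 2 * d) (by positivity)
      refine le_trans (measure_mono ?_) (le_trans h1 ?_)
      · rintro s ⟨hs, hs'⟩
        refine ⟨hs', ?_⟩
        have h2 : (Complex.I ^ (-(k : ℤ)) * zeta s).im - (Complex.I ^ (-(k : ℤ)) * zeta s₀).im
            = (Complex.I ^ (-(k : ℤ)) * (zeta s - zeta s₀)).im := by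
          rw [mul_sub, Complex.sub_im]
        rw [h2]
        refine le_trans (Complex.abs_im_le_norm _) ?_
        rw [norm_I_zpow_mul]
        refine le_trans (zeta_lip _ _) ?_
        have h4 : Real.sqrt 2 ≤ 2 := by
          rw [Real.sqrt_le_left (by norm_num)]; norm_num
        exact mul_le_mul h4 (hS s hs s₀ hs₀) (abs_nonneg _) (by norm_num)
      · apply ENNReal.ofReal_le_ofReal
        apply le_of_eq
        ring
  calc μ S ≤ μ (⋃ k ∈ Finset.range 5,
        {s : XX | s ∈ S ∧ (Complex.I ^ (-(k : ℤ)) * zeta s).re = aa}) := measure_mono hcov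
    _ ≤ ∑ k ∈ Finset.range 5, μ {s : XX | s ∈ S ∧ (Complex.I ^ (-(k : ℤ)) * zeta s).re = aa} :=
        measure_biUnion_finset_le _ _
    _ ≤ ∑ k ∈ Finset.range 5, ENNReal.ofReal (4 / δ * d) := Finset.sum_le_sum hk
    _ = ENNReal.ofReal (20 / δ * d) := by
        rw [Finset.sum_const, Finset.card_range, nsmul_eq_mul]
        rw [show ((5 : ℕ) : ℝ≥0∞) = ENNReal.ofReal 5 by simp]
        rw [← ENNReal.ofReal_mul (by norm_num)]
        congr 1
        ring

/-- the harmonic measure, on the line -/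
lemma map_le {z : ℂ} {δ : ℝ} (hδ : 0 < δ) (hz : max |z.re| |z.im| ≤ aa - δ) {μ : Measure XX}
    [IsFiniteMeasure μ] (hμ : ∀ F, AA F → ∫ s : XX, (F (zeta s)).re ∂μ = (F z).re) :
    μ.map ((↑) : XX → ℝ) ≤ ENNReal.ofReal (20 / δ) • volume := by
  have hC : 0 < 20 / δ := by positivity
  have hC0 : ENNReal.ofReal (20 / δ) ≠ 0 := by
    rw [Ne, ENNReal.ofReal_eq_zero, not_le]; exact hC
  have hCt : ENNReal.ofReal (20 / δ) ≠ ∞ := ENNReal.ofReal_ne_top
  have hme : MeasurableEmbedding ((↑) : XX → ℝ) := MeasurableEmbedding.subtype_coe measurableSet_Icc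
  have h1 : (ENNReal.ofReal (20 / δ))⁻¹ • μ.map ((↑) : XX → ℝ) ≤ Measure.hausdorffMeasure 1 := by
    apply Measure.le_hausdorffMeasure 1 _ 1 (by norm_num)
    intro s hs
    rw [ENNReal.rpow_one, Measure.smul_apply, smul_eq_mul, hme.map_apply]
    set D := Metric.ediam s with hD
    have hDt : D ≠ ∞ := ne_top_of_le_ne_top ENNReal.one_ne_top hs
    have h2 : ∀ d : ℝ, D.toReal < d → μ (((↑) : XX → ℝ) ⁻¹' s) ≤ ENNReal.ofReal (20 / δ * d) := by
      intro d hd
      apply diam_bound hδ hz hμ _ (lt_of_le_of_lt ENNReal.toReal_nonneg hd)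
      intro a ha b hb
      have h3 : edist (a : ℝ) b ≤ D := Metric.edist_le_ediam_of_mem ha hb
      have h4 := ENNReal.toReal_mono hDt h3
      rw [← dist_edist, Real.dist_eq] at h4
      linarith
    have h3 : μ (((↑) : XX → ℝ) ⁻¹' s) ≤ ENNReal.ofReal (20 / δ * D.toReal) := by
      rw [← ENNReal.ofReal_toReal (measure_ne_top μ (((↑) : XX → ℝ) ⁻¹' s))]
      apply ENNReal.ofReal_le_ofReal
      rw [mul_comm, ← div_le_iff₀ hC]
      apply le_of_forall_gt_imp_ge_of_dense
      intro d hd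
      have h4 := h2 d hd
      have hd0 : 0 < d := lt_of_le_of_lt ENNReal.toReal_nonneg hd
      have h5 := ENNReal.toReal_mono ENNReal.ofReal_ne_top h4
      rw [ENNReal.toReal_ofReal (by positivity)] at h5
      rw [div_le_iff₀ hC]
      linarith
    calc (ENNReal.ofReal (20 / δ))⁻¹ * μ (((↑) : XX → ℝ) ⁻¹' s)
        ≤ (ENNReal.ofReal (20 / δ))⁻¹ * ENNReal.ofReal (20 / δ * D.toReal) := by gcongr
      _ = (ENNReal.ofReal (20 / δ))⁻¹ * (ENNReal.ofReal (20 / δ) * D) := by
          rw [ENNReal.ofReal_mul hC.le, ENNReal.ofReal_toReal hDt]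
      _ = D := by
          rw [← mul_assoc, ENNReal.inv_mul_cancel hC0 hCt, one_mul]
  rw [hausdorffMeasure_real] at h1
  intro s
  have h2 := h1 s
  rw [Measure.smul_apply, smul_eq_mul] at h2 ⊢
  calc μ.map ((↑) : XX → ℝ) s = ENNReal.ofReal (20 / δ) *
        ((ENNReal.ofReal (20 / δ))⁻¹ * μ.map ((↑) : XX → ℝ) s) := by
        rw [← mul_assoc, ENNReal.mul_inv_cancel hC0 hCt, one_mul]
    _ ≤ ENNReal.ofReal (20 / δ) * volume s := by gcongr

/-- the bounded density -/
lemma exists_density {z : ℂ} {δ : ℝ} (hδ : 0 < δ) (hz : max |z.re| |z.im| ≤ aa - δ) :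
    ∃ ρ : ℝ → ℝ, Measurable ρ ∧ (∀ s, 0 ≤ ρ s ∧ ρ s ≤ 20 / δ) ∧
      ∀ F, AA F → ∫ s in (0:ℝ)..(2 * π), ρ s * (F (zeta s)).re = (F z).re := by
  have hC : 0 < 20 / δ := by positivity
  have hzs : z ∈ Sq := lt_of_le_of_lt hz (by linarith)
  obtain ⟨μ, hfin, hμ⟩ := exists_measure hzs
  have hme : MeasurableEmbedding ((↑) : XX → ℝ) := MeasurableEmbedding.subtype_coe measurableSet_Icc
  set ν := μ.map ((↑) : XX → ℝ) with hν
  have hνfin : IsFiniteMeasure ν := by rw [hν]; infer_instance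
  have hle := map_le hδ hz hμ
  rw [← hν] at hle
  set lam : Measure ℝ := ENNReal.ofReal (20 / δ) • volume.restrict (Ioc 0 (2 * π)) with hlam
  have hle2 : ν ≤ lam := by
    intro s
    have h1 : ν s = ν (s ∩ Icc 0 (2 * π)) := by
      rw [hν, hme.map_apply, hme.map_apply]
      congr 1
      ext a
      simp only [Set.mem_preimage, Set.mem_inter_iff]
      exact ⟨fun h => ⟨h, a.2⟩, fun h => h.1⟩
    rw [h1, hlam, Measure.smul_apply, smul_eq_mul]
    calc ν (s ∩ Icc 0 (2 * π)) ≤ (ENNReal.ofReal (20 / δ) • volume) (s ∩ Icc 0 (2 * π)) := hle _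
      _ = ENNReal.ofReal (20 / δ) * volume (s ∩ Icc 0 (2 * π)) := by
          rw [Measure.smul_apply, smul_eq_mul]
      _ ≤ ENNReal.ofReal (20 / δ) * (volume.restrict (Icc 0 (2 * π))) s :=
          mul_le_mul_right (Measure.le_restrict_apply _ _) _
      _ = ENNReal.ofReal (20 / δ) * (volume.restrict (Ioc 0 (2 * π))) s := by
          rw [restrict_Ioc_eq_restrict_Icc]
  have hac : ν ≪ lam := Measure.absolutelyContinuous_of_le hle2
  have hlamfin : IsFiniteMeasure lam := by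
    rw [hlam]
    exact Measure.smul_finite _ ENNReal.ofReal_ne_top
  have h1 := Measure.rnDeriv_le_one_of_le hle2
  refine ⟨fun s => 20 / δ * min 1 (ν.rnDeriv lam s).toReal, ?_, ?_, ?_⟩
  · exact (measurable_const.min (Measure.measurable_rnDeriv ν lam).ennreal_toReal).const_mul _
  · intro s
    constructor
    · positivity
    · nlinarith [min_le_left 1 (ν.rnDeriv lam s).toReal]
  · intro F hF
    have h2 : ∫ s : XX, (F (zeta s)).re ∂μ = ∫ s, (F (zeta s)).re ∂ν := by
      rw [hν, hme.integral_map]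
    rw [← hμ F hF, h2, ← integral_rnDeriv_smul hac, hlam, integral_smul_measure,
      ENNReal.toReal_ofReal hC.le, ← hlam, intervalIntegral.integral_of_le (by positivity),
      smul_eq_mul, ← integral_const_mul]
    apply integral_congr_ae
    have h3 : ∀ᵐ s ∂(volume.restrict (Ioc 0 (2 * π))), ν.rnDeriv lam s ≤ 1 := by
      have h4 : volume.restrict (Ioc 0 (2 * π)) ≪ lam := by
        rw [hlam]
        exact Measure.absolutelyContinuous_smul (by
          rw [Ne, ENNReal.ofReal_eq_zero, not_le]; exact hC)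
      exact h4.ae_le h1
    filter_upwards [h3] with s hs
    have h5 : (ν.rnDeriv lam s).toReal ≤ 1 := by
      have := ENNReal.toReal_mono ENNReal.one_ne_top hs
      simpa using this
    rw [min_eq_right h5, smul_eq_mul]
    ring

/-- the logarithm used outside the square -/
def lf (k : ℤ) (t r : ℝ) (w : ℂ) : ℂ :=
  Complex.log (Complex.I ^ (-k) * (zeta t + (r : ℂ) * Complex.I ^ k - w))

lemma lf_arg {k : ℤ} {τ : ℝ} (h1 : |τ| ≤ π / 4) (r : ℝ) (w : ℂ) :
    (Complex.I ^ (-k) * (zeta (τ + k * (π / 2)) + (r : ℂ) * Complex.I ^ k - w)).re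
      = aa + r - (Complex.I ^ (-k) * w).re := by
  have h2 : Complex.I ^ (-k) * Complex.I ^ k = 1 := by
    rw [← zpow_add₀ Complex.I_ne_zero, neg_add_cancel, zpow_zero]
  have h3 : Complex.I ^ (-k) * (zeta (τ + k * (π / 2)) + (r : ℂ) * Complex.I ^ k - w)
      = zeta τ + (r : ℂ) - Complex.I ^ (-k) * w := by
    rw [zeta_add_int, mul_sub, mul_add, ← mul_assoc, h2, one_mul, mul_left_comm, h2, mul_one]
  rw [h3, zeta_side h1]
  simp

lemma lf_AA {k : ℤ} {τ : ℝ} (h1 : |τ| ≤ π / 4) {r : ℝ} (hr : 0 < r) :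
    AA (lf k (τ + k * (π / 2)) r) := by
  have hs : ∀ w ∈ CSq, Complex.I ^ (-k) * (zeta (τ + k * (π / 2)) + (r : ℂ) * Complex.I ^ k - w)
      ∈ Complex.slitPlane := by
    intro w hw
    rw [Complex.mem_slitPlane_iff]
    left
    rw [lf_arg h1]
    linarith [re_rot_le (-k) hw]
  constructor
  · exact ContinuousOn.clog (by fun_prop) hs
  · exact DifferentiableOn.clog (by fun_prop) (fun w hw => hs w (Sq_sub hw))

lemma lf_re (k : ℤ) (t r : ℝ) (w : ℂ) :
    (lf k t r w).re = Real.log ‖zeta t + (r : ℂ) * Complex.I ^ k - w‖ := by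
  rw [lf, Complex.log_re, norm_I_zpow_mul]

lemma ae_ne_vol (z : ℂ) : ∀ᵐ s ∂(volume.restrict (Ioc 0 (2 * π))), z ≠ zeta s := by
  have hp := pi_pos
  have h := ae_ne_mu z
  rw [mu] at h
  have h0 : ENNReal.ofReal (1 / (2 * π)) ≠ 0 := by
    rw [Ne, ENNReal.ofReal_eq_zero, not_le]; positivity
  exact (Measure.absolutelyContinuous_smul h0).ae_le h

/-- distances increase when moving outside along the normal -/
lemma norm_le_out {k : ℤ} {τ : ℝ} (h1 : |τ| ≤ π / 4) {r : ℝ} (hr : 0 ≤ r) {w : ℂ} (hw : w ∈ CSq) :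
    ‖zeta (τ + k * (π / 2)) - w‖ ≤ ‖zeta (τ + k * (π / 2)) + (r : ℂ) * Complex.I ^ k - w‖ := by
  rw [← norm_I_zpow_mul (-k), ← norm_I_zpow_mul (-k) (zeta (τ + k * (π / 2)) + _ - w)]
  set a := Complex.I ^ (-k) * (zeta (τ + k * (π / 2)) - w) with ha
  have h2 : Complex.I ^ (-k) * Complex.I ^ k = 1 := by
    rw [← zpow_add₀ Complex.I_ne_zero, neg_add_cancel, zpow_zero]
  have h3 : Complex.I ^ (-k) * (zeta (τ + k * (π / 2)) + (r : ℂ) * Complex.I ^ k - w)
      = a + (r : ℂ) := by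
    rw [ha]
    linear_combination (r : ℂ) * h2
  rw [h3]
  have h4 : 0 ≤ a.re := by
    have h5 := lf_arg (k := k) h1 0 w
    simp only [Complex.ofReal_zero, zero_mul, add_zero] at h5
    rw [ha, h5]
    linarith [re_rot_le (-k) hw]
  rw [Complex.norm_def, Complex.norm_def]
  apply Real.sqrt_le_sqrt
  rw [Complex.normSq_apply, Complex.normSq_apply]
  simp only [Complex.add_re, Complex.ofReal_re, Complex.add_im, Complex.ofReal_im, add_zero]
  nlinarith [mul_nonneg h4 hr]

end IntRep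

open IntRep in
/-- Representation of the logarithm at interior points by a bounded density. -/
theorem interior_rep (δ : ℝ) (hδ : 0 < δ) : ∃ C : ℝ, ∀ z : ℂ, max |z.re| |z.im| ≤ aa - δ →
    ∃ ρ : ℝ → ℝ, Measurable ρ ∧ (∀ s, 0 ≤ ρ s ∧ ρ s ≤ C) ∧
      ∀ t, ∫ s in (0:ℝ)..(2 * π), ρ s * Real.log ‖zeta t - zeta s‖ = Real.log ‖zeta t - z‖ := by
  refine ⟨20 / δ, fun z hz => ?_⟩
  obtain ⟨ρ, hm, hb, hF⟩ := exists_density hδ hz
  refine ⟨ρ, hm, hb, fun t => ?_⟩
  obtain ⟨k, τ, h1, h2, rfl⟩ := exists_side t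
  have hτ : |τ| ≤ π / 4 := abs_le.2 ⟨h1, h2.le⟩
  set t := τ + k * (π / 2) with ht
  have hp : (0:ℝ) < 2 * π := by positivity
  let r : ℕ → ℝ := fun n => 1 / ((n : ℝ) + 1)
  have hr : ∀ n, 0 < r n := fun n => by positivity
  have hr1 : ∀ n, r n ≤ 1 := fun n => by
    rw [div_le_one (by positivity)]
    linarith [Nat.cast_nonneg (α := ℝ) n]
  have hrt : Tendsto r atTop (𝓝 0) := tendsto_one_div_add_atTop_nhds_zero_nat
  have hE : ∀ n, ∫ s in (0:ℝ)..(2 * π), ρ s * Real.log ‖zeta t + (r n : ℂ) * Complex.I ^ k - zeta s‖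
      = Real.log ‖zeta t + (r n : ℂ) * Complex.I ^ k - z‖ := by
    intro n
    have h := hF _ (lf_AA (k := k) hτ (hr n))
    simp only [lf_re] at h
    exact h
  have hcr : ∀ w : ℂ, Tendsto (fun n => ‖zeta t + (r n : ℂ) * Complex.I ^ k - w‖) atTop
      (𝓝 ‖zeta t - w‖) := by
    intro w
    have hc : Continuous fun x : ℝ => ‖zeta t + (x : ℂ) * Complex.I ^ k - w‖ := by fun_prop
    have h := (hc.tendsto 0).comp hrt
    simpa [Function.comp_def] using h
  have hlim1 : Tendsto (fun n => Real.log ‖zeta t + (r n : ℂ) * Complex.I ^ k - z‖) atTop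
      (𝓝 (Real.log ‖zeta t - z‖)) := by
    apply (hcr z).log
    rw [norm_ne_zero_iff, sub_ne_zero]
    intro h
    have h3 : max |(zeta t).re| |(zeta t).im| = aa := zeta_mem t
    rw [h] at h3
    linarith
  have hlim2 : Tendsto (fun n => ∫ s in (0:ℝ)..(2 * π),
      ρ s * Real.log ‖zeta t + (r n : ℂ) * Complex.I ^ k - zeta s‖) atTop
      (𝓝 (∫ s in (0:ℝ)..(2 * π), ρ s * Real.log ‖zeta t - zeta s‖)) := by
    apply intervalIntegral.tendsto_integral_filter_of_dominated_convergence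
      (fun s => 20 / δ * (|LL t s| + ‖zeta t - zeta s‖))
    · exact Filter.Eventually.of_forall fun n =>
        (hm.mul (measurable_pot (zeta t + (r n : ℂ) * Complex.I ^ k))).aestronglyMeasurable
    · refine Filter.Eventually.of_forall fun n => ?_
      have h4 := ae_ne_vol (zeta t)
      rw [ae_restrict_iff' measurableSet_Ioc] at h4
      filter_upwards [h4] with s hs hsI
      rw [uIoc_of_le hp.le] at hsI
      have h5 : 0 < ‖zeta t - zeta s‖ := norm_pos_iff.2 (sub_ne_zero.2 (hs hsI))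
      have h6 := norm_le_out (k := k) hτ (hr n).le (zeta_CSq s)
      rw [← ht] at h6
      have h7 : ‖zeta t + (r n : ℂ) * Complex.I ^ k - zeta s‖ ≤ ‖zeta t - zeta s‖ + 1 := by
        have e : zeta t + (r n : ℂ) * Complex.I ^ k - zeta s
            = (zeta t - zeta s) + Complex.I ^ k * (r n : ℂ) := by ring
        rw [e]
        refine le_trans (norm_add_le _ _) ?_
        rw [norm_I_zpow_mul, Complex.norm_real, Real.norm_of_nonneg (hr n).le]
        linarith [hr1 n]
      have h8 : Real.log ‖zeta t - zeta s‖ ≤ Real.log ‖zeta t + (r n : ℂ) * Complex.I ^ k - zeta s‖ :=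
        Real.log_le_log h5 h6
      have h9 := Real.log_le_sub_one_of_pos (lt_of_lt_of_le h5 h6)
      have h10 : |Real.log ‖zeta t + (r n : ℂ) * Complex.I ^ k - zeta s‖|
          ≤ |LL t s| + ‖zeta t - zeta s‖ := by
        rw [abs_le]
        unfold LL
        constructor
        · linarith [neg_abs_le (Real.log ‖zeta t - zeta s‖)]
        · linarith [abs_nonneg (Real.log ‖zeta t - zeta s‖)]
      rw [norm_mul, Real.norm_eq_abs, Real.norm_eq_abs, abs_of_nonneg (hb s).1]
      exact mul_le_mul (hb s).2 h10 (abs_nonneg _) (by positivity)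
    · apply IntervalIntegrable.const_mul
      apply (LL_intervalIntegrable t _ _).abs.add
      apply Continuous.intervalIntegrable
      exact (continuous_const.sub cont_zeta).norm
    · have h4 := ae_ne_vol (zeta t)
      rw [ae_restrict_iff' measurableSet_Ioc] at h4
      filter_upwards [h4] with s hs hsI
      rw [uIoc_of_le hp.le] at hsI
      apply Tendsto.const_mul
      apply (hcr (zeta s)).log
      rw [norm_ne_zero_iff, sub_ne_zero]
      exact hs hsI
  exact tendsto_nhds_unique hlim2 (by simpa only [hE] using hlim1)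

end Pool.Agent.Work.MP_82f4f8_an

end
end

section

/-!
Strict supermodularity of the log chord length on the square.
-/

set_option autoImplicit false

noncomputable section

namespace Pool.Agent.Work.MP_82f4f8_an

open Real MeasureTheory Set Filter Topology

lemma LL_rot_int (t s : ℝ) (k : ℤ) : LL (t + k * (π / 2)) (s + k * (π / 2)) = LL t s := by
  unfold LL
  rw [zeta_add_int, zeta_add_int, ← mul_sub, norm_I_zpow_mul]

/-- the end of the side of `s` -/
def endS (s : ℝ) : ℝ := sideIdx s * (π / 2) + π / 4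

lemma lt_endS (s : ℝ) : s < endS s := by
  have := (sideIdx_spec s).2
  unfold endS
  linarith

lemma endS_endS (s : ℝ) : endS (endS s) = endS s + π / 2 := by
  have h : sideIdx (endS s) = sideIdx s + 1 := by
    have e : endS s = -(π / 4) + ((sideIdx s + 1 : ℤ) : ℝ) * (π / 2) := by
      unfold endS; push_cast; ring
    rw [e, sideIdx_add_int, sideIdx_eq_zero le_rfl (by linarith [pi_pos])]
    ring
  show (sideIdx (endS s)) * (π / 2) + π / 4 = _
  rw [h]
  unfold endS
  push_cast; ring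

lemma chain {Q : ℝ → ℝ → Prop} {a c : ℝ} (hac : a < c)
    (hloc : ∀ x y, a ≤ x → x < y → y ≤ c → y ≤ endS x → Q x y)
    (htr : ∀ x y z, a ≤ x → x < y → y < z → z ≤ c → Q x y → Q y z → Q x z) : Q a c := by
  have key : ∀ n : ℕ, ∀ x, a ≤ x → x < c → c ≤ endS x + n * (π / 2) → Q x c := by
    intro n
    induction n with
    | zero =>
      intro x h1 h2 h3
      apply hloc x c h1 h2 le_rfl
      simpa using h3
    | succ n ih =>
      intro x h1 h2 h3
      rcases le_or_gt c (endS x) with h4 | h4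
      · exact hloc x c h1 h2 le_rfl h4
      · have h5 := lt_endS x
        apply htr x (endS x) c h1 h5 h4 le_rfl
        · exact hloc x (endS x) h1 h5 h4.le le_rfl
        · apply ih (endS x) (by linarith) h4
          rw [endS_endS]
          push_cast at h3
          linarith
  obtain ⟨n, hn⟩ := exists_nat_gt ((c - endS a) / (π / 2))
  apply key n a le_rfl hac
  have hp : 0 < π / 2 := by positivity
  rw [div_lt_iff₀ hp] at hn
  linarith

lemma log_of_sq {a b c d : ℝ} (ha : 0 < a) (hb : 0 < b) (hc : 0 < c) (hd : 0 < d)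
    (h : a ^ 2 * b ^ 2 < c ^ 2 * d ^ 2) : Real.log a + Real.log b < Real.log c + Real.log d := by
  rw [← Real.log_mul ha.ne' hb.ne', ← Real.log_mul hc.ne' hd.ne']
  apply Real.log_lt_log (by positivity)
  have h1 : (a * b) ^ 2 < (c * d) ^ 2 := by
    rw [mul_pow, mul_pow]; exact h
  exact lt_of_pow_lt_pow_left₀ 2 (by positivity) h1

lemma norm_pos_of {s t : ℝ} (h1 : s < t) (h2 : t < s + 2 * π) : 0 < ‖zeta s - zeta t‖ := by
  rw [norm_pos_iff, sub_ne_zero]
  exact (zeta_ne h1 h2).symm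

/-- reduction to squares of norms -/
lemma super_of_sq {t t' s s' : ℝ} (h1 : t < t') (h2 : t' < s) (h3 : s < s') (h4 : s' < t + 2 * π)
    (h : ‖zeta t - zeta s'‖ ^ 2 * ‖zeta t' - zeta s‖ ^ 2 <
      ‖zeta t - zeta s‖ ^ 2 * ‖zeta t' - zeta s'‖ ^ 2) :
    LL t s' + LL t' s < LL t s + LL t' s' := by
  unfold LL
  exact log_of_sq (norm_pos_of (by linarith) (by linarith)) (norm_pos_of (by linarith) (by linarith))
    (norm_pos_of (by linarith) (by linarith)) (norm_pos_of (by linarith) (by linarith)) h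

lemma sq_norm_eq (z : ℂ) : ‖z‖ ^ 2 = z.re ^ 2 + z.im ^ 2 := by
  rw [← Complex.normSq_eq_norm_sq, Complex.normSq_apply]
  ring

/-- same side -/
lemma super_same {t t' s s' : ℝ} (h0 : -(π / 4) ≤ t) (h1 : t < t') (h2 : t' < s) (h3 : s < s')
    (h4 : s' ≤ π / 4) :
    LL t s' + LL t' s < LL t s + LL t' s' := by
  have hp := pi_pos
  apply super_of_sq h1 h2 h3 (by linarith)
  have k1 : |t| ≤ π / 4 := abs_le.2 ⟨by linarith, by linarith⟩
  have k2 : |t'| ≤ π / 4 := abs_le.2 ⟨by linarith, by linarith⟩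
  have k3 : |s| ≤ π / 4 := abs_le.2 ⟨by linarith, by linarith⟩
  have k4 : |s'| ≤ π / 4 := abs_le.2 ⟨by linarith, by linarith⟩
  have m : ∀ {x y : ℝ}, -(π / 4) ≤ x → x < y → y ≤ π / 4 → YY x < YY y := by
    intro x y hx hxy hy
    exact YY_strictMonoOn ⟨hx, by linarith⟩ ⟨by linarith, hy⟩ hxy
  have m1 := m h0 h1 (by linarith)
  have m2 := m (x := t') (y := s) (by linarith) h2 (by linarith)
  have m3 := m (x := s) (y := s') (by linarith) h3 h4
  rw [zeta_side k1, zeta_side k2, zeta_side k3, zeta_side k4]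
  simp only [sq_norm_eq]
  simp only [Complex.sub_re, Complex.add_re, Complex.sub_im, Complex.add_im, Complex.mul_re,
    Complex.mul_im, Complex.I_re, Complex.I_im, Complex.ofReal_re, Complex.ofReal_im]
  generalize YY t = a at *
  generalize YY t' = b at *
  generalize YY s = c at *
  generalize YY s' = d at *
  have e1 : (d - a) * (c - b) < (c - a) * (d - b) := by nlinarith
  have e2 : 0 < (d - a) * (c - b) := by
    apply mul_pos <;> linarith
  have e3 : ((d - a) * (c - b)) ^ 2 < ((c - a) * (d - b)) ^ 2 := by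
    apply pow_lt_pow_left₀ e1 e2.le (by norm_num)
  nlinarith [e3]

lemma alg_adj {u v u' v' : ℝ} (h : 0 < (u ^ 2 - u' ^ 2) * (v' ^ 2 - v ^ 2)) :
    (u ^ 2 + v' ^ 2) * (u' ^ 2 + v ^ 2) < (u ^ 2 + v ^ 2) * (u' ^ 2 + v' ^ 2) := by
  nlinarith

lemma alg_opp {L x x' w w' : ℝ} (hx : x < x') (hw : w < w') (h1 : -L ≤ x + w) (h2 : x' + w' ≤ L) :
    (L ^ 2 + (x + w') ^ 2) * (L ^ 2 + (x' + w) ^ 2) <
      (L ^ 2 + (x + w) ^ 2) * (L ^ 2 + (x' + w') ^ 2) := by
  have hL : 0 ≤ L := by linarith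
  have key : (L ^ 2 + (x + w) ^ 2) * (L ^ 2 + (x' + w') ^ 2) -
      (L ^ 2 + (x + w') ^ 2) * (L ^ 2 + (x' + w) ^ 2) =
      ((x' - x) * (w' - w)) * (2 * L ^ 2 - 2 * ((x + w + x' + w') / 2) ^ 2 +
        ((x' - x) ^ 2 + (w' - w) ^ 2) / 2) := by ring
  have h3 : ((x + w + x' + w') / 2) ^ 2 ≤ L ^ 2 := by
    apply sq_le_sq'
    · linarith
    · linarith
  have h4 : 0 < (x' - x) * (w' - w) := mul_pos (by linarith) (by linarith)
  have h5 : 0 < (x' - x) ^ 2 := by
    have : x' - x ≠ 0 := by linarith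
    positivity
  have h6 : 0 < 2 * L ^ 2 - 2 * ((x + w + x' + w') / 2) ^ 2 +
        ((x' - x) ^ 2 + (w' - w) ^ 2) / 2 := by nlinarith [sq_nonneg (w' - w)]
  have := mul_pos h4 h6
  linarith

/-- the general inequality with `t, t'` on the right side and `s, s'` on one side -/
lemma super_loc0 {t t' s s' : ℝ} (h0 : -(π / 4) ≤ t) (h1 : t < t') (h1' : t' ≤ π / 4)
    (h2 : t' < s) (h3 : s < s') (h4 : s' < t + 2 * π) (h5 : s' ≤ endS s) :
    LL t s' + LL t' s < LL t s + LL t' s' := by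
  have hp := pi_pos
  have k1 : |t| ≤ π / 4 := abs_le.2 ⟨by linarith, by linarith⟩
  have k2 : |t'| ≤ π / 4 := abs_le.2 ⟨by linarith, by linarith⟩
  have m : ∀ {x y : ℝ}, -(π / 4) ≤ x → x < y → y ≤ π / 4 → YY x < YY y := by
    intro x y hx hxy hy
    exact YY_strictMonoOn ⟨hx, by linarith⟩ ⟨by linarith, hy⟩ hxy
  have m1 := m h0 h1 h1'
  have ab1 := abs_le.1 (abs_YY_le k1)
  have ab2 := abs_le.1 (abs_YY_le k2)
  have hsp := sideIdx_spec s
  -- the index of the side of `s`
  have hm0 : 0 ≤ sideIdx s := by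
    by_contra hcon
    have h6 : sideIdx s ≤ -1 := by omega
    have h7 : ((sideIdx s : ℤ) : ℝ) ≤ -1 := by exact_mod_cast h6
    nlinarith [mul_le_mul_of_nonneg_right h7 (by positivity : (0:ℝ) ≤ π / 2)]
  have hm4 : sideIdx s ≤ 4 := by
    by_contra hcon
    have h6 : 5 ≤ sideIdx s := by omega
    have h7 : (5:ℝ) ≤ ((sideIdx s : ℤ) : ℝ) := by exact_mod_cast h6
    nlinarith [mul_le_mul_of_nonneg_right h7 (by positivity : (0:ℝ) ≤ π / 2)]
  have hcases : sideIdx s = 0 ∨ sideIdx s = 1 ∨ sideIdx s = 2 ∨ sideIdx s = 3 ∨ sideIdx s = 4 := by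
    omega
  unfold endS at h5
  rcases hcases with h | h | h | h | h
  · -- same side
    rw [h] at h5
    norm_num at h5
    exact super_same h0 h1 h2 h3 h5
  · -- next side
    rw [h] at h5 hsp
    norm_num at h5 hsp
    have q1 : π / 4 ≤ s := by linarith [hsp.1]
    have q2 : s' ≤ 3 * π / 4 := by linarith
    apply super_of_sq h1 h2 h3 h4
    rw [zeta_side k1, zeta_side k2, zeta_side1 q1 (by linarith), zeta_side1 (by linarith) q2]
    simp only [sq_norm_eq]
    simp only [Complex.sub_re, Complex.add_re, Complex.sub_im, Complex.add_im, Complex.mul_re,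
      Complex.mul_im, Complex.I_re, Complex.I_im, Complex.ofReal_re, Complex.ofReal_im,
      Complex.neg_re, Complex.neg_im]
    have m2 := m (x := s - π / 2) (y := s' - π / 2) (by linarith) (by linarith) (by linarith)
    have ab3 := abs_le.1 (abs_YY_le (t := s - π / 2) (abs_le.2 ⟨by linarith, by linarith⟩))
    have ab4 := abs_le.1 (abs_YY_le (t := s' - π / 2) (abs_le.2 ⟨by linarith, by linarith⟩))
    generalize YY t = a at *
    generalize YY t' = b at *
    generalize YY (s - π / 2) = c at *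
    generalize YY (s' - π / 2) = d at *
    have := alg_adj (u := aa - a) (v := aa + c) (u' := aa - b) (v' := aa + d) (by
      have e1 : 0 < (aa - a) ^ 2 - (aa - b) ^ 2 := by nlinarith
      have e2 : 0 < (aa + d) ^ 2 - (aa + c) ^ 2 := by nlinarith
      exact mul_pos e1 e2)
    nlinarith [this]
  · -- opposite side
    rw [h] at h5 hsp
    norm_num at h5 hsp
    have q1 : 3 * π / 4 ≤ s := by linarith [hsp.1]
    have q2 : s' ≤ 5 * π / 4 := by linarith
    apply super_of_sq h1 h2 h3 h4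
    rw [zeta_side k1, zeta_side k2, zeta_side2 q1 (by linarith), zeta_side2 (by linarith) q2]
    simp only [sq_norm_eq]
    simp only [Complex.sub_re, Complex.add_re, Complex.sub_im, Complex.add_im, Complex.mul_re,
      Complex.mul_im, Complex.I_re, Complex.I_im, Complex.ofReal_re, Complex.ofReal_im,
      Complex.neg_re, Complex.neg_im]
    have m2 := m (x := s - π) (y := s' - π) (by linarith) (by linarith) (by linarith)
    have ab3 := abs_le.1 (abs_YY_le (t := s - π) (abs_le.2 ⟨by linarith, by linarith⟩))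
    have ab4 := abs_le.1 (abs_YY_le (t := s' - π) (abs_le.2 ⟨by linarith, by linarith⟩))
    generalize YY t = a at *
    generalize YY t' = b at *
    generalize YY (s - π) = c at *
    generalize YY (s' - π) = d at *
    have := alg_opp (L := 2 * aa) (x := a) (x' := b) (w := c) (w' := d) m1 m2 (by linarith)
      (by linarith)
    nlinarith [this]
  · -- last side
    rw [h] at h5 hsp
    norm_num at h5 hsp
    have q1 : 5 * π / 4 ≤ s := by linarith [hsp.1]
    have q2 : s' ≤ 7 * π / 4 := by linarith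
    apply super_of_sq h1 h2 h3 h4
    rw [zeta_side k1, zeta_side k2, zeta_side3 q1 (by linarith), zeta_side3 (by linarith) q2]
    simp only [sq_norm_eq]
    simp only [Complex.sub_re, Complex.add_re, Complex.sub_im, Complex.add_im, Complex.mul_re,
      Complex.mul_im, Complex.I_re, Complex.I_im, Complex.ofReal_re, Complex.ofReal_im,
      Complex.neg_re, Complex.neg_im]
    have m2 := m (x := s - 3 * π / 2) (y := s' - 3 * π / 2) (by linarith) (by linarith)
      (by linarith)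
    have ab3 := abs_le.1 (abs_YY_le (t := s - 3 * π / 2) (abs_le.2 ⟨by linarith, by linarith⟩))
    have ab4 := abs_le.1 (abs_YY_le (t := s' - 3 * π / 2) (abs_le.2 ⟨by linarith, by linarith⟩))
    generalize YY t = a at *
    generalize YY t' = b at *
    generalize YY (s - 3 * π / 2) = c at *
    generalize YY (s' - 3 * π / 2) = d at *
    have := alg_adj (u := aa + a) (v := aa - c) (u' := aa + b) (v' := aa - d) (by
      have e1 : 0 < (aa + b) ^ 2 - (aa + a) ^ 2 := by nlinarith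
      have e2 : 0 < (aa - c) ^ 2 - (aa - d) ^ 2 := by nlinarith
      nlinarith [mul_pos e1 e2])
    nlinarith [this]
  · -- the same side again
    rw [h] at h5 hsp
    norm_num at h5 hsp
    have e1 : ∀ u x, LL u x = LL (x - 2 * π) u := by
      intro u x
      rw [LL_symm (x - 2 * π) u, ← LL_per u (x - 2 * π)]
      congr 1; ring
    rw [e1 t s', e1 t' s, e1 t s, e1 t' s']
    have := super_same (t := s - 2 * π) (t' := s' - 2 * π) (s := t) (s' := t')
      (by linarith [hsp.1]) (by linarith) (by linarith) h1 h1'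
    linarith

lemma super_loc {t t' s s' : ℝ} (h1 : t < t') (h1' : t' ≤ endS t)
    (h2 : t' < s) (h3 : s < s') (h4 : s' < t + 2 * π) (h5 : s' ≤ endS s) :
    LL t s' + LL t' s < LL t s + LL t' s' := by
  have hsp := sideIdx_spec t
  set k := sideIdx t with hk
  have e : ∀ u x, LL u x = LL (u - k * (π / 2)) (x - k * (π / 2)) := by
    intro u x
    rw [← LL_rot_int (u - k * (π / 2)) (x - k * (π / 2)) k]
    congr 1 <;> ring
  rw [e t s', e t' s, e t s, e t' s']
  have he : endS (s - k * (π / 2)) = endS s - k * (π / 2) := by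
    have h6 : sideIdx (s - k * (π / 2)) = sideIdx s - k := by
      have := sideIdx_add_int s (-k)
      push_cast at this
      rw [sub_eq_add_neg, sub_eq_add_neg, ← this]
      congr 1; ring
    unfold endS
    rw [h6]; push_cast; ring
  have h7 : t' ≤ k * (π / 2) + π / 4 := h1'
  apply super_loc0
  · exact hsp.1
  · linarith
  · linarith
  · linarith
  · linarith
  · linarith
  · rw [he]; linarith

/-- strict supermodularity -/
theorem super {t t' s s' : ℝ} (h1 : t < t') (h2 : t' < s) (h3 : s < s') (h4 : s' < t + 2 * π) :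
    LL t s' + LL t' s < LL t s + LL t' s' := by
  -- first `t, t'` in one side and arbitrary `s, s'`
  have step1 : ∀ x y : ℝ, t ≤ x → x < y → y ≤ t' → y ≤ endS x →
      LL x s' + LL y s < LL x s + LL y s' := by
    intro x y hx hxy hy hye
    apply chain (Q := fun a b => LL x b + LL y a < LL x a + LL y b) h3
    · intro a b ha hab hb hbe
      exact super_loc hxy hye (by linarith) hab (by linarith) hbe
    · intro a b c _ _ _ _ q1 q2
      linarith
  apply chain (Q := fun a b => LL a s' + LL b s < LL a s + LL b s') h1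
  · intro a b ha hab hb hbe
    exact step1 a b ha hab hb hbe
  · intro a b c _ _ _ _ q1 q2
    linarith

end Pool.Agent.Work.MP_82f4f8_an

end
end

section

/-!
Lifting a Fekete tuple on the square to an ordered periodic sequence of angles.
-/

set_option autoImplicit false

noncomputable section

namespace Pool.Agent.Work.MP_82f4f8_an

open Real Set Filter Topology

namespace Lift

/-- a complex number of `Gam` has an angle in `[0, 2π)` -/
lemma exists_angle {z : ℂ} (hz : z ∈ Gam) : ∃ t, 0 ≤ t ∧ t < 2 * π ∧ zeta t = z := by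
  obtain ⟨t, ht⟩ := zeta_surj hz
  have hp : Function.Periodic zeta (2 * π) := zeta_two_pi
  have h2 : (0 : ℝ) < 2 * π := by positivity
  refine ⟨toIcoMod h2 0 t, left_le_toIcoMod h2 0 t, ?_, ?_⟩
  · have := toIcoMod_lt_right h2 0 t
    linarith
  · rw [← ht, toIcoMod]
    exact hp.sub_zsmul_eq _

/-- twice the energy as a full double sum -/
lemma two_energy (x : ℤ → ℝ) (n : ℕ) : 2 * energy LL n x =
    ∑ k ∈ Finset.range n, ∑ j ∈ Finset.range n, LL (x (j : ℤ)) (x (k : ℤ)) := by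
  unfold energy
  induction n with
  | zero => simp
  | succ n ih =>
    rw [Finset.sum_range_succ, mul_add, ih, Finset.sum_range_succ]
    simp only [Finset.sum_range_succ (n := n)]
    rw [Finset.sum_add_distrib, LL_self]
    have : ∑ k ∈ Finset.range n, LL (x (n : ℤ)) (x (k : ℤ))
        = ∑ k ∈ Finset.range n, LL (x (k : ℤ)) (x (n : ℤ)) :=
      Finset.sum_congr rfl fun k _ => LL_symm _ _
    rw [this]
    ring

/-- the full double sum over `Fin n` -/
lemma two_energy_fin (x : ℤ → ℝ) (n : ℕ) : 2 * energy LL n x =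
    ∑ j : Fin n, ∑ k : Fin n, Real.log ‖zeta (x ((j : ℕ) : ℤ)) - zeta (x ((k : ℕ) : ℤ))‖ := by
  rw [two_energy, Finset.sum_comm, Finset.sum_range]
  refine Finset.sum_congr rfl fun j _ => ?_
  rw [Finset.sum_range]
  rfl

/-- the logarithm of the product of the distances -/
lemma two_log_prod {n : ℕ} {q : Fin n → ℂ} (hq : Function.Injective q) :
    2 * Real.log (∏ j, ∏ k ∈ Finset.Ioi j, ‖q j - q k‖) = ∑ j, ∑ k, Real.log ‖q j - q k‖ := by
  have hne : ∀ j k, k ∈ Finset.Ioi j → ‖q j - q k‖ ≠ 0 := by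
    intro j k hk
    rw [Finset.mem_Ioi] at hk
    rw [norm_ne_zero_iff, sub_ne_zero]
    exact fun h => hk.ne (hq h)
  rw [Real.log_prod (fun j _ => Finset.prod_ne_zero_iff.2 (hne j))]
  rw [Finset.sum_congr rfl fun j _ => Real.log_prod (hne j)]
  have h1 := Finset.sum_sum_Ioi_add_eq_sum_sum_off_diag (fun j k => Real.log ‖q j - q k‖)
  have h2 : ∀ i j, Real.log ‖q j - q i‖ + Real.log ‖q i - q j‖ = 2 * Real.log ‖q i - q j‖ := by
    intro i j
    rw [norm_sub_rev]; ring
  simp only [h2, ← Finset.mul_sum] at h1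
  rw [h1]
  refine Finset.sum_congr rfl fun i _ => ?_
  rw [← Finset.sum_compl_add_sum {i}]
  simp only [Finset.sum_singleton, sub_self, norm_zero, Real.log_zero, add_zero]
  exact Finset.sum_congr rfl fun j _ => by rw [norm_sub_rev]

lemma log_le {n : ℕ} {p : Fin n → ℂ} (hp : IsFekP n p) (hinj : Function.Injective p)
    {q : Fin n → ℂ} (hq : ∀ k, q k ∈ Gam) (hqi : Function.Injective q) :
    ∑ j, ∑ k, Real.log ‖q j - q k‖ ≤ ∑ j, ∑ k, Real.log ‖p j - p k‖ := by
  rw [← two_log_prod hinj, ← two_log_prod hqi]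
  have hpos : 0 < ∏ j, ∏ k ∈ Finset.Ioi j, ‖q j - q k‖ := by
    refine Finset.prod_pos fun j _ => Finset.prod_pos fun k hk => ?_
    rw [Finset.mem_Ioi] at hk
    rw [norm_pos_iff, sub_ne_zero]
    exact fun h => hk.ne (hqi h)
  have := Real.log_le_log hpos (hp.maxi q hq)
  linarith

lemma lt_per {n : ℕ} {P : ℝ} {x : ℤ → ℝ} (hx : IsConf n P x) {j k : ℕ} (hk : k < n) :
    x (k : ℤ) < x (j : ℤ) + P := by
  rw [← hx.per]
  exact hx.mono (by omega)

/-- the points of a configuration are distinct -/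
lemma conf_injective {n : ℕ} {y : ℤ → ℝ} (hy : IsConf n (2 * π) y) :
    Function.Injective fun k : Fin n => zeta (y ((k : ℕ) : ℤ)) := by
  intro j k hjk
  simp only at hjk
  by_contra hne
  rcases lt_or_gt_of_ne (fun h => hne (Fin.ext h) : (j : ℕ) ≠ (k : ℕ)) with h | h
  · have h1 : y ((j : ℕ) : ℤ) < y ((k : ℕ) : ℤ) := hy.mono (by exact_mod_cast h)
    have h2 := lt_per hy (j := (j : ℕ)) k.isLt
    exact zeta_ne h1 h2 hjk.symm
  · have h1 : y ((k : ℕ) : ℤ) < y ((j : ℕ) : ℤ) := hy.mono (by exact_mod_cast h)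
    have h2 := lt_per hy (j := (k : ℕ)) j.isLt
    exact zeta_ne h1 h2 hjk

end Lift

open Lift in
theorem exists_lift {n : ℕ} (hn : 0 < n) {p : Fin n → ℂ} (hp : IsFekP n p)
    (hinj : Function.Injective p) :
    ∃ x : ℤ → ℝ, IsConf n (2 * π) x ∧
      (∀ y, IsConf n (2 * π) y → energy LL n y ≤ energy LL n x) ∧
      ∀ f : ℂ → ℝ, ∑ k, f (p k) = ∑ j ∈ Finset.range n, f (zeta (x (j : ℤ))) := by
  choose t ht0 ht1 htz using fun k => exists_angle (hp.mem k)
  have htinj : Function.Injective t := by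
    intro j k hjk
    apply hinj
    rw [← htz j, ← htz k, hjk]
  set σ : Equiv.Perm (Fin n) := Tuple.sort t with hσ
  have hmono : StrictMono (t ∘ σ) :=
    (Tuple.monotone_sort t).strictMono_of_injective (htinj.comp σ.injective)
  have hn' : (0 : ℤ) < n := by exact_mod_cast hn
  have hmod : ∀ j : ℤ, (j % n).toNat < n := by
    intro j
    have h1 := Int.emod_nonneg j hn'.ne'
    have h2 := Int.emod_lt_of_pos j hn'
    omega
  set x : ℤ → ℝ := fun j => t (σ ⟨(j % n).toNat, hmod j⟩) + 2 * π * ((j / n : ℤ) : ℝ) with hx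
  have hxn : ∀ k : Fin n, x ((k : ℕ) : ℤ) = t (σ k) := by
    intro k
    have hk : ((k : ℕ) : ℤ) < n := by exact_mod_cast k.isLt
    have h1 : ((k : ℕ) : ℤ) % n = ((k : ℕ) : ℤ) := Int.emod_eq_of_lt (by omega) hk
    have h2 : ((k : ℕ) : ℤ) / n = 0 := Int.ediv_eq_zero_of_lt (by omega) hk
    have h3 : (⟨(((k : ℕ) : ℤ) % n).toNat, hmod _⟩ : Fin n) = k := by
      apply Fin.ext
      simp only [h1, Int.toNat_natCast]
    simp only [hx, h2, h3]
    simp
  have hconf : IsConf n (2 * π) x := by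
    constructor
    · apply strictMono_int_of_lt_succ
      intro j
      have h1 := Int.emod_nonneg j hn'.ne'
      have h2 := Int.emod_lt_of_pos j hn'
      have h3 := Int.emod_add_mul_ediv j n
      rcases lt_or_ge (j % n + 1) n with h | h
      · have e1 : (j + 1) % n = j % n + 1 := by
          have : j + 1 = (j % n + 1) + n * (j / n) := by omega
          rw [this, Int.add_mul_emod_self_left, Int.emod_eq_of_lt (by omega) h]
        have e2 : (j + 1) / n = j / n := by
          have : j + 1 = (j % n + 1) + n * (j / n) := by omega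
          rw [this, Int.add_mul_ediv_left _ _ hn'.ne', Int.ediv_eq_zero_of_lt (by omega) h]
          simp
        simp only [hx, e2]
        have h4 : (t ∘ σ) ⟨(j % n).toNat, hmod j⟩ < (t ∘ σ) ⟨((j + 1) % n).toNat, hmod (j + 1)⟩ := by
          apply hmono
          rw [Fin.mk_lt_mk, e1]
          omega
        simp only [Function.comp] at h4
        linarith
      · have e0 : j % n = n - 1 := by omega
        have e2 : (j + 1) / n = j / n + 1 := by
          have : j + 1 = 0 + n * (j / n + 1) := by rw [mul_add, mul_one]; omega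
          rw [this, Int.add_mul_ediv_left _ _ hn'.ne']
          simp
        simp only [hx, e2]
        have h4 := ht1 (σ ⟨(j % n).toNat, hmod j⟩)
        have h5 := ht0 (σ ⟨((j + 1) % n).toNat, hmod (j + 1)⟩)
        push_cast
        linarith
    · intro j
      have e1 : (j + n) % n = j % n := by simp
      have e2 : (j + n) / n = j / n + 1 := by
        rw [Int.add_ediv_of_dvd_right (dvd_refl _), Int.ediv_self hn'.ne']
      simp only [hx, e2]
      have : (⟨((j + n) % n).toNat, hmod (j + n)⟩ : Fin n) = ⟨(j % n).toNat, hmod j⟩ := by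
        apply Fin.ext
        simp only [e1]
      rw [this]
      push_cast
      ring
  have hpz : ∀ k : Fin n, zeta (x ((k : ℕ) : ℤ)) = p (σ k) := by
    intro k
    rw [hxn, htz]
  refine ⟨x, hconf, ?_, ?_⟩
  · intro y hy
    have h1 := log_le hp hinj (q := fun k : Fin n => zeta (y ((k : ℕ) : ℤ)))
      (fun k => zeta_mem _) (conf_injective hy)
    have h2 := two_energy_fin y n
    have h3 := two_energy_fin x n
    simp only [hpz] at h3
    have h4 : ∑ j : Fin n, ∑ k : Fin n, Real.log ‖p (σ j) - p (σ k)‖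
        = ∑ j : Fin n, ∑ k : Fin n, Real.log ‖p j - p k‖ := by
      rw [← Equiv.sum_comp σ (fun j => ∑ k : Fin n, Real.log ‖p j - p k‖)]
      refine Finset.sum_congr rfl fun j _ => ?_
      rw [← Equiv.sum_comp σ (fun k => Real.log ‖p (σ j) - p k‖)]
    rw [h4] at h3
    linarith
  · intro f
    rw [Finset.sum_range, ← Equiv.sum_comp σ]
    exact Finset.sum_congr rfl fun k _ => by rw [hpz]

end Pool.Agent.Work.MP_82f4f8_an

end
end

section

/-!
Uniqueness of the exterior conformal map up to a rotation.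
-/

set_option autoImplicit false

noncomputable section

namespace Pool.Agent.Work.MP_82f4f8_an

open Real MeasureTheory Set Filter Topology

/-- A holomorphic bijection of the unit disc fixing the origin is a rotation. -/
theorem disc_auto {f : ℂ → ℂ} (hd : DifferentiableOn ℂ f (Metric.ball 0 1)) (h0 : f 0 = 0)
    (hinj : InjOn f (Metric.ball 0 1)) (hmaps : MapsTo f (Metric.ball 0 1) (Metric.ball 0 1))
    (hsurj : SurjOn f (Metric.ball 0 1) (Metric.ball 0 1)) {x : ℂ} (hx : ‖x‖ < 1) :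
    ‖f x‖ = ‖x‖ := by
  have hopenball : IsOpen (Metric.ball (0 : ℂ) 1) := Metric.isOpen_ball
  have h0mem : (0 : ℂ) ∈ Metric.ball (0 : ℂ) 1 := Metric.mem_ball_self one_pos
  have hmem : ∀ z : ℂ, z ∈ Metric.ball (0 : ℂ) 1 ↔ ‖z‖ < 1 := fun z => mem_ball_zero_iff
  have hhalf : (1 / 2 : ℂ) ∈ Metric.ball (0 : ℂ) 1 := by rw [hmem]; norm_num
  have han : AnalyticOnNhd ℂ f (Metric.ball 0 1) := hd.analyticOnNhd hopenball
  have hpre : IsPreconnected (Metric.ball (0 : ℂ) 1) := (convex_ball 0 1).isPreconnected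
  have hopen : ∀ s ⊆ Metric.ball (0 : ℂ) 1, IsOpen s → IsOpen (f '' s) := by
    rcases han.is_constant_or_isOpen hpre with ⟨w, hw⟩ | h
    · exfalso
      have h1 := hinj h0mem hhalf ((hw 0 h0mem).trans (hw _ hhalf).symm)
      norm_num at h1
    · exact h
  -- properness
  have hprop : ∀ r : ℝ, r < 1 → ∃ ρ : ℝ, ρ < 1 ∧ ∀ z : ℂ, ‖z‖ < 1 → ρ ≤ ‖z‖ → r < ‖f z‖ := by
    intro r hr
    have hcov : Metric.closedBall (0 : ℂ) r ⊆
        ⋃ n : ℕ, f '' Metric.ball (0 : ℂ) (1 - 1 / ((n : ℝ) + 2)) := by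
      intro v hv
      rw [mem_closedBall_zero_iff] at hv
      obtain ⟨z, hz, rfl⟩ := hsurj ((hmem v).mpr (lt_of_le_of_lt hv hr))
      rw [hmem] at hz
      obtain ⟨n, hn⟩ := exists_nat_one_div_lt (sub_pos.mpr hz)
      rw [mem_iUnion]
      refine ⟨n, z, ?_, rfl⟩
      rw [mem_ball_zero_iff]
      have h1 : 1 / ((n : ℝ) + 2) ≤ 1 / ((n : ℝ) + 1) := by
        apply one_div_le_one_div_of_le <;> [positivity; linarith]
      linarith
    have hlt : ∀ n : ℕ, 1 - 1 / ((n : ℝ) + 2) < 1 := by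
      intro n
      have : 0 < 1 / ((n : ℝ) + 2) := by positivity
      linarith
    obtain ⟨n, hn⟩ := (isCompact_closedBall (0 : ℂ) r).elim_directed_cover _
      (fun n : ℕ => hopen _ (Metric.ball_subset_ball (hlt n).le) Metric.isOpen_ball) hcov (by
        apply directed_of_isDirected_le
        intro m n hmn
        apply image_mono
        apply Metric.ball_subset_ball
        have : 1 / ((n : ℝ) + 2) ≤ 1 / ((m : ℝ) + 2) := by
          apply one_div_le_one_div_of_le
          · positivity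
          · have : (m : ℝ) ≤ n := by exact_mod_cast hmn
            linarith
        linarith)
    refine ⟨1 - 1 / ((n : ℝ) + 2), hlt n, fun z hz hρz => ?_⟩
    by_contra hcon
    push Not at hcon
    obtain ⟨y, hy, hyz⟩ := hn (mem_closedBall_zero_iff.mpr hcon)
    have hy1 : ‖y‖ < 1 - 1 / ((n : ℝ) + 2) := mem_ball_zero_iff.mp hy
    have : y = z := hinj ((hmem y).mpr (hy1.trans (hlt n))) ((hmem z).mpr hz) hyz
    rw [this] at hy1
    linarith
  -- order at the origin
  have hne0 : ∀ z : ℂ, ‖z‖ < 1 → z ≠ 0 → f z ≠ 0 := by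
    intro z hz hz0 hfz
    exact hz0 (hinj ((hmem z).mpr hz) h0mem (by rw [hfz, h0]))
  have hnz : ¬ ∀ᶠ z in 𝓝 (0 : ℂ), f z = 0 := by
    intro hev
    have h1 : ∀ᶠ z in 𝓝[≠] (0 : ℂ), f z = 0 := hev.filter_mono nhdsWithin_le_nhds
    have h2 : ∀ᶠ z in 𝓝[≠] (0 : ℂ), ‖z‖ < 1 := by
      have := (hopenball.mem_nhds h0mem)
      have h3 : ∀ᶠ z in 𝓝 (0 : ℂ), ‖z‖ < 1 := by
        filter_upwards [this] with z hz using (hmem z).mp hz
      exact h3.filter_mono nhdsWithin_le_nhds
    obtain ⟨z, h3, h4, h5⟩ := ((h1.and (h2.and self_mem_nhdsWithin))).exists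
    exact hne0 z h4 h5 h3
  obtain ⟨m, g, hg, hg0, hfg⟩ :=
    (AnalyticAt.exists_eventuallyEq_pow_smul_nonzero_iff (han 0 h0mem)).mpr hnz
  have hm0 : m ≠ 0 := by
    rintro rfl
    have := hfg.self_of_nhds
    simp [h0] at this
    exact hg0 this.symm
  set G : ℂ → ℂ := Function.update (fun z => f z / z ^ m) 0 (g 0) with hG
  have hGne : ∀ z : ℂ, z ≠ 0 → G z = f z / z ^ m := fun z hz => by
    rw [hG, Function.update_of_ne hz]
  have hG0 : G 0 = g 0 := by rw [hG, Function.update_self]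
  have hGg : G =ᶠ[𝓝 0] g := by
    filter_upwards [hfg] with z hz
    by_cases hz0 : z = 0
    · rw [hz0, hG0]
    · rw [hGne z hz0, hz, sub_zero, smul_eq_mul, mul_div_assoc, mul_comm, div_mul_cancel₀]
      exact pow_ne_zero _ hz0
  have hGd : DifferentiableOn ℂ G (Metric.ball 0 1) := by
    rw [← Complex.differentiableOn_compl_singleton_and_continuousAt_iff
      (hopenball.mem_nhds h0mem)]
    constructor
    · have h1 : DifferentiableOn ℂ (fun z => f z / z ^ m) (Metric.ball 0 1 \ {0}) := by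
        apply DifferentiableOn.div (hd.mono sdiff_subset) (differentiableOn_pow _)
        intro z hz
        exact pow_ne_zero _ hz.2
      exact h1.congr fun z hz => hGne z hz.2
    · exact (hg.continuousAt).congr hGg.symm
  have hGnz : ∀ z : ℂ, ‖z‖ < 1 → G z ≠ 0 := by
    intro z hz
    by_cases hz0 : z = 0
    · rw [hz0, hG0]; exact hg0
    · rw [hGne z hz0]; exact div_ne_zero (hne0 z hz hz0) (pow_ne_zero _ hz0)
  have hfr : ∀ ρ : ℝ, 0 < ρ → frontier (Metric.ball (0 : ℂ) ρ) = Metric.sphere 0 ρ :=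
    fun ρ hρ => frontier_ball 0 hρ.ne'
  -- upper bound
  have hup : ∀ z : ℂ, ‖z‖ < 1 → ‖G z‖ ≤ 1 := by
    intro z hz
    have h1 : ∀ᶠ ρ : ℝ in 𝓝[<] 1, ‖G z‖ * ρ ^ m ≤ 1 := by
      have h2 : ∀ᶠ ρ : ℝ in 𝓝[<] 1, ρ ∈ Ioo ‖z‖ 1 := Ioo_mem_nhdsLT hz
      filter_upwards [h2] with ρ hρ
      have hρ0 : 0 < ρ := lt_of_le_of_lt (norm_nonneg z) hρ.1
      have hcl : Metric.closedBall (0 : ℂ) ρ ⊆ Metric.ball 0 1 :=
        Metric.closedBall_subset_ball hρ.2
      have h3 : DiffContOnCl ℂ G (Metric.ball 0 ρ) := by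
        apply DifferentiableOn.diffContOnCl
        exact hGd.mono ((closure_ball (0 : ℂ) hρ0.ne').subset.trans hcl)
      have h4 := Complex.norm_le_of_forall_mem_frontier_norm_le (C := 1 / ρ ^ m)
        Metric.isBounded_ball h3 (by
          intro w hw
          rw [hfr ρ hρ0, mem_sphere_zero_iff_norm] at hw
          have hw0 : w ≠ 0 := by rw [← norm_ne_zero_iff, hw]; exact hρ0.ne'
          rw [hGne w hw0, norm_div, norm_pow, hw]
          apply div_le_div_of_nonneg_right _ (by positivity)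
          exact (mem_ball_zero_iff.mp (hmaps ((hmem w).mpr (by rw [hw]; exact hρ.2)))).le)
        (subset_closure (mem_ball_zero_iff.mpr hρ.1))
      rwa [le_div_iff₀ (by positivity)] at h4
    have h2 : Tendsto (fun ρ : ℝ => ‖G z‖ * ρ ^ m) (𝓝[<] 1) (𝓝 ‖G z‖) := by
      have : Tendsto (fun ρ : ℝ => ‖G z‖ * ρ ^ m) (𝓝 1) (𝓝 (‖G z‖ * 1 ^ m)) :=
        (continuous_const.mul (continuous_pow m)).tendsto 1
      rw [one_pow, mul_one] at this
      exact this.mono_left nhdsWithin_le_nhds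
    exact le_of_tendsto h2 h1
  -- lower bound
  have hlow : ∀ z : ℂ, ‖z‖ < 1 → ‖(G z)⁻¹‖ ≤ 1 := by
    intro z hz
    have h1 : ∀ᶠ r : ℝ in 𝓝[<] 1, ‖(G z)⁻¹‖ * r ≤ 1 := by
      have h2 : ∀ᶠ r : ℝ in 𝓝[<] 1, r ∈ Ioo (0 : ℝ) 1 := Ioo_mem_nhdsLT one_pos
      filter_upwards [h2] with r hr
      obtain ⟨ρ₀, hρ₀, hρf⟩ := hprop r hr.2
      obtain ⟨ρ, hρ1, hρ2⟩ := exists_between (max_lt hρ₀ hz)
      have hρz : ‖z‖ < ρ := lt_of_le_of_lt (le_max_right _ _) hρ1
      have hρρ : ρ₀ < ρ := lt_of_le_of_lt (le_max_left _ _) hρ1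
      have hρ0 : 0 < ρ := lt_of_le_of_lt (norm_nonneg z) hρz
      have hcl : Metric.closedBall (0 : ℂ) ρ ⊆ Metric.ball 0 1 :=
        Metric.closedBall_subset_ball hρ2
      have h3 : DiffContOnCl ℂ (fun w => (G w)⁻¹) (Metric.ball 0 ρ) := by
        apply DifferentiableOn.diffContOnCl
        have h5 : DifferentiableOn ℂ G (closure (Metric.ball 0 ρ)) :=
          hGd.mono ((closure_ball (0 : ℂ) hρ0.ne').subset.trans hcl)
        apply h5.inv
        intro w hw
        rw [closure_ball (0 : ℂ) hρ0.ne'] at hw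
        exact hGnz w ((hmem w).mp (hcl hw))
      have h4 := Complex.norm_le_of_forall_mem_frontier_norm_le (C := 1 / r)
        Metric.isBounded_ball h3 (by
          intro w hw
          rw [hfr ρ hρ0, mem_sphere_zero_iff_norm] at hw
          have hw0 : w ≠ 0 := by rw [← norm_ne_zero_iff, hw]; exact hρ0.ne'
          have hf := hρf w (by rw [hw]; exact hρ2) (by rw [hw]; exact hρρ.le)
          rw [hGne w hw0, norm_inv, norm_div, norm_pow, hw, inv_div]
          rw [div_le_div_iff₀ (lt_trans hr.1 hf) hr.1]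
          have : ρ ^ m ≤ 1 := pow_le_one₀ hρ0.le hρ2.le
          nlinarith [hr.1])
        (subset_closure (mem_ball_zero_iff.mpr hρz))
      rwa [le_div_iff₀ hr.1] at h4
    have h2 : Tendsto (fun r : ℝ => ‖(G z)⁻¹‖ * r) (𝓝[<] 1) (𝓝 ‖(G z)⁻¹‖) := by
      have : Tendsto (fun r : ℝ => ‖(G z)⁻¹‖ * r) (𝓝 1) (𝓝 (‖(G z)⁻¹‖ * 1)) :=
        (continuous_const.mul continuous_id).tendsto 1
      rw [mul_one] at this
      exact this.mono_left nhdsWithin_le_nhds
    exact le_of_tendsto h2 h1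
  have hnorm : ∀ z : ℂ, ‖z‖ < 1 → ‖G z‖ = 1 := by
    intro z hz
    apply le_antisymm (hup z hz)
    have h1 := hlow z hz
    have h2 : 0 < ‖G z‖ := norm_pos_iff.mpr (hGnz z hz)
    rw [norm_inv, inv_le_one₀ h2] at h1
    exact h1
  have hconst : EqOn G (Function.const ℂ (G 0)) (Metric.ball 0 1) := by
    apply Complex.eqOn_of_isPreconnected_of_isMaxOn_norm hpre hopenball hGd h0mem
    intro z hz
    show ‖G z‖ ≤ ‖G 0‖
    rw [hnorm z ((hmem z).mp hz), hnorm 0 (by simp)]
  have hf : ∀ z : ℂ, ‖z‖ < 1 → f z = G 0 * z ^ m := by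
    intro z hz
    by_cases hz0 : z = 0
    · rw [hz0, h0, zero_pow hm0, mul_zero]
    · have h1 : G z = G 0 := hconst ((hmem z).mpr hz)
      rw [hGne z hz0, div_eq_iff (pow_ne_zero _ hz0)] at h1
      exact h1
  have hm1 : m = 1 := by
    by_contra hm1
    have hm2 : 1 < m := by omega
    have hprim := Complex.isPrimitiveRoot_exp m hm0
    set ζ : ℂ := Complex.exp (2 * π * Complex.I / m) with hζ
    have hζ1 : ζ ≠ 1 := hprim.ne_one hm2
    have hζm : ζ ^ m = 1 := hprim.pow_eq_one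
    have hζn : ‖ζ‖ = 1 := hprim.norm'_eq_one hm0
    have hy : ‖ζ * (1 / 2)‖ < 1 := by rw [norm_mul, hζn]; norm_num
    have hh : ‖(1 / 2 : ℂ)‖ < 1 := by norm_num
    have e : f (ζ * (1 / 2)) = f (1 / 2) := by
      rw [hf _ hy, hf _ hh, mul_pow, hζm, one_mul]
    have := hinj ((hmem _).mpr hy) ((hmem _).mpr hh) e
    apply hζ1
    have h2 : (1 / 2 : ℂ) ≠ 0 := by norm_num
    exact mul_right_cancel₀ h2 (this.trans (one_mul _).symm)
  rw [hf x hx, norm_mul, hnorm 0 (by simp), one_mul, hm1, pow_one]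

theorem log_phi (H : PsiFacts) {φ : ℂ → ℂ}
    (hd : DifferentiableOn ℂ φ {z : ℂ | aa < max |z.re| |z.im|})
    (hi : Set.InjOn φ {z : ℂ | aa < max |z.re| |z.im|})
    (him : φ '' {z : ℂ | aa < max |z.re| |z.im|} = {w : ℂ | 1 < ‖w‖})
    (hinf : Filter.Tendsto (fun z => ‖φ z‖) (Filter.cocompact ℂ) Filter.atTop)
    {w : ℂ} (hw : 1 < ‖w‖) : ‖φ (psi w)‖ = ‖w‖ := by
  have hDopen : IsOpen {z : ℂ | aa < max |z.re| |z.im|} :=
    isOpen_lt continuous_const (by fun_prop)
  -- psi tends to infinity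
  have hpsi : Tendsto (fun v : ℂ => ‖psi v‖) (cocompact ℂ) atTop := by
    have h1 : ∀ v : ℂ, 2 ≤ ‖v‖ → ‖v‖ / 2 - 1 / 2 - ‖psi 1‖ ≤ ‖psi v‖ := by
      intro v hv
      have e1 := H.rfac v 1 (by linarith) (by simp)
      have e2 := H.rbound v⁻¹ (1 : ℂ)⁻¹ (by
        rw [norm_inv]; exact inv_le_one_of_one_le₀ (by linarith)) (by simp)
      rw [norm_inv, inv_one, norm_one, mul_one] at e2
      have e3 : ‖v‖⁻¹ ≤ 1 / 2 := by
        rw [one_div]; exact inv_anti₀ (by norm_num) hv
      rw [inv_one] at e1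
      have e4 : 1 / 2 ≤ ‖Rf v⁻¹ 1‖ := by
        have := norm_sub_norm_le (1 : ℂ) (1 - Rf v⁻¹ 1)
        rw [norm_one, sub_sub_cancel, norm_sub_rev] at this
        linarith
      have e5 : ‖psi v - psi 1‖ = ‖v - 1‖ * ‖Rf v⁻¹ 1‖ := by rw [e1, norm_mul]
      have e6 : ‖v‖ - 1 ≤ ‖v - 1‖ := by
        have := norm_sub_norm_le v 1
        rwa [norm_one] at this
      have e7 : ‖psi v - psi 1‖ ≤ ‖psi v‖ + ‖psi 1‖ := norm_sub_le _ _
      nlinarith [norm_nonneg (v - 1)]
    have h2 : Tendsto (fun v : ℂ => ‖v‖ / 2 - 1 / 2 - ‖psi 1‖) (cocompact ℂ) atTop := by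
      have h3 : Tendsto (fun v : ℂ => ‖v‖) (cocompact ℂ) atTop := tendsto_norm_cocompact_atTop
      have h4 := h3.atTop_div_const (show (0 : ℝ) < 2 by norm_num)
      have h5 := tendsto_atTop_add_const_right (cocompact ℂ) (-(1 / 2) - ‖psi 1‖) h4
      refine h5.congr fun v => by ring
    refine tendsto_atTop_mono' _ ?_ h2
    have h6 : ∀ᶠ v : ℂ in cocompact ℂ, 2 ≤ ‖v‖ :=
      tendsto_norm_cocompact_atTop.eventually_ge_atTop 2
    filter_upwards [h6] with v hv using h1 v hv
  have hpsi' : Tendsto psi (cocompact ℂ) (cocompact ℂ) := by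
    rw [← Metric.cobounded_eq_cocompact (α := ℂ)] at hpsi ⊢
    exact tendsto_norm_atTop_iff_cobounded.mp hpsi
  have hF : Tendsto (fun v : ℂ => ‖φ (psi v)‖) (cocompact ℂ) atTop := hinf.comp hpsi'
  have hgt : ∀ v : ℂ, 1 < ‖v‖ → 1 < ‖φ (psi v)‖ := by
    intro v hv
    have : φ (psi v) ∈ φ '' {z : ℂ | aa < max |z.re| |z.im|} := ⟨psi v, H.maps v hv, rfl⟩
    rw [him] at this
    exact this
  set f : ℂ → ℂ := Function.update (fun x => (φ (psi x⁻¹))⁻¹) 0 0 with hf
  have hf0 : f 0 = 0 := by rw [hf, Function.update_self]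
  have hfne : ∀ x : ℂ, x ≠ 0 → f x = (φ (psi x⁻¹))⁻¹ := fun x hx => by
    rw [hf, Function.update_of_ne hx]
  have hinvn : ∀ x : ℂ, x ≠ 0 → ‖x‖ < 1 → 1 < ‖x⁻¹‖ := by
    intro x hx0 hx
    rw [norm_inv]
    exact (one_lt_inv₀ (norm_pos_iff.mpr hx0)).mpr hx
  have h0mem : (0 : ℂ) ∈ Metric.ball (0 : ℂ) 1 := Metric.mem_ball_self one_pos
  have hfd : DifferentiableOn ℂ f (Metric.ball 0 1) := by
    rw [← Complex.differentiableOn_compl_singleton_and_continuousAt_iff
      (Metric.isOpen_ball.mem_nhds h0mem)]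
    constructor
    · have h1 : DifferentiableOn ℂ (fun x : ℂ => (φ (psi x⁻¹))⁻¹) (Metric.ball 0 1 \ {0}) := by
        intro x hx
        have hx0 : x ≠ 0 := hx.2
        have hx1 : ‖x‖ < 1 := mem_ball_zero_iff.mp hx.1
        have hxi := hinvn x hx0 hx1
        have d1 : DifferentiableAt ℂ (fun y : ℂ => y⁻¹) x := differentiableAt_inv hx0
        have d2 : DifferentiableAt ℂ psi x⁻¹ := (H.deriv _ hxi).differentiableAt
        have d3 : DifferentiableAt ℂ φ (psi x⁻¹) :=
          hd.differentiableAt (hDopen.mem_nhds (H.maps _ hxi))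
        have d4 : DifferentiableAt ℂ (fun y : ℂ => φ (psi y⁻¹)) x :=
          DifferentiableAt.comp x d3 (DifferentiableAt.comp x d2 d1)
        have hne : φ (psi x⁻¹) ≠ 0 := by
          have := hgt _ hxi
          rw [← norm_ne_zero_iff]; linarith
        exact (d4.inv hne).differentiableWithinAt
      exact h1.congr fun x hx => hfne x hx.2
    · rw [continuousAt_iff_punctured_nhds, hf0]
      have h2 : Tendsto (fun x : ℂ => ‖φ (psi x⁻¹)‖) (𝓝[≠] 0) atTop :=
        hF.comp (by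
          have := tendsto_inv₀_nhdsNE_zero (α := ℂ)
          rw [Metric.cobounded_eq_cocompact] at this
          exact this)
      have h3 : Tendsto (fun x : ℂ => ‖φ (psi x⁻¹)‖⁻¹) (𝓝[≠] 0) (𝓝 0) := h2.inv_tendsto_atTop
      rw [tendsto_zero_iff_norm_tendsto_zero]
      refine h3.congr' ?_
      filter_upwards [self_mem_nhdsWithin] with x hx
      rw [hfne x hx, norm_inv]
  have hmaps : MapsTo f (Metric.ball 0 1) (Metric.ball 0 1) := by
    intro x hx
    rw [mem_ball_zero_iff] at hx ⊢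
    by_cases hx0 : x = 0
    · rw [hx0, hf0, norm_zero]; exact one_pos
    · rw [hfne x hx0, norm_inv]
      exact inv_lt_one_of_one_lt₀ (hgt _ (hinvn x hx0 hx))
  have hinj : InjOn f (Metric.ball 0 1) := by
    intro x hx y hy hxy
    rw [mem_ball_zero_iff] at hx hy
    have hnz : ∀ z : ℂ, z ≠ 0 → ‖z‖ < 1 → f z ≠ 0 := by
      intro z hz0 hz
      rw [hfne z hz0]
      apply inv_ne_zero
      have := hgt _ (hinvn z hz0 hz)
      rw [← norm_ne_zero_iff]; linarith
    by_cases hx0 : x = 0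
    · by_cases hy0 : y = 0
      · rw [hx0, hy0]
      · exfalso
        rw [hx0, hf0] at hxy
        exact hnz y hy0 hy hxy.symm
    · by_cases hy0 : y = 0
      · exfalso
        rw [hy0, hf0] at hxy
        exact hnz x hx0 hx hxy
      · rw [hfne x hx0, hfne y hy0, inv_inj] at hxy
        have h1 := hi (H.maps _ (hinvn x hx0 hx)) (H.maps _ (hinvn y hy0 hy)) hxy
        have h2 := H.inj (hinvn x hx0 hx).le (hinvn y hy0 hy).le h1
        exact inv_inj.mp h2
  have hsurj : SurjOn f (Metric.ball 0 1) (Metric.ball 0 1) := by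
    intro v hv
    rw [mem_ball_zero_iff] at hv
    by_cases hv0 : v = 0
    · exact ⟨0, h0mem, by rw [hf0, hv0]⟩
    · have h1 : v⁻¹ ∈ {w : ℂ | 1 < ‖w‖} := hinvn v hv0 hv
      rw [← him] at h1
      obtain ⟨z, hz, hzv⟩ := h1
      obtain ⟨u, hu, rfl⟩ := H.surj z hz
      have hu0 : u ≠ 0 := by
        rintro rfl
        rw [norm_zero] at hu; linarith
      refine ⟨u⁻¹, ?_, ?_⟩
      · rw [mem_ball_zero_iff, norm_inv]
        exact inv_lt_one_of_one_lt₀ hu
      · rw [hfne _ (inv_ne_zero hu0), inv_inv, hzv, inv_inv]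
  have hw0 : w ≠ 0 := by
    rintro rfl
    rw [norm_zero] at hw; linarith
  have hwi : ‖w⁻¹‖ < 1 := by rw [norm_inv]; exact inv_lt_one_of_one_lt₀ hw
  have key := disc_auto hfd hf0 hinj hmaps hsurj hwi
  rw [hfne _ (inv_ne_zero hw0), inv_inv, norm_inv, norm_inv, inv_inj] at key
  exact key

end Pool.Agent.Work.MP_82f4f8_an

end
end

section

set_option autoImplicit false

noncomputable section

namespace Pool.Agent.Work.MP_82f4f8_an

open Real MeasureTheory Set Filter Topology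

/-! ### binomial coefficients -/

lemma bc_zero : bc 0 = 1 := by
  unfold bc; exact Ring.choose_zero_right _

lemma bc_succ (j : ℕ) : bc (j + 1) = bc j * (1 / 2 - j) / (j + 1) := by
  unfold bc
  rw [Ring.choose_eq_smul, Ring.choose_eq_smul, descPochhammer_succ_right, Polynomial.smeval_mul,
    Nat.factorial_succ]
  have h1 : (j.factorial : ℝ) ≠ 0 := by exact_mod_cast Nat.factorial_ne_zero j
  have h2 : (j : ℝ) + 1 ≠ 0 := by positivity
  simp [Polynomial.smeval_sub, Polynomial.smeval_X, Polynomial.smeval_natCast]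
  field_simp

/-- auxiliary sequence -/
def ac : ℕ → ℝ
  | 0 => 1
  | (j + 1) => ac j * (2 * j + 1) / (2 * j + 2)

lemma ac_pos (j : ℕ) : 0 < ac j := by
  induction j with
  | zero => simp [ac]
  | succ j ih => simp only [ac]; positivity

lemma abs_bc (j : ℕ) : |bc (j + 1)| = ac j / (2 * j + 2) := by
  induction j with
  | zero => rw [bc_succ, bc_zero]; simp [ac]
  | succ j ih =>
    rw [bc_succ, abs_div, abs_mul, ih, ac]
    have h1 : |(1 / 2 - ((j + 1 : ℕ) : ℝ))| = (2 * j + 1) / 2 := by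
      rw [abs_of_nonpos]
      · push_cast; ring
      · push_cast
        have : (0:ℝ) ≤ j := Nat.cast_nonneg j
        linarith
    have h2 : |(((j + 1 : ℕ) : ℝ)) + 1| = j + 2 := by
      rw [abs_of_nonneg (by positivity)]; push_cast; ring
    rw [h1, h2]
    push_cast
    have h3 : (2 * (j : ℝ) + 2) ≠ 0 := by positivity
    have h4 : ((j : ℝ) + 2) ≠ 0 := by positivity
    have h5 : (2 * ((j : ℝ) + 1) + 2) ≠ 0 := by positivity
    field_simp
    ring

lemma abs_bc' (j : ℕ) : |bc (j + 1)| = ac j - ac (j + 1) := by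
  rw [abs_bc, ac]
  have h3 : (2 * (j : ℝ) + 2) ≠ 0 := by positivity
  field_simp
  ring

lemma sum_abs_bc (n : ℕ) : ∑ j ∈ Finset.range n, |bc (j + 1)| = 1 - ac n := by
  simp only [abs_bc']
  rw [Finset.sum_range_sub']
  simp [ac]

lemma summable_bc : Summable fun j : ℕ => |bc (j + 1)| := by
  apply summable_of_sum_range_le (c := 1) (fun n => abs_nonneg _)
  intro n
  rw [sum_abs_bc]
  linarith [ac_pos n]

lemma tsum_bc_le : ∑' j : ℕ, |bc (j + 1)| ≤ 1 := by
  apply Real.tsum_le_of_sum_range_le (fun n => abs_nonneg _)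
  intro n
  rw [sum_abs_bc]
  linarith [ac_pos n]

lemma norm_bc (j : ℕ) : ‖((bc j : ℝ) : ℂ)‖ = |bc j| := by
  rw [Complex.norm_real, Real.norm_eq_abs]

/-- the series of `(1+z)^{1/2}` on the closed disc -/
def BB (z : ℂ) : ℂ := 1 + ∑' j : ℕ, ((bc (j + 1) : ℝ) : ℂ) * z ^ (j + 1)

lemma BB_bound {z : ℂ} (hz : ‖z‖ ≤ 1) (j : ℕ) :
    ‖((bc (j + 1) : ℝ) : ℂ) * z ^ (j + 1)‖ ≤ |bc (j + 1)| := by
  rw [norm_mul, norm_bc, norm_pow]
  exact mul_le_of_le_one_right (abs_nonneg _) (pow_le_one₀ (norm_nonneg _) hz)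

lemma BB_cont : ContinuousOn BB (Metric.closedBall 0 1) := by
  unfold BB
  apply ContinuousOn.add continuousOn_const
  apply continuousOn_tsum (u := fun j : ℕ => |bc (j + 1)|)
  · intro j; fun_prop
  · exact summable_bc
  · intro j z hz
    exact BB_bound (by simpa using hz) j

lemma BB_eq {z : ℂ} (hz : ‖z‖ < 1) : BB z = (1 + z) ^ (1 / 2 : ℂ) := by
  have h := Complex.one_add_cpow_hasFPowerSeriesOnBall_zero (a := (1 / 2 : ℂ))
  have h2 := h.hasSum (y := z) (by
    rw [Metric.mem_eball, edist_zero_right]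
    have h9 := (enorm_lt_coe (r := 1)).2 (show ‖z‖₊ < 1 from hz)
    rwa [ENNReal.coe_one] at h9)
  have h3 : ∀ n : ℕ, (binomialSeries ℂ (1 / 2 : ℂ) n) (fun _ => z) = ((bc n : ℝ) : ℂ) * z ^ n := by
    intro n
    rw [binomialSeries_apply, smul_eq_mul]
    unfold bc
    rw [Complex.ofReal_choose]
    simp
  simp only [h3, zero_add] at h2
  rw [← h2.tsum_eq, h2.summable.tsum_eq_zero_add]
  simp [BB, bc_zero]


/-! ### the series of `psi` -/

/-- `psi w = w - SS (1/w)` -/
def SS (x : ℂ) : ℂ := ∑' j : ℕ, ((bc (j + 1) / (4 * j + 3) : ℝ) : ℂ) * x ^ (4 * j + 3)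

lemma psi_eq (w : ℂ) : psi w = w - SS w⁻¹ := rfl

lemma norm_cc (j : ℕ) : ‖((bc (j + 1) / (4 * j + 3) : ℝ) : ℂ)‖ = |bc (j + 1)| / (4 * j + 3) := by
  rw [Complex.norm_real, Real.norm_eq_abs, abs_div, abs_of_pos (by positivity : (0:ℝ) < 4 * j + 3)]

lemma norm_cc_le (j : ℕ) : |bc (j + 1)| / (4 * j + 3) ≤ |bc (j + 1)| := by
  apply div_le_self (abs_nonneg _)
  have : (0:ℝ) ≤ j := Nat.cast_nonneg j
  linarith

lemma SS_bound {x : ℂ} (hx : ‖x‖ ≤ 1) (j : ℕ) :
    ‖((bc (j + 1) / (4 * j + 3) : ℝ) : ℂ) * x ^ (4 * j + 3)‖ ≤ |bc (j + 1)| := by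
  rw [norm_mul, norm_cc, norm_pow]
  exact le_trans (mul_le_of_le_one_right (by positivity) (pow_le_one₀ (norm_nonneg _) hx))
    (norm_cc_le j)

lemma SS_summable {x : ℂ} (hx : ‖x‖ ≤ 1) :
    Summable fun j : ℕ => ((bc (j + 1) / (4 * j + 3) : ℝ) : ℂ) * x ^ (4 * j + 3) :=
  Summable.of_norm_bounded summable_bc (SS_bound hx)

lemma SS_cont : ContinuousOn SS (Metric.closedBall 0 1) := by
  unfold SS
  apply continuousOn_tsum (u := fun j : ℕ => |bc (j + 1)|)
  · intro j; fun_prop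
  · exact summable_bc
  · intro j z hz
    exact SS_bound (by simpa using hz) j

lemma SS_norm_le {x : ℂ} (hx : ‖x‖ ≤ 1) : ‖SS x‖ ≤ 1 := by
  unfold SS
  exact le_trans (tsum_of_norm_bounded summable_bc.hasSum (SS_bound hx)) tsum_bc_le

lemma inv_norm_le {w : ℂ} (h : 1 ≤ ‖w‖) : ‖w⁻¹‖ ≤ 1 := by
  rw [norm_inv]; exact inv_le_one_of_one_le₀ h

lemma inv_norm_lt {w : ℂ} (h : 1 < ‖w‖) : ‖w⁻¹‖ < 1 := by
  rw [norm_inv]; exact inv_lt_one_of_one_lt₀ h

lemma ne_zero_of_one_le {w : ℂ} (h : 1 ≤ ‖w‖) : w ≠ 0 := by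
  rintro rfl
  rw [norm_zero] at h
  linarith

lemma psi_cont : ContinuousOn psi {w | 1 ≤ ‖w‖} := by
  have h : psi = fun w => w - SS w⁻¹ := rfl
  rw [h]
  apply continuousOn_id.sub
  apply SS_cont.comp
  · intro w hw
    exact (continuousAt_inv₀ (ne_zero_of_one_le hw)).continuousWithinAt
  · intro w hw
    simpa using inv_norm_le hw

lemma psi_rot (w : ℂ) : psi (Complex.I * w) = Complex.I * psi w := by
  rw [psi_eq, psi_eq, mul_sub, mul_inv, Complex.inv_I]
  congr 1
  unfold SS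
  rw [← tsum_mul_left]
  apply tsum_congr
  intro j
  rw [mul_pow]
  have : (-Complex.I) ^ (4 * j + 3) = Complex.I := by
    rw [pow_add, pow_mul]
    have h4 : (-Complex.I) ^ 4 = 1 := by
      rw [Even.neg_pow (by decide), Complex.I_pow_four]
    rw [h4, one_pow, one_mul]
    rw [Odd.neg_pow (by decide), Complex.I_pow_three, neg_neg]
  rw [this]
  ring

lemma mul_SS'_eq (x : ℂ) : 1 + x ^ 2 * ∑' j : ℕ, ((bc (j + 1) : ℝ) : ℂ) * x ^ (4 * j + 2)
    = BB (x ^ 4) := by
  unfold BB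
  rw [← tsum_mul_left]
  congr 1
  apply tsum_congr
  intro j
  rw [← pow_mul]
  ring

lemma SS_hasDerivAt {x : ℂ} (hx : ‖x‖ < 1) :
    HasDerivAt SS (∑' j : ℕ, ((bc (j + 1) : ℝ) : ℂ) * x ^ (4 * j + 2)) x := by
  have hpc : IsPreconnected (Metric.ball (0 : ℂ) 1) := (convex_ball (0 : ℂ) 1).isPreconnected
  have h00 : (0 : ℂ) ∈ Metric.ball (0 : ℂ) 1 := by simp
  have hx0 : x ∈ Metric.ball (0 : ℂ) 1 := by simpa using hx
  have hs0 : Summable fun j : ℕ => ((bc (j + 1) / (4 * j + 3) : ℝ) : ℂ) * (0 : ℂ) ^ (4 * j + 3) :=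
    SS_summable (by simp)
  refine hasDerivAt_tsum_of_isPreconnected (u := fun j : ℕ => |bc (j + 1)|)
    (g := fun (j : ℕ) (x : ℂ) => ((bc (j + 1) / (4 * j + 3) : ℝ) : ℂ) * x ^ (4 * j + 3))
    (g' := fun (j : ℕ) (x : ℂ) => ((bc (j + 1) : ℝ) : ℂ) * x ^ (4 * j + 2))
    summable_bc Metric.isOpen_ball hpc ?_ ?_ h00 hs0 hx0
  · intro n y _
    have h := (hasDerivAt_pow (4 * n + 3) y).const_mul (((bc (n + 1) / (4 * n + 3) : ℝ) : ℂ))
    refine h.congr_deriv ?_
    have h3 : (4 * (n : ℂ) + 3) ≠ 0 := by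
      have : ((4 * (n : ℝ) + 3 : ℝ) : ℂ) ≠ 0 := by
        rw [Complex.ofReal_ne_zero]; positivity
      push_cast at this; exact this
    have e : 4 * n + 3 - 1 = 4 * n + 2 := by omega
    rw [e]
    push_cast
    field_simp
  · intro n y hy
    rw [norm_mul, norm_bc, norm_pow]
    apply mul_le_of_le_one_right (abs_nonneg _) (pow_le_one₀ (norm_nonneg _) _)
    have : ‖y‖ < 1 := by simpa using hy
    exact this.le

lemma psi_deriv {w : ℂ} (hw : 1 < ‖w‖) :
    HasDerivAt psi ((1 + (w⁻¹) ^ 4) ^ (1 / 2 : ℂ)) w := by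
  have h0 := ne_zero_of_one_le hw.le
  have h1 := (SS_hasDerivAt (inv_norm_lt hw)).comp w (hasDerivAt_inv h0)
  have h2 : HasDerivAt psi _ w := (hasDerivAt_id w).sub h1
  have h4 : ‖(w⁻¹) ^ 4‖ < 1 := by
    rw [norm_pow]
    exact pow_lt_one₀ (norm_nonneg _) (inv_norm_lt hw) (by norm_num)
  rw [← BB_eq h4, ← mul_SS'_eq]
  refine h2.congr_deriv ?_
  rw [inv_pow]
  ring

/-! ### the divided difference -/

/-- one term of `Rf` -/
def rt (j : ℕ) (x y : ℂ) : ℂ := ((bc (j + 1) / (4 * j + 3) : ℝ) : ℂ) *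
    ∑ i ∈ Finset.range (4 * j + 3), x ^ (i + 1) * y ^ (4 * j + 3 - i)

lemma Rf_eq (x y : ℂ) : Rf x y = 1 + ∑' j : ℕ, rt j x y := rfl

lemma rt_bound {x y : ℂ} (hx : ‖x‖ ≤ 1) (hy : ‖y‖ ≤ 1) (j : ℕ) :
    ‖rt j x y‖ ≤ |bc (j + 1)| * (‖x‖ * ‖y‖) := by
  unfold rt
  rw [norm_mul, norm_cc]
  have h1 : ‖∑ i ∈ Finset.range (4 * j + 3), x ^ (i + 1) * y ^ (4 * j + 3 - i)‖ ≤
      (4 * j + 3) * (‖x‖ * ‖y‖) := by
    refine le_trans (norm_sum_le _ _) ?_
    have h2 : ∀ i ∈ Finset.range (4 * j + 3), ‖x ^ (i + 1) * y ^ (4 * j + 3 - i)‖ ≤ ‖x‖ * ‖y‖ := by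
      intro i hi
      rw [Finset.mem_range] at hi
      rw [norm_mul, norm_pow, norm_pow]
      apply mul_le_mul _ _ (by positivity) (norm_nonneg _)
      · exact pow_le_of_le_one (norm_nonneg _) hx (by omega)
      · exact pow_le_of_le_one (norm_nonneg _) hy (by omega)
    refine le_trans (Finset.sum_le_sum h2) ?_
    rw [Finset.sum_const, Finset.card_range, nsmul_eq_mul]
    push_cast
    exact le_refl _
  refine le_trans (mul_le_mul_of_nonneg_left h1 (by positivity)) (le_of_eq ?_)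
  have : (4 * (j:ℝ) + 3) ≠ 0 := by positivity
  field_simp

lemma rt_bound' {x y : ℂ} (hx : ‖x‖ ≤ 1) (hy : ‖y‖ ≤ 1) (j : ℕ) :
    ‖rt j x y‖ ≤ |bc (j + 1)| :=
  le_trans (rt_bound hx hy j) (mul_le_of_le_one_right (abs_nonneg _)
    (mul_le_one₀ hx (norm_nonneg _) hy))

lemma rt_summable {x y : ℂ} (hx : ‖x‖ ≤ 1) (hy : ‖y‖ ≤ 1) : Summable fun j => rt j x y :=
  Summable.of_norm_bounded summable_bc (rt_bound' hx hy)

lemma Rf_bound {x y : ℂ} (hx : ‖x‖ ≤ 1) (hy : ‖y‖ ≤ 1) : ‖Rf x y - 1‖ ≤ ‖x‖ * ‖y‖ := by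
  rw [Rf_eq, add_sub_cancel_left]
  refine le_trans (tsum_of_norm_bounded (summable_bc.mul_right (‖x‖ * ‖y‖)).hasSum
    (rt_bound hx hy)) ?_
  rw [tsum_mul_right]
  exact mul_le_of_le_one_left (by positivity) tsum_bc_le

lemma Rf_cont : ContinuousOn (fun p : ℂ × ℂ => Rf p.1 p.2) {p | ‖p.1‖ ≤ 1 ∧ ‖p.2‖ ≤ 1} := by
  simp only [Rf_eq]
  apply ContinuousOn.add continuousOn_const
  apply continuousOn_tsum (u := fun j : ℕ => |bc (j + 1)|)
  · intro j; unfold rt; fun_prop
  · exact summable_bc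
  · intro j p hp
    exact rt_bound' hp.1 hp.2 j

lemma Rf_diff {x : ℂ} (hx : ‖x‖ ≤ 1) : DiffContOnCl ℂ (Rf x) (Metric.ball 0 1) := by
  have hR : Rf x = fun y => 1 + ∑' j : ℕ, rt j x y := rfl
  constructor
  · rw [hR]
    apply DifferentiableOn.add (differentiableOn_const _)
    apply Complex.differentiableOn_tsum_of_summable_norm (u := fun j : ℕ => |bc (j + 1)|)
      summable_bc _ Metric.isOpen_ball
    · intro j y hy
      have : ‖y‖ < 1 := by simpa using hy
      exact rt_bound' hx this.le j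
    · intro j
      unfold rt
      fun_prop
  · have h : ContinuousOn (Rf x) (Metric.closedBall 0 1) := by
      have h2 : ContinuousOn (fun y : ℂ => ((x, y) : ℂ × ℂ)) (Metric.closedBall 0 1) := by
        fun_prop
      have h3 : MapsTo (fun y : ℂ => ((x, y) : ℂ × ℂ)) (Metric.closedBall 0 1)
          {p : ℂ × ℂ | ‖p.1‖ ≤ 1 ∧ ‖p.2‖ ≤ 1} := fun y hy => ⟨hx, by simpa using hy⟩
      have h4 := ContinuousOn.comp (g := fun p : ℂ × ℂ => Rf p.1 p.2) Rf_cont h2 h3
      exact h4
    rwa [closure_ball _ one_ne_zero]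

lemma psi_fac {w w' : ℂ} (hw : 1 ≤ ‖w‖) (hw' : 1 ≤ ‖w'‖) :
    psi w - psi w' = (w - w') * Rf w⁻¹ w'⁻¹ := by
  have h0 := ne_zero_of_one_le hw
  have h0' := ne_zero_of_one_le hw'
  rw [psi_eq, psi_eq, Rf_eq, mul_add, mul_one]
  have h1 : SS w⁻¹ - SS w'⁻¹ = -((w - w') * ∑' j : ℕ, rt j w⁻¹ w'⁻¹) := by
    unfold SS
    rw [← (SS_summable (inv_norm_le hw)).tsum_sub (SS_summable (inv_norm_le hw')), ← tsum_mul_left,
      ← tsum_neg]
    apply tsum_congr
    intro j
    unfold rt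
    have key : w⁻¹ ^ (4 * j + 3) - w'⁻¹ ^ (4 * j + 3) = -((w - w') *
        ∑ i ∈ Finset.range (4 * j + 3), w⁻¹ ^ (i + 1) * w'⁻¹ ^ (4 * j + 3 - i)) := by
      rw [← (Commute.all _ _).geom_sum₂_mul, Finset.sum_mul, Finset.mul_sum,
        ← Finset.sum_neg_distrib]
      apply Finset.sum_congr rfl
      intro i hi
      rw [Finset.mem_range] at hi
      have e : 4 * j + 3 - i = (4 * j + 3 - 1 - i) + 1 := by omega
      rw [e, pow_succ, pow_succ]
      have e1 : w⁻¹ - w'⁻¹ = (w' - w) * (w⁻¹ * w'⁻¹) := by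
        field_simp
      rw [e1]
      ring
    rw [← mul_sub, key]
    ring
  linear_combination -h1

end Pool.Agent.Work.MP_82f4f8_an

end
end
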