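import Mathlib

/-! Bundle of small proof modules (one section per former module). -/

section

/-!
Definitions for the Fekete problem on the square (MP_82f4f8_an).

`YY t = ∫_0^t sqrt (2 cos 2τ) dτ`, `aa = YY (π/4)` is the half side of the square of capacity one, and
`zeta` is the boundary of the square, parametrised by the exterior conformal angle:
`zeta t = aa + i YY t` for `|t| ≤ π/4` and `zeta (t + π/2) = i zeta t`.
-/

set_option autoImplicit false

noncomputable section

namespace Pool.Agent.Work.MP_82f4f8_an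

open Real MeasureTheory Set

/-- height along the right side -/
def YY (t : ℝ) : ℝ := ∫ τ in (0:ℝ)..t, Real.sqrt (2 * Real.cos (2 * τ))

/-- half of the side of the square of capacity one -/
def aa : ℝ := YY (π / 4)

/-- the index of the side -/
def sideIdx (t : ℝ) : ℤ := round (t / (π / 2))

/-- boundary of the square, parametrised by the exterior conformal angle -/
def zeta (t : ℝ) : ℂ :=
  Complex.I ^ (sideIdx t) *
    ((aa : ℂ) + Complex.I * ((YY (t - (sideIdx t) * (π / 2)) : ℝ) : ℂ))

/-- speed of `zeta` -/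
def speed (t : ℝ) : ℝ := Real.sqrt (2 * |Real.cos (2 * t)|)

/-- derivative of `zeta` -/
def zeta' (t : ℝ) : ℂ := Complex.I ^ (sideIdx t + 1) * ((speed t : ℝ) : ℂ)

/-- the logarithmic potential of the equilibrium measure -/
def UU (z : ℂ) : ℝ := (1 / (2 * π)) * ∫ s in (0:ℝ)..(2 * π), Real.log ‖z - zeta s‖

/-- cyclic configuration of `n` points, period `P` -/
structure IsConf (n : ℕ) (P : ℝ) (x : ℤ → ℝ) : Prop where
  mono : StrictMono x
  per : ∀ j, x (j + n) = x j + P

/-- sum of a pair interaction over the `n` points of a configuration -/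
def energy (W : ℝ → ℝ → ℝ) (n : ℕ) (x : ℤ → ℝ) : ℝ :=
  ∑ k ∈ Finset.range n, ∑ j ∈ Finset.range k, W (x (j : ℤ)) (x (k : ℤ))

/-- the pair interaction: log of the chord length -/
def LL (t s : ℝ) : ℝ := Real.log ‖zeta t - zeta s‖

/-- maximiser of the product of distances -/
structure IsFek (n : ℕ) (x : ℤ → ℝ) : Prop where
  conf : IsConf n (2 * π) x
  maxi : ∀ y, IsConf n (2 * π) y → energy LL n y ≤ energy LL n x

end Pool.Agent.Work.MP_82f4f8_an

end
end

section

/-!
Basic geometry of the boundary parametrisation `zeta` of the square.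
-/

set_option autoImplicit false

noncomputable section

namespace Pool.Agent.Work.MP_82f4f8_an

open Real MeasureTheory Set Filter Topology

/-! ### the function `YY` -/

lemma cont_sq : Continuous fun τ : ℝ => Real.sqrt (2 * Real.cos (2 * τ)) := by
  fun_prop

lemma hasDerivAt_YY (t : ℝ) : HasDerivAt YY (Real.sqrt (2 * Real.cos (2 * t))) t := by
  unfold YY
  exact intervalIntegral.integral_hasDerivAt_right (cont_sq.intervalIntegrable _ _)
    (cont_sq.stronglyMeasurableAtFilter _ _) cont_sq.continuousAt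

lemma cont_YY : Continuous YY := by
  rw [continuous_iff_continuousAt]
  exact fun t => (hasDerivAt_YY t).continuousAt

lemma YY_zero : YY 0 = 0 := by simp [YY]

lemma YY_neg (t : ℝ) : YY (-t) = -YY t := by
  unfold YY
  have h := intervalIntegral.integral_comp_neg (a := -t) (b := 0)
    (f := fun τ => Real.sqrt (2 * Real.cos (2 * τ)))
  simp only [neg_zero, neg_neg] at h
  rw [intervalIntegral.integral_symm, ← h]
  simp

lemma YY_sub (s t : ℝ) : YY t - YY s = ∫ τ in s..t, Real.sqrt (2 * Real.cos (2 * τ)) := by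
  unfold YY
  rw [intervalIntegral.integral_interval_sub_left (cont_sq.intervalIntegrable _ _)
    (cont_sq.intervalIntegrable _ _)]

lemma cos_pos_of {t : ℝ} (h1 : -(π / 4) < t) (h2 : t < π / 4) : 0 < Real.cos (2 * t) := by
  apply Real.cos_pos_of_mem_Ioo
  constructor <;> linarith

lemma cos_nonneg_of {t : ℝ} (h1 : -(π / 4) ≤ t) (h2 : t ≤ π / 4) : 0 ≤ Real.cos (2 * t) := by
  apply Real.cos_nonneg_of_mem_Icc
  constructor <;> linarith

lemma YY_strictMonoOn : StrictMonoOn YY (Icc (-(π / 4)) (π / 4)) := by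
  apply strictMonoOn_of_deriv_pos (convex_Icc _ _) cont_YY.continuousOn
  intro t ht
  rw [interior_Icc] at ht
  rw [(hasDerivAt_YY t).deriv]
  have := cos_pos_of ht.1 ht.2
  positivity

lemma YY_mono : Monotone YY := by
  apply monotone_of_deriv_nonneg
  · exact fun t => (hasDerivAt_YY t).differentiableAt
  · intro t
    rw [(hasDerivAt_YY t).deriv]
    positivity

lemma aa_pos : 0 < aa := by
  have h := YY_strictMonoOn (a := 0) (b := π / 4) ⟨by linarith [pi_pos], by linarith [pi_pos]⟩
    ⟨by linarith [pi_pos], le_refl _⟩ (by linarith [pi_pos])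
  rw [YY_zero] at h
  exact h

lemma abs_YY_le {t : ℝ} (h : |t| ≤ π / 4) : |YY t| ≤ aa := by
  rw [abs_le] at h ⊢
  constructor
  · have := YY_mono h.1
    rw [YY_neg] at this
    exact this
  · exact YY_mono h.2

lemma YY_mem_range {y : ℝ} (h : |y| ≤ aa) : ∃ t, |t| ≤ π / 4 ∧ YY t = y := by
  rw [abs_le] at h
  have h1 : y ∈ Icc (YY (-(π / 4))) (YY (π / 4)) := by
    rw [YY_neg]; exact h
  obtain ⟨t, ht, hty⟩ := intermediate_value_Icc (by linarith [pi_pos]) cont_YY.continuousOn h1
  exact ⟨t, abs_le.2 ht, hty⟩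

/-! ### lower bound for increments of `YY` -/

lemma cos_two_mul_ge {t : ℝ} (h : |t| ≤ π / 4) : (8 / π) * (π / 4 - |t|) ≤ 2 * Real.cos (2 * t) := by
  have h1 : Real.cos (2 * t) = Real.sin (2 * (π / 4 - |t|)) := by
    rw [← Real.cos_abs (2 * t), abs_mul, abs_of_pos (by norm_num : (0:ℝ) < 2), ← Real.cos_pi_div_two_sub]
    congr 1; ring
  rw [h1]
  have h2 := Real.mul_le_sin (x := 2 * (π / 4 - |t|)) (by linarith) (by linarith [abs_nonneg t])
  have : 2 / π * (2 * (π / 4 - |t|)) = (4 / π) * (π / 4 - |t|) := by ring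
  rw [this] at h2
  have : (8 / π) * (π / 4 - |t|) = 2 * ((4 / π) * (π / 4 - |t|)) := by ring
  linarith

lemma mul_sqrt_superadd {a b : ℝ} (hb : 0 ≤ b) (hab : b ≤ a) :
    (a - b) * Real.sqrt (a - b) ≤ a * Real.sqrt a - b * Real.sqrt b := by
  have h1 : Real.sqrt (a - b) ≤ Real.sqrt a := Real.sqrt_le_sqrt (by linarith)
  have h2 : Real.sqrt b ≤ Real.sqrt a := Real.sqrt_le_sqrt hab
  nlinarith [mul_nonneg (sub_nonneg.2 hab) (sub_nonneg.2 h1), mul_nonneg hb (sub_nonneg.2 h2)]

lemma hasDerivAt_mul_sqrt {x : ℝ} (hx : 0 < x) :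
    HasDerivAt (fun x : ℝ => x * Real.sqrt x) ((3 / 2) * Real.sqrt x) x := by
  have h : HasDerivAt (fun x : ℝ => x * Real.sqrt x)
      (1 * Real.sqrt x + x * (1 / (2 * Real.sqrt x))) x :=
    (hasDerivAt_id x).mul (Real.hasDerivAt_sqrt hx.ne')
  have h2 : Real.sqrt x * Real.sqrt x = x := Real.mul_self_sqrt hx.le
  have h3 : 0 < Real.sqrt x := Real.sqrt_pos.2 hx
  have h4 : x * (1 / (2 * Real.sqrt x)) = Real.sqrt x / 2 := by
    rw [mul_one_div, div_eq_div_iff (by positivity) (by norm_num)]
    nlinarith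
  rw [h4] at h
  have h5 : (3 / 2) * Real.sqrt x = 1 * Real.sqrt x + Real.sqrt x / 2 := by ring
  rw [h5]
  exact h

/-- increments of `YY` on the upper half side -/
lemma YY_incr_pos {s t : ℝ} (hs : 0 ≤ s) (hst : s ≤ t) (ht : t ≤ π / 4) :
    (t - s) * Real.sqrt (t - s) ≤ YY t - YY s := by
  have hmono : MonotoneOn (fun τ => YY τ + (π / 4 - τ) * Real.sqrt (π / 4 - τ))
      (Icc 0 (π / 4)) := by
    apply monotoneOn_of_deriv_nonneg (convex_Icc _ _)
    · apply Continuous.continuousOn
      have := cont_YY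
      fun_prop
    · intro τ hτ
      rw [interior_Icc] at hτ
      have h1 : HasDerivAt (fun τ : ℝ => (π / 4 - τ) * Real.sqrt (π / 4 - τ))
          (-((3 / 2) * Real.sqrt (π / 4 - τ))) τ := by
        have := (hasDerivAt_mul_sqrt (x := π / 4 - τ) (by linarith [hτ.2])).comp_const_sub (π / 4) τ
        exact this
      exact ((hasDerivAt_YY τ).add h1).differentiableAt.differentiableWithinAt
    · intro τ hτ
      rw [interior_Icc] at hτ
      have h1 : HasDerivAt (fun τ : ℝ => (π / 4 - τ) * Real.sqrt (π / 4 - τ))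
          (-((3 / 2) * Real.sqrt (π / 4 - τ))) τ := by
        have := (hasDerivAt_mul_sqrt (x := π / 4 - τ) (by linarith [hτ.2])).comp_const_sub (π / 4) τ
        exact this
      have h2 := ((hasDerivAt_YY τ).add h1).deriv
      have h2' : deriv (fun τ => YY τ + (π / 4 - τ) * Real.sqrt (π / 4 - τ)) τ
          = Real.sqrt (2 * Real.cos (2 * τ)) + -((3 / 2) * Real.sqrt (π / 4 - τ)) := h2
      rw [h2']
      have h3 := cos_two_mul_ge (t := τ) (by rw [abs_le]; constructor <;> linarith [hτ.1, hτ.2])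
      rw [abs_of_pos hτ.1] at h3
      have h4 : (3 / 2) * Real.sqrt (π / 4 - τ) = Real.sqrt ((9 / 4) * (π / 4 - τ)) := by
        rw [Real.sqrt_mul (by norm_num)]
        congr 1
        rw [show (9 / 4 : ℝ) = (3 / 2) ^ 2 by norm_num, Real.sqrt_sq (by norm_num)]
      rw [h4]
      have h5 : (9 / 4) * (π / 4 - τ) ≤ 2 * Real.cos (2 * τ) := by
        refine le_trans ?_ h3
        apply mul_le_mul_of_nonneg_right _ (by linarith [hτ.2])
        rw [div_le_div_iff₀ (by norm_num) pi_pos]
        have := pi_lt_d2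
        linarith
      linarith [Real.sqrt_le_sqrt h5]
  have h := hmono (a := s) (b := t) ⟨hs, by linarith⟩ ⟨by linarith, ht⟩ hst
  simp only at h
  have h2 := mul_sqrt_superadd (a := π / 4 - s) (b := π / 4 - t) (by linarith) (by linarith)
  have h3 : π / 4 - s - (π / 4 - t) = t - s := by ring
  rw [h3] at h2
  linarith

lemma mul_sqrt_add_le {a b : ℝ} (ha : 0 ≤ a) (hb : 0 ≤ b) :
    (1 / 3) * ((a + b) * Real.sqrt (a + b)) ≤ a * Real.sqrt a + b * Real.sqrt b := by
  wlog h : b ≤ a generalizing a b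
  · have := this hb ha (by linarith)
    rw [add_comm b a] at this
    linarith
  have h1 : Real.sqrt (a + b) ≤ (3 / 2) * Real.sqrt a := by
    rw [show (3 / 2 : ℝ) = Real.sqrt ((9 / 4)) by
      rw [show (9 / 4 : ℝ) = (3 / 2) ^ 2 by norm_num, Real.sqrt_sq (by norm_num)],
      ← Real.sqrt_mul (by norm_num)]
    apply Real.sqrt_le_sqrt
    linarith
  have h2 : 0 ≤ Real.sqrt (a + b) := Real.sqrt_nonneg _
  have h3 : 0 ≤ Real.sqrt a := Real.sqrt_nonneg _
  have h4 : 0 ≤ b * Real.sqrt b := by positivity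
  nlinarith [mul_nonneg ha h3, mul_le_mul_of_nonneg_left h1 (by linarith : 0 ≤ a + b),
    mul_nonneg (sub_nonneg.2 h) h3]

/-- increments of `YY` on the whole side -/
lemma YY_incr {s t : ℝ} (hs : -(π / 4) ≤ s) (hst : s ≤ t) (ht : t ≤ π / 4) :
    (1 / 3) * ((t - s) * Real.sqrt (t - s)) ≤ YY t - YY s := by
  have hnn : 0 ≤ (t - s) * Real.sqrt (t - s) := mul_nonneg (by linarith) (Real.sqrt_nonneg _)
  rcases le_total 0 s with h | h
  · have := YY_incr_pos h hst ht
    linarith
  rcases le_total t 0 with h' | h'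
  · have := YY_incr_pos (s := -t) (t := -s) (by linarith) (by linarith) (by linarith)
    rw [YY_neg, YY_neg, show -s - -t = t - s by ring] at this
    linarith
  · have h1 := YY_incr_pos (s := 0) (t := t) le_rfl h' ht
    have h2 := YY_incr_pos (s := 0) (t := -s) le_rfl (by linarith) (by linarith)
    rw [YY_zero, YY_neg] at h2
    rw [YY_zero] at h1
    have h3 := mul_sqrt_add_le (a := t) (b := -s) h' (by linarith)
    simp only [sub_zero] at h1 h2
    rw [show t + -s = t - s by ring] at h3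
    linarith

lemma YY_lip (s t : ℝ) : |YY t - YY s| ≤ Real.sqrt 2 * |t - s| := by
  rw [YY_sub]
  have := intervalIntegral.norm_integral_le_of_norm_le_const (a := s) (b := t)
    (f := fun τ => Real.sqrt (2 * Real.cos (2 * τ))) (C := Real.sqrt 2) (by
      intro x _
      rw [Real.norm_of_nonneg (Real.sqrt_nonneg _)]
      apply Real.sqrt_le_sqrt
      linarith [Real.cos_le_one (2 * x)])
  simpa using this

/-! ### sides and rotation -/

lemma sideIdx_add (t : ℝ) : sideIdx (t + π / 2) = sideIdx t + 1 := by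
  unfold sideIdx
  rw [add_div, div_self (by positivity), round_add_one]

lemma sideIdx_eq_zero {t : ℝ} (h1 : -(π / 4) ≤ t) (h2 : t < π / 4) : sideIdx t = 0 := by
  unfold sideIdx
  rw [round_eq, Int.floor_eq_zero_iff]
  have hp := pi_pos
  constructor
  · have : -(1 / 2) ≤ t / (π / 2) := by
      rw [le_div_iff₀ (by positivity)]; linarith
    linarith
  · have : t / (π / 2) < 1 / 2 := by
      rw [div_lt_iff₀ (by positivity)]; linarith
    linarith

lemma sideIdx_add_int (t : ℝ) (k : ℤ) : sideIdx (t + k * (π / 2)) = sideIdx t + k := by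
  unfold sideIdx
  rw [add_div, mul_div_assoc, div_self (by positivity), mul_one, round_add_intCast]

lemma sideIdx_spec (t : ℝ) : -(π / 4) ≤ t - sideIdx t * (π / 2) ∧
    t - sideIdx t * (π / 2) < π / 4 := by
  unfold sideIdx
  have h := round_eq (t / (π / 2))
  have h1 := Int.floor_le (t / (π / 2) + 1 / 2)
  have h2 := Int.lt_floor_add_one (t / (π / 2) + 1 / 2)
  rw [← h] at h1 h2
  have hp : 0 < π / 2 := by positivity
  have e : t / (π / 2) * (π / 2) = t := by field_simp
  constructor
  · nlinarith [mul_le_mul_of_nonneg_right h1 hp.le]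
  · nlinarith [mul_lt_mul_of_pos_right h2 hp]

lemma zeta_add (t : ℝ) : zeta (t + π / 2) = Complex.I * zeta t := by
  unfold zeta
  rw [sideIdx_add, zpow_add₀ Complex.I_ne_zero, zpow_one]
  have : t + π / 2 - ((sideIdx t + 1 : ℤ) : ℝ) * (π / 2) = t - (sideIdx t : ℝ) * (π / 2) := by
    push_cast; ring
  rw [this]
  ring

lemma zeta_add_int (t : ℝ) (k : ℤ) : zeta (t + k * (π / 2)) = Complex.I ^ k * zeta t := by
  unfold zeta
  rw [sideIdx_add_int, zpow_add₀ Complex.I_ne_zero]
  have : t + k * (π / 2) - ((sideIdx t + k : ℤ) : ℝ) * (π / 2) = t - (sideIdx t : ℝ) * (π / 2) := by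
    push_cast; ring
  rw [this]
  ring

lemma zeta_two_pi (t : ℝ) : zeta (t + 2 * π) = zeta t := by
  have h := zeta_add_int t 4
  have e : t + ((4 : ℤ) : ℝ) * (π / 2) = t + 2 * π := by push_cast; ring
  rw [e] at h
  rw [h]
  have : (Complex.I : ℂ) ^ (4 : ℤ) = 1 := by
    rw [show (4 : ℤ) = ((4 : ℕ) : ℤ) by norm_num, zpow_natCast, Complex.I_pow_four]
  rw [this, one_mul]

lemma zeta_side {t : ℝ} (h : |t| ≤ π / 4) : zeta t = (aa : ℂ) + Complex.I * ((YY t : ℝ) : ℂ) := by
  rw [abs_le] at h
  rcases lt_or_eq_of_le h.2 with h2 | h2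
  · unfold zeta
    rw [sideIdx_eq_zero h.1 h2]
    simp
  · have e : t = -(π / 4) + π / 2 := by rw [h2]; ring
    have h3 := zeta_add (-(π / 4))
    rw [← e] at h3
    rw [h3]
    unfold zeta
    rw [sideIdx_eq_zero le_rfl (by linarith [pi_pos])]
    simp only [zpow_zero, Int.cast_zero, zero_mul, sub_zero, one_mul]
    rw [YY_neg, h2]
    have : YY (π / 4) = aa := rfl
    rw [this]
    push_cast
    linear_combination (-(aa : ℂ)) * Complex.I_mul_I

/-- reduction to the right side -/
lemma exists_side (t : ℝ) : ∃ (k : ℤ) (τ : ℝ), -(π / 4) ≤ τ ∧ τ < π / 4 ∧ t = τ + k * (π / 2) :=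
  ⟨sideIdx t, t - sideIdx t * (π / 2), (sideIdx_spec t).1, (sideIdx_spec t).2, by ring⟩

lemma rot_int {F : ℝ → ℂ} (hrot : ∀ t, F (t + π / 2) = Complex.I * F t) (t : ℝ) (k : ℤ) :
    F (t + k * (π / 2)) = Complex.I ^ k * F t := by
  induction k using Int.induction_on with
  | zero => simp
  | succ i ih =>
    have e : t + ((i : ℤ) + 1 : ℤ) * (π / 2) = (t + (i : ℤ) * (π / 2)) + π / 2 := by push_cast; ring
    rw [e, hrot, ih, zpow_add₀ Complex.I_ne_zero, zpow_one]
    ring
  | pred i ih =>
    have e : t + (-(i : ℤ) : ℤ) * (π / 2) = (t + (-(i : ℤ) - 1 : ℤ) * (π / 2)) + π / 2 := by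
      push_cast; ring
    rw [e, hrot] at ih
    have h2 : (Complex.I : ℂ) ^ (-(i : ℤ)) = Complex.I * Complex.I ^ (-(i : ℤ) - 1) := by
      rw [← zpow_one_add₀ Complex.I_ne_zero]
      congr 1
      ring
    rw [h2, mul_assoc] at ih
    exact mul_left_cancel₀ Complex.I_ne_zero ih

/-- gluing principle for continuity -/
lemma cont_of_side {F G : ℝ → ℂ} (hrot : ∀ t, F (t + π / 2) = Complex.I * F t)
    (hside : ∀ t, |t| ≤ π / 4 → F t = G t) (hG : Continuous G) : Continuous F := by
  have hp := pi_pos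
  -- continuity at points of the right side
  have key : ∀ τ, -(π / 4) ≤ τ → τ < π / 4 → ContinuousAt F τ := by
    intro τ h1 h2
    have hR : ContinuousWithinAt F (Ici τ) τ := by
      have h0 : ContinuousWithinAt G (Ici τ) τ := hG.continuousWithinAt
      refine h0.congr_of_eventuallyEq ?_ (hside τ (abs_le.2 ⟨h1, h2.le⟩))
      filter_upwards [self_mem_nhdsWithin, mem_nhdsWithin_of_mem_nhds (Iio_mem_nhds h2)] with u hu hu2
      exact hside u (abs_le.2 ⟨le_trans h1 hu, le_of_lt hu2⟩)
    have hL : ContinuousWithinAt F (Iic τ) τ := by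
      rcases lt_or_eq_of_le h1 with h3 | h3
      · have h0 : ContinuousWithinAt G (Iic τ) τ := hG.continuousWithinAt
        refine h0.congr_of_eventuallyEq ?_ (hside τ (abs_le.2 ⟨h1, h2.le⟩))
        filter_upwards [self_mem_nhdsWithin, mem_nhdsWithin_of_mem_nhds (Ioi_mem_nhds h3)] with u hu hu2
        exact hside u (abs_le.2 ⟨le_of_lt hu2, le_trans hu h2.le⟩)
      · have h0 : ContinuousWithinAt (fun u => Complex.I⁻¹ * G (u + π / 2)) (Iic τ) τ :=
          (continuous_const.mul (hG.comp (continuous_id.add continuous_const))).continuousWithinAt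
        have hF : ∀ u, F u = Complex.I⁻¹ * F (u + π / 2) := by
          intro u
          rw [hrot, ← mul_assoc, inv_mul_cancel₀ Complex.I_ne_zero, one_mul]
        refine h0.congr_of_eventuallyEq ?_ ?_
        · filter_upwards [self_mem_nhdsWithin,
            mem_nhdsWithin_of_mem_nhds (Ioi_mem_nhds (show -(3 * π / 4) < τ by linarith))] with u hu hu2
          have hu' : u ≤ τ := hu
          have hu2' : -(3 * π / 4) < u := hu2
          rw [hF u, hside (u + π / 2) (abs_le.2 ⟨by linarith, by linarith⟩)]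
        · rw [hF τ, hside (τ + π / 2) (abs_le.2 ⟨by linarith, by linarith⟩)]
    exact continuousAt_iff_continuous_left_right.2 ⟨hL, hR⟩
  rw [continuous_iff_continuousAt]
  intro t
  obtain ⟨k, τ, h1, h2, rfl⟩ := exists_side t
  have h3 : F = fun u => Complex.I ^ k * F (u - k * (π / 2)) := by
    funext u
    rw [← rot_int hrot (u - k * (π / 2)) k]
    congr 1; ring
  rw [h3]
  have h4 : ContinuousAt F (τ + k * (π / 2) - k * (π / 2)) := by
    rw [add_sub_cancel_right]; exact key τ h1 h2
  exact continuousAt_const.mul (ContinuousAt.comp (f := fun u : ℝ => u - k * (π / 2)) h4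
    (by fun_prop))

lemma cont_zeta : Continuous zeta := by
  refine cont_of_side (G := fun t => (aa : ℂ) + Complex.I * ((YY t : ℝ) : ℂ)) zeta_add
    (fun t ht => zeta_side ht) ?_
  have := cont_YY
  fun_prop

lemma speed_add (t : ℝ) : speed (t + π / 2) = speed t := by
  unfold speed
  rw [show 2 * (t + π / 2) = 2 * t + π by ring, Real.cos_add_pi, abs_neg]

lemma zeta'_add (t : ℝ) : zeta' (t + π / 2) = Complex.I * zeta' t := by
  unfold zeta'
  rw [sideIdx_add, speed_add, zpow_add₀ Complex.I_ne_zero (sideIdx t + 1) 1, zpow_one]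
  ring

lemma zeta'_side {t : ℝ} (h : |t| ≤ π / 4) :
    zeta' t = Complex.I * ((Real.sqrt (2 * Real.cos (2 * t)) : ℝ) : ℂ) := by
  rw [abs_le] at h
  have hs : speed t = Real.sqrt (2 * Real.cos (2 * t)) := by
    unfold speed
    rw [abs_of_nonneg (cos_nonneg_of h.1 h.2)]
  rcases lt_or_eq_of_le h.2 with h2 | h2
  · unfold zeta'
    rw [sideIdx_eq_zero h.1 h2, hs]
    simp
  · have : speed t = 0 := by
      unfold speed
      rw [h2, show 2 * (π / 4) = π / 2 by ring, Real.cos_pi_div_two]
      simp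
    unfold zeta'
    rw [← hs, this]
    simp

lemma cont_zeta' : Continuous zeta' := by
  refine cont_of_side (G := fun t => Complex.I * ((Real.sqrt (2 * Real.cos (2 * t)) : ℝ) : ℂ))
    zeta'_add (fun t ht => zeta'_side ht) ?_
  fun_prop

lemma speed_nonneg (t : ℝ) : 0 ≤ speed t := Real.sqrt_nonneg _

lemma norm_zeta' (t : ℝ) : ‖zeta' t‖ = speed t := by
  unfold zeta'
  rw [norm_mul, norm_zpow, Complex.norm_I, one_zpow, one_mul, Complex.norm_real,
    Real.norm_of_nonneg (speed_nonneg t)]

lemma speed_le (t : ℝ) : speed t ≤ Real.sqrt 2 := by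
  unfold speed
  apply Real.sqrt_le_sqrt
  linarith [Real.abs_cos_le_one (2 * t)]

lemma hasDerivAt_zeta (t : ℝ) : HasDerivAt zeta (zeta' t) t := by
  have hp := pi_pos
  have hG : ∀ τ, HasDerivAt (fun t => (aa : ℂ) + Complex.I * ((YY t : ℝ) : ℂ))
      (Complex.I * ((Real.sqrt (2 * Real.cos (2 * τ)) : ℝ) : ℂ)) τ := by
    intro τ
    exact ((hasDerivAt_YY τ).ofReal_comp.const_mul Complex.I).const_add _
  have key : ∀ τ, -(π / 4) ≤ τ → τ < π / 4 → HasDerivAt zeta (zeta' τ) τ := by
    intro τ h1 h2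
    have hR : HasDerivWithinAt zeta (zeta' τ) (Ici τ) τ := by
      rw [zeta'_side (abs_le.2 ⟨h1, h2.le⟩)]
      refine (hG τ).hasDerivWithinAt.congr_of_eventuallyEq ?_ (zeta_side (abs_le.2 ⟨h1, h2.le⟩))
      filter_upwards [self_mem_nhdsWithin, mem_nhdsWithin_of_mem_nhds (Iio_mem_nhds h2)] with u hu hu2
      exact zeta_side (abs_le.2 ⟨le_trans h1 hu, le_of_lt hu2⟩)
    have hL : HasDerivWithinAt zeta (zeta' τ) (Iic τ) τ := by
      rcases lt_or_eq_of_le h1 with h3 | h3
      · rw [zeta'_side (abs_le.2 ⟨h1, h2.le⟩)]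
        refine (hG τ).hasDerivWithinAt.congr_of_eventuallyEq ?_ (zeta_side (abs_le.2 ⟨h1, h2.le⟩))
        filter_upwards [self_mem_nhdsWithin, mem_nhdsWithin_of_mem_nhds (Ioi_mem_nhds h3)] with u hu hu2
        exact zeta_side (abs_le.2 ⟨le_of_lt hu2, le_trans hu h2.le⟩)
      · have hF : ∀ u, zeta u = Complex.I⁻¹ * zeta (u + π / 2) := by
          intro u
          rw [zeta_add, ← mul_assoc, inv_mul_cancel₀ Complex.I_ne_zero, one_mul]
        have hF' : zeta' τ = Complex.I⁻¹ * zeta' (τ + π / 2) := by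
          rw [zeta'_add, ← mul_assoc, inv_mul_cancel₀ Complex.I_ne_zero, one_mul]
        have h4 : |τ + π / 2| ≤ π / 4 := abs_le.2 ⟨by linarith, by linarith⟩
        have h0 := ((hG (τ + π / 2)).comp_add_const τ (π / 2)).const_mul (Complex.I⁻¹)
        rw [hF', zeta'_side h4]
        refine h0.hasDerivWithinAt.congr_of_eventuallyEq ?_ ?_
        · filter_upwards [self_mem_nhdsWithin,
            mem_nhdsWithin_of_mem_nhds (Ioi_mem_nhds (show -(3 * π / 4) < τ by linarith))] with u hu hu2
          have hu' : u ≤ τ := hu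
          have hu2' : -(3 * π / 4) < u := hu2
          rw [hF u, zeta_side (t := u + π / 2) (abs_le.2 ⟨by linarith, by linarith⟩)]
        · rw [hF τ, zeta_side h4]
    have h5 := hL.union hR
    rw [Iic_union_Ici] at h5
    exact h5.hasDerivAt univ_mem
  obtain ⟨k, τ, h1, h2, rfl⟩ := exists_side t
  have h3 : zeta = fun u => Complex.I ^ k * zeta (u - k * (π / 2)) := by
    funext u
    rw [← zeta_add_int (u - k * (π / 2)) k]
    congr 1; ring
  have h4 : zeta' (τ + k * (π / 2)) = Complex.I ^ k * zeta' τ := rot_int zeta'_add τ k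
  rw [h4, h3]
  have h6 : HasDerivAt zeta (zeta' τ) (τ + k * (π / 2) - k * (π / 2)) := by
    rw [add_sub_cancel_right]; exact key τ h1 h2
  have h7 := h6.comp_sub_const (τ + k * (π / 2)) (k * (π / 2))
  exact h7.const_mul _

lemma zeta_lip (s t : ℝ) : ‖zeta t - zeta s‖ ≤ Real.sqrt 2 * |t - s| := by
  have := Convex.norm_image_sub_le_of_norm_hasDerivWithin_le (f := zeta) (f' := zeta')
    (s := univ) (C := Real.sqrt 2) (x := s) (y := t)
    (fun x _ => (hasDerivAt_zeta x).hasDerivWithinAt)
    (fun x _ => by rw [norm_zeta']; exact speed_le x) convex_univ (mem_univ _) (mem_univ _)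
  simpa using this

lemma norm_I_zpow_mul (k : ℤ) (z : ℂ) : ‖Complex.I ^ k * z‖ = ‖z‖ := by
  rw [norm_mul, norm_zpow, Complex.norm_I, one_zpow, one_mul]

/-- the next side -/
lemma zeta_side1 {t : ℝ} (h1 : π / 4 ≤ t) (h2 : t ≤ 3 * π / 4) :
    zeta t = -((YY (t - π / 2) : ℝ) : ℂ) + Complex.I * (aa : ℂ) := by
  have h3 : zeta t = Complex.I * zeta (t - π / 2) := by
    rw [← zeta_add]; congr 1; ring
  rw [h3, zeta_side (abs_le.2 ⟨by linarith, by linarith⟩), mul_add, ← mul_assoc, Complex.I_mul_I]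
  ring

/-- the opposite side -/
lemma zeta_side2 {t : ℝ} (h1 : 3 * π / 4 ≤ t) (h2 : t ≤ 5 * π / 4) :
    zeta t = -(aa : ℂ) - Complex.I * ((YY (t - π) : ℝ) : ℂ) := by
  have h3 : zeta t = Complex.I * (Complex.I * zeta (t - π)) := by
    rw [← zeta_add, ← zeta_add]; congr 1; ring
  rw [h3, zeta_side (abs_le.2 ⟨by linarith, by linarith⟩), ← mul_assoc, Complex.I_mul_I]
  ring

/-- the last side -/
lemma zeta_side3 {t : ℝ} (h1 : 5 * π / 4 ≤ t) (h2 : t ≤ 7 * π / 4) :
    zeta t = ((YY (t - 3 * π / 2) : ℝ) : ℂ) - Complex.I * (aa : ℂ) := by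
  have h3 : zeta t = Complex.I * (Complex.I * (Complex.I * zeta (t - 3 * π / 2))) := by
    rw [← zeta_add, ← zeta_add, ← zeta_add]; congr 1; ring
  rw [h3, zeta_side (abs_le.2 ⟨by linarith, by linarith⟩)]
  have : Complex.I * (Complex.I * (Complex.I * ((aa : ℂ) + Complex.I * ((YY (t - 3 * π / 2) : ℝ) : ℂ))))
    = (Complex.I * Complex.I) * Complex.I * (aa : ℂ)
      + (Complex.I * Complex.I) * (Complex.I * Complex.I) * ((YY (t - 3 * π / 2) : ℝ) : ℂ) := by ring
  rw [this, Complex.I_mul_I]
  ring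

lemma two_aa_ge : (1 / 3) * ((π / 2) * Real.sqrt (π / 2)) ≤ 2 * aa := by
  have h := YY_incr (s := -(π / 4)) (t := π / 4) le_rfl (by linarith [pi_pos]) le_rfl
  rw [YY_neg, show π / 4 - -(π / 4) = π / 2 by ring] at h
  have : YY (π / 4) = aa := rfl
  rw [this] at h
  linarith

/-- lower bound for the chord -/
lemma chord_lower {s t : ℝ} (h : |t - s| ≤ π) :
    (1 / 20) * (|t - s| * Real.sqrt |t - s|) ≤ ‖zeta t - zeta s‖ := by
  have hp := pi_pos
  wlog hst : s ≤ t generalizing s t
  · have := this (s := t) (t := s) (by rw [abs_sub_comm]; exact h) (by linarith)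
    rw [abs_sub_comm, norm_sub_rev]
    exact this
  obtain ⟨k, σ, hσ1, hσ2, rfl⟩ := exists_side s
  set τ := t - k * (π / 2) with hτ
  have ht : t = τ + k * (π / 2) := by rw [hτ]; ring
  rw [ht] at h hst ⊢
  rw [zeta_add_int, zeta_add_int, ← mul_sub, norm_I_zpow_mul,
    show τ + k * (π / 2) - (σ + k * (π / 2)) = τ - σ by ring]
  rw [show τ + k * (π / 2) - (σ + k * (π / 2)) = τ - σ by ring] at h
  have hle : σ ≤ τ := by linarith
  rw [abs_of_nonneg (by linarith)] at h ⊢
  clear_value τ
  clear ht hτ hst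
  have hnn : 0 ≤ (τ - σ) * Real.sqrt (τ - σ) := mul_nonneg (by linarith) (Real.sqrt_nonneg _)
  rcases le_total τ (π / 4) with h1 | h1
  · rw [zeta_side (abs_le.2 ⟨by linarith, h1⟩), zeta_side (abs_le.2 ⟨hσ1, hσ2.le⟩)]
    have h2 := YY_incr hσ1 hle h1
    have h3 : ‖(aa : ℂ) + Complex.I * ((YY τ : ℝ) : ℂ) - ((aa : ℂ) + Complex.I * ((YY σ : ℝ) : ℂ))‖
        = |YY τ - YY σ| := by
      rw [show (aa : ℂ) + Complex.I * ((YY τ : ℝ) : ℂ) - ((aa : ℂ) + Complex.I * ((YY σ : ℝ) : ℂ))
        = Complex.I * ((YY τ - YY σ : ℝ) : ℂ) by push_cast; ring, norm_mul, Complex.norm_I, one_mul,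
        Complex.norm_real, Real.norm_eq_abs]
    rw [h3]
    have := le_abs_self (YY τ - YY σ)
    linarith
  rcases le_total τ (3 * π / 4) with h2 | h2
  · rw [zeta_side1 h1 h2, zeta_side (abs_le.2 ⟨hσ1, hσ2.le⟩)]
    have ha : YY (π / 4) = aa := rfl
    have h3 := YY_incr hσ1 hσ2.le le_rfl
    have h4 := YY_incr (s := -(π / 4)) (t := τ - π / 2) le_rfl (by linarith) (by linarith)
    rw [YY_neg, show τ - π / 2 - -(π / 4) = τ - π / 4 by ring] at h4
    rw [ha] at h3 h4
    have h5 := mul_sqrt_add_le (a := τ - π / 4) (b := π / 4 - σ) (by linarith) (by linarith)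
    rw [show τ - π / 4 + (π / 4 - σ) = τ - σ by ring] at h5
    set w := -((YY (τ - π / 2) : ℝ) : ℂ) + Complex.I * (aa : ℂ) - ((aa : ℂ) + Complex.I * ((YY σ : ℝ) : ℂ))
    have hre : w.re = -(YY (τ - π / 2) + aa) := by simp [w]; ring
    have him : w.im = aa - YY σ := by simp [w]
    have h6 := Complex.abs_re_le_norm w
    have h7 := Complex.abs_im_le_norm w
    rw [hre, abs_neg] at h6
    rw [him] at h7
    have h8 := le_abs_self (YY (τ - π / 2) + aa)
    have h9 := le_abs_self (aa - YY σ)
    linarith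
  · rw [zeta_side2 h2 (by linarith), zeta_side (abs_le.2 ⟨hσ1, hσ2.le⟩)]
    set w := -(aa : ℂ) - Complex.I * ((YY (τ - π) : ℝ) : ℂ) - ((aa : ℂ) + Complex.I * ((YY σ : ℝ) : ℂ))
    have hre : w.re = -(2 * aa) := by simp [w]; ring
    have h6 := Complex.abs_re_le_norm w
    rw [hre, abs_neg, abs_of_pos (by linarith [aa_pos])] at h6
    have h7 := two_aa_ge
    have h8 : (τ - σ) * Real.sqrt (τ - σ) ≤ π * Real.sqrt π :=
      mul_le_mul h (Real.sqrt_le_sqrt h) (Real.sqrt_nonneg _) hp.le
    have h9 : Real.sqrt π ≤ (3 / 2) * Real.sqrt (π / 2) := by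
      rw [show (3 / 2 : ℝ) = Real.sqrt ((9 / 4)) by
        rw [show (9 / 4 : ℝ) = (3 / 2) ^ 2 by norm_num, Real.sqrt_sq (by norm_num)],
        ← Real.sqrt_mul (by norm_num)]
      apply Real.sqrt_le_sqrt
      linarith
    have h10 := mul_le_mul_of_nonneg_left h9 hp.le
    have h11 : 0 ≤ π / 2 * Real.sqrt (π / 2) := by positivity
    linarith

lemma zeta_ne {s t : ℝ} (h1 : s < t) (h2 : t < s + 2 * π) : zeta t ≠ zeta s := by
  have hp := pi_pos
  have key : ∀ {a b : ℝ}, a ≠ b → |b - a| ≤ π → zeta b ≠ zeta a := by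
    intro a b hab h habs
    have := chord_lower h
    rw [habs, sub_self, norm_zero] at this
    have h3 : 0 < |b - a| := abs_pos.2 (sub_ne_zero.2 (Ne.symm hab))
    have h4 : 0 < |b - a| * Real.sqrt |b - a| := mul_pos h3 (Real.sqrt_pos.2 h3)
    linarith
  rcases le_total (t - s) π with h | h
  · exact key (ne_of_lt h1) (by rw [abs_of_pos (by linarith)]; exact h)
  · have := key (a := s + 2 * π) (b := t) (by linarith) (by
      rw [abs_sub_comm, abs_of_pos (by linarith)]; linarith)
    rwa [zeta_two_pi] at this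

/-! ### the boundary of the square -/

/-- the boundary of the square -/
def Gam : Set ℂ := {z | max |z.re| |z.im| = aa}

lemma I_mul_gam (z : ℂ) : max |(Complex.I * z).re| |(Complex.I * z).im| = max |z.re| |z.im| := by
  simp [max_comm]

lemma I_zpow_mul_gam (k : ℤ) (z : ℂ) :
    max |(Complex.I ^ k * z).re| |(Complex.I ^ k * z).im| = max |z.re| |z.im| := by
  induction k using Int.induction_on with
  | zero => simp
  | succ i ih =>
    rw [zpow_add₀ Complex.I_ne_zero, zpow_one, mul_comm _ Complex.I, mul_assoc, I_mul_gam]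
    exact ih
  | pred i ih =>
    rw [← I_mul_gam, ← mul_assoc, ← zpow_one_add₀ Complex.I_ne_zero]
    rw [show 1 + (-(i : ℤ) - 1) = -(i : ℤ) by ring]
    exact ih

lemma zeta_mem (t : ℝ) : zeta t ∈ Gam := by
  obtain ⟨k, τ, h1, h2, rfl⟩ := exists_side t
  unfold Gam
  rw [Set.mem_ofPred_eq, zeta_add_int, I_zpow_mul_gam, zeta_side (abs_le.2 ⟨h1, h2.le⟩)]
  have h3 := abs_YY_le (abs_le.2 ⟨h1, h2.le⟩)
  have h4 := aa_pos
  have hre : ((aa : ℂ) + Complex.I * ((YY τ : ℝ) : ℂ)).re = aa := by simp
  have him : ((aa : ℂ) + Complex.I * ((YY τ : ℝ) : ℂ)).im = YY τ := by simp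
  rw [hre, him, abs_of_pos h4]
  exact max_eq_left h3

lemma zeta_surj {z : ℂ} (hz : z ∈ Gam) : ∃ t, zeta t = z := by
  have hz' : max |z.re| |z.im| = aa := hz
  have key : ∀ w : ℂ, w.re = aa → |w.im| ≤ aa → ∃ t, zeta t = w := by
    intro w h1 h2
    obtain ⟨t, ht, hty⟩ := YY_mem_range h2
    refine ⟨t, ?_⟩
    rw [zeta_side ht, hty]
    apply Complex.ext <;> simp [h1]
  have step : ∀ w : ℂ, (∃ t, zeta t = w) → ∃ t, zeta t = Complex.I * w := by
    rintro w ⟨t, rfl⟩
    exact ⟨t + π / 2, zeta_add t⟩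
  have hre : |z.re| ≤ aa := by rw [← hz']; exact le_max_left _ _
  have him : |z.im| ≤ aa := by rw [← hz']; exact le_max_right _ _
  rcases max_choice |z.re| |z.im| with h | h
  · rw [h] at hz'
    rcases abs_choice z.re with h2 | h2
    · exact key z (by linarith) him
    · have h3 := step _ (step _ (key (-z) (by simp; linarith) (by simpa using him)))
      rw [← mul_assoc, Complex.I_mul_I] at h3
      simpa using h3
  · rw [h] at hz'
    rcases abs_choice z.im with h2 | h2
    · -- z = I * w, w = -I z, w.re = z.im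
      have h3 := step _ (key (-(Complex.I * z)) (by simp; linarith) (by simpa using hre))
      have e : Complex.I * -(Complex.I * z) = z := by
        rw [mul_neg, ← mul_assoc, Complex.I_mul_I]; ring
      rwa [e] at h3
    · have h3 := step _ (step _ (step _ (key (Complex.I * z) (by simp; linarith) (by simpa using hre))))
      have e : Complex.I * (Complex.I * (Complex.I * (Complex.I * z))) = z := by
        rw [← mul_assoc, Complex.I_mul_I, ← mul_assoc, ← mul_assoc]
        rw [show (-1 : ℂ) * Complex.I * Complex.I = -(Complex.I * Complex.I) by ring, Complex.I_mul_I]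
        ring
      rwa [e] at h3

/-! ### the interaction `LL`, integrability -/

lemma LL_symm (t s : ℝ) : LL t s = LL s t := by
  unfold LL; rw [norm_sub_rev]

lemma LL_per (t s : ℝ) : LL t (s + 2 * π) = LL t s := by
  unfold LL; rw [zeta_two_pi]

lemma LL_rot (t s : ℝ) : LL (t + π / 2) (s + π / 2) = LL t s := by
  unfold LL
  rw [zeta_add, zeta_add, ← mul_sub, norm_mul, Complex.norm_I, one_mul]

lemma LL_self (t : ℝ) : LL t t = 0 := by simp [LL]

lemma LL_bound {s t : ℝ} (h : |t - s| ≤ π) : |LL t s| ≤ 3 + (3 / 2) * |Real.log (t - s)| := by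
  have hp := pi_pos
  have hnn : 0 ≤ |Real.log (t - s)| := abs_nonneg _
  rcases eq_or_ne t s with rfl | hne
  · rw [LL_self]; simp
  have h0 : 0 < |t - s| := abs_pos.2 (sub_ne_zero.2 hne)
  have h1 := chord_lower h
  have h2 := zeta_lip s t
  have hpos : 0 < (1 / 20) * (|t - s| * Real.sqrt |t - s|) := by positivity
  have hlog : Real.log |t - s| = Real.log (t - s) := Real.log_abs _
  have hsq : Real.log (Real.sqrt |t - s|) = Real.log (t - s) / 2 := by
    rw [Real.log_sqrt h0.le, hlog]
  unfold LL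
  rw [abs_le]
  constructor
  · have h3 := Real.log_le_log hpos h1
    rw [Real.log_mul (by norm_num) (by positivity), Real.log_mul h0.ne' (by positivity), hlog, hsq] at h3
    have h4 : -3 ≤ Real.log (1 / 20) := by
      rw [Real.le_log_iff_exp_le (by norm_num)]
      have := Real.exp_one_gt_d9
      have h5 : Real.exp (-3) = (Real.exp 1)⁻¹ ^ 3 := by
        rw [← Real.exp_neg, ← Real.exp_nat_mul]
        norm_num
      rw [h5]
      have h6 : (Real.exp 1)⁻¹ ≤ (2.7182818283)⁻¹ := by
        apply inv_anti₀ (by norm_num) this.le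
      calc (Real.exp 1)⁻¹ ^ 3 ≤ (2.7182818283)⁻¹ ^ 3 := pow_le_pow_left₀ (by positivity) h6 3
        _ ≤ 1 / 20 := by norm_num
    have h7 := neg_abs_le (Real.log (t - s))
    linarith
  · have h3 : ‖zeta t - zeta s‖ ≤ 5 := by
      have h4 : Real.sqrt 2 ≤ 3 / 2 := by
        rw [Real.sqrt_le_left (by norm_num)]; norm_num
      have h5 : Real.sqrt 2 * |t - s| ≤ (3 / 2) * π := mul_le_mul h4 h h0.le (by norm_num)
      have := pi_lt_d2
      linarith
    have h4 : Real.log ‖zeta t - zeta s‖ ≤ Real.log 5 :=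
      Real.log_le_log (lt_of_lt_of_le hpos h1) h3
    have h5 : Real.log 5 ≤ 3 := by
      rw [Real.log_le_iff_le_exp (by norm_num)]
      have := Real.exp_one_gt_d9
      have h5 : Real.exp 3 = (Real.exp 1) ^ 3 := by
        rw [← Real.exp_nat_mul]; norm_num
      rw [h5]
      calc (5 : ℝ) ≤ 2.7182818283 ^ 3 := by norm_num
        _ ≤ (Real.exp 1) ^ 3 := pow_le_pow_left₀ (by norm_num) this.le 3
    linarith

lemma measurable_LL2 : Measurable fun p : ℝ × ℝ => LL p.1 p.2 := by
  have h : Continuous fun p : ℝ × ℝ => ‖zeta p.1 - zeta p.2‖ := by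
    have := cont_zeta
    fun_prop
  exact Real.measurable_log.comp h.measurable

lemma measurable_LL (t : ℝ) : Measurable (LL t) := by
  have h : Continuous fun s : ℝ => ‖zeta t - zeta s‖ := by
    have := cont_zeta
    fun_prop
  exact Real.measurable_log.comp h.measurable

lemma measurable_pot (z : ℂ) : Measurable fun s => Real.log ‖z - zeta s‖ := by
  have h : Continuous fun s : ℝ => ‖z - zeta s‖ := by
    have := cont_zeta
    fun_prop
  exact Real.measurable_log.comp h.measurable

lemma periodic_LL (t : ℝ) : Function.Periodic (LL t) (2 * π) := LL_per t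

/-- the dominating function -/
lemma dom_integrable (t : ℝ) :
    IntervalIntegrable (fun s => 3 + (3 / 2) * |Real.log (t - s)|) volume (t - π) (t + π) := by
  have h1 : IntervalIntegrable (fun s => Real.log (t - s)) volume (t - π) (t + π) := by
    have := (intervalIntegral.intervalIntegrable_log' (a := π) (b := -π)).comp_sub_left t
      (by finiteness)
    simpa using this
  exact intervalIntegrable_const.add (h1.abs.const_mul _)

lemma dom_integral (t : ℝ) : ∫ s in (t - π)..(t + π), (3 + (3 / 2) * |Real.log (t - s)|)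
    = ∫ s in (-π)..π, (3 + (3 / 2) * |Real.log s|) := by
  have := intervalIntegral.integral_comp_sub_left (a := t - π) (b := t + π)
    (fun s => 3 + (3 / 2) * |Real.log s|) t
  rw [this]
  congr 1 <;> ring

lemma LL_intervalIntegrable (t a b : ℝ) : IntervalIntegrable (LL t) volume a b := by
  have hp := pi_pos
  have h1 : IntervalIntegrable (LL t) volume (t - π) (t - π + 2 * π) := by
    rw [show t - π + 2 * π = t + π by ring]
    refine (dom_integrable t).mono_fun (measurable_LL t).aestronglyMeasurable ?_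
    rw [Filter.EventuallyLE, ae_restrict_iff' measurableSet_uIoc]
    refine Filter.Eventually.of_forall fun s hs => ?_
    rw [uIoc_of_le (by linarith)] at hs
    have h2 : |t - s| ≤ π := by rw [abs_le]; constructor <;> linarith [hs.1, hs.2]
    have h3 := LL_bound h2
    rw [Real.norm_eq_abs, Real.norm_eq_abs]
    exact le_trans h3 (le_abs_self _)
  exact (periodic_LL t).intervalIntegrable (by positivity) h1 a b

/-- uniform bound of the total mass of `LL t` -/
lemma LL_integral_abs_le (t : ℝ) : ∫ s in (0:ℝ)..(2 * π), |LL t s|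
    ≤ ∫ s in (-π)..π, (3 + (3 / 2) * |Real.log s|) := by
  have hp := pi_pos
  have hper : Function.Periodic (fun s => |LL t s|) (2 * π) := fun s => by
    simp only [LL_per]
  have h1 := hper.intervalIntegral_add_eq 0 (t - π)
  rw [zero_add] at h1
  rw [h1, show t - π + 2 * π = t + π by ring, ← dom_integral t]
  apply intervalIntegral.integral_mono_on (by linarith)
    ((LL_intervalIntegrable t _ _).abs) (dom_integrable t)
  intro s hs
  exact LL_bound (by rw [abs_le]; constructor <;> linarith [hs.1, hs.2])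

lemma periodic_pot (z : ℂ) : Function.Periodic (fun s => Real.log ‖z - zeta s‖) (2 * π) := fun s => by
  simp only [zeta_two_pi]

lemma pot_intervalIntegrable (z : ℂ) (a b : ℝ) :
    IntervalIntegrable (fun s => Real.log ‖z - zeta s‖) volume a b := by
  by_cases hz : z ∈ Gam
  · obtain ⟨t, rfl⟩ := zeta_surj hz
    exact LL_intervalIntegrable t a b
  · apply Continuous.intervalIntegrable
    have h : Continuous fun s : ℝ => ‖z - zeta s‖ := by
      have := cont_zeta
      fun_prop
    refine h.log fun s => ?_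
    rw [norm_ne_zero_iff, sub_ne_zero]
    rintro rfl
    exact hz (zeta_mem s)

/-- the normalised Lebesgue measure on a period -/
def mu : Measure ℝ := ENNReal.ofReal (1 / (2 * π)) • volume.restrict (Ioc 0 (2 * π))

instance : IsProbabilityMeasure mu := by
  constructor
  have hp := pi_pos
  simp only [mu, Measure.smul_apply, Measure.restrict_apply MeasurableSet.univ, univ_inter,
    Real.volume_Ioc, sub_zero, smul_eq_mul]
  rw [← ENNReal.ofReal_mul (by positivity), one_div, inv_mul_cancel₀ (by positivity)]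
  simp

lemma integral_mu (f : ℝ → ℝ) : ∫ s, f s ∂mu = (1 / (2 * π)) * ∫ s in (0:ℝ)..(2 * π), f s := by
  have hp := pi_pos
  rw [mu, integral_smul_measure, ENNReal.toReal_ofReal (by positivity), smul_eq_mul,
    intervalIntegral.integral_of_le (by positivity)]

lemma integrable_mu {f : ℝ → ℝ} (h : IntervalIntegrable f volume 0 (2 * π)) : Integrable f mu := by
  have hp := pi_pos
  rw [mu]
  apply Integrable.smul_measure _ (by finiteness)
  exact (intervalIntegrable_iff_integrableOn_Ioc_of_le (by positivity)).1 h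

lemma UU_eq (z : ℂ) : UU z = ∫ s, Real.log ‖z - zeta s‖ ∂mu := by
  rw [integral_mu]; rfl

lemma integrable_pot (z : ℂ) : Integrable (fun s => Real.log ‖z - zeta s‖) mu :=
  integrable_mu (pot_intervalIntegrable z _ _)

lemma integrable_LL (t : ℝ) : Integrable (LL t) mu :=
  integrable_mu (LL_intervalIntegrable t _ _)

lemma integrable_LL2 : Integrable (fun p : ℝ × ℝ => LL p.1 p.2) (mu.prod mu) := by
  have hp := pi_pos
  rw [integrable_prod_iff measurable_LL2.aestronglyMeasurable]
  refine ⟨Filter.Eventually.of_forall fun t => integrable_LL t, ?_⟩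
  have hb : ∀ t, ‖∫ s, ‖LL t s‖ ∂mu‖ ≤ (1 / (2 * π)) * ∫ s in (-π)..π, (3 + (3 / 2) * |Real.log s|) := by
    intro t
    simp only [Real.norm_eq_abs]
    rw [integral_mu, abs_of_nonneg (by
      apply mul_nonneg (by positivity)
      exact intervalIntegral.integral_nonneg (by positivity) fun s _ => abs_nonneg _)]
    exact mul_le_mul_of_nonneg_left (LL_integral_abs_le t) (by positivity)
  refine Integrable.of_bound ?_ _ (Filter.Eventually.of_forall hb)
  exact (measurable_LL2.norm.stronglyMeasurable.integral_prod_right).aestronglyMeasurable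

lemma ae_ne_mu (z : ℂ) : ∀ᵐ s ∂mu, z ≠ zeta s := by
  have hp := pi_pos
  by_cases hz : z ∈ Gam
  · obtain ⟨t, ht⟩ := zeta_surj hz
    -- the bad set in `(0, 2π]` is a subsingleton
    have hfin : ({s | z = zeta s} ∩ Ioc 0 (2 * π)).Subsingleton := by
      rintro a ⟨ha, ha2⟩ b ⟨hb, hb2⟩
      by_contra hne
      rcases lt_or_gt_of_ne hne with h | h
      · exact zeta_ne h (by linarith [ha2.1, hb2.2]) (hb.symm.trans ha)
      · exact zeta_ne h (by linarith [hb2.1, ha2.2]) (ha.symm.trans hb)
    have h0 : volume ({s | z = zeta s} ∩ Ioc 0 (2 * π)) = 0 := hfin.measure_zero volume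
    have h1 : ∀ᵐ s ∂(volume.restrict (Ioc 0 (2 * π))), z ≠ zeta s := by
      rw [ae_restrict_iff' measurableSet_Ioc, ae_iff]
      refine measure_mono_null ?_ h0
      intro s hs
      simp only [Set.mem_ofPred_eq, Classical.not_imp, not_not] at hs
      exact ⟨hs.2, hs.1⟩
    exact Measure.ae_smul_measure h1 _
  · refine Filter.Eventually.of_forall fun s h => hz ?_
    rw [h]; exact zeta_mem s

lemma ae_ne_mu2 : ∀ᵐ p ∂(mu.prod mu), zeta p.1 ≠ zeta p.2 := by
  have hm : MeasurableSet {p : ℝ × ℝ | zeta p.1 ≠ zeta p.2} := by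
    have h1 : Measurable fun p : ℝ × ℝ => zeta p.1 := cont_zeta.measurable.comp measurable_fst
    have h2 : Measurable fun p : ℝ × ℝ => zeta p.2 := cont_zeta.measurable.comp measurable_snd
    exact (measurableSet_eq_fun h1 h2).compl
  rw [Measure.ae_prod_iff_ae_ae hm]
  exact Filter.Eventually.of_forall fun t => ae_ne_mu (zeta t)

end Pool.Agent.Work.MP_82f4f8_an

end
end
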