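import Pool.Agent.Work.MP_82f4f8_an.Bd.B02

/-! Bundle of small proof modules (one section per former module). -/

section

/-!
Elementary facts about Fekete tuples on the square.
-/

set_option autoImplicit false

noncomputable section

namespace Pool.Agent.Work.MP_82f4f8_an

open Real MeasureTheory Set Filter Topology

/-- equally spaced tuple, rotated by `θ` -/
def eqt (n : ℕ) (θ : ℝ) (j : Fin n) : ℂ := zeta (θ + 2 * π * ((j : ℕ) : ℝ) / n)

lemma eqt_ne {n : ℕ} (θ : ℝ) {a b : Fin n} (hab : a < b) : eqt n θ b ≠ eqt n θ a := by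
  have hn : (0 : ℝ) < n := by exact_mod_cast (lt_of_le_of_lt (Nat.zero_le _) b.2)
  have h1 : ((a : ℕ) : ℝ) < ((b : ℕ) : ℝ) := by exact_mod_cast hab
  have h2 : ((b : ℕ) : ℝ) < n := by exact_mod_cast b.2
  have h3 : (0 : ℝ) ≤ ((a : ℕ) : ℝ) := by positivity
  have hp := pi_pos
  refine zeta_ne ?_ ?_
  · have : 2 * π * ((a : ℕ) : ℝ) / n < 2 * π * ((b : ℕ) : ℝ) / n := by
      rw [div_lt_div_iff_of_pos_right hn]
      exact mul_lt_mul_of_pos_left h1 (by positivity)
    linarith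
  · have h4 : 2 * π * ((b : ℕ) : ℝ) / n < 2 * π := by
      rw [div_lt_iff₀ hn]
      exact mul_lt_mul_of_pos_left h2 (by positivity)
    have h5 : 0 ≤ 2 * π * ((a : ℕ) : ℝ) / n := by positivity
    linarith

lemma eqt_injective (n : ℕ) (θ : ℝ) : Function.Injective (eqt n θ) := by
  intro j k h
  rcases lt_trichotomy j k with h1 | h1 | h1
  · exact absurd h.symm (eqt_ne θ h1)
  · exact h1
  · exact absurd h (eqt_ne θ h1)

lemma prod_pos_of_injective {n : ℕ} {q : Fin n → ℂ} (hinj : Function.Injective q) :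
    0 < ∏ j, ∏ k ∈ Finset.Ioi j, ‖q j - q k‖ := by
  refine Finset.prod_pos fun j _ => Finset.prod_pos fun k hk => ?_
  rw [norm_pos_iff, sub_ne_zero]
  intro h
  exact (Finset.mem_Ioi.1 hk).ne (hinj h)

lemma sum_pairs {n : ℕ} (q : Fin n → ℂ) :
    ∑ j, ∑ k, Real.log ‖q j - q k‖ = 2 * ∑ j, ∑ k ∈ Finset.Ioi j, Real.log ‖q j - q k‖ := by
  have h1 := Finset.sum_sum_Ioi_add_eq_sum_sum_off_diag
    (fun a b : Fin n => Real.log ‖q b - q a‖)
  have h2 : ∀ j, ∑ k, Real.log ‖q j - q k‖ = ∑ k ∈ {j}ᶜ, Real.log ‖q j - q k‖ := by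
    intro j
    rw [← Finset.sum_compl_add_sum {j}]
    simp
  simp_rw [h2]
  rw [← h1, Finset.mul_sum]
  refine Finset.sum_congr rfl fun j _ => ?_
  rw [Finset.mul_sum]
  refine Finset.sum_congr rfl fun k _ => ?_
  rw [norm_sub_rev (q k) (q j)]
  ring

lemma sum_log_eq {n : ℕ} {q : Fin n → ℂ} (hinj : Function.Injective q) :
    ∑ j, ∑ k ∈ Finset.Ioi j, Real.log ‖q j - q k‖
      = Real.log (∏ j, ∏ k ∈ Finset.Ioi j, ‖q j - q k‖) := by
  have hne : ∀ j, ∀ k ∈ Finset.Ioi j, ‖q j - q k‖ ≠ 0 := by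
    intro j k hk
    rw [norm_ne_zero_iff, sub_ne_zero]
    intro h
    exact (Finset.mem_Ioi.1 hk).ne (hinj h)
  rw [Real.log_prod (fun j _ => Finset.prod_ne_zero_iff.2 (hne j))]
  refine Finset.sum_congr rfl fun j _ => ?_
  rw [Real.log_prod (hne j)]

theorem IsFekP.injective {n : ℕ} {p : Fin n → ℂ} (hp : IsFekP n p) : Function.Injective p := by
  have h1 := hp.maxi (eqt n 0) (fun k => zeta_mem _)
  have h2 := lt_of_lt_of_le (prod_pos_of_injective (eqt_injective n 0)) h1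
  have key : ∀ {a b : Fin n}, a < b → p a ≠ p b := by
    intro a b hab h
    have h3 := Finset.prod_ne_zero_iff.1 (Finset.prod_ne_zero_iff.1 h2.ne' a (Finset.mem_univ a)) b
      (Finset.mem_Ioi.2 hab)
    apply h3
    rw [h, sub_self, norm_zero]
  intro j k h
  rcases lt_trichotomy j k with h1 | h1 | h1
  · exact absurd h (key h1)
  · exact h1
  · exact absurd h.symm (key h1)

theorem IsFekP.log_le {n : ℕ} {p : Fin n → ℂ} (hp : IsFekP n p) {q : Fin n → ℂ}
    (hq : ∀ k, q k ∈ Gam) (hinj : Function.Injective q) :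
    ∑ j, ∑ k, Real.log ‖q j - q k‖ ≤ ∑ j, ∑ k, Real.log ‖p j - p k‖ := by
  rw [sum_pairs, sum_pairs, sum_log_eq hinj, sum_log_eq hp.injective]
  have h1 := Real.log_le_log (prod_pos_of_injective hinj) (hp.maxi q hq)
  linarith

/-- the equally spaced points of the unit circle -/
def uc (n : ℕ) (j : Fin n) : ℂ := Complex.exp (((2 * π * ((j : ℕ) : ℝ) / n : ℝ) : ℂ) * Complex.I)

lemma uc_sum {n : ℕ} (hn : n ≠ 0) (j : Fin n) : ∑ k, Real.log ‖uc n j - uc n k‖ = Real.log n := by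
  obtain ⟨m, rfl⟩ := Nat.exists_eq_succ_of_ne_zero hn
  set ω : ℂ := Complex.exp (2 * π * Complex.I / ((m + 1 : ℕ) : ℂ)) with hω
  have hprim : IsPrimitiveRoot ω (m + 1) := Complex.isPrimitiveRoot_exp (m + 1) (by omega)
  have huc : ∀ i : Fin (m + 1), uc (m + 1) i = ω ^ (i : ℕ) := by
    intro i
    rw [hω, ← Complex.exp_nat_mul, uc]
    congr 1
    push_cast
    ring
  have hnorm : ∀ a : ℕ, ‖ω ^ a‖ = 1 := by
    intro a
    rw [norm_pow, hprim.norm'_eq_one (by omega), one_pow]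
  have hstep : ∑ k, Real.log ‖uc (m + 1) j - uc (m + 1) k‖
      = ∑ i : Fin (m + 1), Real.log ‖1 - ω ^ (i : ℕ)‖ := by
    rw [← Equiv.sum_comp (Equiv.addRight j)]
    refine Finset.sum_congr rfl fun i _ => ?_
    have h1 : ω ^ (((i + j : Fin (m + 1)) : ℕ)) = ω ^ (j : ℕ) * ω ^ (i : ℕ) := by
      rw [Fin.val_add, ← pow_eq_pow_mod _ hprim.pow_eq_one, pow_add, mul_comm]
    have h2 : uc (m + 1) j - uc (m + 1) ((Equiv.addRight j) i)
        = ω ^ (j : ℕ) * (1 - ω ^ (i : ℕ)) := by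
      rw [huc, huc]
      change ω ^ (j : ℕ) - ω ^ (((i + j : Fin (m + 1)) : ℕ)) = _
      rw [h1]; ring
    rw [h2, norm_mul, hnorm, one_mul]
  change ∑ k, Real.log ‖uc (m + 1) j - uc (m + 1) k‖ = Real.log ((m + 1 : ℕ) : ℝ)
  rw [hstep, Fin.sum_univ_succ]
  have h0 : Real.log ‖1 - ω ^ ((0 : Fin (m + 1)) : ℕ)‖ = 0 := by simp
  rw [h0, zero_add]
  have hne : ∀ i ∈ Finset.range m, ‖1 - ω ^ (i + 1)‖ ≠ 0 := by
    intro i hi
    rw [norm_ne_zero_iff, sub_ne_zero]
    intro h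
    have := (hprim.pow_eq_one_iff_dvd (i + 1)).1 h.symm
    have h3 := Nat.le_of_dvd (by omega) this
    have := Finset.mem_range.1 hi
    omega
  have h3 : ∑ i : Fin m, Real.log ‖1 - ω ^ ((i.succ : Fin (m + 1)) : ℕ)‖
      = ∑ i ∈ Finset.range m, Real.log ‖1 - ω ^ (i + 1)‖ := by
    rw [Finset.sum_range]
    rfl
  rw [h3, ← Real.log_prod hne, ← norm_prod, hprim.prod_one_sub_pow_eq_order]
  congr 1
  have : ((m : ℂ) + 1) = ((m + 1 : ℕ) : ℂ) := by push_cast; ring
  rw [this, Complex.norm_natCast]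

lemma cont_LL_shift {τ : ℝ} (h1 : 0 < τ) (h2 : τ < 2 * π) :
    Continuous fun θ : ℝ => LL θ (θ + τ) := by
  unfold LL
  refine Continuous.log ?_ ?_
  · exact (cont_zeta.sub (cont_zeta.comp (continuous_id.add continuous_const))).norm
  · intro θ
    rw [norm_ne_zero_iff, sub_ne_zero]
    exact (zeta_ne (s := θ) (t := θ + τ) (by linarith) (by linarith)).symm

lemma eqt_pair_eq {n : ℕ} {j k : Fin n} (θ : ℝ) :
    Real.log ‖eqt n θ j - eqt n θ k‖
      = LL (θ + 2 * π * ((j : ℕ) : ℝ) / n)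
          ((θ + 2 * π * ((j : ℕ) : ℝ) / n) + 2 * π * (((k : ℕ) : ℝ) - ((j : ℕ) : ℝ)) / n) := by
  unfold LL eqt
  congr 4
  ring

lemma tau_range {n : ℕ} {j k : Fin n} (hjk : j < k) :
    0 < 2 * π * (((k : ℕ) : ℝ) - ((j : ℕ) : ℝ)) / n ∧
      2 * π * (((k : ℕ) : ℝ) - ((j : ℕ) : ℝ)) / n < 2 * π := by
  have hn : (0 : ℝ) < n := by exact_mod_cast (lt_of_le_of_lt (Nat.zero_le _) k.2)
  have h1 : ((j : ℕ) : ℝ) < ((k : ℕ) : ℝ) := by exact_mod_cast hjk
  have h2 : ((k : ℕ) : ℝ) < n := by exact_mod_cast k.2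
  have h3 : (0 : ℝ) ≤ ((j : ℕ) : ℝ) := by positivity
  have hp := pi_pos
  constructor
  · have : 0 < ((k : ℕ) : ℝ) - ((j : ℕ) : ℝ) := by linarith
    positivity
  · rw [div_lt_iff₀ hn]
    exact mul_lt_mul_of_pos_left (by linarith) (by positivity)

lemma eqt_pair_cont {n : ℕ} (j k : Fin n) :
    Continuous fun θ : ℝ => Real.log ‖eqt n θ j - eqt n θ k‖ := by
  have key : ∀ {j k : Fin n}, j < k → Continuous fun θ : ℝ => Real.log ‖eqt n θ j - eqt n θ k‖ := by
    intro j k hjk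
    obtain ⟨h1, h2⟩ := tau_range hjk
    simp_rw [eqt_pair_eq]
    exact (cont_LL_shift h1 h2).comp (continuous_id.add continuous_const)
  rcases lt_trichotomy j k with h | h | h
  · exact key h
  · subst h; simpa using continuous_const
  · simp_rw [norm_sub_rev (eqt n _ j)]; exact key h

lemma periodic_LL_shift (τ : ℝ) : Function.Periodic (fun θ : ℝ => LL θ (θ + τ)) (2 * π) := by
  intro θ
  unfold LL
  simp only
  rw [zeta_two_pi, show θ + 2 * π + τ = (θ + τ) + 2 * π by ring, zeta_two_pi]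

lemma eqt_pair_integral {n : ℕ} (hdiag : ∀ τ : ℝ, 0 < τ → τ < 2 * π →
      2 * π * Real.log ‖1 - Complex.exp (τ * Complex.I)‖ ≤ ∫ θ in (0:ℝ)..(2 * π), LL θ (θ + τ))
    (j k : Fin n) :
    2 * π * Real.log ‖uc n j - uc n k‖
      ≤ ∫ θ in (0:ℝ)..(2 * π), Real.log ‖eqt n θ j - eqt n θ k‖ := by
  have key : ∀ {j k : Fin n}, j < k → 2 * π * Real.log ‖uc n j - uc n k‖
      ≤ ∫ θ in (0:ℝ)..(2 * π), Real.log ‖eqt n θ j - eqt n θ k‖ := by
    intro j k hjk
    obtain ⟨h1, h2⟩ := tau_range hjk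
    simp_rw [eqt_pair_eq]
    set τ := 2 * π * (((k : ℕ) : ℝ) - ((j : ℕ) : ℝ)) / n with hτ
    set c := 2 * π * ((j : ℕ) : ℝ) / n with hc
    have h3 := intervalIntegral.integral_comp_add_right (a := 0) (b := 2 * π)
      (fun θ : ℝ => LL θ (θ + τ)) c
    rw [h3]
    have h4 := (periodic_LL_shift τ).intervalIntegral_add_eq (0 + c) 0
    rw [show 2 * π + c = (0 + c) + 2 * π by ring, h4, zero_add]
    refine le_trans (le_of_eq ?_) (hdiag τ h1 h2)
    congr 2
    have h5 : uc n k = uc n j * Complex.exp (τ * Complex.I) := by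
      unfold uc
      rw [← Complex.exp_add]
      congr 1
      rw [hτ]
      push_cast
      ring
    have h6 : uc n j - uc n k = uc n j * (1 - Complex.exp (τ * Complex.I)) := by
      rw [h5]; ring
    rw [h6, norm_mul]
    unfold uc
    rw [Complex.norm_exp_ofReal_mul_I, one_mul]
  rcases lt_trichotomy j k with h | h | h
  · exact key h
  · subst h; simp
  · simp_rw [norm_sub_rev (eqt n _ j)]
    rw [norm_sub_rev]
    exact key h

theorem IsFekP.energy_ge {n : ℕ} (hn : 2 ≤ n) {p : Fin n → ℂ} (hp : IsFekP n p)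
    (hdiag : ∀ τ : ℝ, 0 < τ → τ < 2 * π →
      2 * π * Real.log ‖1 - Complex.exp (τ * Complex.I)‖ ≤ ∫ θ in (0:ℝ)..(2 * π), LL θ (θ + τ)) :
    n * Real.log n ≤ ∑ j, ∑ k, Real.log ‖p j - p k‖ := by
  have hpi := pi_pos
  set E := ∑ j, ∑ k, Real.log ‖p j - p k‖ with hE
  have hS : ∀ θ : ℝ, ∑ j, ∑ k, Real.log ‖eqt n θ j - eqt n θ k‖ ≤ E := fun θ =>
    hp.log_le (fun k => zeta_mem _) (eqt_injective n θ)
  have hint : ∀ j k : Fin n, IntervalIntegrable
      (fun θ : ℝ => Real.log ‖eqt n θ j - eqt n θ k‖) volume 0 (2 * π) :=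
    fun j k => (eqt_pair_cont j k).intervalIntegrable _ _
  have h1 : ∫ θ in (0:ℝ)..(2 * π), ∑ j, ∑ k, Real.log ‖eqt n θ j - eqt n θ k‖
      = ∑ j, ∑ k, ∫ θ in (0:ℝ)..(2 * π), Real.log ‖eqt n θ j - eqt n θ k‖ := by
    rw [intervalIntegral.integral_finsetSum]
    · refine Finset.sum_congr rfl fun j _ => ?_
      rw [intervalIntegral.integral_finsetSum]
      intro k _
      exact hint j k
    · intro j _
      have : Continuous fun θ : ℝ => ∑ k, Real.log ‖eqt n θ j - eqt n θ k‖ :=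
        continuous_finsetSum _ fun k _ => eqt_pair_cont j k
      exact this.intervalIntegrable _ _
  have h2 : ∫ θ in (0:ℝ)..(2 * π), ∑ j, ∑ k, Real.log ‖eqt n θ j - eqt n θ k‖
      ≤ ∫ θ in (0:ℝ)..(2 * π), E := by
    refine intervalIntegral.integral_mono_on (by positivity) ?_ ?_ fun θ _ => hS θ
    · have : Continuous fun θ : ℝ => ∑ j, ∑ k, Real.log ‖eqt n θ j - eqt n θ k‖ :=
        continuous_finsetSum _ fun j _ => continuous_finsetSum _ fun k _ => eqt_pair_cont j k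
      exact this.intervalIntegrable _ _
    · exact continuous_const.intervalIntegrable _ _
  rw [h1, intervalIntegral.integral_const, sub_zero, smul_eq_mul] at h2
  have h3 : 2 * π * (n * Real.log n)
      ≤ ∑ j : Fin n, ∑ k, ∫ θ in (0:ℝ)..(2 * π), Real.log ‖eqt n θ j - eqt n θ k‖ := by
    calc 2 * π * (n * Real.log n) = ∑ j : Fin n, ∑ k, 2 * π * Real.log ‖uc n j - uc n k‖ := by
          simp_rw [← Finset.mul_sum]
          rw [Finset.sum_congr rfl (fun j _ => uc_sum (by omega) j)]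
          simp
      _ ≤ _ := Finset.sum_le_sum fun j _ => Finset.sum_le_sum fun k _ =>
          eqt_pair_integral hdiag j k
  have h4 := le_trans h3 h2
  exact le_of_mul_le_mul_left h4 (by positivity)

theorem IsFekP.pointwise {n : ℕ} {p : Fin n → ℂ} (hp : IsFekP n p) (j : Fin n) {u : ℂ}
    (hu : u ∈ Gam) (hne : ∀ k, k ≠ j → u ≠ p k) :
    ∑ k ∈ Finset.univ.erase j, Real.log ‖u - p k‖
      ≤ ∑ k ∈ Finset.univ.erase j, Real.log ‖p j - p k‖ := by
  classical
  set q : Fin n → ℂ := Function.update p j u with hq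
  have hqj : q j = u := by simp [hq]
  have hqk : ∀ k, k ≠ j → q k = p k := fun k hk => by simp [hq, hk]
  have hmem : ∀ k, q k ∈ Gam := by
    intro k
    by_cases hk : k = j
    · rw [hk, hqj]; exact hu
    · rw [hqk k hk]; exact hp.mem k
  have hinj : Function.Injective q := by
    intro a b hab
    by_cases ha : a = j
    · by_cases hb : b = j
      · rw [ha, hb]
      · rw [ha, hqj, hqk b hb] at hab
        exact absurd hab (hne b hb)
    · by_cases hb : b = j
      · rw [hb, hqj, hqk a ha] at hab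
        exact absurd hab.symm (hne a ha)
      · rw [hqk a ha, hqk b hb] at hab
        exact hp.injective hab
  have h1 := hp.log_le hmem hinj
  have split : ∀ r : Fin n → ℂ, ∑ a, ∑ b, Real.log ‖r a - r b‖
      = 2 * ∑ b ∈ Finset.univ.erase j, Real.log ‖r j - r b‖
        + ∑ a ∈ Finset.univ.erase j, ∑ b ∈ Finset.univ.erase j, Real.log ‖r a - r b‖ := by
    intro r
    rw [← Finset.add_sum_erase Finset.univ _ (Finset.mem_univ j)]
    have h2 : ∑ b, Real.log ‖r j - r b‖ = ∑ b ∈ Finset.univ.erase j, Real.log ‖r j - r b‖ := by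
      rw [← Finset.add_sum_erase Finset.univ _ (Finset.mem_univ j)]
      simp
    have h3 : ∑ a ∈ Finset.univ.erase j, ∑ b, Real.log ‖r a - r b‖
        = ∑ a ∈ Finset.univ.erase j, (Real.log ‖r j - r a‖
          + ∑ b ∈ Finset.univ.erase j, Real.log ‖r a - r b‖) := by
      refine Finset.sum_congr rfl fun a _ => ?_
      rw [← Finset.add_sum_erase Finset.univ _ (Finset.mem_univ j), norm_sub_rev (r a) (r j)]
    rw [h2, h3, Finset.sum_add_distrib]
    ring
  rw [split q, split p] at h1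
  have h4 : ∑ a ∈ Finset.univ.erase j, ∑ b ∈ Finset.univ.erase j, Real.log ‖q a - q b‖
      = ∑ a ∈ Finset.univ.erase j, ∑ b ∈ Finset.univ.erase j, Real.log ‖p a - p b‖ := by
    refine Finset.sum_congr rfl fun a ha => Finset.sum_congr rfl fun b hb => ?_
    rw [hqk a (Finset.ne_of_mem_erase ha), hqk b (Finset.ne_of_mem_erase hb)]
  have h5 : ∑ b ∈ Finset.univ.erase j, Real.log ‖q j - q b‖
      = ∑ b ∈ Finset.univ.erase j, Real.log ‖u - p b‖ := by
    refine Finset.sum_congr rfl fun b hb => ?_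
    rw [hqj, hqk b (Finset.ne_of_mem_erase hb)]
  rw [h4, h5] at h1
  linarith

lemma hasDerivAt_log_norm {f : ℝ → ℂ} {f' : ℂ} {t : ℝ} (hf : HasDerivAt f f' t) (h0 : f t ≠ 0) :
    HasDerivAt (fun s => Real.log ‖f s‖) (f' / f t).re t := by
  have h1 := hf.norm_sq
  have h2 : ‖f t‖ ^ 2 ≠ 0 := pow_ne_zero _ (norm_ne_zero_iff.2 h0)
  have h3 := (h1.log h2).const_mul (1 / 2 : ℝ)
  have h4 : (fun s => Real.log ‖f s‖) = fun s => (1 / 2 : ℝ) * Real.log (‖f s‖ ^ 2) := by
    funext s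
    rw [Real.log_pow]
    push_cast
    ring
  rw [h4]
  refine h3.congr_deriv ?_
  rw [Complex.inner, Complex.div_re, Complex.sq_norm]
  have h5 : Complex.normSq (f t) ≠ 0 := (Complex.normSq_pos.2 h0).ne'
  simp only [Complex.mul_re, Complex.conj_re, Complex.conj_im]
  field_simp
  ring

theorem IsFekP.stationary {n : ℕ} {p : Fin n → ℂ} (hp : IsFekP n p) (j : Fin n) {t : ℝ}
    (ht : p j = zeta t) : (∑ k ∈ Finset.univ.erase j, zeta' t / (p j - p k)).re = 0 := by
  classical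
  have hne : ∀ k ∈ Finset.univ.erase j, zeta t ≠ p k := by
    intro k hk h
    rw [← ht] at h
    exact (Finset.ne_of_mem_erase hk) (hp.injective h.symm)
  have hmax : IsLocalMax (fun s => ∑ k ∈ Finset.univ.erase j, Real.log ‖zeta s - p k‖) t := by
    have h1 : ∀ᶠ s in 𝓝 t, ∀ k ∈ Finset.univ.erase j, zeta s ≠ p k := by
      rw [Filter.eventually_all_finset]
      intro k hk
      exact cont_zeta.continuousAt.eventually_ne (hne k hk)
    filter_upwards [h1] with s hs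
    have h2 := hp.pointwise j (zeta_mem s) (fun k hk => hs k (Finset.mem_erase.2 ⟨hk, Finset.mem_univ k⟩))
    rwa [ht] at h2
  have hderiv : HasDerivAt (fun s => ∑ k ∈ Finset.univ.erase j, Real.log ‖zeta s - p k‖)
      (∑ k ∈ Finset.univ.erase j, (zeta' t / (zeta t - p k)).re) t := by
    refine HasDerivAt.fun_sum fun k hk => ?_
    exact hasDerivAt_log_norm ((hasDerivAt_zeta t).sub_const (p k)) (sub_ne_zero.2 (hne k hk))
  have h3 := hmax.hasDerivAt_eq_zero hderiv
  rw [ht, Complex.re_sum]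
  exact h3

end Pool.Agent.Work.MP_82f4f8_an

end
end

section

/-!
The identity `∫ Re((g t - g s)/(ζ t - ζ s)) ds = ∫ m s * log|ζ t - ζ s| ds` for the tangential field
`g = gg m`, under the hypothesis `∫ log|ζ t - ζ s| ds = 0`.
-/

set_option autoImplicit false

noncomputable section

namespace Pool.Agent.Work.MP_82f4f8_an

open Real MeasureTheory Set Filter Topology

variable {m : ℝ → ℝ} {B : ℝ}

/-- chord squared -/
def NN (t s : ℝ) : ℝ := ‖zeta t - zeta s‖ ^ 2

/-- regularised interaction -/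
def Ld (δ t s : ℝ) : ℝ := (1 / 2) * Real.log (NN t s + δ ^ 2)

/-- derivative in the first variable -/
def D1 (δ t s : ℝ) : ℝ := inner ℝ (zeta t - zeta s) (zeta' t) / (NN t s + δ ^ 2)

/-- derivative in the second variable -/
def D2 (δ t s : ℝ) : ℝ := -(inner ℝ (zeta t - zeta s) (zeta' s)) / (NN t s + δ ^ 2)

/-- regularised kernel -/
def Kd (m : ℝ → ℝ) (δ t s : ℝ) : ℝ :=
  inner ℝ (zeta t - zeta s) (gg m t - gg m s) / (NN t s + δ ^ 2)

/-- the kernel -/
def KK (m : ℝ → ℝ) (t s : ℝ) : ℝ := ((gg m t - gg m s) / (zeta t - zeta s)).re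

lemma NN_nonneg (t s : ℝ) : 0 ≤ NN t s := by unfold NN; positivity

lemma NN_symm (t s : ℝ) : NN t s = NN s t := by unfold NN; rw [norm_sub_rev]

lemma cont_NN : Continuous fun p : ℝ × ℝ => NN p.1 p.2 := by
  unfold NN
  have := cont_zeta
  fun_prop

lemma hasDerivAt_NN (t s : ℝ) : HasDerivAt (fun t => NN t s)
    (2 * inner ℝ (zeta t - zeta s) (zeta' t)) t := by
  unfold NN
  exact ((hasDerivAt_zeta t).sub_const (zeta s)).norm_sq

lemma hasDerivAt_NN2 (t s : ℝ) : HasDerivAt (fun s => NN t s)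
    (2 * -(inner ℝ (zeta t - zeta s) (zeta' s))) s := by
  have h := hasDerivAt_NN s t
  have e : (fun s => NN t s) = fun s => NN s t := by funext u; exact NN_symm t u
  rw [e]
  convert h using 2
  rw [← inner_neg_left, neg_sub]

lemma den_pos {δ : ℝ} (hδ : 0 < δ) (t s : ℝ) : 0 < NN t s + δ ^ 2 := by
  have := NN_nonneg t s
  positivity

lemma hasDerivAt_Ld {δ : ℝ} (hδ : 0 < δ) (t s : ℝ) : HasDerivAt (fun t => Ld δ t s) (D1 δ t s) t := by
  unfold Ld D1
  have h := (((hasDerivAt_NN t s).add_const (δ ^ 2)).log (den_pos hδ t s).ne').const_mul (1 / 2)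
  rw [show (1 / 2 : ℝ) * (2 * inner ℝ (zeta t - zeta s) (zeta' t) / (NN t s + δ ^ 2))
    = inner ℝ (zeta t - zeta s) (zeta' t) / (NN t s + δ ^ 2) by ring] at h
  exact h

lemma hasDerivAt_Ld2 {δ : ℝ} (hδ : 0 < δ) (t s : ℝ) : HasDerivAt (fun s => Ld δ t s) (D2 δ t s) s := by
  unfold Ld D2
  have h := (((hasDerivAt_NN2 t s).add_const (δ ^ 2)).log (den_pos hδ t s).ne').const_mul (1 / 2)
  rw [show (1 / 2 : ℝ) * (2 * -inner ℝ (zeta t - zeta s) (zeta' s) / (NN t s + δ ^ 2))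
    = -inner ℝ (zeta t - zeta s) (zeta' s) / (NN t s + δ ^ 2) by ring] at h
  exact h

lemma Kd_eq (δ t s : ℝ) : Kd m δ t s = gam m t * D1 δ t s + gam m s * D2 δ t s := by
  unfold Kd D1 D2 gg
  have e1 : (gam m t : ℂ) * zeta' t = gam m t • zeta' t := (Complex.real_smul).symm
  have e2 : (gam m s : ℂ) * zeta' s = gam m s • zeta' s := (Complex.real_smul).symm
  rw [e1, e2, inner_sub_right, inner_smul_right, inner_smul_right]
  ring

lemma cont_Ld {δ : ℝ} (hδ : 0 < δ) : Continuous fun p : ℝ × ℝ => Ld δ p.1 p.2 := by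
  unfold Ld
  refine continuous_const.mul (Continuous.log (cont_NN.add continuous_const) ?_)
  exact fun p => (den_pos hδ _ _).ne'

lemma cont_D1 {δ : ℝ} (hδ : 0 < δ) : Continuous fun p : ℝ × ℝ => D1 δ p.1 p.2 := by
  unfold D1
  have h1 := cont_zeta
  have h2 := cont_zeta'
  refine Continuous.div ?_ (cont_NN.add continuous_const) fun p => (den_pos hδ _ _).ne'
  exact Continuous.inner (by fun_prop) (by fun_prop)

lemma cont_D2 {δ : ℝ} (hδ : 0 < δ) : Continuous fun p : ℝ × ℝ => D2 δ p.1 p.2 := by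
  unfold D2
  have h1 := cont_zeta
  have h2 := cont_zeta'
  refine Continuous.div (Continuous.neg ?_) (cont_NN.add continuous_const)
    fun p => (den_pos hδ _ _).ne'
  exact Continuous.inner (by fun_prop) (by fun_prop)

lemma Adm.cont_Kd (h : Adm m B) {δ : ℝ} (hδ : 0 < δ) : Continuous fun p : ℝ × ℝ => Kd m δ p.1 p.2 := by
  unfold Kd
  have h1 := cont_zeta
  have h2 := h.cont_gg
  refine Continuous.div ?_ (cont_NN.add continuous_const) fun p => (den_pos hδ _ _).ne'
  exact Continuous.inner (by fun_prop) (by fun_prop)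

lemma Adm.abs_Kd_le (h : Adm m B) {δ : ℝ} (hδ : 0 < δ) (t s : ℝ) : |Kd m δ t s| ≤ 6 * B := by
  have hB := h.nonneg
  unfold Kd
  rw [abs_div, abs_of_pos (den_pos hδ t s), div_le_iff₀ (den_pos hδ t s)]
  have h1 := abs_real_inner_le_norm (zeta t - zeta s) (gg m t - gg m s)
  have h2 := h.gg_lip s t
  have h3 : ‖zeta t - zeta s‖ * ‖gg m t - gg m s‖ ≤ 6 * B * NN t s := by
    unfold NN
    calc ‖zeta t - zeta s‖ * ‖gg m t - gg m s‖
        ≤ ‖zeta t - zeta s‖ * (6 * B * ‖zeta t - zeta s‖) := by gcongr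
      _ = 6 * B * ‖zeta t - zeta s‖ ^ 2 := by ring
  have h4 : 6 * B * NN t s ≤ 6 * B * (NN t s + δ ^ 2) := by
    apply mul_le_mul_of_nonneg_left _ (by positivity)
    nlinarith
  linarith

lemma KK_eq (t s : ℝ) : KK m t s = inner ℝ (zeta t - zeta s) (gg m t - gg m s) / NN t s := by
  unfold KK NN
  rw [Complex.div_re, Complex.normSq_eq_norm_sq, Complex.inner]
  simp only [Complex.mul_re, Complex.conj_re, Complex.conj_im]
  rw [← add_div]
  congr 1
  ring

lemma Adm.abs_KK_le (h : Adm m B) (t s : ℝ) : |KK m t s| ≤ 6 * B := by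
  have hB := h.nonneg
  unfold KK
  refine le_trans (Complex.abs_re_le_norm _) ?_
  rw [norm_div]
  rcases eq_or_ne (‖zeta t - zeta s‖) 0 with h0 | h0
  · rw [h0, div_zero]; positivity
  · rw [div_le_iff₀ (lt_of_le_of_ne (norm_nonneg _) (Ne.symm h0))]
    exact h.gg_lip s t

lemma tendsto_Kd {t s : ℝ} (hne : zeta t ≠ zeta s) {δ : ℕ → ℝ} (hδ : Tendsto δ atTop (𝓝 0)) :
    Tendsto (fun k => Kd m (δ k) t s) atTop (𝓝 (KK m t s)) := by
  rw [KK_eq]
  unfold Kd
  have hN : NN t s ≠ 0 := by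
    unfold NN
    have := norm_pos_iff.2 (sub_ne_zero.2 hne)
    positivity
  apply Tendsto.div tendsto_const_nhds _ hN
  have : Tendsto (fun k => NN t s + δ k ^ 2) atTop (𝓝 (NN t s + 0 ^ 2)) :=
    tendsto_const_nhds.add (hδ.pow 2)
  simpa using this

lemma tendsto_Ld {t s : ℝ} (hne : zeta t ≠ zeta s) {δ : ℕ → ℝ} (hδ : Tendsto δ atTop (𝓝 0)) :
    Tendsto (fun k => Ld (δ k) t s) atTop (𝓝 (LL t s)) := by
  have hN0 := norm_pos_iff.2 (sub_ne_zero.2 hne)
  have hN : NN t s ≠ 0 := by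
    unfold NN
    positivity
  have e : LL t s = (1 / 2) * Real.log (NN t s) := by
    unfold LL NN
    rw [Real.log_pow]; push_cast; ring
  rw [e]
  unfold Ld
  apply Tendsto.const_mul
  have h1 : Tendsto (fun k => NN t s + δ k ^ 2) atTop (𝓝 (NN t s)) := by
    have : Tendsto (fun k => NN t s + δ k ^ 2) atTop (𝓝 (NN t s + 0 ^ 2)) :=
      tendsto_const_nhds.add (hδ.pow 2)
    simpa using this
  exact h1.log hN

lemma norm_zeta_le (t : ℝ) : ‖zeta t‖ ≤ 2 * aa := by
  have h : max |(zeta t).re| |(zeta t).im| = aa := zeta_mem t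
  have h1 : |(zeta t).re| ≤ aa := by rw [← h]; exact le_max_left _ _
  have h2 : |(zeta t).im| ≤ aa := by rw [← h]; exact le_max_right _ _
  have := Complex.norm_le_abs_re_add_abs_im (zeta t)
  linarith

lemma NN_le (t s : ℝ) : NN t s ≤ 16 * aa ^ 2 := by
  unfold NN
  have h1 : ‖zeta t - zeta s‖ ≤ 4 * aa := by
    refine le_trans (norm_sub_le _ _) ?_
    linarith [norm_zeta_le t, norm_zeta_le s]
  calc ‖zeta t - zeta s‖ ^ 2 ≤ (4 * aa) ^ 2 := by gcongr
    _ = 16 * aa ^ 2 := by ring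

/-- uniform bound for the regularised interaction -/
lemma abs_Ld_le {δ : ℝ} (hδ : 0 < δ) (hδ1 : δ ≤ 1) {t s : ℝ} (hne : zeta t ≠ zeta s) :
    |Ld δ t s| ≤ |LL t s| + Real.log (16 * aa ^ 2 + 1) := by
  have hN0 := norm_pos_iff.2 (sub_ne_zero.2 hne)
  have hN : 0 < NN t s := by unfold NN; positivity
  have e : LL t s = (1 / 2) * Real.log (NN t s) := by
    unfold LL NN
    rw [Real.log_pow]; push_cast; ring
  have hlog : 0 ≤ Real.log (16 * aa ^ 2 + 1) := Real.log_nonneg (by nlinarith [aa_pos])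
  have h1 : LL t s ≤ Ld δ t s := by
    rw [e]; unfold Ld
    have := Real.log_le_log hN (show NN t s ≤ NN t s + δ ^ 2 by nlinarith)
    linarith
  have h2 : Ld δ t s ≤ Real.log (16 * aa ^ 2 + 1) := by
    unfold Ld
    have h3 : NN t s + δ ^ 2 ≤ 16 * aa ^ 2 + 1 := by
      have := NN_le t s
      nlinarith
    have h4 := Real.log_le_log (den_pos hδ t s) h3
    rcases le_total 0 (Real.log (NN t s + δ ^ 2)) with h5 | h5 <;> linarith
  rw [abs_le]
  constructor
  · have := neg_abs_le (LL t s); linarith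
  · have := abs_nonneg (LL t s); linarith

/-- almost every point of a period is different from a given one -/
lemma ae_ne_interval (z : ℂ) (a b : ℝ) : ∀ᵐ s ∂(volume : Measure ℝ), s ∈ uIoc a b → z ≠ zeta s := by
  by_cases hz : z ∈ Gam
  · obtain ⟨t, ht⟩ := zeta_surj hz
    have hc : {s | z = zeta s}.Countable := by
      have hsub : {s | z = zeta s} ⊆ ⋃ n : ℤ, {t + n * (2 * π)} := by
        intro s hs
        obtain ⟨n, hn, -⟩ := existsUnique_add_zsmul_mem_Ico (show 0 < 2 * π by positivity) s t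
        rw [zsmul_eq_mul] at hn
        have hper : zeta (s + n * (2 * π)) = zeta s := by
          have : Function.Periodic zeta (2 * π) := zeta_two_pi
          exact this.int_mul n s
        have heq : s + n * (2 * π) = t := by
          by_contra hne
          have hlt : t < s + n * (2 * π) := lt_of_le_of_ne hn.1 (Ne.symm hne)
          have hs' : z = zeta s := hs
          exact zeta_ne hlt hn.2 (by rw [hper, ← hs', ht])
        rw [mem_iUnion]
        refine ⟨-n, ?_⟩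
        rw [mem_singleton_iff]
        push_cast
        linarith
      exact (countable_iUnion fun n => countable_singleton _).mono hsub
    have h0 : volume {s | z = zeta s} = 0 := hc.measure_zero volume
    rw [ae_iff]
    refine measure_mono_null ?_ h0
    intro s hs
    simp only [Set.mem_ofPred_eq, Classical.not_imp, not_not] at hs
    exact hs.2
  · refine Filter.Eventually.of_forall fun s _ h => hz ?_
    rw [h]; exact zeta_mem s

end Pool.Agent.Work.MP_82f4f8_an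

end
end

section

/-!
Growth of the Green function of the square near the sides.
-/

set_option autoImplicit false

noncomputable section

namespace Pool.Agent.Work.MP_82f4f8_an

open Real MeasureTheory Set Filter Topology

namespace UB

/-- Elementary facts about the square root of a number with nonnegative real part. -/
lemma sqrt_facts {v : ℂ} (hv : 0 < v.re) :
    Real.sqrt ‖v‖ / Real.sqrt 2 ≤ (v ^ (1 / 2 : ℂ)).re ∧
      ‖v ^ (1 / 2 : ℂ)‖ = Real.sqrt ‖v‖ ∧
      (v.im ≤ 0 → (v ^ (1 / 2 : ℂ)).im ≤ 0) ∧ (0 ≤ v.im → 0 ≤ (v ^ (1 / 2 : ℂ)).im) := by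
  have h12 : (1 / 2 : ℂ) = 2⁻¹ := by norm_num
  rw [h12]
  have hv0 : v ≠ 0 := by
    rintro rfl
    simp at hv
  have hre : (v ^ (2⁻¹ : ℂ)).re = Real.sqrt ((‖v‖ + v.re) / 2) := Complex.cpow_inv_two_re v
  have hsq : (v ^ (2⁻¹ : ℂ)) ^ 2 = v := by
    simp
  have him : 2 * (v ^ (2⁻¹ : ℂ)).re * (v ^ (2⁻¹ : ℂ)).im = v.im := by
    have := congrArg Complex.im hsq
    rw [pow_two, Complex.mul_im] at this
    linarith
  have hpos : 0 < (v ^ (2⁻¹ : ℂ)).re := by
    rw [hre]
    apply Real.sqrt_pos.2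
    have := norm_nonneg v
    linarith
  refine ⟨?_, ?_, ?_, ?_⟩
  · rw [hre, ← Real.sqrt_div' _ (by norm_num : (0:ℝ) ≤ 2)]
    apply Real.sqrt_le_sqrt
    linarith
  · have := congrArg norm hsq
    rw [norm_pow] at this
    rw [← this, Real.sqrt_sq (norm_nonneg _)]
  · intro h
    by_contra hc
    push Not at hc
    have : 0 < 2 * (v ^ (2⁻¹ : ℂ)).re * (v ^ (2⁻¹ : ℂ)).im := by positivity
    linarith
  · intro h
    by_contra hc
    push Not at hc
    have : 2 * (v ^ (2⁻¹ : ℂ)).re * (v ^ (2⁻¹ : ℂ)).im < 0 :=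
      mul_neg_of_pos_of_neg (by positivity) hc
    linarith

/-- The derivative variable `1 + w⁻⁴` at `w = x e^{iσ}`. -/
def vv (σ x : ℝ) : ℂ := 1 + (((x : ℂ) * Complex.exp (σ * Complex.I))⁻¹) ^ 4

lemma vv_eq (σ x : ℝ) :
    vv σ x = ⟨1 + (x ^ 4)⁻¹ * Real.cos (4 * σ), -((x ^ 4)⁻¹ * Real.sin (4 * σ))⟩ := by
  unfold vv
  have h1 : (((x : ℂ) * Complex.exp (σ * Complex.I))⁻¹) ^ 4 =
      (((x ^ 4)⁻¹ : ℝ) : ℂ) * Complex.exp (((-(4 * σ) : ℝ) : ℂ) * Complex.I) := by
    rw [inv_pow, mul_pow, mul_inv, ← Complex.exp_nat_mul, ← Complex.exp_neg]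
    push_cast
    congr 2
    ring
  rw [h1]
  apply Complex.ext
  · rw [Complex.add_re, Complex.one_re, Complex.re_ofReal_mul, Complex.exp_ofReal_mul_I_re,
      Real.cos_neg]
  · rw [Complex.add_im, Complex.one_im, Complex.im_ofReal_mul, Complex.exp_ofReal_mul_I_im,
      Real.sin_neg]
    ring

lemma vv_re (σ x : ℝ) : (vv σ x).re = 1 + (x ^ 4)⁻¹ * Real.cos (4 * σ) := by rw [vv_eq]

lemma vv_im (σ x : ℝ) : (vv σ x).im = -((x ^ 4)⁻¹ * Real.sin (4 * σ)) := by rw [vv_eq]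

lemma vv_re_pos {σ x : ℝ} (hx : 1 < x) : 0 < (vv σ x).re := by
  rw [vv_re]
  have h1 : (x ^ 4)⁻¹ < 1 := inv_lt_one_of_one_lt₀ (one_lt_pow₀ hx (by norm_num))
  have h2 : 0 < (x ^ 4)⁻¹ := by positivity
  have h3 := Real.neg_one_le_cos (4 * σ)
  nlinarith

lemma vv_norm (σ x : ℝ) : ‖vv σ x‖ =
    Real.sqrt ((1 - (x ^ 4)⁻¹) ^ 2 + (2 * (x ^ 2)⁻¹ * Real.cos (2 * σ)) ^ 2) := by
  rw [Complex.norm_eq_sqrt_sq_add_sq, vv_re, vv_im]
  congr 1
  have h1 : Real.cos (4 * σ) = 2 * Real.cos (2 * σ) ^ 2 - 1 := by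
    rw [← Real.cos_two_mul]
    congr 1
    ring
  have h2 : Real.sin (4 * σ) ^ 2 = 1 - Real.cos (4 * σ) ^ 2 := by
    have := Real.sin_sq_add_cos_sq (4 * σ)
    linarith
  have h3 : ((x ^ 2)⁻¹) ^ 2 = (x ^ 4)⁻¹ := by
    rw [← inv_pow, ← inv_pow]
    ring
  have h4 : (-((x ^ 4)⁻¹ * Real.sin (4 * σ))) ^ 2 =
      ((x ^ 4)⁻¹) ^ 2 * (1 - Real.cos (4 * σ) ^ 2) := by
    rw [← h2]
    ring
  rw [h4, h1, mul_pow, mul_pow, h3]
  ring

/-- Lower bound for `‖1 + w⁻⁴‖`. -/
lemma vv_lower {σ x R : ℝ} (hσ : |σ| ≤ π / 4) (hx : 1 < x) (hR : x ≤ R) :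
    (1 / (2 * R ^ 2)) * ((π / 4 - |σ|) + (x - 1)) ≤ ‖vv σ x‖ := by
  have hx0 : 0 < x := by linarith
  have hR0 : 0 < R := by linarith
  have hcos := cos_two_mul_ge hσ
  have hτ : 0 ≤ π / 4 - |σ| := by linarith
  have hπ : (8 / π) * (π / 4 - |σ|) ≥ 2 * (π / 4 - |σ|) := by
    apply mul_le_mul_of_nonneg_right _ hτ
    rw [le_div_iff₀ Real.pi_pos]
    linarith [Real.pi_le_four]
  -- the first term
  have ha : (x - 1) / R ^ 2 ≤ 1 - (x ^ 4)⁻¹ := by
    have h1 : (x ^ 4)⁻¹ ≤ x⁻¹ := by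
      apply inv_anti₀ hx0
      calc x = x ^ 1 := (pow_one x).symm
        _ ≤ x ^ 4 := pow_le_pow_right₀ hx.le (by norm_num)
    have h2 : (x - 1) / R ^ 2 ≤ (x - 1) / x := by
      apply div_le_div_of_nonneg_left (by linarith) hx0
      nlinarith
    have h3 : (x - 1) / x = 1 - x⁻¹ := by
      field_simp
    linarith
  have hb : 2 * (π / 4 - |σ|) / R ^ 2 ≤ 2 * (x ^ 2)⁻¹ * Real.cos (2 * σ) := by
    have h1 : (R ^ 2)⁻¹ ≤ (x ^ 2)⁻¹ := inv_anti₀ (by positivity) (by gcongr)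
    have h2 : 2 * (π / 4 - |σ|) ≤ 2 * Real.cos (2 * σ) := by linarith
    calc 2 * (π / 4 - |σ|) / R ^ 2 = (R ^ 2)⁻¹ * (2 * (π / 4 - |σ|)) := by ring
      _ ≤ (x ^ 2)⁻¹ * (2 * Real.cos (2 * σ)) := by
          apply mul_le_mul h1 h2 (by positivity) (by positivity)
      _ = _ := by ring
  rw [vv_norm]
  set a := 1 - (x ^ 4)⁻¹ with hadef
  set b := 2 * (x ^ 2)⁻¹ * Real.cos (2 * σ) with hbdef
  have ha0 : 0 ≤ a := le_trans (div_nonneg (by linarith) (by positivity)) ha
  have hb0 : 0 ≤ b := le_trans (by positivity) hb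
  have h5 : (a + b) / 2 ≤ Real.sqrt (a ^ 2 + b ^ 2) := by
    apply Real.le_sqrt_of_sq_le
    nlinarith [sq_nonneg (a - b)]
  refine le_trans ?_ h5
  have h6 : (1 / (2 * R ^ 2)) * ((π / 4 - |σ|) + (x - 1)) =
      ((π / 4 - |σ|) / R ^ 2 + (x - 1) / R ^ 2) / 2 := by
    field_simp
  have h7 : (π / 4 - |σ|) / R ^ 2 ≤ 2 * (π / 4 - |σ|) / R ^ 2 := by
    gcongr
    linarith
  rw [h6]
  linarith

/-- Upper bound for `‖1 + w⁻⁴‖`. -/
lemma vv_upper {σ x : ℝ} (hσ : |σ| ≤ π / 4) (hx : 1 < x) :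
    ‖vv σ x‖ ≤ 4 * ((π / 4 - |σ|) + (x - 1)) := by
  have hx0 : 0 < x := by linarith
  have hτ : 0 ≤ π / 4 - |σ| := by linarith
  have hcos0 : 0 ≤ Real.cos (2 * σ) := by
    have := cos_two_mul_ge hσ
    have h2 : 0 ≤ (8 / π) * (π / 4 - |σ|) := by positivity
    linarith
  have hcos : Real.cos (2 * σ) ≤ 2 * (π / 4 - |σ|) := by
    have h1 : Real.cos (2 * σ) = Real.sin (2 * (π / 4 - |σ|)) := by
      rw [← Real.cos_abs (2 * σ), abs_mul, abs_of_pos (by norm_num : (0:ℝ) < 2),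
        ← Real.cos_pi_div_two_sub]
      congr 1
      ring
    rw [h1]
    exact Real.sin_le (by positivity)
  rw [vv_norm]
  have hinv : (x ^ 4)⁻¹ ≤ 1 := (inv_lt_one_of_one_lt₀ (one_lt_pow₀ hx (by norm_num))).le
  have ha : 1 - (x ^ 4)⁻¹ ≤ 4 * (x - 1) := by
    have h1 : 1 + (4 : ℕ) * (x⁻¹ - 1) ≤ (1 + (x⁻¹ - 1)) ^ 4 := by
      apply one_add_mul_le_pow
      have : 0 < x⁻¹ := by positivity
      linarith
    have h2 : (1 + (x⁻¹ - 1)) ^ 4 = (x ^ 4)⁻¹ := by
      rw [← inv_pow]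
      ring
    rw [h2] at h1
    have h3 : 1 - x⁻¹ ≤ x - 1 := by
      have h4 : 1 - x⁻¹ = (x - 1) / x := by field_simp
      rw [h4]
      exact div_le_self (by linarith) hx.le
    push_cast at h1
    linarith
  have hb : 2 * (x ^ 2)⁻¹ * Real.cos (2 * σ) ≤ 4 * (π / 4 - |σ|) := by
    have h1 : (x ^ 2)⁻¹ ≤ 1 := (inv_lt_one_of_one_lt₀ (one_lt_pow₀ hx (by norm_num))).le
    have h2 : 0 ≤ (x ^ 2)⁻¹ := by positivity
    nlinarith
  set a := 1 - (x ^ 4)⁻¹ with hadef
  set b := 2 * (x ^ 2)⁻¹ * Real.cos (2 * σ) with hbdef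
  have ha0 : 0 ≤ a := by linarith
  have hb0 : 0 ≤ b := by positivity
  have h5 : Real.sqrt (a ^ 2 + b ^ 2) ≤ a + b := by
    apply Real.sqrt_le_iff.2
    constructor
    · positivity
    · nlinarith
  linarith

/-- The ray. -/
def ray (σ x : ℝ) : ℂ := psi ((x : ℂ) * Complex.exp (σ * Complex.I))

lemma norm_ray_arg {x : ℝ} (σ : ℝ) (hx : 0 ≤ x) :
    ‖(x : ℂ) * Complex.exp (σ * Complex.I)‖ = x := by
  rw [norm_mul, Complex.norm_exp_ofReal_mul_I, mul_one, Complex.norm_real, Real.norm_eq_abs,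
    abs_of_nonneg hx]

lemma ray_hasDerivAt (H : PsiFacts) {σ x : ℝ} (hx : 1 < x) :
    HasDerivAt (ray σ) (Complex.exp (σ * Complex.I) * (vv σ x) ^ (1 / 2 : ℂ)) x := by
  have h1 := H.deriv ((x : ℂ) * Complex.exp (σ * Complex.I))
    (by rw [norm_ray_arg σ (by linarith)]; exact hx)
  have h2 : HasDerivAt (fun y : ℝ => (y : ℂ) * Complex.exp (σ * Complex.I))
      (1 * Complex.exp (σ * Complex.I)) x :=
    (Complex.ofRealCLM.hasDerivAt (x := x)).mul_const _
  have h3 := HasDerivAt.comp x h1 h2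
  rw [one_mul] at h3
  rw [mul_comm (Complex.exp _)]
  exact h3

lemma ray_cont (H : PsiFacts) (σ : ℝ) : ContinuousOn (ray σ) (Ici 1) := by
  unfold ray
  refine H.cont.comp (by fun_prop) ?_
  intro x hx
  have hx1 : (1:ℝ) ≤ x := hx
  change 1 ≤ ‖(x : ℂ) * Complex.exp (σ * Complex.I)‖
  rw [norm_ray_arg σ (by linarith)]
  exact hx1

lemma ray_one (H : PsiFacts) (σ : ℝ) : ray σ 1 = zeta σ := by
  unfold ray
  rw [Complex.ofReal_one, one_mul, H.bdry]

/-- Lower bound for the real part of the derivative along a ray. -/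
lemma ray_deriv_re {σ x : ℝ} (hσ : |σ| ≤ π / 4) (hx : 1 < x) :
    Real.sqrt ‖vv σ x‖ / 2 ≤ (Complex.exp (σ * Complex.I) * (vv σ x) ^ (1 / 2 : ℂ)).re := by
  obtain ⟨h1, -, h3, h4⟩ := sqrt_facts (vv_re_pos (σ := σ) hx)
  set s := (vv σ x) ^ (1 / 2 : ℂ) with hs
  have h5 : (Complex.exp (σ * Complex.I) * s).re = Real.cos σ * s.re - Real.sin σ * s.im := by
    rw [Complex.mul_re, Complex.exp_ofReal_mul_I_re, Complex.exp_ofReal_mul_I_im]
  rw [h5]
  have hx4 : 0 < (x ^ 4)⁻¹ := by positivity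
  have hab := abs_le.1 hσ
  have h6 : 0 ≤ -(Real.sin σ * s.im) := by
    rcases le_total 0 σ with h | h
    · have hs4 : 0 ≤ Real.sin (4 * σ) :=
        Real.sin_nonneg_of_nonneg_of_le_pi (by linarith) (by linarith)
      have hs1 : 0 ≤ Real.sin σ :=
        Real.sin_nonneg_of_nonneg_of_le_pi h (by linarith [Real.pi_pos])
      have him : s.im ≤ 0 := h3 (by
        rw [vv_im]
        have := mul_nonneg hx4.le hs4
        linarith)
      nlinarith
    · have hs4 : Real.sin (4 * σ) ≤ 0 := by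
        have := Real.sin_nonneg_of_nonneg_of_le_pi (x := -(4 * σ)) (by linarith) (by linarith)
        rw [Real.sin_neg] at this
        linarith
      have hs1 : Real.sin σ ≤ 0 := by
        have := Real.sin_nonneg_of_nonneg_of_le_pi (x := -σ) (by linarith)
          (by linarith [Real.pi_pos])
        rw [Real.sin_neg] at this
        linarith
      have him : 0 ≤ s.im := h4 (by
        rw [vv_im]
        have := mul_nonneg hx4.le (neg_nonneg.2 hs4)
        linarith)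
      nlinarith
  have h7 : Real.sqrt 2 / 2 ≤ Real.cos σ := by
    rw [← Real.cos_pi_div_four, ← Real.cos_abs σ]
    exact Real.cos_le_cos_of_nonneg_of_le_pi (abs_nonneg _) (by linarith [Real.pi_pos]) hσ
  have h8 : 0 ≤ Real.sqrt ‖vv σ x‖ / Real.sqrt 2 := by positivity
  have h9 : Real.sqrt 2 / 2 * (Real.sqrt ‖vv σ x‖ / Real.sqrt 2) ≤ Real.cos σ * s.re :=
    mul_le_mul h7 h1 h8 (le_trans (by positivity) h7)
  have h10 : Real.sqrt 2 / 2 * (Real.sqrt ‖vv σ x‖ / Real.sqrt 2) = Real.sqrt ‖vv σ x‖ / 2 := by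
    have : Real.sqrt 2 ≠ 0 := by positivity
    field_simp
  linarith

/-- The real part of `psi` grows along a ray. -/
lemma ray_re {σ x R : ℝ} (H : PsiFacts) (hσ : |σ| ≤ π / 4) (hx : 1 < x) (hR : x ≤ R) :
    aa + (1 / (9 * R)) * ((x - 1) * Real.sqrt ((π / 4 - |σ|) + (x - 1))) ≤ (ray σ x).re := by
  have hR0 : 0 < R := by linarith
  have hτ : 0 ≤ π / 4 - |σ| := by linarith
  set τ := π / 4 - |σ| with hτdef
  have hcont : ContinuousOn (fun y => (ray σ y).re) (Ici 1) :=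
    Complex.continuous_re.comp_continuousOn (ray_cont H σ)
  have hder : ∀ y, 1 < y → HasDerivAt (fun y => (ray σ y).re)
      (Complex.exp (σ * Complex.I) * (vv σ y) ^ (1 / 2 : ℂ)).re y := fun y hy =>
    Complex.reCLM.hasFDerivAt.comp_hasDerivAt y (ray_hasDerivAt H hy)
  set m := 1 + (x - 1) / 2 with hm
  have hm1 : 1 < m := by rw [hm]; linarith
  have hmx : m < x := by rw [hm]; linarith
  -- the first half
  have h1 : aa ≤ (ray σ m).re := by
    have := (convex_Icc (1:ℝ) m).mul_sub_le_image_sub_of_le_deriv (C := 0)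
      (hcont.mono Icc_subset_Ici_self)
      (fun y hy => by
        rw [interior_Icc] at hy
        exact (hder y hy.1).differentiableAt.differentiableWithinAt)
      (fun y hy => by
        rw [interior_Icc] at hy
        rw [(hder y hy.1).deriv]
        exact le_trans (by positivity) (ray_deriv_re hσ hy.1))
      1 (left_mem_Icc.2 hm1.le) m (right_mem_Icc.2 hm1.le) hm1.le
    rw [zero_mul] at this
    have h2 : (ray σ 1).re = aa := by
      rw [ray_one H, zeta_side hσ]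
      simp
    linarith
  -- the second half
  have h3 : (1 / (3 * R)) * Real.sqrt ((τ + (x - 1)) / 2) * (x - m) ≤
      (ray σ x).re - (ray σ m).re := by
    refine (convex_Icc m x).mul_sub_le_image_sub_of_le_deriv
      (hcont.mono fun y hy => le_trans hm1.le hy.1)
      (fun y hy => by
        rw [interior_Icc] at hy
        exact (hder y (hm1.trans hy.1)).differentiableAt.differentiableWithinAt)
      (fun y hy => ?_) m (left_mem_Icc.2 hmx.le) x (right_mem_Icc.2 hmx.le) hmx.le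
    rw [interior_Icc] at hy
    have hy1 : 1 < y := hm1.trans hy.1
    rw [(hder y hy1).deriv]
    refine le_trans ?_ (ray_deriv_re hσ hy1)
    have h4 := vv_lower hσ hy1 (hy.2.le.trans hR)
    rw [← hτdef] at h4
    have h5 : (1 / (3 * R)) * Real.sqrt ((τ + (x - 1)) / 2) =
        Real.sqrt ((1 / (3 * R)) ^ 2 * ((τ + (x - 1)) / 2)) := by
      rw [Real.sqrt_mul (by positivity), Real.sqrt_sq (by positivity)]
    have h6 : Real.sqrt ‖vv σ y‖ / 2 = Real.sqrt (‖vv σ y‖ / 4) := by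
      rw [Real.sqrt_div' _ (by norm_num : (0:ℝ) ≤ 4)]
      congr 1
      rw [show (4:ℝ) = 2 ^ 2 by norm_num, Real.sqrt_sq (by norm_num)]
    rw [h5, h6]
    apply Real.sqrt_le_sqrt
    have h7 : (τ + (x - 1)) / 2 ≤ τ + (y - 1) := by
      have := hy.1
      rw [hm] at this
      linarith
    have h8 : (1 / (3 * R)) ^ 2 * ((τ + (x - 1)) / 2) ≤ (1 / (3 * R)) ^ 2 * (τ + (y - 1)) :=
      mul_le_mul_of_nonneg_left h7 (by positivity)
    have h9 : (1 / (3 * R)) ^ 2 * (τ + (y - 1)) ≤ (1 / (2 * R ^ 2)) * (τ + (y - 1)) / 4 := by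
      have h10 : (1 / (3 * R)) ^ 2 ≤ (1 / (2 * R ^ 2)) / 4 := by
        rw [div_pow, one_pow, mul_pow, div_div, div_le_div_iff_of_pos_left (by norm_num)
          (by positivity) (by positivity)]
        nlinarith [sq_nonneg R]
      have h11 : 0 ≤ τ + (y - 1) := by linarith
      calc (1 / (3 * R)) ^ 2 * (τ + (y - 1)) ≤ (1 / (2 * R ^ 2)) / 4 * (τ + (y - 1)) :=
            mul_le_mul_of_nonneg_right h10 h11
        _ = _ := by ring
    linarith
  have h12 : (1 / (9 * R)) * ((x - 1) * Real.sqrt (τ + (x - 1))) ≤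
      (1 / (3 * R)) * Real.sqrt ((τ + (x - 1)) / 2) * (x - m) := by
    have h13 : x - m = (x - 1) / 2 := by rw [hm]; ring
    have h14 : (2 / 3) * Real.sqrt (τ + (x - 1)) ≤ Real.sqrt ((τ + (x - 1)) / 2) := by
      have : (2 / 3) * Real.sqrt (τ + (x - 1)) = Real.sqrt ((2 / 3) ^ 2 * (τ + (x - 1))) := by
        rw [Real.sqrt_mul (by positivity), Real.sqrt_sq (by positivity)]
      rw [this]
      apply Real.sqrt_le_sqrt
      linarith
    rw [h13]
    have h15 : 0 ≤ (1 / (3 * R)) * ((x - 1) / 2) := by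
      have : 0 < x - 1 := by linarith
      positivity
    calc (1 / (9 * R)) * ((x - 1) * Real.sqrt (τ + (x - 1))) =
          (1 / (3 * R)) * ((x - 1) / 2) * ((2 / 3) * Real.sqrt (τ + (x - 1))) := by
            field_simp
            ring
      _ ≤ (1 / (3 * R)) * ((x - 1) / 2) * Real.sqrt ((τ + (x - 1)) / 2) :=
            mul_le_mul_of_nonneg_left h14 h15
      _ = _ := by ring
  linarith

/-- The distance travelled along a ray. -/
lemma ray_dist {σ x : ℝ} (H : PsiFacts) (hσ : |σ| ≤ π / 4) (hx : 1 < x) :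
    ‖ray σ x - zeta σ‖ ≤ 2 * Real.sqrt ((π / 4 - |σ|) + (x - 1)) * (x - 1) := by
  have hτ : 0 ≤ π / 4 - |σ| := by linarith
  set τ := π / 4 - |σ| with hτdef
  have key : ∀ y ∈ Ioo 1 x, ‖ray σ x - ray σ y‖ ≤ 2 * Real.sqrt (τ + (x - 1)) * (x - 1) := by
    intro y hy
    have h1 := (convex_Icc y x).norm_image_sub_le_of_norm_hasDerivWithin_le (f := ray σ)
      (f' := fun u => Complex.exp (σ * Complex.I) * (vv σ u) ^ (1 / 2 : ℂ))
      (C := 2 * Real.sqrt (τ + (x - 1)))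
      (fun u hu => (ray_hasDerivAt H (hy.1.trans_le hu.1)).hasDerivWithinAt)
      (fun u hu => by
        have hu1 : 1 < u := hy.1.trans_le hu.1
        rw [norm_mul, Complex.norm_exp_ofReal_mul_I, one_mul,
          (sqrt_facts (vv_re_pos (σ := σ) hu1)).2.1]
        have h2 := vv_upper hσ hu1
        rw [← hτdef] at h2
        have h3 : 2 * Real.sqrt (τ + (x - 1)) = Real.sqrt (4 * (τ + (x - 1))) := by
          rw [Real.sqrt_mul (by norm_num), show (4:ℝ) = 2 ^ 2 by norm_num,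
            Real.sqrt_sq (by norm_num)]
        rw [h3]
        apply Real.sqrt_le_sqrt
        have := hu.2
        linarith)
      (left_mem_Icc.2 hy.2.le) (right_mem_Icc.2 hy.2.le)
    refine h1.trans ?_
    rw [Real.norm_eq_abs, abs_of_pos (by linarith [hy.2])]
    apply mul_le_mul_of_nonneg_left _ (by positivity)
    linarith [hy.1]
  have hlim : Tendsto (fun y => ‖ray σ x - ray σ y‖) (𝓝[>] 1) (𝓝 ‖ray σ x - ray σ 1‖) := by
    have h1 : Tendsto (ray σ) (𝓝[>] 1) (𝓝 (ray σ 1)) :=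
      (ray_cont H σ 1 (self_mem_Ici)).mono_left (nhdsWithin_mono _ Ioi_subset_Ici_self)
    exact (tendsto_const_nhds.sub h1).norm
  rw [ray_one H] at hlim
  refine le_of_tendsto hlim ?_
  filter_upwards [Ioo_mem_nhdsGT hx] with y hy
  exact key y hy

/-- The distance of a boundary point from the corner. -/
lemma corner_dist {σ : ℝ} (hσ : |σ| ≤ π / 4) :
    aa - |YY σ| ≤ 2 * Real.sqrt (π / 4 - |σ|) * (π / 4 - |σ|) := by
  have hτ : 0 ≤ π / 4 - |σ| := by linarith
  have h1 : |YY σ| = YY |σ| := by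
    have h0 : 0 ≤ YY |σ| := by
      rw [← YY_zero]
      exact YY_mono (abs_nonneg σ)
    rcases abs_cases σ with ⟨h, -⟩ | ⟨h, -⟩
    · rw [h] at h0 ⊢
      exact abs_of_nonneg h0
    · rw [h] at h0 ⊢
      rw [← abs_neg, ← YY_neg]
      exact abs_of_nonneg h0
  rw [h1]
  unfold aa
  rw [YY_sub]
  refine le_trans (le_abs_self _) ?_
  rw [← Real.norm_eq_abs]
  have h2 := intervalIntegral.norm_integral_le_of_norm_le_const (a := |σ|) (b := π / 4)
    (f := fun τ => Real.sqrt (2 * Real.cos (2 * τ))) (C := 2 * Real.sqrt (π / 4 - |σ|)) ?_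
  · rwa [abs_of_nonneg hτ] at h2
  · intro u hu
    rw [uIoc_of_le hσ] at hu
    rw [Real.norm_eq_abs, abs_of_nonneg (Real.sqrt_nonneg _)]
    have h3 : 2 * Real.sqrt (π / 4 - |σ|) = Real.sqrt (4 * (π / 4 - |σ|)) := by
      rw [Real.sqrt_mul (by norm_num), show (4:ℝ) = 2 ^ 2 by norm_num,
        Real.sqrt_sq (by norm_num)]
    rw [h3]
    apply Real.sqrt_le_sqrt
    have h4 : Real.cos (2 * u) = Real.sin (2 * (π / 4 - u)) := by
      rw [← Real.cos_pi_div_two_sub]
      congr 1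
      ring
    have h5 : Real.sin (2 * (π / 4 - u)) ≤ 2 * (π / 4 - u) :=
      Real.sin_le (by linarith [hu.2])
    rw [h4]
    linarith [hu.1]

/-- Points to the right of the square are on the rays with `|σ| ≤ π / 4`. -/
lemma sector (H : PsiFacts) {z w : ℂ} (hw : 1 < ‖w‖) (hz : psi w = z) (h1 : aa < z.re)
    (h2 : |z.im| ≤ aa) : ∃ σ : ℝ, |σ| ≤ π / 4 ∧ ray σ ‖w‖ = z := by
  have haa := aa_pos
  set θ := w.arg with hθ
  set k := sideIdx θ with hk
  set σ := θ - k * (π / 2) with hσdef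
  have hσ : |σ| ≤ π / 4 := by
    have := sideIdx_spec θ
    rw [abs_le]
    exact ⟨this.1, this.2.le⟩
  have hrot : ∀ t : ℝ, ray (t + π / 2) ‖w‖ = Complex.I * ray t ‖w‖ := by
    intro t
    unfold ray
    rw [← H.rot]
    congr 1
    push_cast
    rw [add_mul, Complex.exp_add, Complex.exp_pi_div_two_mul_I]
    ring
  have h3 : ray θ ‖w‖ = z := by
    unfold ray
    rw [hθ, Complex.norm_mul_exp_arg_mul_I, hz]
  have h4 : ray θ ‖w‖ = Complex.I ^ k * ray σ ‖w‖ := by
    have := rot_int (F := fun t => ray t ‖w‖) hrot σ k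
    rw [← this]
    congr 1
    rw [hσdef]
    ring
  have h5 : aa < (ray σ ‖w‖).re := by
    have h6 := ray_re H hσ hw le_rfl
    have h7 : 0 < (1 / (9 * ‖w‖)) * ((‖w‖ - 1) * Real.sqrt ((π / 4 - |σ|) + (‖w‖ - 1))) := by
      have h8 : 0 < ‖w‖ - 1 := by linarith
      have h9 : 0 < (π / 4 - |σ|) + (‖w‖ - 1) := by linarith
      positivity
    linarith
  rw [h3] at h4
  have h6 : Complex.I ^ k = 1 ∨ Complex.I ^ k = Complex.I ∨ Complex.I ^ k = -1 ∨
      Complex.I ^ k = -Complex.I := by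
    have hI4 : Complex.I ^ (4 : ℤ) = 1 := by
      norm_cast
      exact Complex.I_pow_four
    have h7 : Complex.I ^ k = Complex.I ^ (k % 4) := by
      conv_lhs => rw [← Int.mul_ediv_add_emod k 4]
      rw [zpow_add₀ Complex.I_ne_zero, zpow_mul, hI4, one_zpow, one_mul]
    rw [h7]
    have h8 : 0 ≤ k % 4 := Int.emod_nonneg k (by norm_num)
    have h9 : k % 4 < 4 := Int.emod_lt_of_pos k (by norm_num)
    have h10 : k % 4 = 0 ∨ k % 4 = 1 ∨ k % 4 = 2 ∨ k % 4 = 3 := by omega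
    rcases h10 with h | h | h | h
    · left
      rw [h, zpow_zero]
    · right; left
      rw [h, zpow_one]
    · right; right; left
      rw [h, show (2 : ℤ) = ((2 : ℕ) : ℤ) from rfl, zpow_natCast]
      exact Complex.I_sq
    · right; right; right
      rw [h, show (3 : ℤ) = ((3 : ℕ) : ℤ) from rfl, zpow_natCast]
      exact Complex.I_pow_three
  have h11 := abs_le.1 h2
  rcases h6 with h | h | h | h
  · refine ⟨σ, hσ, ?_⟩
    rw [h, one_mul] at h4
    exact h4.symm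
  · exfalso
    rw [h] at h4
    rw [h4, Complex.I_mul_im] at h11
    linarith
  · exfalso
    rw [h, neg_one_mul] at h4
    rw [h4, Complex.neg_re] at h1
    linarith
  · exfalso
    rw [h, neg_mul] at h4
    rw [h4, Complex.neg_im, Complex.I_mul_im] at h11
    linarith

/-- The map `psi` does not decrease the modulus by more than one. -/
lemma norm_le (H : PsiFacts) {w : ℂ} (hw : 1 < ‖w‖) : ‖w‖ - 1 ≤ ‖psi w‖ := by
  have h1 : psi (-w) = -psi w := by
    have h2 := H.rot (Complex.I * w)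
    rw [H.rot w, ← mul_assoc, ← mul_assoc, Complex.I_mul_I, neg_one_mul, neg_one_mul] at h2
    exact h2
  have h3 := H.rfac w (-w) hw.le (by rw [norm_neg]; exact hw.le)
  rw [h1] at h3
  have hinv : ‖w⁻¹‖ ≤ 1 := by
    rw [norm_inv]
    exact inv_le_one_of_one_le₀ hw.le
  have h4 := H.rbound w⁻¹ (-w)⁻¹ hinv (by rwa [norm_inv, norm_neg, ← norm_inv])
  have h5 : psi w = w * Rf w⁻¹ (-w)⁻¹ := by linear_combination h3 / 2
  have h6 : ‖psi w - w‖ ≤ 1 := by
    have h7 : psi w - w = w * (Rf w⁻¹ (-w)⁻¹ - 1) := by rw [h5]; ring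
    rw [h7, norm_mul]
    have hw0 : ‖w‖ ≠ 0 := by positivity
    calc ‖w‖ * ‖Rf w⁻¹ (-w)⁻¹ - 1‖ ≤ ‖w‖ * (‖w⁻¹‖ * ‖(-w)⁻¹‖) :=
          mul_le_mul_of_nonneg_left h4 (norm_nonneg _)
      _ = ‖w⁻¹‖ := by
          rw [norm_inv, norm_inv, norm_neg]
          field_simp
      _ ≤ 1 := hinv
  have h8 : ‖w‖ ≤ ‖psi w‖ + ‖psi w - w‖ := by
    have := norm_sub_norm_le w (psi w)
    rw [norm_sub_rev] at this
    linarith
  linarith

end UB

open UB in
/-- Growth of the Green function near the sides of the square. -/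
theorem UU_bound (H : PsiFacts) (hU : ∀ w : ℂ, 1 < ‖w‖ → UU (psi w) = Real.log ‖w‖) :
    ∃ C : ℝ, 0 < C ∧ ∀ r : ℝ, 0 < r → r ≤ 2 → ∀ t : ℝ, |t| ≤ π / 4 →
      UU (((aa + r : ℝ) : ℂ) + Complex.I * ((YY t : ℝ) : ℂ)) ≤
        C * r * (aa - |YY t| + r) ^ (-(1 / 3) : ℝ) := by
  have haa := aa_pos
  refine ⟨18 * (2 * aa + 3), by positivity, fun r hr hr2 t ht => ?_⟩
  set z : ℂ := ((aa + r : ℝ) : ℂ) + Complex.I * ((YY t : ℝ) : ℂ) with hz
  have hre : z.re = aa + r := by
    rw [hz]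
    simp
  have him : z.im = YY t := by
    rw [hz]
    simp
  have hY := abs_YY_le ht
  obtain ⟨w, hw, hwz⟩ := H.surj z (by
    rw [hre, him]
    refine lt_of_lt_of_le ?_ (le_max_left _ _)
    rw [abs_of_pos (by linarith)]
    linarith)
  obtain ⟨σ, hσ, hray⟩ := sector H hw hwz (by rw [hre]; linarith) (by rw [him]; exact hY)
  have hR : ‖w‖ ≤ 2 * aa + 3 := by
    have h1 := norm_le H hw
    rw [hwz] at h1
    have h2 := Complex.norm_le_abs_re_add_abs_im z
    rw [hre, him, abs_of_pos (by linarith : 0 < aa + r)] at h2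
    linarith
  have hτ : 0 ≤ π / 4 - |σ| := by linarith
  set τ := π / 4 - |σ| with hτdef
  set h := ‖w‖ - 1 with hh
  have hh0 : 0 < h := by rw [hh]; linarith
  set S := Real.sqrt (τ + h) with hS
  have hS0 : 0 < S := Real.sqrt_pos.2 (by linarith)
  have hS2 : S * S = τ + h := Real.mul_self_sqrt (by linarith)
  -- lower bound for r
  have h1 : (1 / (9 * (2 * aa + 3))) * (h * S) ≤ r := by
    have := ray_re H hσ hw hR
    rw [hray, hre] at this
    linarith
  -- upper bound for the distance from the corner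
  have h2 : aa - |YY t| + r ≤ 4 * S ^ 3 := by
    have h3 := ray_dist H hσ hw
    rw [hray] at h3
    have h4 : r ≤ ‖z - zeta σ‖ := by
      have := Complex.abs_re_le_norm (z - zeta σ)
      rw [Complex.sub_re, hre, zeta_side hσ] at this
      simp only [Complex.add_re, Complex.ofReal_re, Complex.mul_re, Complex.I_re, zero_mul,
        Complex.I_im, Complex.ofReal_im, mul_zero, sub_zero, add_zero] at this
      have h5 : aa + r - aa = r := by ring
      rw [h5, abs_of_pos hr] at this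
      rw [zeta_side hσ]
      exact this
    have h6 : |YY t - YY σ| ≤ ‖z - zeta σ‖ := by
      have := Complex.abs_im_le_norm (z - zeta σ)
      rw [Complex.sub_im, him, zeta_side hσ] at this
      simp only [Complex.add_im, Complex.ofReal_im, Complex.mul_im, Complex.I_re, zero_mul,
        Complex.I_im, Complex.ofReal_re, one_mul, zero_add] at this
      rw [zeta_side hσ]
      exact this
    have h7 := corner_dist hσ
    rw [← hτdef] at h7
    have h8 : 2 * Real.sqrt τ * τ ≤ 2 * S * τ := by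
      have : Real.sqrt τ ≤ S := Real.sqrt_le_sqrt (by linarith)
      exact mul_le_mul_of_nonneg_right (by linarith) hτ
    have h9 : |YY σ| - |YY t| ≤ |YY t - YY σ| := by
      rw [abs_sub_comm]
      exact abs_sub_abs_le_abs_sub _ _
    have h10 : 4 * S ^ 3 = 4 * S * (τ + h) := by
      rw [← hS2]
      ring
    have h11 : 0 ≤ S * τ := by positivity
    rw [h10]
    linarith
  have hD : 0 < aa - |YY t| + r := by linarith
  have h3 : (2 * S)⁻¹ ≤ (aa - |YY t| + r) ^ (-(1 / 3) : ℝ) := by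
    have h4 : aa - |YY t| + r ≤ (2 * S) ^ (3 : ℝ) := by
      have : (2 * S) ^ (3 : ℝ) = 8 * S ^ 3 := by
        norm_cast
        ring
      rw [this]
      have : 0 < S ^ 3 := by positivity
      linarith
    have h5 := Real.rpow_le_rpow_of_nonpos hD h4 (by norm_num : (-(1 / 3) : ℝ) ≤ 0)
    rw [← Real.rpow_mul (by positivity)] at h5
    have h6 : (3 : ℝ) * (-(1 / 3)) = -1 := by norm_num
    rw [h6, Real.rpow_neg_one] at h5
    exact h5
  have h4 : UU z ≤ h := by
    rw [← hwz, hU w hw]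
    have := Real.log_le_sub_one_of_pos (by linarith : 0 < ‖w‖)
    linarith
  refine h4.trans ?_
  have h5 : h ≤ 18 * (2 * aa + 3) * r * (2 * S)⁻¹ := by
    have h6 : h * S ≤ 9 * (2 * aa + 3) * r := by
      have h7 : 0 < 9 * (2 * aa + 3) := by positivity
      have h8 := mul_le_mul_of_nonneg_left h1 h7.le
      have h9 : 9 * (2 * aa + 3) * (1 / (9 * (2 * aa + 3)) * (h * S)) = h * S := by
        field_simp
      rwa [h9] at h8
    have h10 : 18 * (2 * aa + 3) * r * (2 * S)⁻¹ = 9 * (2 * aa + 3) * r / S := by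
      field_simp
      ring
    rw [h10, le_div_iff₀ hS0]
    exact h6
  refine h5.trans ?_
  exact mul_le_mul_of_nonneg_left h3 (by positivity)

end Pool.Agent.Work.MP_82f4f8_an

end
end

section

/-!
Poisson representation outside the square.
-/

set_option autoImplicit false

noncomputable section

namespace Pool.Agent.Work.MP_82f4f8_an

open Real MeasureTheory Set Filter Topology

open MeanAux in
theorem exterior_rep (H : PsiFacts) {w₀ : ℂ} (hw : 1 < ‖w₀‖) :
    ∃ ρ : ℝ → ℝ, Continuous ρ ∧ (∀ s, 0 ≤ ρ s ∧ ρ s ≤ (‖w₀‖ + 1) / (2 * π * (‖w₀‖ - 1))) ∧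
      (∫ s in (0:ℝ)..(2 * π), ρ s = 1) ∧
      ∀ t, ∫ s in (0:ℝ)..(2 * π), ρ s * LL t s = Real.log ‖zeta t - psi w₀‖ - Real.log ‖w₀‖ := by
  have hp := pi_pos
  have h0 : w₀ ≠ 0 := by
    rintro rfl
    simp at hw
    linarith
  have hwpos : 0 < ‖w₀‖ := norm_pos_iff.2 h0
  have hwi : ‖w₀⁻¹‖ < 1 := by
    rw [norm_inv]
    exact inv_lt_one_of_one_lt₀ hw
  refine ⟨fun s => (2 * π)⁻¹ * poissonKernel 0 w₀⁻¹ (ei s), (cont_poisson hwi).const_mul _,
    fun s => ⟨mul_nonneg (by positivity) (poisson_nonneg hwi (norm_ei s)), ?_⟩, ?_, ?_⟩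
  · have h1 := poisson_le hwi (norm_ei s)
    have h2 : (1 + ‖w₀⁻¹‖) / (1 - ‖w₀⁻¹‖) = (‖w₀‖ + 1) / (‖w₀‖ - 1) := by
      rw [norm_inv]
      have h3 : ‖w₀‖ - 1 ≠ 0 := by linarith
      have h4 : 1 - ‖w₀‖⁻¹ ≠ 0 := by
        rw [← norm_inv]
        linarith
      rw [div_eq_div_iff h4 h3]
      field_simp
    rw [h2] at h1
    have h5 := mul_le_mul_of_nonneg_left h1 (by positivity : 0 ≤ (2 * π)⁻¹)
    refine h5.trans (le_of_eq ?_)
    have h3 : ‖w₀‖ - 1 ≠ 0 := by linarith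
    field_simp
  · have h1 := poisson_re (h := fun _ => (1:ℂ)) diffContOnCl_const hwi
    simp only [Complex.one_re, mul_one] at h1
    rw [intervalIntegral.integral_const_mul, h1, inv_mul_cancel₀ (by positivity)]
  · intro t
    have h1 := kernel_LL H hwi t
    have h2 : ∀ s, (2 * π)⁻¹ * poissonKernel 0 w₀⁻¹ (ei s) * LL t s =
        (2 * π)⁻¹ * (poissonKernel 0 w₀⁻¹ (ei s) * LL t s) := fun s => by ring
    simp only [h2]
    rw [intervalIntegral.integral_const_mul, h1, ← mul_assoc, inv_mul_cancel₀ (by positivity),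
      one_mul]
    have h3 := H.rfac (Complex.exp (t * Complex.I)) w₀ (norm_ex t).ge hw.le
    rw [H.bdry] at h3
    have h4 : ‖Complex.exp (t * Complex.I) - w₀‖ =
        ‖w₀‖ * ‖1 - w₀⁻¹ * Complex.exp (t * Complex.I)‖ := by
      rw [← norm_mul, ← norm_neg]
      congr 1
      field_simp
      ring
    have h5 : 0 < ‖1 - w₀⁻¹ * Complex.exp (t * Complex.I)‖ := by
      refine norm_pos_iff.2 (ne_of_re_pos (re_pos_of_lt ?_))
      rw [show 1 - w₀⁻¹ * Complex.exp (t * Complex.I) - 1 =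
        -(w₀⁻¹ * Complex.exp (t * Complex.I)) by ring, norm_neg, norm_mul, norm_ex, mul_one]
      exact hwi
    have h6 : 0 < ‖Rf (ei t) w₀⁻¹‖ := by
      refine norm_pos_iff.2 (ne_of_re_pos (rf_norm H (norm_ei t).le hwi.le ?_))
      rw [norm_ei, one_mul]
      exact hwi
    rw [show zeta t - psi w₀ = (Complex.exp (t * Complex.I) - w₀) * Rf (ei t) w₀⁻¹ from h3,
      norm_mul, h4, Real.log_mul (by positivity) h6.ne', Real.log_mul hwpos.ne' h5.ne']
    ring

end Pool.Agent.Work.MP_82f4f8_an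

end
end
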