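import Pool.Agent.Work.MP_82f4f8_an.Bd.B04
import Pool.Agent.Work.MP_82f4f8_an.Bd.B02
import Pool.Agent.Work.MP_82f4f8_an.Harnack
import Pool.Agent.Work.MP_82f4f8_an.Bd.B03

/-! Bundle of small proof modules (one section per former module). -/

section

/-!
The identity `∫ KK m t s ds = ∫ m s * LL t s ds`.
-/

set_option autoImplicit false

noncomputable section

namespace Pool.Agent.Work.MP_82f4f8_an

open Real MeasureTheory Set Filter Topology

variable {m : ℝ → ℝ} {B : ℝ}

def Phid (δ t : ℝ) : ℝ := ∫ s in (0:ℝ)..(2 * π), Ld δ t s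
def Ad (m : ℝ → ℝ) (δ t : ℝ) : ℝ := ∫ s in (0:ℝ)..(2 * π), Kd m δ t s
def Dd (m : ℝ → ℝ) (δ t : ℝ) : ℝ := ∫ s in (0:ℝ)..(2 * π), (mbar m - m s) * Ld δ t s
def A0 (m : ℝ → ℝ) (t : ℝ) : ℝ := ∫ s in (0:ℝ)..(2 * π), KK m t s
def D0 (m : ℝ → ℝ) (t : ℝ) : ℝ := ∫ s in (0:ℝ)..(2 * π), (mbar m - m s) * LL t s

lemma param_cont {F : ℝ → ℝ → ℝ} (hF : Continuous fun p : ℝ × ℝ => F p.1 p.2) :
    Continuous fun t => ∫ s in (0:ℝ)..(2 * π), F t s :=
  intervalIntegral.continuous_parametric_intervalIntegral_of_continuous' hF 0 (2 * π)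

lemma cont_second {F : ℝ → ℝ → ℝ} (hF : Continuous fun p : ℝ × ℝ => F p.1 p.2) (t : ℝ) :
    Continuous (F t) := hF.comp (continuous_const.prodMk continuous_id)

lemma cont_Phid {δ : ℝ} (hδ : 0 < δ) : Continuous (Phid δ) := param_cont (cont_Ld hδ)

lemma Adm.cont_Ad (h : Adm m B) {δ : ℝ} (hδ : 0 < δ) : Continuous (Ad m δ) :=
  param_cont (h.cont_Kd hδ)

lemma Adm.cont_Dd (h : Adm m B) {δ : ℝ} (hδ : 0 < δ) : Continuous (Dd m δ) := by
  apply param_cont (F := fun t s => (mbar m - m s) * Ld δ t s)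
  exact (continuous_const.sub (h.cont.comp continuous_snd)).mul (cont_Ld hδ)

lemma abs_D1_le {δ : ℝ} (hδ : 0 < δ) (t s : ℝ) : |D1 δ t s| ≤ 4 * aa * Real.sqrt 2 / δ ^ 2 := by
  have haa := aa_pos
  unfold D1
  rw [abs_div, abs_of_pos (den_pos hδ t s)]
  have h1 : |inner ℝ (zeta t - zeta s) (zeta' t)| ≤ 4 * aa * Real.sqrt 2 := by
    refine le_trans (abs_real_inner_le_norm _ _) ?_
    apply mul_le_mul
    · refine le_trans (norm_sub_le _ _) ?_
      linarith [norm_zeta_le t, norm_zeta_le s]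
    · rw [norm_zeta']; exact speed_le t
    · exact norm_nonneg _
    · positivity
  apply div_le_div₀ (by positivity) h1 (by positivity)
  have := NN_nonneg t s
  linarith

lemma hasDerivAt_Phid {δ : ℝ} (hδ : 0 < δ) (t : ℝ) :
    HasDerivAt (Phid δ) (∫ s in (0:ℝ)..(2 * π), D1 δ t s) t := by
  have h := intervalIntegral.hasDerivAt_integral_of_dominated_loc_of_deriv_le
    (μ := volume) (a := 0) (b := 2 * π) (F := fun t s => Ld δ t s) (F' := fun t s => D1 δ t s)
    (x₀ := t) (s := univ) (bound := fun _ => 4 * aa * Real.sqrt 2 / δ ^ 2)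
    univ_mem
    (Filter.Eventually.of_forall fun x => (cont_second (cont_Ld hδ) x).aestronglyMeasurable)
    ((cont_second (cont_Ld hδ) t).intervalIntegrable _ _)
    (cont_second (cont_D1 hδ) t).aestronglyMeasurable
    (Filter.Eventually.of_forall fun s _ x _ => abs_D1_le hδ x s)
    intervalIntegrable_const
    (Filter.Eventually.of_forall fun s _ x _ => hasDerivAt_Ld hδ x s)
  exact h.2

lemma Adm.gam_two_pi (h : Adm m B) (t : ℝ) : gam m (t + 2 * π) = gam m t := by
  have e : t + 2 * π = t + π / 2 + π / 2 + π / 2 + π / 2 := by ring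
  rw [e, h.gam_add, h.gam_add, h.gam_add, h.gam_add]

lemma Ld_two_pi (δ t s : ℝ) : Ld δ t (s + 2 * π) = Ld δ t s := by
  unfold Ld NN; rw [zeta_two_pi]

lemma Adm.by_parts (h : Adm m B) {δ : ℝ} (hδ : 0 < δ) (t : ℝ) :
    ∫ s in (0:ℝ)..(2 * π), gam m s * D2 δ t s = -Dd m δ t := by
  have h1 := intervalIntegral.integral_mul_deriv_eq_deriv_mul (a := 0) (b := 2 * π)
    (u := gam m) (u' := fun s => mbar m - m s) (v := Ld δ t) (v' := D2 δ t)
    (fun x _ => h.hasDerivAt_gam x) (fun x _ => hasDerivAt_Ld2 hδ t x)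
    (h.cont'.intervalIntegrable _ _) ((cont_second (cont_D2 hδ) t).intervalIntegrable _ _)
  rw [h1]
  have e1 : gam m (2 * π) = gam m 0 := by
    have := h.gam_two_pi 0
    rwa [zero_add] at this
  have e2 : Ld δ t (2 * π) = Ld δ t 0 := by
    have := Ld_two_pi δ t 0
    rwa [zero_add] at this
  rw [e1, e2]
  unfold Dd
  ring

lemma Adm.key1 (h : Adm m B) {δ : ℝ} (hδ : 0 < δ) (t : ℝ) :
    gam m t * (∫ s in (0:ℝ)..(2 * π), D1 δ t s) = Ad m δ t + Dd m δ t := by
  have e : Ad m δ t = gam m t * (∫ s in (0:ℝ)..(2 * π), D1 δ t s)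
      + ∫ s in (0:ℝ)..(2 * π), gam m s * D2 δ t s := by
    unfold Ad
    rw [← intervalIntegral.integral_const_mul, ← intervalIntegral.integral_add]
    · congr 1
      funext s
      exact Kd_eq δ t s
    · exact ((cont_second (cont_D1 hδ) t).intervalIntegrable _ _).const_mul _
    · exact ((h.cont_gam.mul (cont_second (cont_D2 hδ) t)).intervalIntegrable _ _)
  rw [e, h.by_parts hδ]
  ring

lemma Adm.key2 (h : Adm m B) {δ : ℝ} (hδ : 0 < δ) (a b : ℝ) :
    gam m b * Phid δ b - gam m a * Phid δ a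
      = ∫ t in a..b, ((mbar m - m t) * Phid δ t + (Ad m δ t + Dd m δ t)) := by
  have h1 : ∀ t, HasDerivAt (fun t => gam m t * Phid δ t)
      ((mbar m - m t) * Phid δ t + (Ad m δ t + Dd m δ t)) t := by
    intro t
    rw [← h.key1 hδ t]
    exact (h.hasDerivAt_gam t).mul (hasDerivAt_Phid hδ t)
  rw [intervalIntegral.integral_eq_sub_of_hasDerivAt (fun t _ => h1 t)]
  apply Continuous.intervalIntegrable
  exact (h.cont'.mul (cont_Phid hδ)).add ((h.cont_Ad hδ).add (h.cont_Dd hδ))

/-- the sequence of regularisation parameters -/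
def dl (k : ℕ) : ℝ := 1 / ((k : ℝ) + 1)

lemma dl_pos (k : ℕ) : 0 < dl k := by unfold dl; positivity
lemma dl_le (k : ℕ) : dl k ≤ 1 := by
  unfold dl
  rw [div_le_one (by positivity)]
  have : (0 : ℝ) ≤ k := Nat.cast_nonneg k
  linarith
lemma dl_tendsto : Tendsto dl atTop (𝓝 0) := tendsto_one_div_add_atTop_nhds_zero_nat

/-- the bound for everything -/
def CC : ℝ := (∫ s in (-π)..π, (3 + (3 / 2) * |Real.log s|)) + 2 * π * Real.log (16 * aa ^ 2 + 1)

lemma log_aa_nonneg : 0 ≤ Real.log (16 * aa ^ 2 + 1) := Real.log_nonneg (by nlinarith [aa_pos])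

lemma dom2_integrable (t a b : ℝ) :
    IntervalIntegrable (fun s => |LL t s| + Real.log (16 * aa ^ 2 + 1)) volume a b :=
  (LL_intervalIntegrable t a b).abs.add intervalIntegrable_const

lemma dom2_le (t : ℝ) : ∫ s in (0:ℝ)..(2 * π), (|LL t s| + Real.log (16 * aa ^ 2 + 1)) ≤ CC := by
  rw [intervalIntegral.integral_add (LL_intervalIntegrable t _ _).abs intervalIntegrable_const,
    intervalIntegral.integral_const]
  have := LL_integral_abs_le t
  unfold CC
  simp only [smul_eq_mul, sub_zero]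
  linarith

lemma weighted_bound {q : ℝ → ℝ} {Q : ℝ} (hq : Continuous q) (hQ : ∀ s, |q s| ≤ Q) {δ : ℝ}
    (hδ : 0 < δ) (hδ1 : δ ≤ 1) (t : ℝ) :
    |∫ s in (0:ℝ)..(2 * π), q s * Ld δ t s| ≤ Q * CC := by
  have hp := pi_pos
  have hQ0 : 0 ≤ Q := le_trans (abs_nonneg _) (hQ 0)
  have h1 : ‖∫ s in (0:ℝ)..(2 * π), q s * Ld δ t s‖
      ≤ ∫ s in (0:ℝ)..(2 * π), Q * (|LL t s| + Real.log (16 * aa ^ 2 + 1)) := by
    apply intervalIntegral.norm_integral_le_of_norm_le (by positivity)
    · filter_upwards [ae_ne_interval (zeta t) 0 (2 * π)] with s hs hs2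
      have hne := hs (by rw [uIoc_of_le (by positivity)]; exact hs2)
      rw [norm_mul]
      exact mul_le_mul (hQ s) (abs_Ld_le hδ hδ1 hne) (abs_nonneg _) hQ0
    · exact (dom2_integrable t _ _).const_mul _
  rw [Real.norm_eq_abs, intervalIntegral.integral_const_mul] at h1
  exact le_trans h1 (mul_le_mul_of_nonneg_left (dom2_le t) hQ0)

lemma weighted_tendsto {q : ℝ → ℝ} {Q : ℝ} (hq : Continuous q) (hQ : ∀ s, |q s| ≤ Q) (t : ℝ) :
    Tendsto (fun k => ∫ s in (0:ℝ)..(2 * π), q s * Ld (dl k) t s) atTop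
      (𝓝 (∫ s in (0:ℝ)..(2 * π), q s * LL t s)) := by
  have hp := pi_pos
  have hQ0 : 0 ≤ Q := le_trans (abs_nonneg _) (hQ 0)
  apply intervalIntegral.tendsto_integral_filter_of_dominated_convergence
    (fun s => Q * (|LL t s| + Real.log (16 * aa ^ 2 + 1)))
  · exact Filter.Eventually.of_forall fun k =>
      (hq.mul (cont_second (cont_Ld (dl_pos k)) t)).aestronglyMeasurable
  · refine Filter.Eventually.of_forall fun k => ?_
    filter_upwards [ae_ne_interval (zeta t) 0 (2 * π)] with s hs hs2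
    rw [norm_mul]
    exact mul_le_mul (hQ s) (abs_Ld_le (dl_pos k) (dl_le k) (hs hs2)) (norm_nonneg _) hQ0
  · exact (dom2_integrable t _ _).const_mul _
  · filter_upwards [ae_ne_interval (zeta t) 0 (2 * π)] with s hs hs2
    exact (tendsto_Ld (hs hs2) dl_tendsto).const_mul _

lemma Phid_bound {δ : ℝ} (hδ : 0 < δ) (hδ1 : δ ≤ 1) (t : ℝ) : |Phid δ t| ≤ 1 * CC := by
  have := weighted_bound (q := fun _ => 1) (Q := 1) continuous_const (fun _ => by simp) hδ hδ1 t
  simpa [Phid] using this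

lemma Phid_tendsto (t : ℝ) :
    Tendsto (fun k => Phid (dl k) t) atTop (𝓝 (∫ s in (0:ℝ)..(2 * π), LL t s)) := by
  have := weighted_tendsto (q := fun _ => 1) (Q := 1) continuous_const (fun _ => by simp) t
  simpa [Phid] using this

lemma Adm.Ad_bound (h : Adm m B) {δ : ℝ} (hδ : 0 < δ) (t : ℝ) : |Ad m δ t| ≤ 6 * B * (2 * π) := by
  have hp := pi_pos
  unfold Ad
  have := intervalIntegral.norm_integral_le_of_norm_le_const (a := 0) (b := 2 * π)
    (f := fun s => Kd m δ t s) (C := 6 * B) (fun s _ => h.abs_Kd_le hδ t s)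
  rwa [Real.norm_eq_abs, sub_zero, abs_of_pos (show 0 < 2 * π by positivity)] at this

lemma Adm.Ad_tendsto (h : Adm m B) (t : ℝ) :
    Tendsto (fun k => Ad m (dl k) t) atTop (𝓝 (A0 m t)) := by
  apply intervalIntegral.tendsto_integral_filter_of_dominated_convergence (fun _ => 6 * B)
  · exact Filter.Eventually.of_forall fun k =>
      (cont_second (h.cont_Kd (dl_pos k)) t).aestronglyMeasurable
  · exact Filter.Eventually.of_forall fun k => Filter.Eventually.of_forall fun s _ =>
      h.abs_Kd_le (dl_pos k) t s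
  · exact intervalIntegrable_const
  · filter_upwards [ae_ne_interval (zeta t) 0 (2 * π)] with s hs hs2
    exact tendsto_Kd (hs hs2) dl_tendsto

/-- the integrated identity -/
lemma Adm.int_zero (h : Adm m B) (hmean : ∀ t, ∫ s in (0:ℝ)..(2 * π), LL t s = 0) (a b : ℝ) :
    ∫ t in a..b, (A0 m t + D0 m t) = 0 := by
  have hB := h.nonneg
  have h1 : Tendsto (fun k => gam m b * Phid (dl k) b - gam m a * Phid (dl k) a) atTop (𝓝 0) := by
    have := ((Phid_tendsto b).const_mul (gam m b)).sub ((Phid_tendsto a).const_mul (gam m a))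
    rw [hmean, hmean] at this
    simpa using this
  have h2 : Tendsto (fun k => ∫ t in a..b,
      ((mbar m - m t) * Phid (dl k) t + (Ad m (dl k) t + Dd m (dl k) t))) atTop
      (𝓝 (∫ t in a..b, ((mbar m - m t) * 0 + (A0 m t + D0 m t)))) := by
    apply intervalIntegral.tendsto_integral_filter_of_dominated_convergence
      (fun _ => 2 * B * (1 * CC) + (6 * B * (2 * π) + 2 * B * CC))
    · exact Filter.Eventually.of_forall fun k =>
        ((h.cont'.mul (cont_Phid (dl_pos k))).add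
          ((h.cont_Ad (dl_pos k)).add (h.cont_Dd (dl_pos k)))).aestronglyMeasurable
    · refine Filter.Eventually.of_forall fun k => Filter.Eventually.of_forall fun t _ => ?_
      have e1 : |(mbar m - m t) * Phid (dl k) t| ≤ 2 * B * (1 * CC) := by
        rw [abs_mul]
        exact mul_le_mul (h.abs_deriv_le t) (Phid_bound (dl_pos k) (dl_le k) t) (abs_nonneg _)
          (by positivity)
      have e2 := h.Ad_bound (dl_pos k) t
      have e3 : |Dd m (dl k) t| ≤ 2 * B * CC :=
        weighted_bound h.cont' h.abs_deriv_le (dl_pos k) (dl_le k) t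
      rw [Real.norm_eq_abs]
      refine le_trans (abs_add_le _ _) (add_le_add e1 (le_trans (abs_add_le _ _) (add_le_add e2 e3)))
    · exact intervalIntegrable_const
    · refine Filter.Eventually.of_forall fun t _ => ?_
      have e1 := Phid_tendsto t
      rw [hmean] at e1
      exact (e1.const_mul _).add ((h.Ad_tendsto t).add
        (weighted_tendsto h.cont' h.abs_deriv_le t))
  have h3 : (fun k => gam m b * Phid (dl k) b - gam m a * Phid (dl k) a)
      = fun k => ∫ t in a..b, ((mbar m - m t) * Phid (dl k) t + (Ad m (dl k) t + Dd m (dl k) t)) := by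
    funext k
    exact h.key2 (dl_pos k) a b
  rw [h3] at h1
  have h4 := tendsto_nhds_unique h2 h1
  simpa using h4

/-! ### continuity of the limits -/

lemma Adm.cont_A0 (h : Adm m B) : Continuous (A0 m) := by
  rw [continuous_iff_continuousAt]
  intro t₀
  unfold A0
  apply intervalIntegral.continuousAt_of_dominated_interval (bound := fun _ => 6 * B)
  · refine Filter.Eventually.of_forall fun t => ?_
    have h1 : Measurable fun s => KK m t s := by
      unfold KK
      have e1 := cont_zeta.measurable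
      have e2 := h.cont_gg.measurable
      fun_prop
    exact h1.aestronglyMeasurable
  · exact Filter.Eventually.of_forall fun t => Filter.Eventually.of_forall fun s _ => h.abs_KK_le t s
  · exact intervalIntegrable_const
  · filter_upwards [ae_ne_interval (zeta t₀) 0 (2 * π)] with s hs hs2
    have hne := hs hs2
    unfold KK
    have e1 := cont_zeta.continuousAt (x := t₀)
    have e2 := h.cont_gg.continuousAt (x := t₀)
    have e3 : ContinuousAt (fun t => (gg m t - gg m s) / (zeta t - zeta s)) t₀ :=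
      (e2.sub continuousAt_const).div (e1.sub continuousAt_const) (sub_ne_zero.2 hne)
    exact Complex.continuous_re.continuousAt.comp e3

lemma weighted_cont {q : ℝ → ℝ} {Q : ℝ} (hq : Continuous q) (hQ : ∀ s, |q s| ≤ Q)
    (hper : ∀ s, q (s + 2 * π) = q s) :
    Continuous fun t => ∫ s in (0:ℝ)..(2 * π), q s * LL t s := by
  have hp := pi_pos
  have hQ0 : 0 ≤ Q := le_trans (abs_nonneg _) (hQ 0)
  have e : (fun t => ∫ s in (0:ℝ)..(2 * π), q s * LL t s)
      = fun t => ∫ v in (-π)..π, q (t + v) * LL t (t + v) := by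
    funext t
    have hP : Function.Periodic (fun s => q s * LL t s) (2 * π) := fun s => by
      simp only [hper, LL_per]
    have h1 := hP.intervalIntegral_add_eq 0 (t - π)
    rw [zero_add] at h1
    rw [h1]
    have h2 := intervalIntegral.integral_comp_add_left (a := -π) (b := π) (fun s => q s * LL t s) t
    rw [h2]
    congr 1 <;> ring
  rw [e]
  apply intervalIntegral.continuous_of_dominated_interval
    (bound := fun v => Q * (3 + (3 / 2) * |Real.log v|))
  · intro t
    have h1 : Measurable fun v => LL t (t + v) := (measurable_LL t).comp (measurable_const_add t)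
    exact ((hq.comp (continuous_const.add continuous_id)).measurable.mul h1).aestronglyMeasurable
  · intro t
    refine Filter.Eventually.of_forall fun v hv => ?_
    rw [uIoc_of_le (by linarith)] at hv
    rw [norm_mul]
    have h1 : |t - (t + v)| ≤ π := by
      rw [show t - (t + v) = -v by ring, abs_neg, abs_le]
      exact ⟨by linarith [hv.1], hv.2⟩
    have h2 := LL_bound h1
    rw [show t - (t + v) = -v by ring, Real.log_neg_eq_log] at h2
    exact mul_le_mul (hQ _) h2 (norm_nonneg _) hQ0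
  · apply IntervalIntegrable.const_mul
    exact intervalIntegrable_const.add ((intervalIntegral.intervalIntegrable_log').abs.const_mul _)
  · have h0 : ∀ᵐ v ∂(volume : Measure ℝ), v ≠ 0 := by
      rw [ae_iff]; simp
    filter_upwards [h0] with v hv hv2
    rw [uIoc_of_le (by linarith)] at hv2
    refine (hq.comp (continuous_id.add continuous_const)).mul ?_
    unfold LL
    apply Continuous.log
    · have := cont_zeta
      fun_prop
    · intro t
      rw [norm_ne_zero_iff, sub_ne_zero]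
      rcases lt_or_gt_of_ne hv with h1 | h1
      · exact zeta_ne (by linarith) (by linarith [hv2.1])
      · exact (zeta_ne (by linarith) (by linarith [hv2.2])).symm

lemma Adm.m_two_pi (h : Adm m B) (t : ℝ) : m (t + 2 * π) = m t := by
  have e : t + 2 * π = t + π / 2 + π / 2 + π / 2 + π / 2 := by ring
  rw [e, h.per, h.per, h.per, h.per]

lemma Adm.cont_D0 (h : Adm m B) : Continuous (D0 m) :=
  weighted_cont h.cont' h.abs_deriv_le (fun s => by rw [h.m_two_pi])

/-- the pointwise identity -/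
theorem Adm.identity (h : Adm m B) (hmean : ∀ t, ∫ s in (0:ℝ)..(2 * π), LL t s = 0) (t : ℝ) :
    ∫ s in (0:ℝ)..(2 * π), KK m t s = ∫ s in (0:ℝ)..(2 * π), m s * LL t s := by
  have hc : Continuous fun t => A0 m t + D0 m t := h.cont_A0.add h.cont_D0
  have h0 : A0 m t + D0 m t = 0 := by
    have h1 : HasDerivAt (fun b => ∫ u in t..b, (A0 m u + D0 m u)) (A0 m t + D0 m t) t :=
      intervalIntegral.integral_hasDerivAt_right (hc.intervalIntegrable _ _)
        (hc.stronglyMeasurableAtFilter _ _) hc.continuousAt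
    have h2 : (fun b => ∫ u in t..b, (A0 m u + D0 m u)) = fun _ => 0 := by
      funext b
      exact h.int_zero hmean t b
    rw [h2] at h1
    exact h1.unique (hasDerivAt_const t 0)
  have h3 : D0 m t = -∫ s in (0:ℝ)..(2 * π), m s * LL t s := by
    unfold D0
    have e : (fun s => (mbar m - m s) * LL t s) = fun s => mbar m * LL t s - m s * LL t s := by
      funext s; ring
    rw [e, intervalIntegral.integral_sub, intervalIntegral.integral_const_mul, hmean, mul_zero,
      zero_sub]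
    · exact (LL_intervalIntegrable t _ _).const_mul _
    · exact (LL_intervalIntegrable t _ _).continuousOn_mul h.cont.continuousOn
  unfold A0 at h0
  linarith

end Pool.Agent.Work.MP_82f4f8_an

end
end

section

/-!
Local estimates for Fekete tuples: the Fekete inequality through the Poisson representation, and the
bound for the number of points near a corner.
-/

set_option autoImplicit false

noncomputable section

namespace Pool.Agent.Work.MP_82f4f8_an

open Real MeasureTheory Set Filter Topology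

lemma I_zpow_ne (k : ℤ) : Complex.I ^ k ≠ 0 := zpow_ne_zero _ Complex.I_ne_zero

lemma rot_back (k : ℤ) (z : ℂ) : Complex.I ^ k * (Complex.I ^ (-k) * z) = z := by
  rw [← mul_assoc, ← zpow_add₀ Complex.I_ne_zero, add_neg_cancel, zpow_zero, one_mul]

/-- normal form of a point of the square -/
lemma zeta_form (t : ℝ) : zeta t = Complex.I ^ (sideIdx t) *
    ((aa : ℂ) + Complex.I * ((YY (t - (sideIdx t) * (π / 2)) : ℝ) : ℂ)) := rfl

lemma abs_tau_le (t : ℝ) : |t - sideIdx t * (π / 2)| ≤ π / 4 := by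
  have h := sideIdx_spec t
  exact abs_le.2 ⟨h.1, by linarith [h.2]⟩

lemma out_form (t r : ℝ) : zeta t + (r : ℂ) * nu t = Complex.I ^ (sideIdx t) *
    (((aa + r : ℝ) : ℂ) + Complex.I * ((YY (t - (sideIdx t) * (π / 2)) : ℝ) : ℂ)) := by
  rw [zeta_form, nu]
  push_cast
  ring

/-- moving out along the normal increases the distances to the points of the square -/
lemma out_sq (t s : ℝ) {r : ℝ} (hr : 0 ≤ r) :
    ‖zeta t - zeta s‖ ^ 2 + r ^ 2 ≤ ‖zeta t + (r : ℂ) * nu t - zeta s‖ ^ 2 := by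
  set k := sideIdx t with hk
  set y := YY (t - k * (π / 2)) with hy
  set w := Complex.I ^ (-k) * zeta s with hw
  have hwG : max |w.re| |w.im| = aa := by
    rw [hw, I_zpow_mul_gam]; exact zeta_mem s
  have hwre : w.re ≤ aa := by
    have := le_max_left |w.re| |w.im|
    rw [hwG] at this
    exact le_trans (le_abs_self _) this
  have e1 : zeta t - zeta s = Complex.I ^ k * (((aa : ℂ) + Complex.I * (y : ℂ)) - w) := by
    rw [mul_sub, hw, rot_back, zeta_form]
  have e2 : zeta t + (r : ℂ) * nu t - zeta s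
      = Complex.I ^ k * ((((aa + r : ℝ) : ℂ) + Complex.I * (y : ℂ)) - w) := by
    rw [mul_sub, hw, rot_back, out_form]
  rw [e1, e2, norm_I_zpow_mul, norm_I_zpow_mul, ← Complex.normSq_eq_norm_sq,
    ← Complex.normSq_eq_norm_sq, Complex.normSq_apply, Complex.normSq_apply]
  simp only [Complex.sub_re, Complex.add_re, Complex.ofReal_re, Complex.mul_re, Complex.I_re,
    Complex.I_im, Complex.ofReal_im, Complex.sub_im, Complex.add_im, Complex.mul_im]
  nlinarith [mul_nonneg hr (sub_nonneg.2 hwre)]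

lemma out_ext (t : ℝ) {r : ℝ} (hr : 0 < r) :
    aa < max |(zeta t + (r : ℂ) * nu t).re| |(zeta t + (r : ℂ) * nu t).im| := by
  rw [out_form, I_zpow_mul_gam]
  refine lt_of_lt_of_le ?_ (le_max_left _ _)
  have h : (((aa + r : ℝ) : ℂ) + Complex.I * ((YY (t - (sideIdx t) * (π / 2)) : ℝ) : ℂ)).re
      = aa + r := by simp
  rw [h]
  exact lt_of_lt_of_le (by linarith) (le_abs_self _)

lemma UU_rot (z : ℂ) : UU (Complex.I * z) = UU z := by
  unfold UU
  congr 1
  have hP := periodic_pot z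
  have h1 := hP.intervalIntegral_add_eq (-(π / 2)) 0
  rw [zero_add] at h1
  rw [← h1]
  have h2 := intervalIntegral.integral_comp_sub_right (a := 0) (b := 2 * π)
    (fun s => Real.log ‖z - zeta s‖) (π / 2)
  rw [zero_sub, show 2 * π - π / 2 = -(π / 2) + 2 * π by ring] at h2
  rw [← h2]
  apply intervalIntegral.integral_congr
  intro s _
  have e : zeta s = Complex.I * zeta (s - π / 2) := by
    rw [← zeta_add]; congr 1; ring
  simp only
  rw [e, ← mul_sub, norm_mul, Complex.norm_I, one_mul]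

lemma UU_rot_int (k : ℤ) (z : ℂ) : UU (Complex.I ^ k * z) = UU z := by
  induction k using Int.induction_on with
  | zero => simp
  | succ i ih => rw [zpow_add_one₀ Complex.I_ne_zero, mul_comm (Complex.I ^ (i : ℤ)), mul_assoc,
      UU_rot, ih]
  | pred i ih =>
    have e : Complex.I ^ (-(i : ℤ)) * z = Complex.I * (Complex.I ^ (-(i : ℤ) - 1) * z) := by
      rw [← mul_assoc, ← zpow_one_add₀ Complex.I_ne_zero]
      congr 2
      ring
    rw [e, UU_rot] at ih
    exact ih

/-- growth of the potential along the outer normals -/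
lemma UU_out (H : PsiFacts) : ∃ C : ℝ, 0 < C ∧ ∀ r : ℝ, 0 < r → r ≤ 2 → ∀ t : ℝ,
    UU (zeta t + (r : ℂ) * nu t) ≤ C * r * (rho t + r) ^ (-(1 / 3) : ℝ) := by
  obtain ⟨C, hC, h⟩ := UU_bound H (fun w hw => UU_psi H hw)
  refine ⟨C, hC, fun r hr hr2 t => ?_⟩
  rw [out_form, UU_rot_int]
  exact h r hr hr2 _ (abs_tau_le t)

lemma rho_nonneg (t : ℝ) : 0 ≤ rho t := by
  have := abs_YY_le (abs_tau_le t)
  unfold rho
  linarith

lemma int_log_le (H : PsiFacts) (t : ℝ) {r : ℝ} (hr : 0 < r) :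
    ∫ s, Real.log (1 + r ^ 2 / ‖zeta t - zeta s‖ ^ 2) ∂mu ≤ 2 * UU (zeta t + (r : ℂ) * nu t) := by
  have hi1 := (integrable_pot (zeta t + (r : ℂ) * nu t)).const_mul 2
  have hi2 := (integrable_LL t).const_mul 2
  have e : 2 * UU (zeta t + (r : ℂ) * nu t)
      = ∫ s, (2 * Real.log ‖zeta t + (r : ℂ) * nu t - zeta s‖ - 2 * LL t s) ∂mu := by
    rw [integral_sub hi1 hi2, integral_const_mul, integral_const_mul, ← UU_eq, integral_mu,
      LL_mean H]
    ring
  rw [e]
  apply integral_mono_of_nonneg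
  · refine Filter.Eventually.of_forall fun s => ?_
    apply Real.log_nonneg
    have : 0 ≤ r ^ 2 / ‖zeta t - zeta s‖ ^ 2 := by positivity
    linarith
  · exact hi1.sub hi2
  · filter_upwards [ae_ne_mu (zeta t)] with s hs
    have hN := norm_pos_iff.2 (sub_ne_zero.2 hs)
    have h1 := out_sq t s hr.le
    have h2 : 1 + r ^ 2 / ‖zeta t - zeta s‖ ^ 2
        ≤ ‖zeta t + (r : ℂ) * nu t - zeta s‖ ^ 2 / ‖zeta t - zeta s‖ ^ 2 := by
      rw [le_div_iff₀ (by positivity)]
      field_simp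
      linarith
    have hN2 : 0 < ‖zeta t + (r : ℂ) * nu t - zeta s‖ := by
      by_contra hcon
      have h0 : ‖zeta t + (r : ℂ) * nu t - zeta s‖ = 0 :=
        le_antisymm (not_lt.1 hcon) (norm_nonneg _)
      rw [h0] at h1
      nlinarith [sq_nonneg ‖zeta t - zeta s‖, pow_pos hr 2]
    refine le_trans (Real.log_le_log (by positivity) h2) ?_
    rw [Real.log_div (by positivity) (by positivity), Real.log_pow, Real.log_pow]
    unfold LL
    push_cast
    linarith

lemma ae_ne_all (z : ℂ) : ∀ᵐ s ∂(volume : Measure ℝ), z ≠ zeta s := by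
  have h : ∀ k : ℕ, ∀ᵐ s ∂(volume : Measure ℝ), s ∈ uIoc (-(k : ℝ)) k → z ≠ zeta s :=
    fun k => ae_ne_interval z _ _
  filter_upwards [ae_all_iff.2 h] with s hs
  obtain ⟨k, hk⟩ := exists_nat_gt |s|
  apply hs k
  rw [uIoc_of_le (by linarith [Nat.cast_nonneg (α := ℝ) k])]
  exact ⟨(abs_lt.1 hk).1, (abs_lt.1 hk).2.le⟩

/-- the Fekete inequality -/
lemma fek_ineq (H : PsiFacts) {n : ℕ} {p : Fin n → ℂ} (hp : IsFekP n p) (j : Fin n) {t : ℝ}
    (ht : p j = zeta t) {r : ℝ} (hr : 0 < r) :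
    ∑ k ∈ Finset.univ.erase j, (1 / 2) * Real.log (1 + r ^ 2 / ‖p j - p k‖ ^ 2)
      ≤ ((n : ℝ) - 1) * UU (zeta t + (r : ℂ) * nu t) := by
  have hpi := pi_pos
  set z := zeta t + (r : ℂ) * nu t with hz
  obtain ⟨w, hw, hwz⟩ := H.surj z (out_ext t hr)
  obtain ⟨ρ, hρc, hρb, hρ1, hρ⟩ := exterior_rep H hw
  have hU : UU z = Real.log ‖w‖ := by rw [← hwz]; exact UU_psi H hw
  choose τ hτ using fun k => zeta_surj (hp.mem k)
  set S := ∑ k ∈ Finset.univ.erase j, Real.log ‖p j - p k‖ with hS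
  have hrep : ∀ k, Real.log ‖p k - z‖ = Real.log ‖w‖ + ∫ s in (0:ℝ)..(2 * π), ρ s * LL (τ k) s := by
    intro k
    rw [hρ, hwz, hτ]
    ring
  have hint : ∀ k, IntervalIntegrable (fun s => ρ s * LL (τ k) s) volume 0 (2 * π) := fun k =>
    (LL_intervalIntegrable (τ k) _ _).continuousOn_mul hρc.continuousOn
  have hsum : ∑ k ∈ Finset.univ.erase j, Real.log ‖p k - z‖
      ≤ ((n : ℝ) - 1) * Real.log ‖w‖ + S := by
    have e1 : ∑ k ∈ Finset.univ.erase j, Real.log ‖p k - z‖
        = ((n : ℝ) - 1) * Real.log ‖w‖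
          + ∫ s in (0:ℝ)..(2 * π), ∑ k ∈ Finset.univ.erase j, ρ s * LL (τ k) s := by
      rw [intervalIntegral.integral_finsetSum (fun k _ => hint k)]
      rw [Finset.sum_congr rfl fun k _ => hrep k, Finset.sum_add_distrib, Finset.sum_const,
        Finset.card_erase_of_mem (Finset.mem_univ j), Finset.card_univ, Fintype.card_fin,
        nsmul_eq_mul, Nat.cast_sub (Nat.one_le_iff_ne_zero.2 (fun h0 => by
          subst h0; exact j.elim0))]
      simp
    rw [e1]
    have h2 : ∫ s in (0:ℝ)..(2 * π), ∑ k ∈ Finset.univ.erase j, ρ s * LL (τ k) s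
        ≤ ∫ s in (0:ℝ)..(2 * π), ρ s * S := by
      apply intervalIntegral.integral_mono_ae_restrict (by positivity)
      · have e3 : (fun s => ∑ k ∈ Finset.univ.erase j, ρ s * LL (τ k) s)
            = ∑ k ∈ Finset.univ.erase j, fun s => ρ s * LL (τ k) s := by
          funext s
          simp
        rw [e3]
        exact IntervalIntegrable.sum (Finset.univ.erase j) (fun k _ => hint k)
      · exact (hρc.mul continuous_const).intervalIntegrable _ _
      · rw [Filter.EventuallyLE, ae_restrict_iff' measurableSet_Icc]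
        have h4 : ∀ k, ∀ᵐ s ∂(volume : Measure ℝ), p k ≠ zeta s := fun k => ae_ne_all (p k)
        filter_upwards [ae_all_iff.2 h4] with s hs _
        rw [← Finset.mul_sum]
        apply mul_le_mul_of_nonneg_left _ (hρb s).1
        have h5 := hp.pointwise j (zeta_mem s) (fun k _ => (hs k).symm)
        refine le_trans (le_of_eq ?_) h5
        refine Finset.sum_congr rfl fun k _ => ?_
        rw [LL, hτ, norm_sub_rev]
    rw [intervalIntegral.integral_mul_const, hρ1, one_mul] at h2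
    linarith
  have hterm : ∀ k ∈ Finset.univ.erase j, (1 / 2) * Real.log (1 + r ^ 2 / ‖p j - p k‖ ^ 2)
      ≤ Real.log ‖p k - z‖ - Real.log ‖p j - p k‖ := by
    intro k hk
    have hne : p j ≠ p k := fun h => (Finset.ne_of_mem_erase hk) (hp.injective h.symm)
    have hN := norm_pos_iff.2 (sub_ne_zero.2 hne)
    have h1 := out_sq t (τ k) hr.le
    rw [← hz, ← ht, hτ] at h1
    have h2 : 1 + r ^ 2 / ‖p j - p k‖ ^ 2 ≤ ‖z - p k‖ ^ 2 / ‖p j - p k‖ ^ 2 := by
      rw [le_div_iff₀ (by positivity)]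
      field_simp
      linarith
    have hN2 : 0 < ‖z - p k‖ := by
      by_contra hcon
      have h0 : ‖z - p k‖ = 0 := le_antisymm (not_lt.1 hcon) (norm_nonneg _)
      rw [h0] at h1
      nlinarith [sq_nonneg ‖p j - p k‖, pow_pos hr 2]
    have h3 := Real.log_le_log (by positivity) h2
    rw [Real.log_div (by positivity) (by positivity), Real.log_pow, Real.log_pow] at h3
    rw [norm_sub_rev (p k) z]
    push_cast at h3
    linarith
  refine le_trans (Finset.sum_le_sum hterm) ?_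
  rw [Finset.sum_sub_distrib, hU]
  linarith

end Pool.Agent.Work.MP_82f4f8_an

end
end

section

/-!
The number of points of a Fekete tuple near a corner, and the bound of the sum of local errors.
-/

set_option autoImplicit false

noncomputable section

namespace Pool.Agent.Work.MP_82f4f8_an

open Real MeasureTheory Set Filter Topology

/-- number of points near a given point -/
lemma count_near (H : PsiFacts) : ∃ C : ℝ, 0 < C ∧ ∀ (n : ℕ) (p : Fin n → ℂ), IsFekP n p →
    ∀ (c : ℂ) (R : ℝ), 0 < R →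
      ((Finset.univ.filter fun k => ‖p k - c‖ ≤ R).card : ℝ) ≤ 1 + C * n * R ^ (2 / 3 : ℝ) := by
  obtain ⟨C, hC, hU⟩ := UU_out H
  have hlog : 0 < Real.log (5 / 4) := Real.log_pos (by norm_num)
  refine ⟨2 * C / Real.log (5 / 4) + 1, by positivity, fun n p hp c R hR => ?_⟩
  set F := Finset.univ.filter fun k => ‖p k - c‖ ≤ R with hF
  have hRp : 0 < R ^ (2 / 3 : ℝ) := Real.rpow_pos_of_pos hR _
  rcases Finset.eq_empty_or_nonempty F with h0 | ⟨j, hj⟩
  · rw [h0, Finset.card_empty]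
    push_cast
    positivity
  rcases le_or_gt R 2 with hR2 | hR2
  · obtain ⟨t, ht⟩ := zeta_surj (hp.mem j)
    have h1 := fek_ineq H hp j ht.symm hR
    have h2 := hU R hR hR2 t
    have hn1 : (1 : ℝ) ≤ n := by
      have : 0 < n := Fin.pos j
      exact_mod_cast this
    have h3 : UU (zeta t + (R : ℂ) * nu t) ≤ C * R ^ (2 / 3 : ℝ) := by
      refine le_trans h2 ?_
      have h4 : (rho t + R) ^ (-(1 / 3) : ℝ) ≤ R ^ (-(1 / 3) : ℝ) :=
        Real.rpow_le_rpow_of_nonpos hR (by linarith [rho_nonneg t]) (by norm_num)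
      have h5 : R * R ^ (-(1 / 3) : ℝ) = R ^ (2 / 3 : ℝ) := by
        nth_rewrite 1 [← Real.rpow_one R]
        rw [← Real.rpow_add hR]
        norm_num
      calc C * R * (rho t + R) ^ (-(1 / 3) : ℝ) ≤ C * R * R ^ (-(1 / 3) : ℝ) :=
            mul_le_mul_of_nonneg_left h4 (by positivity)
        _ = C * R ^ (2 / 3 : ℝ) := by rw [mul_assoc, h5]
    have h6 : ((F.card : ℝ) - 1) * ((1 / 2) * Real.log (5 / 4))
        ≤ ∑ k ∈ Finset.univ.erase j, (1 / 2) * Real.log (1 + R ^ 2 / ‖p j - p k‖ ^ 2) := by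
      have h7 : ∑ k ∈ F.erase j, ((1 / 2) * Real.log (5 / 4) : ℝ)
          ≤ ∑ k ∈ F.erase j, (1 / 2) * Real.log (1 + R ^ 2 / ‖p j - p k‖ ^ 2) := by
        apply Finset.sum_le_sum
        intro k hk
        have hne : p j ≠ p k := fun h => (Finset.ne_of_mem_erase hk) (hp.injective h.symm)
        have hN := norm_pos_iff.2 (sub_ne_zero.2 hne)
        have hkF : ‖p k - c‖ ≤ R := (Finset.mem_filter.1 (Finset.mem_of_mem_erase hk)).2
        have hjF : ‖p j - c‖ ≤ R := (Finset.mem_filter.1 hj).2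
        have hd : ‖p j - p k‖ ≤ 2 * R := by
          have e : p j - p k = (p j - c) - (p k - c) := by ring
          rw [e]
          linarith [norm_sub_le (p j - c) (p k - c)]
        have h8 : (5 / 4 : ℝ) ≤ 1 + R ^ 2 / ‖p j - p k‖ ^ 2 := by
          have h9 : (1 / 4 : ℝ) ≤ R ^ 2 / ‖p j - p k‖ ^ 2 := by
            rw [le_div_iff₀ (by positivity)]
            nlinarith
          linarith
        have := Real.log_le_log (by norm_num) h8
        linarith
      rw [Finset.sum_const, Finset.card_erase_of_mem hj, nsmul_eq_mul,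
        Nat.cast_sub (Finset.card_pos.2 ⟨j, hj⟩)] at h7
      push_cast at h7
      refine le_trans h7 ?_
      apply Finset.sum_le_sum_of_subset_of_nonneg
      · exact Finset.erase_subset_erase j (Finset.subset_univ F)
      · intro k _ _
        have : 0 ≤ R ^ 2 / ‖p j - p k‖ ^ 2 := by positivity
        have := Real.log_nonneg (show (1 : ℝ) ≤ 1 + R ^ 2 / ‖p j - p k‖ ^ 2 by linarith)
        linarith
    have h10 : ((F.card : ℝ) - 1) * ((1 / 2) * Real.log (5 / 4)) ≤ n * (C * R ^ (2 / 3 : ℝ)) := by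
      refine le_trans (le_trans h6 h1) ?_
      have h11 : ((n : ℝ) - 1) * UU (zeta t + (R : ℂ) * nu t)
          ≤ ((n : ℝ) - 1) * (C * R ^ (2 / 3 : ℝ)) := mul_le_mul_of_nonneg_left h3 (by linarith)
      nlinarith [mul_pos hC hRp]
    have h12 : (F.card : ℝ) - 1 ≤ 2 * C / Real.log (5 / 4) * n * R ^ (2 / 3 : ℝ) := by
      rw [show 2 * C / Real.log (5 / 4) * n * R ^ (2 / 3 : ℝ)
        = (n * (C * R ^ (2 / 3 : ℝ))) / ((1 / 2) * Real.log (5 / 4)) by field_simp]
      rw [le_div_iff₀ (by positivity)]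
      exact h10
    nlinarith [mul_pos (lt_of_lt_of_le one_pos hn1) hRp]
  · have h1 : (F.card : ℝ) ≤ n := by
      have := Finset.card_le_univ F
      rw [Fintype.card_fin] at this
      exact_mod_cast this
    have h2 : (1 : ℝ) ≤ R ^ (2 / 3 : ℝ) := Real.one_le_rpow (by linarith) (by norm_num)
    have h3 : (0:ℝ) ≤ n := Nat.cast_nonneg n
    have h4 : (n : ℝ) ≤ (2 * C / Real.log (5 / 4) + 1) * n * R ^ (2 / 3 : ℝ) := by
      have h5 : (n : ℝ) * 1 ≤ n * R ^ (2 / 3 : ℝ) := mul_le_mul_of_nonneg_left h2 h3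
      have h6 : 0 ≤ 2 * C / Real.log (5 / 4) * n * R ^ (2 / 3 : ℝ) := by positivity
      nlinarith
    linarith

/-- a point at distance at most `rho` from a corner -/
lemma near_corner (t : ℝ) : ∃ i ∈ Finset.range 4,
    ‖zeta t - Complex.I ^ (i : ℕ) * ((aa : ℂ) + Complex.I * (aa : ℂ))‖ ≤ rho t := by
  set k := sideIdx t with hk
  set y := YY (t - k * (π / 2)) with hy
  have hya : |y| ≤ aa := abs_YY_le (abs_tau_le t)
  have hred : ∀ m : ℤ, ∃ i ∈ Finset.range 4, Complex.I ^ (i : ℕ) = Complex.I ^ m := by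
    intro m
    refine ⟨(m % 4).toNat, ?_, ?_⟩
    · rw [Finset.mem_range]; omega
    · have h1 : ((m % 4).toNat : ℤ) = m % 4 := Int.toNat_of_nonneg (by omega)
      rw [← zpow_natCast, h1]
      conv_rhs => rw [← Int.emod_add_mul_ediv m 4]
      rw [zpow_add₀ Complex.I_ne_zero, zpow_mul]
      have : Complex.I ^ (4 : ℤ) = 1 := by
        rw [show (4 : ℤ) = ((4 : ℕ) : ℤ) by norm_num, zpow_natCast, Complex.I_pow_four]
      rw [this, one_zpow, mul_one]
  rcases le_total 0 y with h0 | h0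
  · obtain ⟨i, hi, hi2⟩ := hred k
    refine ⟨i, hi, ?_⟩
    rw [hi2, zeta_form, ← hk, ← hy, ← mul_sub, norm_I_zpow_mul]
    have e : (aa : ℂ) + Complex.I * (y : ℂ) - ((aa : ℂ) + Complex.I * (aa : ℂ))
        = Complex.I * (((y - aa : ℝ)) : ℂ) := by push_cast; ring
    rw [e, norm_mul, Complex.norm_I, one_mul, Complex.norm_real, Real.norm_eq_abs, rho, ← hk, ← hy,
      abs_of_nonneg h0]
    rw [abs_of_nonneg h0] at hya
    rw [abs_of_nonpos (by linarith)]
    linarith
  · obtain ⟨i, hi, hi2⟩ := hred (k - 1)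
    refine ⟨i, hi, ?_⟩
    have e0 : Complex.I ^ (k - 1) * ((aa : ℂ) + Complex.I * (aa : ℂ))
        = Complex.I ^ k * ((aa : ℂ) - Complex.I * (aa : ℂ)) := by
      rw [zpow_sub_one₀ Complex.I_ne_zero, Complex.inv_I, mul_assoc]
      congr 1
      have := Complex.I_mul_I
      linear_combination (-(aa : ℂ)) * this
    rw [hi2, e0, zeta_form, ← hk, ← hy, ← mul_sub, norm_I_zpow_mul]
    have e : (aa : ℂ) + Complex.I * (y : ℂ) - ((aa : ℂ) - Complex.I * (aa : ℂ))
        = Complex.I * (((y + aa : ℝ)) : ℂ) := by push_cast; ring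
    rw [e, norm_mul, Complex.norm_I, one_mul, Complex.norm_real, Real.norm_eq_abs, rho, ← hk, ← hy,
      abs_of_nonpos h0]
    rw [abs_of_nonpos h0] at hya
    rw [abs_of_nonneg (by linarith)]
    linarith

/-- number of points with small corner distance -/
lemma count_rho (H : PsiFacts) : ∃ C : ℝ, 0 < C ∧ ∀ (n : ℕ) (t : Fin n → ℝ),
    IsFekP n (fun k => zeta (t k)) → ∀ (R : ℝ), 0 < R →
      ((Finset.univ.filter fun k => rho (t k) ≤ R).card : ℝ) ≤ 4 * (1 + C * n * R ^ (2 / 3 : ℝ)) := by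
  obtain ⟨C, hC, h⟩ := count_near H
  refine ⟨C, hC, fun n t hp R hR => ?_⟩
  have h1 : (Finset.univ.filter fun k => rho (t k) ≤ R) ⊆ (Finset.range 4).biUnion fun i =>
      Finset.univ.filter fun k =>
        ‖zeta (t k) - Complex.I ^ (i : ℕ) * ((aa : ℂ) + Complex.I * (aa : ℂ))‖ ≤ R := by
    intro k hk
    obtain ⟨i, hi, hi2⟩ := near_corner (t k)
    rw [Finset.mem_biUnion]
    refine ⟨i, hi, ?_⟩
    rw [Finset.mem_filter]
    exact ⟨Finset.mem_univ k, le_trans hi2 (Finset.mem_filter.1 hk).2⟩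
  have h2 := le_trans (Finset.card_le_card h1) Finset.card_biUnion_le
  have h3 : ((Finset.univ.filter fun k => rho (t k) ≤ R).card : ℝ)
      ≤ ∑ i ∈ Finset.range 4, (1 + C * n * R ^ (2 / 3 : ℝ)) := by
    refine le_trans (Nat.cast_le.2 h2) ?_
    rw [Nat.cast_sum]
    exact Finset.sum_le_sum fun i _ => h n _ hp _ R hR
  rw [Finset.sum_const, Finset.card_range, nsmul_eq_mul] at h3
  push_cast at h3
  exact h3

lemma sum_inv_sqrt (n : ℕ) : ∑ i ∈ Finset.range n, 1 / Real.sqrt ((i : ℝ) + 1) ≤ 2 * Real.sqrt n := by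
  induction n with
  | zero => simp
  | succ m ih =>
    rw [Finset.sum_range_succ]
    have h1 : 1 / Real.sqrt ((m : ℝ) + 1) ≤ 2 * Real.sqrt ((m : ℝ) + 1) - 2 * Real.sqrt m := by
      have hm : (0:ℝ) ≤ m := Nat.cast_nonneg m
      have hs := Real.sq_sqrt hm
      have hs1 := Real.sq_sqrt (show (0:ℝ) ≤ (m:ℝ) + 1 by linarith)
      have hp : 0 < Real.sqrt ((m : ℝ) + 1) := Real.sqrt_pos.2 (by linarith)
      have hq : 0 ≤ Real.sqrt (m : ℝ) := Real.sqrt_nonneg _
      rw [div_le_iff₀ hp]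
      nlinarith [sq_nonneg (Real.sqrt ((m : ℝ) + 1) - Real.sqrt m)]
    push_cast
    linarith

/-- sums over ranks -/
lemma sum_rank {n : ℕ} (f : Fin n → ℝ) :
    ∑ j, 1 / Real.sqrt (((Finset.univ.filter fun k => f k ≤ f j).card : ℝ)) ≤ 2 * Real.sqrt n := by
  set σ := Tuple.sort f with hσ
  rw [← Equiv.sum_comp σ]
  have h1 : ∀ i : Fin n, 1 / Real.sqrt (((Finset.univ.filter fun k => f k ≤ f (σ i)).card : ℝ))
      ≤ 1 / Real.sqrt (((i : ℕ) : ℝ) + 1) := by
    intro i
    have hsub : (Finset.Iic i).map σ.toEmbedding ⊆ Finset.univ.filter fun k => f k ≤ f (σ i) := by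
      intro k hk
      rw [Finset.mem_map] at hk
      obtain ⟨l, hl, rfl⟩ := hk
      rw [Finset.mem_filter]
      exact ⟨Finset.mem_univ _, Tuple.monotone_sort f (Finset.mem_Iic.1 hl)⟩
    have hcard := Finset.card_le_card hsub
    rw [Finset.card_map, Fin.card_Iic] at hcard
    have h2 : ((i : ℕ) : ℝ) + 1 ≤ ((Finset.univ.filter fun k => f k ≤ f (σ i)).card : ℝ) := by
      exact_mod_cast hcard
    have h3 : (0:ℝ) < ((i : ℕ) : ℝ) + 1 := by positivity
    exact one_div_le_one_div_of_le (Real.sqrt_pos.2 h3) (Real.sqrt_le_sqrt h2)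
  refine le_trans (Finset.sum_le_sum fun i _ => h1 i) ?_
  rw [Fin.sum_univ_eq_sum_range (fun i => 1 / Real.sqrt ((i : ℝ) + 1))]
  exact sum_inv_sqrt n

/-- the total local error is bounded -/
theorem sum_err (H : PsiFacts) : ∃ C : ℝ, 0 < C ∧ ∀ (n : ℕ), 2 ≤ n → ∀ (t : Fin n → ℝ),
    IsFekP n (fun k => zeta (t k)) →
      ∑ j, ∫ s, Real.log (1 + 4 * (1 / (n : ℝ)) ^ 2 / ‖zeta (t j) - zeta s‖ ^ 2) ∂mu ≤ C := by
  obtain ⟨C1, hC1, hU⟩ := UU_out H
  obtain ⟨C2, hC2, hcount⟩ := count_rho H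
  refine ⟨2 * C1 * 2 * (Real.sqrt (4 * (1 + C2)) * 2), by positivity, fun n hn t hp => ?_⟩
  have hn0 : (0:ℝ) < n := by
    have : 0 < n := by omega
    exact_mod_cast this
  have hn2 : (2:ℝ) ≤ n := by exact_mod_cast hn
  set r : ℝ := 2 / n with hr
  have hr0 : 0 < r := by positivity
  have hr1 : r ≤ 1 := by rw [hr, div_le_one hn0]; exact hn2
  have hterm : ∀ j, ∫ s, Real.log (1 + 4 * (1 / (n : ℝ)) ^ 2 / ‖zeta (t j) - zeta s‖ ^ 2) ∂mu
      ≤ 2 * C1 * r * (Real.sqrt (4 * (1 + C2) * n) *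
        (1 / Real.sqrt (((Finset.univ.filter fun k => rho (t k) ≤ rho (t j)).card : ℝ)))) := by
    intro j
    have h1 := int_log_le H (t j) hr0
    have e1 : (4 : ℝ) * (1 / (n : ℝ)) ^ 2 = r ^ 2 := by rw [hr]; field_simp; norm_num
    rw [e1]
    refine le_trans h1 ?_
    have h2 := hU r hr0 (by linarith) (t j)
    set R := rho (t j) + r with hR
    have hR0 : 0 < R := by have := rho_nonneg (t j); linarith
    set M : ℝ := ((Finset.univ.filter fun k => rho (t k) ≤ rho (t j)).card : ℝ) with hM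
    have hM1 : 1 ≤ M := by
      have : 0 < (Finset.univ.filter fun k => rho (t k) ≤ rho (t j)).card :=
        Finset.card_pos.2 ⟨j, by simp⟩
      rw [hM]
      exact_mod_cast this
    have hMle : M ≤ 4 * (1 + C2 * n * R ^ (2 / 3 : ℝ)) := by
      refine le_trans ?_ (hcount n t hp R hR0)
      rw [hM]
      apply Nat.cast_le.2
      apply Finset.card_le_card
      intro k hk
      rw [Finset.mem_filter] at hk ⊢
      exact ⟨hk.1, by linarith [hk.2]⟩
    have hnR : 1 ≤ n * R ^ (2 / 3 : ℝ) := by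
      have h3 : r ^ (2 / 3 : ℝ) ≤ R ^ (2 / 3 : ℝ) :=
        Real.rpow_le_rpow hr0.le (by have := rho_nonneg (t j); linarith) (by norm_num)
      have h4 : r ≤ r ^ (2 / 3 : ℝ) := by
        nth_rewrite 1 [← Real.rpow_one r]
        exact Real.rpow_le_rpow_of_exponent_ge hr0 hr1 (by norm_num)
      have h5 : n * r = 2 := by rw [hr]; field_simp
      have h6 : n * r ≤ n * R ^ (2 / 3 : ℝ) := mul_le_mul_of_nonneg_left (le_trans h4 h3) hn0.le
      linarith
    have hM2 : M ≤ 4 * (1 + C2) * n * R ^ (2 / 3 : ℝ) := by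
      nlinarith
    have hkey : R ^ (-(1 / 3) : ℝ) ≤ Real.sqrt (4 * (1 + C2) * n) * (1 / Real.sqrt M) := by
      have e2 : R ^ (2 / 3 : ℝ) = (R ^ (1 / 3 : ℝ)) ^ 2 := by
        rw [← Real.rpow_natCast, ← Real.rpow_mul hR0.le]
        norm_num
      have hq : 0 < R ^ (1 / 3 : ℝ) := Real.rpow_pos_of_pos hR0 _
      have e3 : Real.sqrt M ≤ Real.sqrt (4 * (1 + C2) * n) * R ^ (1 / 3 : ℝ) := by
        rw [e2] at hM2
        refine le_trans (Real.sqrt_le_sqrt hM2) ?_
        rw [Real.sqrt_mul (by positivity), Real.sqrt_sq hq.le]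
      rw [Real.rpow_neg hR0.le, mul_one_div, le_div_iff₀ (Real.sqrt_pos.2 (by linarith)),
        inv_mul_le_iff₀ hq]
      linarith
    calc 2 * UU (zeta (t j) + (r : ℂ) * nu (t j)) ≤ 2 * (C1 * r * R ^ (-(1 / 3) : ℝ)) := by
          linarith
      _ = 2 * C1 * r * R ^ (-(1 / 3) : ℝ) := by ring
      _ ≤ _ := mul_le_mul_of_nonneg_left hkey (by positivity)
  refine le_trans (Finset.sum_le_sum fun j _ => hterm j) ?_
  rw [← Finset.mul_sum, ← Finset.mul_sum]
  have h7 := sum_rank (fun j => rho (t j))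
  have h8 : Real.sqrt (4 * (1 + C2) * n) = Real.sqrt (4 * (1 + C2)) * Real.sqrt n :=
    Real.sqrt_mul (by positivity) _
  have h9 : Real.sqrt n * Real.sqrt n = n := Real.mul_self_sqrt hn0.le
  calc 2 * C1 * r * (Real.sqrt (4 * (1 + C2) * n) * ∑ j,
        1 / Real.sqrt (((Finset.univ.filter fun k => rho (t k) ≤ rho (t j)).card : ℝ)))
      ≤ 2 * C1 * r * (Real.sqrt (4 * (1 + C2) * n) * (2 * Real.sqrt n)) := by
        apply mul_le_mul_of_nonneg_left _ (by positivity)
        exact mul_le_mul_of_nonneg_left h7 (Real.sqrt_nonneg _)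
    _ = 2 * C1 * (r * n) * (Real.sqrt (4 * (1 + C2)) * 2) := by
        rw [h8]
        calc _ = 2 * C1 * r * (Real.sqrt (4 * (1 + C2)) * 2) * (Real.sqrt n * Real.sqrt n) := by ring
          _ = _ := by rw [h9]; ring
    _ = 2 * C1 * 2 * (Real.sqrt (4 * (1 + C2)) * 2) := by
        have : r * n = 2 := by rw [hr]; field_simp
        rw [this]
    _ ≤ _ := le_refl _

end Pool.Agent.Work.MP_82f4f8_an

end
end

section

/-!
The bound of the linear functional: for continuous `π/2`-periodic `m` with `|m| ≤ 1`,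
`|∫ m(s) ∑_j log ‖ζ(t_j) - ζ(s)‖ ds| ≤ C` for all Fekete tuples.
-/

set_option autoImplicit false

noncomputable section

namespace Pool.Agent.Work.MP_82f4f8_an

open Real MeasureTheory Set Filter Topology

variable {m : ℝ → ℝ} {B : ℝ}

lemma Adm.gg_bdd (h : Adm m B) : ∃ R, ∀ s, ‖gg m s‖ ≤ R := by
  refine ⟨6 * B * (4 * aa), fun s => ?_⟩
  have h1 := h.gg_lip (π / 4) s
  have h0 : gg m (π / 4) = 0 := by simp [gg, gam_corner]
  rw [h0, sub_zero] at h1
  refine le_trans h1 (mul_le_mul_of_nonneg_left ?_ (by have := h.nonneg; positivity))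
  have h2 := norm_sub_le (zeta s) (zeta (π / 4))
  linarith [norm_zeta_le s, norm_zeta_le (π / 4)]

/-- the virial sum vanishes -/
lemma virial {n : ℕ} {t : Fin n → ℝ} (hp : IsFekP n (fun k => zeta (t k))) (m : ℝ → ℝ) :
    ∑ j, ∑ k, ((gg m (t j) - gg m (t k)) / (zeta (t j) - zeta (t k))).re = 0 := by
  have e1 : ∀ j k, ((gg m (t j) - gg m (t k)) / (zeta (t j) - zeta (t k))).re
      = (gg m (t j) / (zeta (t j) - zeta (t k))).re
        + (gg m (t k) / (zeta (t k) - zeta (t j))).re := by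
    intro j k
    rw [sub_div, Complex.sub_re, ← neg_sub (zeta (t j)) (zeta (t k)), div_neg, Complex.neg_re]
    ring
  have e2 : ∀ j, ∑ k, (gg m (t j) / (zeta (t j) - zeta (t k))).re = 0 := by
    intro j
    rw [← Finset.sum_erase_add _ _ (Finset.mem_univ j), sub_self, div_zero, Complex.zero_re, add_zero]
    have h := hp.stationary j (t := t j) rfl
    rw [Complex.re_sum] at h
    have e3 : ∀ k, (gg m (t j) / (zeta (t j) - zeta (t k))).re
        = gam m (t j) * (zeta' (t j) / (zeta (t j) - zeta (t k))).re := by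
      intro k
      rw [gg, mul_div_assoc, Complex.re_ofReal_mul]
    rw [Finset.sum_congr rfl fun k _ => e3 k, ← Finset.mul_sum, h, mul_zero]
  simp only [e1, Finset.sum_add_distrib]
  rw [Finset.sum_comm (f := fun j k => (gg m (t k) / (zeta (t k) - zeta (t j))).re)]
  rw [Finset.sum_congr rfl fun j _ => e2 j]
  simp

lemma mean_mu (H : PsiFacts) (t : ℝ) : ∫ s, LL t s ∂mu = 0 := by
  rw [integral_mu, LL_mean H, mul_zero]

lemma Adm.int_KK_mu (H : PsiFacts) (h : Adm m B) (t : ℝ) :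
    ∫ s, ((gg m t - gg m s) / (zeta t - zeta s)).re ∂mu = ∫ s, m s * LL t s ∂mu := by
  have h1 := h.identity (fun t => LL_mean H t) t
  rw [integral_mu, integral_mu, ← h1]
  rfl

lemma Adm.int_int (H : PsiFacts) (h : Adm m B) :
    ∫ t, ∫ s, ((gg m t - gg m s) / (zeta t - zeta s)).re ∂mu ∂mu = 0 := by
  simp only [h.int_KK_mu H]
  have hint : Integrable (Function.uncurry fun t s : ℝ => m s * LL t s) (mu.prod mu) := by
    have h1 := integrable_LL2.bdd_mul (c := B) (f := fun p : ℝ × ℝ => m p.2)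
      (h.cont.comp continuous_snd).aestronglyMeasurable
      (Filter.Eventually.of_forall fun p => by rw [Real.norm_eq_abs]; exact h.bound _)
    exact h1
  rw [integral_integral_swap hint]
  have h2 : ∀ s, ∫ t, m s * LL t s ∂mu = 0 := by
    intro s
    rw [integral_const_mul]
    have : (fun t => LL t s) = LL s := by funext t; exact LL_symm t s
    rw [this, mean_mu H, mul_zero]
  simp [h2]

theorem functional_bound (H : PsiFacts) : ∃ C : ℝ, 0 < C ∧ ∀ (n : ℕ), 2 ≤ n → ∀ (t : Fin n → ℝ),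
    IsFekP n (fun k => zeta (t k)) → ∀ m : ℝ → ℝ, Adm m 1 →
      |∫ s in (0:ℝ)..(2 * π), m s * ∑ j, LL (t j) s| ≤ C := by
  have hpi := pi_pos
  obtain ⟨C, hC, hsum⟩ := sum_err H
  refine ⟨24 * π * C, by positivity, fun n hn t hp m h => ?_⟩
  have hn0 : (0:ℝ) < n := by
    have : 0 < n := by omega
    exact_mod_cast this
  have hharn := harnack_energy mu (fun j => zeta (t j)) (fun j => gg m (t j)) zeta (gg m)
    cont_zeta.measurable h.cont_gg.measurable ⟨2 * aa, norm_zeta_le⟩ h.gg_bdd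
    (Λ := 6) (by norm_num)
    (fun j k => by have := h.gg_lip (t k) (t j); rwa [mul_one] at this)
    (fun j s => by have := h.gg_lip s (t j); rwa [mul_one] at this)
    (fun s s' => by have := h.gg_lip s' s; rwa [mul_one] at this)
    hp.injective (fun j => ae_ne_mu _) ae_ne_mu2 (fun j => integrable_pot _) integrable_LL2
    (δ := 1 / (n : ℝ)) (by positivity)
  rw [virial hp m, h.int_int H] at hharn
  simp only [h.int_KK_mu H] at hharn
  have e1 : ∀ j, ∫ s, Real.log ‖zeta (t j) - zeta s‖ ∂mu = 0 := fun j => mean_mu H (t j)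
  have e2 : ∫ s, ∫ s', Real.log ‖zeta s - zeta s'‖ ∂mu ∂mu = 0 := by
    have : ∀ s, ∫ s', Real.log ‖zeta s - zeta s'‖ ∂mu = 0 := fun s => mean_mu H s
    simp [this]
  rw [e2] at hharn
  simp only [e1] at hharn
  have hE := hp.energy_ge hn (fun τ h0 h1 => LL_diag_mean H h0 h1)
  have hS := hsum n hn t hp
  have e3 : Real.log (1 / (1 / (n : ℝ))) = Real.log n := by rw [one_div_one_div]
  rw [e3] at hharn
  have e4 : ∑ j, ∫ s, m s * LL (t j) s ∂mu
      = (1 / (2 * π)) * ∫ s in (0:ℝ)..(2 * π), m s * ∑ j, LL (t j) s := by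
    have e5 : ∀ j, ∫ s, m s * LL (t j) s ∂mu
        = (1 / (2 * π)) * ∫ s in (0:ℝ)..(2 * π), m s * LL (t j) s := fun j => integral_mu _
    rw [Finset.sum_congr rfl fun j _ => e5 j, ← Finset.mul_sum,
      ← intervalIntegral.integral_finsetSum (fun j _ =>
        (LL_intervalIntegrable (t j) _ _).continuousOn_mul h.cont.continuousOn)]
    simp only [Finset.mul_sum]
  rw [e4] at hharn
  set J := ∫ s in (0:ℝ)..(2 * π), m s * ∑ j, LL (t j) s with hJ
  have h1 : |0 - 2 * (n : ℝ) * (1 / (2 * π) * J) + (n : ℝ) ^ 2 * 0| = (n / π) * |J| := by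
    rw [show 0 - 2 * (n : ℝ) * (1 / (2 * π) * J) + (n : ℝ) ^ 2 * 0 = -((n / π) * J) by
      field_simp; ring, abs_neg, abs_mul, abs_of_pos (by positivity)]
  rw [h1] at hharn
  have h2 : (n / π) * |J| ≤ 24 * (n * C) := by
    refine le_trans hharn ?_
    simp only [Finset.sum_const_zero, mul_zero, add_zero, sub_zero]
    have h3 : (n : ℝ) * ∑ j, ∫ s, Real.log (1 + 4 * (1 / (n : ℝ)) ^ 2 /
        ‖zeta (t j) - zeta s‖ ^ 2) ∂mu ≤ n * C := mul_le_mul_of_nonneg_left hS hn0.le
    nlinarith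
  have h4 : |J| = (π / n) * ((n / π) * |J|) := by field_simp
  rw [h4]
  calc (π / n) * ((n / π) * |J|) ≤ (π / n) * (24 * (n * C)) :=
        mul_le_mul_of_nonneg_left h2 (by positivity)
    _ = 24 * π * C := by field_simp

end Pool.Agent.Work.MP_82f4f8_an

end
end

section

/-!
The `L¹` bound of the symmetrised sum.
-/

set_option autoImplicit false

noncomputable section

namespace Pool.Agent.Work.MP_82f4f8_an

open Real MeasureTheory Set Filter Topology

/-- the sum over the points -/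
def su {n : ℕ} (t : Fin n → ℝ) (s : ℝ) : ℝ := ∑ j, LL (t j) s

/-- its symmetrisation -/
def sv {n : ℕ} (t : Fin n → ℝ) (s : ℝ) : ℝ := ∑ i ∈ Finset.range 4, su t (s + i * (π / 2))

/-- the product of the distances -/
def FF {n : ℕ} (t : Fin n → ℝ) (s : ℝ) : ℝ :=
  ∏ i ∈ Finset.range 4, ∏ j, ‖zeta (t j) - zeta (s + i * (π / 2))‖

variable {n : ℕ} (t : Fin n → ℝ)

lemma cont_FF : Continuous (FF t) := by
  unfold FF
  have := cont_zeta
  fun_prop

lemma su_per (s : ℝ) : su t (s + 2 * π) = su t s := by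
  unfold su
  simp only [LL_per]

lemma su_int (a b : ℝ) : IntervalIntegrable (su t) volume a b := by
  have e : su t = ∑ j, LL (t j) := by
    funext s
    simp [su]
  rw [e]
  exact IntervalIntegrable.sum _ fun j _ => LL_intervalIntegrable (t j) _ _

lemma FF_per (s : ℝ) : FF t (s + π / 2) = FF t s := by
  unfold FF
  simp only [Finset.prod_range_succ, Finset.prod_range_zero, one_mul]
  push_cast
  have e1 : s + π / 2 + 0 * (π / 2) = s + 1 * (π / 2) := by ring
  have e2 : s + π / 2 + 1 * (π / 2) = s + 2 * (π / 2) := by ring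
  have e3 : s + π / 2 + 2 * (π / 2) = s + 3 * (π / 2) := by ring
  have e4 : s + π / 2 + 3 * (π / 2) = s + 0 * (π / 2) + 2 * π := by ring
  rw [e1, e2, e3, e4, zeta_two_pi]
  ring

lemma sv_int (a b : ℝ) : IntervalIntegrable (sv t) volume a b := by
  have e : sv t = ∑ i ∈ Finset.range 4, fun s => su t (s + (i : ℝ) * (π / 2)) := by
    funext s
    simp [sv]
  rw [e]
  exact IntervalIntegrable.sum _ fun i _ => (IntervalIntegrable.comp_add_right
    (su_int t (a + (i : ℝ) * (π / 2)) (b + (i : ℝ) * (π / 2))) ((i : ℝ) * (π / 2))).mono_set (by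
      simp)

lemma ae_FF : ∀ᵐ s ∂(volume : Measure ℝ), ∀ i ∈ Finset.range 4, ∀ j,
    zeta (t j) ≠ zeta (s + (i : ℝ) * (π / 2)) := by
  have h : ∀ i : ℕ, ∀ j, ∀ᵐ s ∂(volume : Measure ℝ), zeta (t j) ≠ zeta (s + (i : ℝ) * (π / 2)) := by
    intro i j
    have h1 := ae_ne_all (Complex.I ^ (-(i : ℤ)) * zeta (t j))
    filter_upwards [h1] with s hs hcon
    apply hs
    have h2 := zeta_add_int s (i : ℤ)
    push_cast at h2
    rw [hcon, h2]
    rw [← mul_assoc, ← zpow_add₀ Complex.I_ne_zero]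
    simp
  have h2 := ae_all_iff.2 fun i => ae_all_iff.2 fun j => h i j
  filter_upwards [h2] with s hs i _ j using hs i j

lemma sv_eq {s : ℝ} (hs : ∀ i ∈ Finset.range 4, ∀ j, zeta (t j) ≠ zeta (s + (i : ℝ) * (π / 2))) :
    0 < FF t s ∧ sv t s = Real.log (FF t s) := by
  have hpos : ∀ i ∈ Finset.range 4, ∀ j, 0 < ‖zeta (t j) - zeta (s + (i : ℝ) * (π / 2))‖ :=
    fun i hi j => norm_pos_iff.2 (sub_ne_zero.2 (hs i hi j))
  refine ⟨Finset.prod_pos fun i hi => Finset.prod_pos fun j _ => hpos i hi j, ?_⟩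
  unfold FF sv su LL
  rw [Real.log_prod (fun i hi => (Finset.prod_pos fun j _ => hpos i hi j).ne')]
  refine Finset.sum_congr rfl fun i hi => ?_
  rw [Real.log_prod (fun j _ => (hpos i hi j).ne')]

/-- cut-off sign -/
def sg (k : ℕ) (x : ℝ) : ℝ := max (-1) (min 1 ((k : ℝ) * (x - 1)))

lemma abs_sg_le (k : ℕ) (x : ℝ) : |sg k x| ≤ 1 := by
  unfold sg
  rw [abs_le]
  exact ⟨le_max_left _ _, max_le (by norm_num) (min_le_left _ _)⟩

lemma cont_sg (k : ℕ) : Continuous (sg k) := by unfold sg; fun_prop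

lemma sg_tendsto {x : ℝ} (hx : 0 < x) : Tendsto (fun k : ℕ => sg k x * Real.log x) atTop
    (𝓝 |Real.log x|) := by
  rcases lt_trichotomy x 1 with h | h | h
  · have hl : Real.log x < 0 := Real.log_neg hx h
    rw [abs_of_neg hl]
    apply tendsto_const_nhds.congr'
    obtain ⟨N, hN⟩ := exists_nat_gt (1 / (1 - x))
    filter_upwards [eventually_ge_atTop N] with k hk
    have hk2 : 1 / (1 - x) < (k : ℝ) := lt_of_lt_of_le hN (by exact_mod_cast hk)
    have h1 : 0 < 1 - x := by linarith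
    rw [div_lt_iff₀ h1] at hk2
    have h2 : (k : ℝ) * (x - 1) ≤ -1 := by nlinarith
    have h3 : sg k x = -1 := by
      unfold sg
      apply max_eq_left
      exact le_trans (min_le_right _ _) h2
    rw [h3]; ring
  · rw [h]; simp
  · have hl : 0 < Real.log x := Real.log_pos h
    rw [abs_of_pos hl]
    apply tendsto_const_nhds.congr'
    obtain ⟨N, hN⟩ := exists_nat_gt (1 / (x - 1))
    filter_upwards [eventually_ge_atTop N] with k hk
    have hk2 : 1 / (x - 1) < (k : ℝ) := lt_of_lt_of_le hN (by exact_mod_cast hk)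
    have h1 : 0 < x - 1 := by linarith
    rw [div_lt_iff₀ h1] at hk2
    have h3 : sg k x = 1 := by
      unfold sg
      rw [min_eq_left (by linarith)]
      norm_num
    rw [h3]; ring

/-- the functional is insensitive to the symmetrisation -/
lemma int_sv {m : ℝ → ℝ} (hc : Continuous m) (hper : ∀ s, m (s + π / 2) = m s) :
    ∫ s in (0:ℝ)..(2 * π), m s * sv t s = 4 * ∫ s in (0:ℝ)..(2 * π), m s * su t s := by
  have hint : ∀ a b, IntervalIntegrable (fun s => m s * su t s) volume a b := fun a b =>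
    (su_int t a b).continuousOn_mul hc.continuousOn
  have hP : Function.Periodic (fun s => m s * su t s) (2 * π) := by
    intro s
    have e : s + 2 * π = s + π / 2 + π / 2 + π / 2 + π / 2 := by ring
    simp only [su_per]
    rw [e, hper, hper, hper, hper]
  have hm : ∀ (i : ℕ) (s : ℝ), m (s + (i : ℝ) * (π / 2)) = m s := by
    intro i
    induction i with
    | zero => intro s; simp
    | succ i ih =>
      intro s
      rw [show s + ((i + 1 : ℕ) : ℝ) * (π / 2) = s + (i : ℝ) * (π / 2) + π / 2 by push_cast; ring,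
        hper, ih]
  have h1 : ∀ i : ℕ, ∫ s in (0:ℝ)..(2 * π), m s * su t (s + (i : ℝ) * (π / 2))
      = ∫ s in (0:ℝ)..(2 * π), m s * su t s := by
    intro i
    have h2 := intervalIntegral.integral_comp_add_right (a := 0) (b := 2 * π)
      (fun s => m s * su t s) ((i : ℝ) * (π / 2))
    simp only [hm] at h2
    rw [h2, show 2 * π + (i : ℝ) * (π / 2) = (0 + (i : ℝ) * (π / 2)) + 2 * π by ring,
      hP.intervalIntegral_add_eq (0 + (i : ℝ) * (π / 2)) 0, zero_add]
  have h3 : ∀ i : ℕ, IntervalIntegrable (fun s => m s * su t (s + (i : ℝ) * (π / 2))) volume 0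
      (2 * π) := by
    intro i
    apply IntervalIntegrable.continuousOn_mul _ hc.continuousOn
    have := (su_int t (0 + (i : ℝ) * (π / 2)) (2 * π + (i : ℝ) * (π / 2))).comp_add_right
      ((i : ℝ) * (π / 2))
    simpa using this
  unfold sv
  simp only [Finset.mul_sum]
  rw [intervalIntegral.integral_finsetSum (fun i _ => h3 i), Finset.sum_congr rfl fun i _ => h1 i]
  simp

/-- the `L¹` bound -/
theorem L1_bound (H : PsiFacts) : ∃ C : ℝ, 0 < C ∧ ∀ (n : ℕ), 2 ≤ n → ∀ (t : Fin n → ℝ),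
    IsFekP n (fun k => zeta (t k)) → ∫ s in (0:ℝ)..(2 * π), |sv t s| ≤ C := by
  obtain ⟨C, hC, h⟩ := functional_bound H
  refine ⟨4 * C, by positivity, fun n hn t hp => ?_⟩
  have hlim : Tendsto (fun k : ℕ => ∫ s in (0:ℝ)..(2 * π), sg k (FF t s) * sv t s) atTop
      (𝓝 (∫ s in (0:ℝ)..(2 * π), |sv t s|)) := by
    apply intervalIntegral.tendsto_integral_filter_of_dominated_convergence (fun s => |sv t s|)
    · refine Filter.Eventually.of_forall fun k => ?_
      exact (((cont_sg k).comp (cont_FF t)).aestronglyMeasurable).mul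
        (sv_int t 0 (2 * π)).aestronglyMeasurable_restrict_uIoc
    · refine Filter.Eventually.of_forall fun k => Filter.Eventually.of_forall fun s _ => ?_
      rw [norm_mul, Real.norm_eq_abs, Real.norm_eq_abs]
      have h1 := abs_sg_le k (FF t s)
      nlinarith [abs_nonneg (sv t s)]
    · exact (sv_int t _ _).abs
    · filter_upwards [ae_FF t] with s hs _
      obtain ⟨h1, h2⟩ := sv_eq t hs
      rw [h2]
      exact sg_tendsto h1
  apply le_of_tendsto hlim
  refine Filter.Eventually.of_forall fun k => ?_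
  have hA : Adm (fun s => sg k (FF t s)) 1 := by
    refine ⟨(cont_sg k).comp (cont_FF t), fun s => ?_, fun s => abs_sg_le _ _⟩
    simp only [FF_per]
  rw [int_sv t hA.cont hA.per]
  have h3 := h n hn t hp _ hA
  have h4 := le_abs_self (∫ s in (0:ℝ)..(2 * π), sg k (FF t s) * su t s)
  have h5 : |∫ s in (0:ℝ)..(2 * π), sg k (FF t s) * su t s| ≤ C := h3
  linarith

end Pool.Agent.Work.MP_82f4f8_an

end
end

section

/-!
Comparison of the potential with its rotations, and the final estimate.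
-/

set_option autoImplicit false

noncomputable section

namespace Pool.Agent.Work.MP_82f4f8_an

open Real MeasureTheory Set Filter Topology

/-- potential of the tuple -/
def VV {n : ℕ} (p : Fin n → ℂ) (z : ℂ) : ℝ := ∑ j, Real.log ‖z - p j‖

lemma log_lip {δ : ℝ} (hδ : 0 < δ) {x y : ℝ} (hx : δ ≤ x) (hy : δ ≤ y) :
    |Real.log x - Real.log y| ≤ (1 / δ) * |x - y| := by
  have key : ∀ {u v : ℝ}, δ ≤ u → δ ≤ v → Real.log u - Real.log v ≤ (1 / δ) * |u - v| := by
    intro u v hu hv
    have hu0 : 0 < u := by linarith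
    have hv0 : 0 < v := by linarith
    rw [← Real.log_div hu0.ne' hv0.ne']
    have h1 := Real.log_le_sub_one_of_pos (show 0 < u / v by positivity)
    have h2 : u / v - 1 = (u - v) / v := by field_simp
    have h3 : (u - v) / v ≤ |u - v| / v := div_le_div_of_nonneg_right (le_abs_self _) hv0.le
    have h4 : |u - v| / v ≤ |u - v| / δ := div_le_div_of_nonneg_left (abs_nonneg _) hδ hv
    calc Real.log (u / v) ≤ |u - v| / δ := by linarith
      _ = (1 / δ) * |u - v| := by ring
  rw [abs_le]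
  refine ⟨?_, key hx hy⟩
  have := key hy hx
  rw [abs_sub_comm] at this
  linarith

lemma rot_zeta (z : ℂ) (s : ℝ) : ‖Complex.I * z - zeta (s + π / 2)‖ = ‖z - zeta s‖ := by
  rw [zeta_add, ← mul_sub, norm_mul, Complex.norm_I, one_mul]

/-- comparison of the potential at `z` and at `i z` -/
lemma rot_pot {n : ℕ} (hn : 0 < n) {p : Fin n → ℂ} (hp : IsFekP n p) {δ : ℝ} (hδ : 0 < δ) {z : ℂ}
    (hz : ∀ s, δ ≤ ‖z - zeta s‖) :
    |VV p (Complex.I * z) - VV p z| ≤ 2 * π * Real.sqrt 2 / δ := by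
  have hpi := pi_pos
  obtain ⟨x, hx, hxm, hsum⟩ := exists_lift hn hp hp.injective
  have h1 : VV p (Complex.I * z)
      = ∑ j ∈ Finset.range n, Real.log ‖Complex.I * z - zeta (x (j : ℤ))‖ :=
    hsum fun w => Real.log ‖Complex.I * z - w‖
  have h2 : VV p z = ∑ j ∈ Finset.range n, Real.log ‖z - zeta (x (j : ℤ))‖ :=
    hsum fun w => Real.log ‖z - w‖
  have hd : ∀ s, δ ≤ ‖Complex.I * z - zeta s‖ := by
    intro s
    have h3 := rot_zeta z (s - π / 2)
    rw [sub_add_cancel] at h3
    rw [h3]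
    exact hz _
  have hf : ∀ s t : ℝ, |Real.log ‖Complex.I * z - zeta s‖ - Real.log ‖Complex.I * z - zeta t‖|
      ≤ (Real.sqrt 2 / δ) * |s - t| := by
    intro s t
    refine le_trans (log_lip hδ (hd s) (hd t)) ?_
    have h4 : |‖Complex.I * z - zeta s‖ - ‖Complex.I * z - zeta t‖| ≤ Real.sqrt 2 * |s - t| := by
      refine le_trans (abs_norm_sub_norm_le _ _) ?_
      rw [sub_sub_sub_cancel_left]
      have := zeta_lip s t
      rw [abs_sub_comm] at this ⊢
      rwa [abs_sub_comm]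
    calc (1 / δ) * |‖Complex.I * z - zeta s‖ - ‖Complex.I * z - zeta t‖|
        ≤ (1 / δ) * (Real.sqrt 2 * |s - t|) := mul_le_mul_of_nonneg_left h4 (by positivity)
      _ = (Real.sqrt 2 / δ) * |s - t| := by ring
  have hfper : ∀ t : ℝ, Real.log ‖Complex.I * z - zeta (t + 2 * π)‖
      = Real.log ‖Complex.I * z - zeta t‖ := fun t => by rw [zeta_two_pi]
  have h5 := rot_stat (n := n) (P := 2 * π) (c := π / 2) (L := Real.sqrt 2 / δ) hn (by positivity)
    (by positivity) LL LL_symm LL_per LL_rot (fun t t' s s' a b c d => super a b c d) hx hxm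
    (f := fun t => Real.log ‖Complex.I * z - zeta t‖) hf hfper
  simp only [rot_zeta] at h5
  rw [h1, h2]
  calc _ ≤ Real.sqrt 2 / δ * (2 * π) := h5
    _ = _ := by ring

lemma I_pow_dist {δ : ℝ} {z : ℂ} (hz : ∀ s, δ ≤ ‖z - zeta s‖) (i : ℕ) (s : ℝ) :
    δ ≤ ‖Complex.I ^ i * z - zeta s‖ := by
  induction i generalizing s with
  | zero => simpa using hz s
  | succ i ih =>
    have h3 := rot_zeta (Complex.I ^ i * z) (s - π / 2)
    rw [sub_add_cancel] at h3
    rw [pow_succ', mul_assoc, h3]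
    exact ih _

lemma rot_pot_pow {n : ℕ} (hn : 0 < n) {p : Fin n → ℂ} (hp : IsFekP n p) {δ : ℝ} (hδ : 0 < δ) {z : ℂ}
    (hz : ∀ s, δ ≤ ‖z - zeta s‖) (i : ℕ) :
    |VV p (Complex.I ^ i * z) - VV p z| ≤ i * (2 * π * Real.sqrt 2 / δ) := by
  induction i with
  | zero => simp
  | succ i ih =>
    have h1 := rot_pot hn hp hδ (I_pow_dist hz i)
    rw [← mul_assoc, ← pow_succ'] at h1
    have h2 := abs_add_le (VV p (Complex.I ^ (i + 1) * z) - VV p (Complex.I ^ i * z))
      (VV p (Complex.I ^ i * z) - VV p z)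
    rw [sub_add_sub_cancel] at h2
    push_cast
    linarith

/-- representation of the symmetrised potential -/
lemma rep_sum {n : ℕ} (t : Fin n → ℝ) {z : ℂ} {c : ℝ} {ρ : ℝ → ℝ} {M : ℝ} (hm : Measurable ρ)
    (hb : ∀ s, 0 ≤ ρ s ∧ ρ s ≤ M)
    (hρ : ∀ t, ∫ s in (0:ℝ)..(2 * π), ρ s * LL t s = Real.log ‖zeta t - z‖ - c) :
    ∑ i ∈ Finset.range 4, (VV (fun k => zeta (t k)) (Complex.I ^ i * z) - n * c)
      = ∫ s in (0:ℝ)..(2 * π), ρ s * sv t s := by
  have hint : ∀ (f : ℝ → ℝ), IntervalIntegrable f volume 0 (2 * π) →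
      IntervalIntegrable (fun s => ρ s * f s) volume 0 (2 * π) := by
    intro f hf
    have hpi := pi_pos
    rw [intervalIntegrable_iff] at hf ⊢
    exact hf.bdd_mul (c := M) hm.aestronglyMeasurable (Filter.Eventually.of_forall fun s => by
      rw [Real.norm_eq_abs, abs_of_nonneg (hb s).1]; exact (hb s).2)
  have hsui : ∀ i : ℕ, IntervalIntegrable (fun s => su t (s + (i : ℝ) * (π / 2))) volume 0
      (2 * π) := by
    intro i
    have := (su_int t (0 + (i : ℝ) * (π / 2)) (2 * π + (i : ℝ) * (π / 2))).comp_add_right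
      ((i : ℝ) * (π / 2))
    simpa using this
  have hLrot : ∀ (i : ℕ) (a b : ℝ), LL (a - i * (π / 2)) b = LL a (b + i * (π / 2)) := by
    intro i
    induction i with
    | zero => intro a b; simp
    | succ i ih =>
      intro a b
      have h1 := LL_rot (a - ((i + 1 : ℕ) : ℝ) * (π / 2)) b
      rw [← h1]
      have e1 : a - ((i + 1 : ℕ) : ℝ) * (π / 2) + π / 2 = a - (i : ℝ) * (π / 2) := by
        push_cast; ring
      rw [e1, ih]
      congr 1
      push_cast; ring
  have hVi : ∀ (i : ℕ), VV (fun k => zeta (t k)) (Complex.I ^ i * z) - n * c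
      = ∫ s in (0:ℝ)..(2 * π), ρ s * su t (s + (i : ℝ) * (π / 2)) := by
    intro i
    have hj : ∀ j, Real.log ‖Complex.I ^ i * z - zeta (t j)‖ - c
        = ∫ s in (0:ℝ)..(2 * π), ρ s * LL (t j) (s + (i : ℝ) * (π / 2)) := by
      intro j
      have h1 := hρ (t j - (i : ℝ) * (π / 2))
      simp only [hLrot] at h1
      rw [h1]
      congr 2
      have h2 := zeta_add_int (t j - (i : ℝ) * (π / 2)) (i : ℤ)
      push_cast at h2
      rw [sub_add_cancel, zpow_natCast] at h2
      rw [h2, ← mul_sub, norm_mul, norm_pow, Complex.norm_I, one_pow, one_mul, norm_sub_rev]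
    have hLi : ∀ j, IntervalIntegrable (fun s => LL (t j) (s + (i : ℝ) * (π / 2))) volume 0
        (2 * π) := by
      intro j
      have := (LL_intervalIntegrable (t j) (0 + (i : ℝ) * (π / 2))
        (2 * π + (i : ℝ) * (π / 2))).comp_add_right ((i : ℝ) * (π / 2))
      simpa using this
    unfold VV su
    simp only [Finset.mul_sum]
    rw [intervalIntegral.integral_finsetSum (fun j _ => hint _ (hLi j)),
      ← Finset.sum_congr rfl fun j _ => hj j, Finset.sum_sub_distrib, Finset.sum_const,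
      Finset.card_univ, Fintype.card_fin, nsmul_eq_mul]
  rw [Finset.sum_congr rfl fun i _ => hVi i, ← intervalIntegral.integral_finsetSum
    (fun i _ => hint _ (hsui i))]
  unfold sv
  simp only [Finset.mul_sum]

/-- the estimate from a representation -/
lemma rep_bound {n : ℕ} (hn : 0 < n) (t : Fin n → ℝ) (hp : IsFekP n (fun k => zeta (t k)))
    {C : ℝ} (hC : ∫ s in (0:ℝ)..(2 * π), |sv t s| ≤ C)
    {z : ℂ} {c : ℝ} {ρ : ℝ → ℝ} {M : ℝ} (hm : Measurable ρ) (hb : ∀ s, 0 ≤ ρ s ∧ ρ s ≤ M)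
    (hρ : ∀ t, ∫ s in (0:ℝ)..(2 * π), ρ s * LL t s = Real.log ‖zeta t - z‖ - c)
    {δ : ℝ} (hδ : 0 < δ) (hz : ∀ s, δ ≤ ‖z - zeta s‖) :
    |VV (fun k => zeta (t k)) z - n * c| ≤ M * C + 2 * (2 * π * Real.sqrt 2 / δ) := by
  have hpi := pi_pos
  set D := 2 * π * Real.sqrt 2 / δ with hD
  have h1 := rep_sum t hm hb hρ
  have hM : 0 ≤ M := le_trans (hb 0).1 (hb 0).2
  have h2 : |∫ s in (0:ℝ)..(2 * π), ρ s * sv t s| ≤ M * C := by
    have h3 : ‖∫ s in (0:ℝ)..(2 * π), ρ s * sv t s‖ ≤ ∫ s in (0:ℝ)..(2 * π), M * |sv t s| := by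
      apply intervalIntegral.norm_integral_le_of_norm_le (by positivity)
      · refine Filter.Eventually.of_forall fun s _ => ?_
        rw [norm_mul, Real.norm_eq_abs, Real.norm_eq_abs, abs_of_nonneg (hb s).1]
        exact mul_le_mul_of_nonneg_right (hb s).2 (abs_nonneg _)
      · exact (sv_int t _ _).abs.const_mul _
    rw [Real.norm_eq_abs, intervalIntegral.integral_const_mul] at h3
    exact le_trans h3 (mul_le_mul_of_nonneg_left hC hM)
  rw [← h1] at h2
  have hr : ∀ i : ℕ, |VV (fun k => zeta (t k)) (Complex.I ^ i * z) - VV (fun k => zeta (t k)) z|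
      ≤ i * D := fun i => rot_pot_pow hn hp hδ hz i
  have r1 := abs_le.1 (hr 1)
  have r2 := abs_le.1 (hr 2)
  have r3 := abs_le.1 (hr 3)
  simp only [Finset.sum_range_succ, Finset.sum_range_zero, zero_add, pow_zero, one_mul] at h2
  push_cast at r1 r2 r3
  rw [abs_le] at h2 ⊢
  have hMC : 0 ≤ M * C := by
    have : 0 ≤ C := le_trans (intervalIntegral.integral_nonneg (by positivity)
      fun s _ => abs_nonneg _) hC
    positivity
  constructor
  · linarith [h2.1, r1.2, r2.2, r3.2]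
  · linarith [h2.2, r1.1, r2.1, r3.1]

/-- lower bound of `‖w₀‖ - 1` by the distance of `psi w₀` to the square -/
lemma w_lower (H : PsiFacts) {w : ℂ} (hw : 1 < ‖w‖) {δ : ℝ} (hz : ∀ s, δ ≤ ‖psi w - zeta s‖) :
    δ / 2 ≤ ‖w‖ - 1 := by
  have hw0 : w ≠ 0 := by
    intro h
    rw [h, norm_zero] at hw
    linarith
  have hn0 : (0:ℝ) < ‖w‖ := by linarith
  have hpol : (‖w‖ : ℂ) * Complex.exp (Complex.arg w * Complex.I) = w :=
    Complex.norm_mul_exp_arg_mul_I w
  set e := Complex.exp (Complex.arg w * Complex.I) with he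
  have hen : ‖e‖ = 1 := Complex.norm_exp_ofReal_mul_I _
  have h1 := H.rfac w e hw.le hen.ge
  rw [he, H.bdry, ← he] at h1
  have h2 := hz (Complex.arg w)
  rw [h1, norm_mul] at h2
  have h3 : ‖w - e‖ = ‖w‖ - 1 := by
    have e1 : w - e = ((‖w‖ - 1 : ℝ) : ℂ) * e := by
      push_cast
      rw [sub_mul, hpol, one_mul]
    rw [e1, norm_mul, hen, mul_one, Complex.norm_real, Real.norm_eq_abs, abs_of_pos (by linarith)]
  have h4 : ‖Rf w⁻¹ e⁻¹‖ ≤ 2 := by
    have hx : ‖w⁻¹‖ ≤ 1 := by rw [norm_inv]; exact inv_le_one_of_one_le₀ hw.le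
    have hy : ‖e⁻¹‖ ≤ 1 := by rw [norm_inv, hen, inv_one]
    have h5 := H.rbound w⁻¹ e⁻¹ hx hy
    have h6 : ‖w⁻¹‖ * ‖e⁻¹‖ ≤ 1 := mul_le_one₀ hx (norm_nonneg _) hy
    have h7 : ‖Rf w⁻¹ e⁻¹‖ ≤ ‖Rf w⁻¹ e⁻¹ - 1‖ + ‖(1 : ℂ)‖ := by
      have := norm_add_le (Rf w⁻¹ e⁻¹ - 1) 1
      rwa [sub_add_cancel] at this
    rw [norm_one] at h7
    linarith
  rw [h3] at h2
  nlinarith

end Pool.Agent.Work.MP_82f4f8_an

end
end
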